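import Pool.Agent.H72.AD.MaiAd
import Pool.Agent.H33.PT.Cnv
import Pool.Agent.H11.TS.Rtt

/-!
# POINTS THEOREM, chapter G: the theorem over `ℚ(μ_∞)` in all dimensions

PROOF (model: `Pool/Agent/H33/PT/Fin.lean`; imports may be sorried). Strong induction on `n`: `points_abP` for all `j < n` gives `hlow` of `pu_ab`, `cnv` (`Pool/Agent/H33/PT/Cnv.lean`, `K := ℚ`, `L := Ab Ω`, `Λ := ⊥`) gives the bound with `1 / n + δ`, and `root_trick` gives `PtB .. n (1 + ε) c`; its hypothesis `h1` is the case `n = 1` of the bound (`pu_ab 1`: `hlow` is empty; `cnv` with `δ = 1`: exponent `2`).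
`ab_eq`: `Ab Ω = N₀ ℚ ⊥ ∅`: both are generated by the roots of unity: `x ∈ SRad ⊥ ∅`: `N = 1` (no prime divides `N`), `x t = 1` with a root of unity `t`.
-/

set_option autoImplicit false
set_option linter.unusedSectionVars false

open NumberField

namespace Pool.Agent.H72.AD

open Pool.Agent.H11.TH Pool.Agent.H11.TS Pool.Agent.H33.PT

variable {Ω : Type} [Field Ω] [CharZero Ω] [IsAlgClosed Ω] [IsGalois ℚ Ω]

private theorem step_ab (n : ℕ) (hn : 1 ≤ n)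
    (hlow : ∀ j : ℕ, 1 ≤ j → j < n → ∀ ε : ℝ, 0 < ε →
      ∃ c : ℝ, 0 < c ∧ PtB (Ab Ω) (⊥ : Subgroup Ωˣ) j (1 + ε) c)
    (δ : ℝ) (hδ : 0 < δ) :
    ∃ c : ℝ, 0 < c ∧ ∀ γ : Fin n → Ωˣ, IndM (⊥ : Subgroup Ωˣ) γ → ∀ h : ℝ,
      (∀ i, absLogHeight₁ (γ i : Ω) ≤ h) →
      c ≤ (degP (Ab Ω) γ : ℝ) ^ (1 / (n : ℝ) + δ) * h :=
  cnv n hn (Ab Ω) (⊥ : Subgroup Ωˣ) (pu_ab n hn hlow) δ hδ

theorem points_abP (n : ℕ) (hn : 1 ≤ n) (ε : ℝ) (hε : 0 < ε) :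
    ∃ c : ℝ, 0 < c ∧ PtB (Ab Ω) (⊥ : Subgroup Ωˣ) n (1 + ε) c := by
  induction n using Nat.strong_induction_on generalizing ε with
  | _ n ih =>
    refine root_trick (Ab Ω) (⊥ : Subgroup Ωˣ) n hn ?_ ?_ ε hε
    · obtain ⟨c, hc, hc'⟩ := step_ab (Ω := Ω) 1 le_rfl (fun j hj hj' => by omega) 1 one_pos
      refine ⟨c, hc, fun γ hγ => ?_⟩
      have h1 := hc' γ hγ (absLogHeight₁ (γ 0 : Ω)) (fun i => by rw [Subsingleton.elim i 0])
      have e : (1 / ((1 : ℕ) : ℝ) + 1) = 2 := by norm_num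
      rwa [e] at h1
    · exact fun δ hδ => step_ab n hn (fun j hj hjn ε hε => ih j hjn hj ε hε) δ hδ

theorem points_ab (n : ℕ) (hn : 1 ≤ n) (δ : ℝ) (hδ : 0 < δ) :
    ∃ c : ℝ, 0 < c ∧ ∀ γ : Fin n → Ωˣ, IndM (⊥ : Subgroup Ωˣ) γ → ∀ h : ℝ,
      (∀ i, absLogHeight₁ (γ i : Ω) ≤ h) →
      c ≤ (degP (Ab Ω) γ : ℝ) ^ (1 / (n : ℝ) + δ) * h :=
  step_ab n hn (fun j hj _ ε hε => points_abP j hj ε hε) δ hδ

theorem ab_eq : Ab Ω = Pool.Agent.H11.TH.N₀ ℚ (⊥ : Subgroup Ωˣ) ∅ := by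
  unfold Ab N₀ fld
  congr 1
  ext z
  constructor
  · rintro ⟨N, hN, hz⟩
    have hz0 : z ≠ 0 := by
      rintro rfl
      rw [zero_pow (by omega)] at hz
      exact zero_ne_one hz
    refine ⟨Units.mk0 z hz0, ⟨1, le_rfl, ?_, (Units.mk0 z hz0)⁻¹, ⟨N, hN, ?_⟩, ?_⟩, rfl⟩
    · intro q hq h1
      exact absurd (Nat.dvd_one.mp h1) hq.one_lt.ne'
    · rw [inv_pow, inv_eq_one]
      ext
      simpa using hz
    · simp
  · rintro ⟨x, ⟨N, hN, hq, t, ⟨k, hk, htk⟩, hx⟩, rfl⟩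
    have hN1 : N = 1 := by
      by_contra h
      obtain ⟨q, hqp, hqN⟩ := Nat.exists_prime_and_dvd h
      exact absurd (hq q hqp hqN) (by simp)
    subst hN1
    rw [pow_one, Subgroup.mem_bot] at hx
    refine ⟨k, hk, ?_⟩
    have h1 : x = t⁻¹ := eq_inv_of_mul_eq_one_left hx
    have h2 : x ^ k = 1 := by rw [h1, inv_pow, htk, inv_one]
    have h3 := congrArg (fun u : Ωˣ => (u : Ω)) h2
    simpa using h3

end Pool.Agent.H72.AD
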