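import Pool.Agent.H72.AD.KuA

/-!
# POINTS THEOREM, chapter G: Kummer theory, `l` divides `N` exactly once

`ku_ex` (imports may be sorried). PROOF. `ω` a primitive `l`-th root of unity in `Ω`; `S := {s ∈ HN (N/l) | mv s (x^l) = x^l}`. If every `s ∈ S` fixes `ω` then it fixes all `l`-th roots of unity, so `S ≤ HN N` (`HN_split`) and `z := 1` works (`ku_fix`). Otherwise choose `s₀ ∈ S` with `s₀ ω = ω^u ≠ ω`, `u ≢ 1` modulo `l`.
`s₀ x_i = ω^(a_i) x_i` (as `(s₀ x_i / x_i)^l = 1`). Choose `c_i` with `(u - 1) c_i + a_i ≡ 0` modulo `l` (`u - 1` is invertible in `ZMod l`), `z_i := ω^(c_i)` (exponents as natural numbers or integers; `z^l = 1`): `s₀ (z_i x_i) = ω^(u c_i + a_i) x_i = z_i x_i`. Let `y := z x`, `s ∈ S`: `s (y_i) = ω^(b_i) y_i` (`(s y_i)^l = s (x_i^l) = x_i^l = y_i^l`).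
The commutator `t := s⁻¹ s₀⁻¹ s s₀` is in `HN N` (`HN_comm`, applied to inverses) and in `S` (a group), so fixes `x` (`ku_fix`) and `z` (`tors_fix` with `z^N = 1`, since `l ∣ N`), so `y`. Therefore `s s₀ y = s₀ s y`: `s s₀ y_i = s y_i = ω^(b_i) y_i`, `s₀ s y_i = s₀ (ω^(b_i) y_i) = ω^(u b_i) y_i`. So `ω^(b_i (u - 1)) = 1`, `l ∣ b_i`, `s y_i = y_i`.
-/

set_option autoImplicit false
set_option linter.unusedSectionVars false

namespace Pool.Agent.H72.AD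

open Pool.Agent.H11.TH Pool.Agent.H11.TS

variable {Ω : Type} [Field Ω] [CharZero Ω] [IsAlgClosed Ω] [IsGalois ℚ Ω] {n : ℕ}

private theorem kb_root {l : ℕ} (hl : l.Prime) :
    ∃ w : Ωˣ, IsPrimitiveRoot w l := by
  have : NeZero l := ⟨hl.ne_zero⟩
  have : NeZero (l : Ω) := ⟨Nat.cast_ne_zero.mpr hl.ne_zero⟩
  obtain ⟨ζ, hζ⟩ := HasEnoughRootsOfUnity.exists_primitiveRoot Ω l
  have hu : IsUnit ζ := hζ.isUnit hl.ne_zero
  refine ⟨hu.unit, ?_⟩
  have : ((hu.unit : Ωˣ) : Ω) = ζ := rfl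
  exact IsPrimitiveRoot.coe_units_iff.mp (by rw [this]; exact hζ)

private theorem kb_pow {l : ℕ} (hl : l.Prime) {w : Ωˣ} (hw : IsPrimitiveRoot w l) {a : Ωˣ}
    (ha : a ^ l = 1) : ∃ k : ℤ, a = w ^ k := by
  have : NeZero l := ⟨hl.ne_zero⟩
  have hw' : IsPrimitiveRoot (w : Ω) l := IsPrimitiveRoot.coe_units_iff.mpr hw
  have ha' : (a : Ω) ^ l = 1 := by
    rw [← Units.val_pow_eq_pow_val, ha, Units.val_one]
  obtain ⟨i, _, hi⟩ := hw'.eq_pow_of_pow_eq_one ha'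
  refine ⟨(i : ℤ), ?_⟩
  apply Units.ext
  rw [zpow_natCast, Units.val_pow_eq_pow_val, hi]

private theorem kb_rel {l : ℕ} (hl : l.Prime) {w : Ωˣ} (hw : IsPrimitiveRoot w l) {a b : Ωˣ}
    (h : a ^ l = b ^ l) : ∃ k : ℤ, a = w ^ k * b := by
  obtain ⟨k, hk⟩ := kb_pow hl hw (a := a * b⁻¹) (by rw [mul_pow, inv_pow, h, mul_inv_cancel])
  exact ⟨k, by rw [← hk, inv_mul_cancel_right]⟩

theorem ku_ex {N l : ℕ} (hN : 1 ≤ N) (hl : l.Prime) (hlN : l ∣ N) (hl2 : ¬ l ^ 2 ∣ N) (x : Tor Ω n)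
    (hx : dgT (HN Ω N) (x ^ l) = dgT (HN Ω N) x) :
    ∃ z : Tor Ω n, z ^ l = 1 ∧ ∀ s ∈ HN Ω (N / l), mv s (x ^ l) = x ^ l → mv s (z * x) = z * x := by
  obtain ⟨w, hw⟩ := kb_root (Ω := Ω) hl
  have hwl : w ^ l = 1 := hw.pow_eq_one
  by_cases hall : ∀ s ∈ HN Ω (N / l), mv s (x ^ l) = x ^ l → sgm s w = w
  · refine ⟨1, one_pow _, fun s hs h => ?_⟩
    rw [one_mul]
    refine ku_fix x hx s (HN_split hN hl hlN hl2 s hs fun z hz => ?_) h
    have hz0 : z ≠ 0 := by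
      rintro rfl
      rw [zero_pow hl.ne_zero] at hz
      exact zero_ne_one hz
    obtain ⟨k, hk⟩ := kb_pow hl hw (a := Units.mk0 z hz0) (by
      apply Units.ext
      rw [Units.val_pow_eq_pow_val, Units.val_mk0, hz, Units.val_one])
    have h1 : sgm s (Units.mk0 z hz0) = Units.mk0 z hz0 := by
      rw [hk, map_zpow, hall s hs h]
    have h2 := congrArg (fun u : Ωˣ => (u : Ω)) h1
    simpa [sgm] using h2
  push Not at hall
  obtain ⟨s₀, hs₀, hx₀, hne⟩ := hall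
  obtain ⟨u, hu⟩ := kb_pow hl hw (a := sgm s₀ w) (by rw [← map_pow, hwl, map_one])
  have hpi : Prime (l : ℤ) := Nat.prime_iff_prime_int.mp hl
  have hu1 : ¬ ((l : ℤ) ∣ u - 1) := by
    intro hd
    apply hne
    have h := (hw.zpow_eq_one_iff_dvd (u - 1)).mpr hd
    rw [zpow_sub_one, mul_inv_eq_one] at h
    rw [hu, h]
  have hcop : IsCoprime (u - 1) (l : ℤ) := ((Prime.coprime_iff_not_dvd hpi).mpr hu1).symm
  obtain ⟨v, r, hvr⟩ := hcop
  have ha : ∀ i, ∃ k : ℤ, sgm s₀ (x i) = w ^ k * x i := by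
    intro i
    refine kb_rel hl hw ?_
    have h := congrFun hx₀ i
    have h' : sgm s₀ (x i ^ l) = x i ^ l := h
    rw [← map_pow, h']
  choose a ha using ha
  refine ⟨fun i => w ^ (-(v * a i)), ?_, ?_⟩
  · funext i
    change (w ^ (-(v * a i))) ^ l = 1
    rw [← zpow_natCast, ← zpow_mul, mul_comm, zpow_mul, zpow_natCast, hwl, one_zpow]
  · intro s hs hsx
    set z : Tor Ω n := fun i => w ^ (-(v * a i)) with hzdef
    have hzl : z ^ l = 1 := by
      funext i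
      change (w ^ (-(v * a i))) ^ l = 1
      rw [← zpow_natCast, ← zpow_mul, mul_comm, zpow_mul, zpow_natCast, hwl, one_zpow]
    have hzN : z ^ N = 1 := by
      obtain ⟨m, hm⟩ := hlN
      rw [hm, pow_mul, hzl, one_pow]
    -- `s₀` fixes `z x`
    have h0 : ∀ i, sgm s₀ (z i * x i) = z i * x i := by
      intro i
      rw [map_mul, ha i]
      change sgm s₀ (w ^ (-(v * a i))) * (w ^ a i * x i) = w ^ (-(v * a i)) * x i
      rw [map_zpow, hu, ← mul_assoc, ← zpow_mul, ← zpow_add]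
      congr 1
      have hd : (l : ℤ) ∣ (u * -(v * a i) + a i) - -(v * a i) :=
        ⟨r * a i, by linear_combination (-(a i)) * hvr⟩
      have h := (hw.zpow_eq_one_iff_dvd _).mpr hd
      rw [zpow_sub, mul_inv_eq_one] at h
      exact h
    -- the commutator
    have hmem : s⁻¹ * s₀⁻¹ * s * s₀ ∈ HN Ω N := by
      have h := HN_comm (Ω := Ω) hN s⁻¹ s₀⁻¹
      rwa [inv_inv, inv_inv] at h
    have hS : s⁻¹ * s₀⁻¹ * s * s₀ ∈ Stb (HN Ω (N / l)) (x ^ l) := by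
      have h1 : s ∈ Stb (HN Ω (N / l)) (x ^ l) := ⟨hs, hsx⟩
      have h2 : s₀ ∈ Stb (HN Ω (N / l)) (x ^ l) := ⟨hs₀, hx₀⟩
      exact mul_mem (mul_mem (mul_mem (inv_mem h1) (inv_mem h2)) h1) h2
    have hfx : mv (s⁻¹ * s₀⁻¹ * s * s₀) x = x := ku_fix x hx _ hmem hS.2
    have hfz : mv (s⁻¹ * s₀⁻¹ * s * s₀) z = z := tors_fix z hzN _ hmem
    have hfy : mv (s⁻¹ * s₀⁻¹ * s * s₀) (z * x) = z * x := by rw [mv_mul, hfx, hfz]
    have hy0 : mv s₀ (z * x) = z * x := by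
      funext i
      exact h0 i
    have hcomm : mv s₀ (mv s (z * x)) = mv s (z * x) := by
      have h1 : s₀ * s * (s⁻¹ * s₀⁻¹ * s * s₀) = s * s₀ := by group
      calc mv s₀ (mv s (z * x)) = mv (s₀ * s) (z * x) := (mv_comp _ _ _).symm
        _ = mv (s₀ * s) (mv (s⁻¹ * s₀⁻¹ * s * s₀) (z * x)) := by rw [hfy]
        _ = mv (s₀ * s * (s⁻¹ * s₀⁻¹ * s * s₀)) (z * x) := (mv_comp _ _ _).symm
        _ = mv (s * s₀) (z * x) := by rw [h1]
        _ = mv s (mv s₀ (z * x)) := mv_comp _ _ _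
        _ = mv s (z * x) := by rw [hy0]
    funext i
    obtain ⟨b, hb⟩ : ∃ k : ℤ, sgm s (z i * x i) = w ^ k * (z i * x i) := by
      refine kb_rel hl hw ?_
      have h := congrFun hsx i
      have h' : sgm s (x i ^ l) = x i ^ l := h
      have hzi : z i ^ l = 1 := congrFun hzl i
      rw [← map_pow, mul_pow, hzi, one_mul, h']
    have hci : sgm s₀ (sgm s (z i * x i)) = sgm s (z i * x i) := congrFun hcomm i
    rw [hb, map_mul, h0 i, map_zpow, hu, mul_left_inj, ← zpow_mul] at hci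
    have hd : (l : ℤ) ∣ (u - 1) * b := by
      apply (hw.zpow_eq_one_iff_dvd _).mp
      rw [sub_mul, one_mul, zpow_sub, hci, mul_inv_cancel]
    have hdb : (l : ℤ) ∣ b := (hpi.dvd_or_dvd hd).resolve_left hu1
    have hb1 : w ^ b = 1 := (hw.zpow_eq_one_iff_dvd _).mpr hdb
    change sgm s (z i * x i) = z i * x i
    rw [hb, hb1, one_mul]

end Pool.Agent.H72.AD
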