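import Pool.Agent.H72.AD.DfG

/-!
# POINTS THEOREM, chapter G: orbits of points

All elementary. `orb_fin`: the coordinates are algebraic over `ℚ` (`Ω / ℚ` Galois), the coordinates of `mv σ x` are roots of their minimal polynomials over `ℚ` (finitely many). `orb_mul`: `mv σ (z x) = z mv σ x`. `orb_pow`: `mv_pow`. `dg_mul`: multiplication by `z` is injective.
`dg_stb`: the map `σ ↦ mv σ y` induces a bijection of the left cosets of `Stb V y` in `V` with `orb V y`: `(Stb V y).relIndex V = dgT V y` (`Subgroup.relIndex = index of subgroupOf`, `Nat.card` of the quotient).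
`orb_index`: with `k = V.relIndex V'` representatives of the right cosets... : `V' = ⋃ V g_i`? Use left cosets `V' = ⋃ g_i V`: `orb V' x = ⋃ mv g_i (orb V x)`, each of these sets has `dgT V x` elements; their number is `V.relIndex V'` (finite, `≠ 0`).
-/

set_option autoImplicit false
set_option linter.unusedSectionVars false

namespace Pool.Agent.H72.AD

open Pool.Agent.H11.TH Pool.Agent.H11.TS

variable {Ω : Type} [Field Ω] [CharZero Ω] [IsAlgClosed Ω] [IsGalois ℚ Ω] {n : ℕ}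

theorem orb_fin (V : Subgroup (Ω ≃ₐ[ℚ] Ω)) (x : Tor Ω n) : (orb V x).Finite := by
  have hfin : ∀ i : Fin n, {u : Ωˣ | (u : Ω) ∈ (minpoly ℚ (x i : Ω)).rootSet Ω}.Finite := fun i =>
    Set.Finite.preimage (Units.val_injective.injOn) (Polynomial.rootSet_finite _ _)
  refine (Set.Finite.pi' hfin).subset ?_
  rintro y ⟨σ, _, rfl⟩ i
  have hval : ((mv σ x i : Ωˣ) : Ω) = σ (x i : Ω) := rfl
  have hint : IsIntegral ℚ (x i : Ω) := Algebra.IsIntegral.isIntegral _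
  show ((mv σ x i : Ωˣ) : Ω) ∈ (minpoly ℚ (x i : Ω)).rootSet Ω
  rw [Polynomial.mem_rootSet, hval]
  refine ⟨minpoly.ne_zero hint, ?_⟩
  rw [Polynomial.aeval_algHom_apply, minpoly.aeval, map_zero]

theorem mem_orb_self (V : Subgroup (Ω ≃ₐ[ℚ] Ω)) (x : Tor Ω n) : x ∈ orb V x := by
  exact ⟨1, one_mem _, (mv_one x).symm⟩

theorem dg_pos (V : Subgroup (Ω ≃ₐ[ℚ] Ω)) (x : Tor Ω n) : 1 ≤ dgT V x := by
  have h : (orb V x).Nonempty := ⟨x, mem_orb_self V x⟩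
  exact (Set.ncard_pos (orb_fin V x)).2 h

theorem orb_mono {V V' : Subgroup (Ω ≃ₐ[ℚ] Ω)} (h : V ≤ V') (x : Tor Ω n) : orb V x ⊆ orb V' x := by
  rintro y ⟨σ, hσ, rfl⟩
  exact ⟨σ, h hσ, rfl⟩

theorem dg_mono {V V' : Subgroup (Ω ≃ₐ[ℚ] Ω)} (h : V ≤ V') (x : Tor Ω n) : dgT V x ≤ dgT V' x := by
  exact Set.ncard_le_ncard (orb_mono h x) (orb_fin V' x)

theorem orb_eq_of_le {V V' : Subgroup (Ω ≃ₐ[ℚ] Ω)} (h : V ≤ V') (x : Tor Ω n)
    (hc : dgT V' x ≤ dgT V x) : orb V x = orb V' x := by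
  exact Set.eq_of_subset_of_ncard_le (orb_mono h x) hc (orb_fin V' x)

theorem orb_mul (V : Subgroup (Ω ≃ₐ[ℚ] Ω)) (z x : Tor Ω n) (hz : ∀ σ ∈ V, mv σ z = z) :
    orb V (z * x) = (fun y => z * y) '' orb V x := by
  ext y
  constructor
  · rintro ⟨σ, hσ, rfl⟩
    exact ⟨mv σ x, ⟨σ, hσ, rfl⟩, by rw [mv_mul, hz σ hσ]⟩
  · rintro ⟨_, ⟨σ, hσ, rfl⟩, rfl⟩
    exact ⟨σ, hσ, by rw [mv_mul, hz σ hσ]⟩

theorem dg_mul (V : Subgroup (Ω ≃ₐ[ℚ] Ω)) (z x : Tor Ω n) (hz : ∀ σ ∈ V, mv σ z = z) :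
    dgT V (z * x) = dgT V x := by
  rw [dgT, orb_mul V z x hz]
  exact Set.ncard_image_of_injective _ (mul_right_injective z)

theorem orb_pow (V : Subgroup (Ω ≃ₐ[ℚ] Ω)) (x : Tor Ω n) (l : ℕ) :
    orb V (x ^ l) = (fun y => y ^ l) '' orb V x := by
  ext y
  constructor
  · rintro ⟨σ, hσ, rfl⟩
    exact ⟨mv σ x, ⟨σ, hσ, rfl⟩, (mv_pow σ x l).symm⟩
  · rintro ⟨_, ⟨σ, hσ, rfl⟩, rfl⟩
    exact ⟨σ, hσ, (mv_pow σ x l).symm⟩

theorem dg_pow_le (V : Subgroup (Ω ≃ₐ[ℚ] Ω)) (x : Tor Ω n) (l : ℕ) : dgT V (x ^ l) ≤ dgT V x := by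
  rw [dgT, orb_pow V x l]
  exact Set.ncard_image_le (orb_fin V x)

theorem dg_stb (V : Subgroup (Ω ≃ₐ[ℚ] Ω)) (y : Tor Ω n) : (Stb V y).relIndex V = dgT V y := by
  let _ : MulAction V (Tor Ω n) :=
    { smul := fun σ z => mv (σ : Ω ≃ₐ[ℚ] Ω) z
      one_smul := fun z => mv_one z
      mul_smul := fun σ τ z => mv_comp (σ : Ω ≃ₐ[ℚ] Ω) τ z }
  have h1 : (Stb V y).subgroupOf V = MulAction.stabilizer V y := by
    ext σ
    rw [Subgroup.mem_subgroupOf, MulAction.mem_stabilizer_iff]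
    exact ⟨fun h => h.2, fun h => ⟨σ.2, h⟩⟩
  have h2 : orb V y = MulAction.orbit V y := by
    ext w
    constructor
    · rintro ⟨σ, hσ, rfl⟩
      exact ⟨⟨σ, hσ⟩, rfl⟩
    · rintro ⟨σ, rfl⟩
      exact ⟨σ, σ.2, rfl⟩
  rw [Subgroup.relIndex, h1, dgT, h2]
  exact MulAction.index_stabilizer V y

theorem orb_index {V V' : Subgroup (Ω ≃ₐ[ℚ] Ω)} (hle : V ≤ V') (h0 : V.relIndex V' ≠ 0)
    (x : Tor Ω n) : dgT V' x ≤ V.relIndex V' * dgT V x := by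
  have hS : Stb V x ≤ Stb V' x := fun σ hσ => ⟨hle hσ.1, hσ.2⟩
  have hSV : Stb V x ≤ V := fun σ hσ => hσ.1
  have h1 : (Stb V x).relIndex V * V.relIndex V' = (Stb V x).relIndex V' :=
    Subgroup.relIndex_mul_relIndex _ _ _ hSV hle
  have h2 : (Stb V' x).relIndex V' ∣ (Stb V x).relIndex V' :=
    Subgroup.relIndex_dvd_of_le_left V' hS
  rw [← h1, dg_stb, dg_stb] at h2
  rw [mul_comm (V.relIndex V')]
  exact Nat.le_of_dvd (Nat.mul_pos (dg_pos V x) (Nat.pos_of_ne_zero h0)) h2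

end Pool.Agent.H72.AD
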