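import Pool.Agent.H72.AD.CycF
import Pool.Agent.H72.AD.OrbA

/-!
# POINTS THEOREM, chapter G: the degree over `ℚ(μ_∞)` is the degree over some `ℚ(μ_N)`

`ex_lvl`. PROOF (compactness; imports may be sorried): the set of the `σ` in `Gal(Ω/ℚ)` with `mv σ x = y` is closed for the Krull
topology, the groups `HN Ω N`, `N ≥ 1`, are closed, directed, with intersection `HA Ω`, and `Gal(Ω/ℚ)` is compact. So for every `y` in
the finite set `orb ⊤ x \ orb (HA Ω) x` there is `N_y ≥ 1` such that no element of `HN Ω N_y` moves `x` to `y`. With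
`N := ∏ N_y`: `orb (HN Ω N) x ⊆ orb (HA Ω) x`.
-/

set_option autoImplicit false
set_option linter.unusedSectionVars false

namespace Pool.Agent.H72.AD

open Pool.Agent.H11.TH Pool.Agent.H11.TS

variable {Ω : Type} [Field Ω] [CharZero Ω] [IsAlgClosed Ω] [IsGalois ℚ Ω] {n : ℕ}

private theorem lvl_isOpen_eq (a : Ω) (σ : Ω ≃ₐ[ℚ] Ω) :
    IsOpen {τ : Ω ≃ₐ[ℚ] Ω | τ a = σ a} := by
  have h1 : IsOpen (MulAction.stabilizer (Ω ≃ₐ[ℚ] Ω) a : Set (Ω ≃ₐ[ℚ] Ω)) :=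
    stabilizer_isOpen_of_isIntegral a
  have h2 := h1.preimage (continuous_const_mul (σ⁻¹ : Ω ≃ₐ[ℚ] Ω))
  convert h2 using 1
  ext τ
  simp only [Set.mem_ofPred_eq, Set.mem_preimage, SetLike.mem_coe, MulAction.mem_stabilizer_iff]
  constructor
  · intro h
    change σ⁻¹ (τ a) = a
    rw [h]
    change (σ⁻¹ * σ) a = a
    rw [inv_mul_cancel]
    rfl
  · intro h
    have h3 : σ⁻¹ (τ a) = a := h
    have h4 : σ (σ⁻¹ (τ a)) = σ a := by rw [h3]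
    have h5 : (σ * σ⁻¹) (τ a) = σ a := h4
    rwa [mul_inv_cancel] at h5

private theorem lvl_isClosed_eq (a b : Ω) : IsClosed {τ : Ω ≃ₐ[ℚ] Ω | τ a = b} := by
  rw [← isOpen_compl_iff]
  have h : {τ : Ω ≃ₐ[ℚ] Ω | τ a = b}ᶜ =
      ⋃ σ ∈ {σ : Ω ≃ₐ[ℚ] Ω | σ a ≠ b}, {τ : Ω ≃ₐ[ℚ] Ω | τ a = σ a} := by
    ext τ
    simp only [Set.mem_compl_iff, Set.mem_ofPred_eq, Set.mem_iUnion, exists_prop]
    constructor
    · intro h
      exact ⟨τ, h, rfl⟩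
    · rintro ⟨σ, h1, h2⟩ h3
      exact h1 (h2.symm.trans h3)
  rw [h]
  exact isOpen_biUnion fun σ _ => lvl_isOpen_eq a σ

private theorem lvl_isClosed_mv (x y : Tor Ω n) : IsClosed {τ : Ω ≃ₐ[ℚ] Ω | mv τ x = y} := by
  have h : {τ : Ω ≃ₐ[ℚ] Ω | mv τ x = y} = ⋂ i, {τ : Ω ≃ₐ[ℚ] Ω | τ (x i : Ω) = (y i : Ω)} := by
    ext τ
    simp only [Set.mem_ofPred_eq, Set.mem_iInter]
    constructor
    · intro h i
      rw [← h]
      rfl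
    · intro h
      funext i
      exact Units.ext (h i)
  rw [h]
  exact isClosed_iInter fun i => lvl_isClosed_eq _ _

private theorem lvl_isClosed_HN (N : ℕ) : IsClosed (HN Ω N : Set (Ω ≃ₐ[ℚ] Ω)) := by
  have h : (HN Ω N : Set (Ω ≃ₐ[ℚ] Ω)) = ⋂ z ∈ {z : Ω | z ^ N = 1}, {τ : Ω ≃ₐ[ℚ] Ω | τ z = z} := by
    ext τ
    rw [SetLike.mem_coe, mem_HN]
    simp only [Set.mem_iInter]
    exact Iff.rfl
  rw [h]
  exact isClosed_biInter fun z _ => lvl_isClosed_eq z z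

private theorem lvl_ex (x y : Tor Ω n) (hy : y ∉ orb (HA Ω) x) :
    ∃ N : ℕ, 1 ≤ N ∧ y ∉ orb (HN Ω N) x := by
  by_contra hcon
  push Not at hcon
  obtain ⟨t, ht⟩ : ∃ t : ℕ+ → Set (Ω ≃ₐ[ℚ] Ω),
      t = fun N : ℕ+ => {σ : Ω ≃ₐ[ℚ] Ω | mv σ x = y} ∩ (HN Ω (N : ℕ) : Set (Ω ≃ₐ[ℚ] Ω)) := ⟨_, rfl⟩
  have hcl : ∀ N, IsClosed (t N) := by
    intro N
    rw [ht]
    exact (lvl_isClosed_mv x y).inter (lvl_isClosed_HN _)
  have hdir : Directed (· ⊇ ·) t := by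
    intro N N'
    refine ⟨N * N', ?_, ?_⟩
    · rw [ht]
      rintro σ ⟨h1, h2⟩
      exact ⟨h1, HN_anti ⟨(N' : ℕ), PNat.mul_coe N N'⟩ h2⟩
    · rw [ht]
      rintro σ ⟨h1, h2⟩
      exact ⟨h1, HN_anti ⟨(N : ℕ), by rw [PNat.mul_coe, mul_comm]⟩ h2⟩
  have hne : ∀ N, (t N).Nonempty := by
    intro N
    obtain ⟨σ, h1, h2⟩ := hcon N N.pos
    rw [ht]
    exact ⟨σ, h2.symm, h1⟩
  obtain ⟨σ, hσ⟩ := IsCompact.nonempty_iInter_of_directed_nonempty_isCompact_isClosed t hdir hne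
    (fun N => (hcl N).isCompact) hcl
  rw [Set.mem_iInter] at hσ
  rw [ht] at hσ
  apply hy
  refine ⟨σ, ?_, (hσ 1).1.symm⟩
  rw [mem_HA]
  intro z N hN hz
  exact (mem_HN σ).1 (hσ ⟨N, hN⟩).2 z hz

theorem ex_lvl (x : Tor Ω n) : ∃ N : ℕ, 1 ≤ N ∧ dgT (HN Ω N) x ≤ dgT (HA Ω) x := by
  classical
  have hfin : (orb (⊤ : Subgroup (Ω ≃ₐ[ℚ] Ω)) x \ orb (HA Ω) x).Finite := (orb_fin ⊤ x).subset Set.sdiff_subset
  have hex : ∀ y : Tor Ω n, ∃ N : ℕ, 1 ≤ N ∧ (y ∉ orb (HA Ω) x → y ∉ orb (HN Ω N) x) := by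
    intro y
    by_cases hy : y ∈ orb (HA Ω) x
    · exact ⟨1, le_rfl, fun h => absurd hy h⟩
    · obtain ⟨N, h1, h2⟩ := lvl_ex x y hy
      exact ⟨N, h1, fun _ => h2⟩
  choose M hM1 hM2 using hex
  refine ⟨∏ y ∈ hfin.toFinset, M y, Finset.one_le_prod' fun y _ => hM1 y, ?_⟩
  unfold dgT
  refine Set.ncard_le_ncard ?_ (orb_fin _ x)
  intro y hy
  by_contra hcon
  have h1 : y ∈ hfin.toFinset := by
    rw [Set.Finite.mem_toFinset]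
    exact ⟨orb_mono le_top x hy, hcon⟩
  exact hM2 y hcon (orb_mono (HN_anti (Finset.dvd_prod_of_mem M h1)) x hy)

end Pool.Agent.H72.AD
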