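import Pool.Agent.H72.AD.Idx
import Pool.Agent.H72.AD.KuB
import Pool.Agent.H72.AD.Lvl

/-!
# POINTS THEOREM, chapter G: descent in the level, the group `V`

`desc_all`. PROOF (imports may be sorried). `D := dgT (HA Ω) x`. For every torsion point `z`: `dgT (HA Ω) (z x) = D`, `dgT (HA Ω) ((z x)^l) = dgT (HA Ω) (x^l) = D` (`dg_mul`, `tors_fix'`, `(z x)^l = z^l x^l`), and `D ≤ dgT (HN N) ..` (`dg_mono`, `HA_le`).
1. The set of the `N ≥ 1` for which there is a torsion `z` with `dgT (HN N) (z x) ≤ D` is nonempty (`ex_lvl`, `z = 1`); `N` := the least, `z` one such point; `x₁ := z x`, `dgT (HN N) x₁ = D`, and `dgT (HN N) (x₁^l) = D` for `l ∈ P` (`D ≤ .. ≤ dgT (HN N) x₁`: `dg_pow_le`).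
2. Let `l ∈ P`, `l ∣ N`, `H := HN N`, `H' := HN (N/l)`, `S_l := Stb H' (x₁^l)`. `h2`: `dgT H' (x₁^l) ≤ J D`, so by `rel_idx` (`y = x₁^l`, `dgT H y = D ≥ 1`): `(H ⊔ S_l).relIndex H' ≤ J`, `≠ 0` (`dgT H' y ≥ 1`).
3. `l^2 ∤ N`: suppose `l^2 ∣ N`. `(H ⊔ S_l).relIndex H'` divides `H.relIndex H'` (`relIndex_mul_relIndex`), which divides `l` (`HN_sq`), and it is `≤ J < l`: so it is `1`, `H' ≤ H ⊔ S_l`. `ku_sq`: `z'` with `z'^N = 1`, `S_l` fixes `z' x₁`. `orb H' (z' x₁) ⊆ orb (H ⊔ S_l) (z' x₁) = orb H (z' x₁)` (`sup_orb`), of cardinality `dgT H x₁ = D` (`dg_mul`, `tors_fix`). So `N / l < N` (`≥ 1`) is in the set of step 1 with the torsion point `z' z`: contradiction.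
4. For `l ∈ P`, `l ∣ N`: `ku_ex`: `z_l` with `z_l^l = 1`, `S_l` fixes `z_l x₁`. `P' := P.filter (· ∣ N)`, `z* := ∏_(l ∈ P') z_l`, `V := H ⊔ ⨆_(l ∈ P') S_l`. `S_l` fixes `z* x₁`: it fixes `z_l x₁`, and `z_(l')` for `l' ≠ l` in `P'`, as `z_(l')^(l') = 1`, `l' ∣ N / l` (`l ≠ l'` primes dividing `N`), `S_l ≤ HN (N/l) ≤ HN l'` (`HN_anti`, `tors_fix`). So the supremum of the `S_l` fixes `z* x₁`, and `orb V (z* x₁) = orb H (z* x₁)` (`sup_orb`),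
which contains `orb (HA Ω) (z* x₁)` and has `dgT H x₁ = D` elements (`z*^N = 1`: every `z_l^N = 1`): equal (`orb_eq_of_le`).
5. Result: `z := z* z`, `N`, `V`. `HN N ≤ V`. For `l ∈ P` with `l ∣ N`: `N' := N / l` (`l ∤ N / l`), `V.relIndex (HN (N/l)) ≤ (H ⊔ S_l).relIndex (HN (N/l)) ≤ J` (`H ⊔ S_l ≤ V`: `Subgroup.relIndex_le_of_le_left`, needs `≠ 0`), `≠ 0`. For `l ∤ N`: `N' := N`, `HN N ≤ V`: `V.relIndex (HN N) = 1 ≤ J`.
-/

set_option autoImplicit false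
set_option linter.unusedSectionVars false

namespace Pool.Agent.H72.AD

open Pool.Agent.H11.TH Pool.Agent.H11.TS

variable {Ω : Type} [Field Ω] [CharZero Ω] [IsAlgClosed Ω] [IsGalois ℚ Ω] {n : ℕ}

private theorem isT_mul {z w : Tor Ω n} (hz : IsT z) (hw : IsT w) : IsT (z * w) := by
  obtain ⟨N, hN, h1⟩ := hz
  obtain ⟨M, hM, h2⟩ := hw
  refine ⟨N * M, Nat.mul_pos hN hM, ?_⟩
  rw [mul_pow, pow_mul, h1, one_pow, mul_comm N M, pow_mul, h2, one_pow, one_mul]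

private theorem isT_pow {z : Tor Ω n} (hz : IsT z) (l : ℕ) : IsT (z ^ l) := by
  obtain ⟨N, hN, h1⟩ := hz
  exact ⟨N, hN, by rw [← pow_mul, mul_comm, pow_mul, h1, one_pow]⟩

private theorem mv_one' (σ : Ω ≃ₐ[ℚ] Ω) : mv σ (1 : Tor Ω n) = 1 := by
  funext i
  exact map_one (sgm σ)

private theorem mv_prod_fix (σ : Ω ≃ₐ[ℚ] Ω) (T : Finset ℕ) (f : ℕ → Tor Ω n)
    (h : ∀ l ∈ T, mv σ (f l) = f l) : mv σ (∏ l ∈ T, f l) = ∏ l ∈ T, f l := by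
  refine Finset.prod_induction f (fun y => mv σ y = y) ?_ (mv_one' σ) h
  intro a b ha hb
  rw [mv_mul, ha, hb]

theorem desc_all (x : Tor Ω n) (J : ℕ) (hJ : 1 ≤ J) (P : Finset ℕ) (hP : ∀ l ∈ P, l.Prime ∧ J < l)
    (h1 : ∀ l ∈ P, dgT (HA Ω) (x ^ l) = dgT (HA Ω) x)
    (h2 : ∀ l ∈ P, ∀ N : ℕ, 1 ≤ N → l ∣ N → ∀ z : Tor Ω n, IsT z →
      dgT (HN Ω N) (z * x) = dgT (HA Ω) x →
      dgT (HN Ω (N / l)) ((z * x) ^ l) ≤ J * dgT (HA Ω) x) :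
    ∃ (z : Tor Ω n) (N : ℕ) (V : Subgroup (Ω ≃ₐ[ℚ] Ω)), IsT z ∧ 1 ≤ N ∧ HN Ω N ≤ V ∧
      orb V (z * x) = orb (HA Ω) (z * x) ∧
      ∀ l ∈ P, ∃ N' : ℕ, 1 ≤ N' ∧ N' ∣ N ∧ ¬ l ∣ N' ∧ V.relIndex (HN Ω N') ≤ J ∧
        V.relIndex (HN Ω N') ≠ 0 := by
  classical
  have L0 : ∀ z : Tor Ω n, IsT z → dgT (HA Ω) (z * x) = dgT (HA Ω) x := fun z hz =>
    dg_mul (HA Ω) z x (fun σ hσ => tors_fix' z hz σ hσ)
  have L1 : ∀ z : Tor Ω n, IsT z → ∀ l ∈ P, dgT (HA Ω) ((z * x) ^ l) = dgT (HA Ω) x := by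
    intro z hz l hl
    rw [mul_pow, dg_mul (HA Ω) (z ^ l) (x ^ l) (fun σ hσ => tors_fix' _ (isT_pow hz l) σ hσ), h1 l hl]
  -- step 1
  have hex : ∃ N : ℕ, 1 ≤ N ∧ ∃ z : Tor Ω n, IsT z ∧ dgT (HN Ω N) (z * x) ≤ dgT (HA Ω) x := by
    obtain ⟨N, hN, h⟩ := ex_lvl x
    exact ⟨N, hN, 1, ⟨1, le_refl 1, one_pow 1⟩, by rwa [one_mul]⟩
  obtain ⟨hN, z, hz, hzx⟩ := Nat.find_spec hex
  have hmin : ∀ m, m < Nat.find hex → ¬ (1 ≤ m ∧ ∃ z : Tor Ω n, IsT z ∧ dgT (HN Ω m) (z * x) ≤ dgT (HA Ω) x) :=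
    fun m hm => Nat.find_min hex hm
  generalize Nat.find hex = N at hN hzx hmin
  have hx1 : dgT (HN Ω N) (z * x) = dgT (HA Ω) x := by
    refine le_antisymm hzx ?_
    rw [← L0 z hz]
    exact dg_mono (HA_le (Ω := Ω) hN) _
  have hD : 1 ≤ dgT (HA Ω) x := dg_pos _ _
  set D := dgT (HA Ω) x with hDdef
  set x₁ := z * x with hx₁
  have hpow : ∀ l ∈ P, dgT (HN Ω N) (x₁ ^ l) = D := by
    intro l hl
    refine le_antisymm ?_ ?_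
    · rw [← hx1]
      exact dg_pow_le _ _ _
    · rw [← L1 z hz l hl]
      exact dg_mono (HA_le (Ω := Ω) hN) _
  have hnorm : (HN Ω N).Normal := HN_normal hN
  -- step 2
  have hstep2 : ∀ l ∈ P, l ∣ N →
      (HN Ω N ⊔ Stb (HN Ω (N / l)) (x₁ ^ l)).relIndex (HN Ω (N / l)) ≤ J ∧
      (HN Ω N ⊔ Stb (HN Ω (N / l)) (x₁ ^ l)).relIndex (HN Ω (N / l)) ≠ 0 := by
    intro l hl hlN
    have e1 := rel_idx (HN Ω N) (HN Ω (N / l)) hnorm (HN_anti (Nat.div_dvd_of_dvd hlN)) (x₁ ^ l)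
    rw [hpow l hl] at e1
    have e2 := h2 l hl N hN hlN z hz hx1
    rw [← hx₁, ← e1] at e2
    have e3 : 1 ≤ dgT (HN Ω (N / l)) (x₁ ^ l) := dg_pos _ _
    refine ⟨Nat.le_of_mul_le_mul_right e2 hD, fun h0 => ?_⟩
    rw [h0, zero_mul] at e1
    omega
  have hSle : ∀ l : ℕ, Stb (HN Ω (N / l)) (x₁ ^ l) ≤ HN Ω (N / l) := fun l s hs => hs.1
  -- step 3
  have hstep3 : ∀ l ∈ P, l ∣ N → ¬ l ^ 2 ∣ N := by
    intro l hl hlN hl2
    have hlp := (hP l hl).1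
    have hJl := (hP l hl).2
    have hle : HN Ω N ≤ HN Ω (N / l) := HN_anti (Nat.div_dvd_of_dvd hlN)
    have e1 : (HN Ω N ⊔ Stb (HN Ω (N / l)) (x₁ ^ l)).relIndex (HN Ω (N / l)) ∣ l := by
      refine dvd_trans ?_ (HN_sq (Ω := Ω) hN hlp hl2)
      exact Subgroup.relIndex_dvd_of_le_left _ le_sup_left
    have e2 : (HN Ω N ⊔ Stb (HN Ω (N / l)) (x₁ ^ l)).relIndex (HN Ω (N / l)) = 1 := by
      rcases (Nat.dvd_prime hlp).1 e1 with h | h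
      · exact h
      · have := (hstep2 l hl hlN).1
        omega
    have e3 : HN Ω (N / l) ≤ HN Ω N ⊔ Stb (HN Ω (N / l)) (x₁ ^ l) := Subgroup.relIndex_eq_one.1 e2
    obtain ⟨z', hz', hfix⟩ := ku_sq hN hlp hl2 x₁ ((hpow l hl).trans hx1.symm)
    have e4 : dgT (HN Ω (N / l)) (z' * x₁) ≤ D := by
      calc dgT (HN Ω (N / l)) (z' * x₁)
          ≤ dgT (HN Ω N ⊔ Stb (HN Ω (N / l)) (x₁ ^ l)) (z' * x₁) := dg_mono e3 _
        _ = dgT (HN Ω N) (z' * x₁) := by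
            unfold dgT
            rw [sup_orb (HN Ω N) (Stb (HN Ω (N / l)) (x₁ ^ l)) hnorm (z' * x₁) (fun s hs => hfix s hs.1 hs.2)]
        _ = dgT (HN Ω N) x₁ := dg_mul _ _ _ (fun σ hσ => tors_fix z' hz' σ hσ)
        _ = D := hx1
    have hNl : 1 ≤ N / l := Nat.div_pos (Nat.le_of_dvd hN hlN) hlp.pos
    refine hmin (N / l) (Nat.div_lt_self hN hlp.one_lt) ⟨hNl, z' * z, isT_mul ⟨N, hN, hz'⟩ hz, ?_⟩
    rw [mul_assoc, ← hx₁]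
    exact e4
  -- step 4
  have h4 : ∀ l, l ∈ P.filter (fun l => l ∣ N) → ∃ w : Tor Ω n, w ^ l = 1 ∧
      ∀ s ∈ HN Ω (N / l), mv s (x₁ ^ l) = x₁ ^ l → mv s (w * x₁) = w * x₁ := by
    intro l hl
    rw [Finset.mem_filter] at hl
    exact ku_ex hN (hP l hl.1).1 hl.2 (hstep3 l hl.1 hl.2) x₁ ((hpow l hl.1).trans hx1.symm)
  choose! zf hzf1 hzf2 using h4
  set P' := P.filter (fun l => l ∣ N) with hP'
  have hfixS : ∀ l ∈ P', ∀ s ∈ Stb (HN Ω (N / l)) (x₁ ^ l),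
      mv s ((∏ l ∈ P', zf l) * x₁) = (∏ l ∈ P', zf l) * x₁ := by
    intro l hl s hs
    rw [← Finset.prod_erase_mul P' zf hl, mul_assoc, mv_mul, hzf2 l hl s hs.1 hs.2]
    congr 1
    refine mv_prod_fix s _ zf fun l' hl' => ?_
    have hne : l' ≠ l := (Finset.mem_erase.1 hl').1
    have hl'P : l' ∈ P' := (Finset.mem_erase.1 hl').2
    have hq := Finset.mem_filter.1 hl'P
    have hq2 := Finset.mem_filter.1 hl
    have hcop : Nat.Coprime l' l := (Nat.coprime_primes (hP l' hq.1).1 (hP l hq2.1).1).2 hne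
    have hdiv : l' ∣ N / l := by
      refine hcop.dvd_of_dvd_mul_left ?_
      rw [Nat.mul_div_cancel' hq2.2]
      exact hq.2
    exact tors_fix (zf l') (hzf1 l' hl'P) s (HN_anti hdiv hs.1)
  set S' : Subgroup (Ω ≃ₐ[ℚ] Ω) := ⨆ l ∈ P', Stb (HN Ω (N / l)) (x₁ ^ l) with hS'
  set zs := ∏ l ∈ P', zf l with hzs
  have hS'fix : ∀ s ∈ S', mv s (zs * x₁) = zs * x₁ := by
    have hle : S' ≤ Stb ⊤ (zs * x₁) := by
      refine iSup₂_le fun l hl s hs => ?_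
      exact ⟨Subgroup.mem_top _, hfixS l hl s hs⟩
    exact fun s hs => (hle hs).2
  have hzsN : zs ^ N = 1 := by
    rw [hzs, ← Finset.prod_pow]
    refine Finset.prod_eq_one fun l hl => ?_
    have hq := Finset.mem_filter.1 hl
    obtain ⟨k, hk⟩ := hq.2
    rw [hk, pow_mul, hzf1 l hl, one_pow]
  have hzsT : IsT (zs * z) := isT_mul ⟨N, hN, hzsN⟩ hz
  have horb : orb (HN Ω N ⊔ S') (zs * x₁) = orb (HA Ω) (zs * x₁) := by
    rw [sup_orb (HN Ω N) S' hnorm (zs * x₁) hS'fix]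
    refine (orb_eq_of_le (HA_le hN) (zs * x₁) ?_).symm
    rw [dg_mul (HN Ω N) zs x₁ (fun σ hσ => tors_fix zs hzsN σ hσ), hx1]
    rw [hx₁, ← mul_assoc, L0 _ hzsT]
  refine ⟨zs * z, N, HN Ω N ⊔ S', hzsT, hN, le_sup_left, ?_, fun l hl => ?_⟩
  · rw [mul_assoc, ← hx₁]
    exact horb
  by_cases hlN : l ∣ N
  · have hlp := (hP l hl).1
    have hNl : 1 ≤ N / l := Nat.div_pos (Nat.le_of_dvd hN hlN) hlp.pos
    have hlP' : l ∈ P' := Finset.mem_filter.2 ⟨hl, hlN⟩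
    have hle : HN Ω N ⊔ Stb (HN Ω (N / l)) (x₁ ^ l) ≤ HN Ω N ⊔ S' := by
      refine sup_le_sup_left ?_ _
      exact le_iSup₂_of_le l hlP' (le_refl _)
    have hd : (HN Ω N ⊔ S').relIndex (HN Ω (N / l)) ∣
        (HN Ω N ⊔ Stb (HN Ω (N / l)) (x₁ ^ l)).relIndex (HN Ω (N / l)) :=
      Subgroup.relIndex_dvd_of_le_left _ hle
    have h5 := hstep2 l hl hlN
    refine ⟨N / l, hNl, Nat.div_dvd_of_dvd hlN, fun hdiv => ?_, ?_, ?_⟩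
    · refine hstep3 l hl hlN ?_
      obtain ⟨k, hk⟩ := hdiv
      refine ⟨k, ?_⟩
      rw [pow_two, mul_assoc, ← hk, Nat.mul_div_cancel' hlN]
    · exact (Nat.le_of_dvd (Nat.pos_of_ne_zero h5.2) hd).trans h5.1
    · intro h0
      rw [h0] at hd
      exact h5.2 (zero_dvd_iff.1 hd)
  · refine ⟨N, hN, dvd_refl N, hlN, ?_, ?_⟩
    · rw [Subgroup.relIndex_eq_one.2 (le_sup_left : HN Ω N ≤ HN Ω N ⊔ S')]
      exact hJ
    · rw [Subgroup.relIndex_eq_one.2 (le_sup_left : HN Ω N ≤ HN Ω N ⊔ S')]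
      exact one_ne_zero

end Pool.Agent.H72.AD
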