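import Pool.Agent.H72.AD.GloD
import Pool.Agent.H11.TS.ThA

/-!
# POINTS THEOREM, chapter G: the values of the monomials at `x^l` over `ℚ(μ_(N/l))`

`desc_hd`. PROOF: copy of `thmA` (`Pool/Agent/H11/TS/ThA.lean`) (imports may be sorried). `h := hd (Cy Ω N) (crd x) (bx n m)`; `I`, `c` with coefficients in `Cy Ω N`, `I.card = h`, as there. Suppose `hd (Cy Ω (N/l)) (crd (x^l)) (bx n (T m)) > 2 T^(n+1) h`: `r := 2 T^(n+1) h + 1` exponents `C_j ∈ Bx n (T m)` with the monomials of `x^l` independent over `Cy Ω (N / l)`.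
`minor` (`Pool/Agent/H11/TS/Dsc.lean`) for `P := Cy Ω (N/l)`, `X := {x^l}` and the generic point `g := crd (x^l)` in `F := Ω` (`Mdl {x^l} g`: trivial): `y i = mv (τ i) (x^l)`, `τ i` fixes `Cy Ω (N / l)`, i.e. `τ i ∈ HN Ω (N / l)`, `det (ch (C j) (y i)) ≠ 0`, and `ch (C j) (mv (τ i) (x^l)) = mn (C j) (crd (mv (τ i) x))^l`. Contradiction with `glo_desc` (numerics as in `num_fin` there).
-/

set_option autoImplicit false
set_option linter.unusedSectionVars false

open NumberField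

namespace Pool.Agent.H72.AD

open Pool.Agent.H11.TH Pool.Agent.H11.TS

private def cst {n N : ℕ} (b : Pool.Agent.H33.TR.Bx n N) : Fin n → ℤ := fun l => ((b l : ℕ) : ℤ)

private theorem cst_inj {n N : ℕ} : Function.Injective (cst : Pool.Agent.H33.TR.Bx n N → Fin n → ℤ) := by
  intro b b' h
  funext l
  have h1 := congrFun h l
  unfold cst at h1
  exact Fin.ext (by exact_mod_cast h1)

private theorem cst_range {n N : ℕ} :
    Set.range (cst : Pool.Agent.H33.TR.Bx n N → Fin n → ℤ) = (bx n N : Set (Fin n → ℤ)) := by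
  ext e
  rw [Finset.mem_coe, mem_bx]
  constructor
  · rintro ⟨b, rfl⟩ i
    unfold cst
    have h1 := (b i).2
    constructor
    · positivity
    · have h2 : (b i : ℕ) ≤ N := by omega
      exact_mod_cast h2
  · intro h
    refine ⟨fun l => ⟨(e l).toNat, ?_⟩, ?_⟩
    · have h1 := h l
      omega
    · funext l
      unfold cst
      have h1 := h l
      simp only
      omega

private theorem exists_ind (L : Type) {F B : Type} [Field L] [Field F] [Algebra L F] [Fintype B]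
    (w : B → F) : ∃ (κ : Type) (_ : Fintype κ) (a : κ → B), Function.Injective a ∧
      Submodule.span L (Set.range (w ∘ a)) = Submodule.span L (Set.range w) ∧
      LinearIndependent L (w ∘ a) ∧ Fintype.card κ = Module.finrank L (Submodule.span L (Set.range w)) := by
  obtain ⟨κ, a, ha, hs, hli⟩ := exists_linearIndependent' L w
  have : Finite κ := Finite.of_injective a ha
  have := Fintype.ofFinite κ
  refine ⟨κ, this, a, ha, hs, hli, ?_⟩
  rw [← hs, finrank_span_eq_card hli]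

private theorem ch_cst {Ω : Type} [Field Ω] {n N : ℕ} (b : Pool.Agent.H33.TR.Bx n N) (y : Tor Ω n) :
    ((ch (cst b) y : Ωˣ) : Ω) = Pool.Agent.H33.TR.mn b (crd y) := by
  unfold ch cst Pool.Agent.H33.TR.mn crd
  push_cast
  refine Finset.prod_congr rfl fun l _ => ?_
  rw [zpow_natCast]

private theorem mn_pow' {Ω : Type} [Field Ω] {n N : ℕ} (b : Pool.Agent.H33.TR.Bx n N) (l : ℕ)
    (y : Tor Ω n) : Pool.Agent.H33.TR.mn b (crd (y ^ l)) = Pool.Agent.H33.TR.mn b (crd y) ^ l := by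
  unfold Pool.Agent.H33.TR.mn crd
  rw [← Finset.prod_pow]
  refine Finset.prod_congr rfl fun i _ => ?_
  rw [Pi.pow_apply, Units.val_pow_eq_pow_val, ← pow_mul, ← pow_mul, mul_comm]

private theorem num_fin (r T n m p h Q : ℕ) (θ : ℝ) (hr : r = 2 * T ^ (n + 1) * h + 1) (hp : 2 ≤ p)
    (hrQ : r ≤ Q) (hQ : Q = (T * m + 1) ^ n)
    (hnum : 2 * (Real.log (((T * m + 1) ^ n : ℕ) : ℝ) + ((p * (T * m) : ℕ) : ℝ) * θ) <
      T * Real.log p) :
    Real.log (r.factorial : ℕ) + (r : ℝ) * (((p * (T * m) : ℕ) : ℝ) * θ) <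
      (T * (r - T ^ (n + 1) * h) : ℕ) * Real.log p := by
  have hr0 : 0 < r := by omega
  have hrR : (0 : ℝ) < r := by exact_mod_cast hr0
  have hlp : 0 ≤ Real.log p := Real.log_nonneg (by exact_mod_cast (by omega : 1 ≤ p))
  have e1 : Real.log (r.factorial : ℕ) ≤ r * Real.log (((T * m + 1) ^ n : ℕ) : ℝ) := by
    have e2 : ((r.factorial : ℕ) : ℝ) ≤ (r : ℝ) ^ r := by exact_mod_cast Nat.factorial_le_pow r
    have e3 : Real.log (r.factorial : ℕ) ≤ r * Real.log r := by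
      have := Real.log_le_log (by exact_mod_cast Nat.factorial_pos r) e2
      rwa [Real.log_pow] at this
    refine e3.trans (mul_le_mul_of_nonneg_left ?_ hrR.le)
    refine Real.log_le_log hrR ?_
    rw [← hQ]
    exact_mod_cast hrQ
  have e4 : (r : ℝ) / 2 ≤ ((r - T ^ (n + 1) * h : ℕ) : ℝ) := by
    have e5 : r ≤ 2 * (r - T ^ (n + 1) * h) := by
      have e6 : r = 2 * (T ^ (n + 1) * h) + 1 := by rw [hr]; ring
      omega
    have e7 : (r : ℝ) ≤ 2 * ((r - T ^ (n + 1) * h : ℕ) : ℝ) := by exact_mod_cast e5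
    linarith
  have e8 : (T : ℝ) * ((r : ℝ) / 2) * Real.log p ≤ (T * (r - T ^ (n + 1) * h) : ℕ) * Real.log p := by
    rw [Nat.cast_mul]
    refine mul_le_mul_of_nonneg_right ?_ hlp
    exact mul_le_mul_of_nonneg_left e4 (Nat.cast_nonneg _)
  refine lt_of_lt_of_le ?_ e8
  have e9 : (r : ℝ) * (2 * (Real.log (((T * m + 1) ^ n : ℕ) : ℝ) + ((p * (T * m) : ℕ) : ℝ) * θ)) <
      r * (T * Real.log p) := mul_lt_mul_of_pos_left hnum hrR
  nlinarith

theorem desc_hd {Ω : Type} [Field Ω] [CharZero Ω] [IsAlgClosed Ω] [IsGalois ℚ Ω] (N l : ℕ)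
    (hN : 1 ≤ N) (hl : l.Prime) (hl2 : l ≠ 2) (hlN : l ∣ N) {n : ℕ} (x : Tor Ω n) (θ : ℝ)
    (hθ : ht x ≤ θ) (T m : ℕ) (hT : 1 ≤ T)
    (hnum : 2 * (Real.log (((T * m + 1) ^ n : ℕ) : ℝ) + ((l * (T * m) : ℕ) : ℝ) * θ) <
      T * Real.log l) :
    hd (Cy Ω (N / l)) (crd (x ^ l)) (bx n (T * m)) ≤
      2 * T ^ (n + 1) * hd (Cy Ω N) (crd x) (bx n m) := by
  classical
  obtain ⟨P, hP⟩ : ∃ P : IntermediateField ℚ Ω, P = Cy Ω N := ⟨_, rfl⟩
  obtain ⟨P', hP'⟩ : ∃ P' : IntermediateField ℚ Ω, P' = Cy Ω (N / l) := ⟨_, rfl⟩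
  rw [← hP, ← hP']
  -- step 1: a basis of the monomials of degree m
  obtain ⟨κ, _, a, ha, has, hali, hac⟩ := exists_ind P
    (fun b : Pool.Agent.H33.TR.Bx n m => mz (crd x) (cst b))
  have hrm : Set.range (fun b : Pool.Agent.H33.TR.Bx n m => mz (crd x) (cst b)) =
      mz (crd x) '' (bx n m : Set (Fin n → ℤ)) := by
    rw [← cst_range, ← Set.range_comp]
    rfl
  have hacard : Fintype.card κ = hd P (crd x) (bx n m) := by
    rw [hac, hrm]
    rfl
  have hex : ∀ b : Pool.Agent.H33.TR.Bx n m, ∃ c : κ → P,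
      ∑ i, c i • mz (crd x) (cst (a i)) = mz (crd x) (cst b) := by
    intro b
    have h1 : mz (crd x) (cst b) ∈ Submodule.span P (Set.range ((fun b : Pool.Agent.H33.TR.Bx n m =>
        mz (crd x) (cst b)) ∘ a)) := by
      rw [has]
      exact Submodule.subset_span ⟨b, rfl⟩
    exact (Submodule.mem_span_range_iff_exists_fun P).1 h1
  choose c hc using hex
  obtain ⟨I, hI⟩ : ∃ I : Finset (Pool.Agent.H33.TR.Bx n m), I = Finset.univ.map ⟨a, ha⟩ := ⟨_, rfl⟩
  have hIc : I.card = hd P (crd x) (bx n m) := by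
    rw [hI, Finset.card_map, Finset.card_univ, hacard]
  obtain ⟨dd, hdd⟩ : ∃ dd : Pool.Agent.H33.TR.Bx n m → Pool.Agent.H33.TR.Bx n m → P,
      dd = fun b => Function.extend a (c b) 0 := ⟨_, rfl⟩
  have hrel : ∀ b, Pool.Agent.H33.TR.mn b (crd x) =
      ∑ j ∈ I, (dd b j : Ω) * Pool.Agent.H33.TR.mn j (crd x) := by
    intro b
    have h1 : mz (crd x) (cst b) = Pool.Agent.H33.TR.mn b (crd x) := by
      rw [mz_ch, ch_cst]
    rw [← h1, hI, Finset.sum_map, ← hc b]
    refine Finset.sum_congr rfl fun i _ => ?_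
    rw [Algebra.smul_def, mz_ch, ch_cst]
    congr 1
    rw [hdd]
    exact congrArg _ (ha.extend_apply _ _ i).symm
  -- step 3: independent monomials
  by_contra hcon
  push Not at hcon
  obtain ⟨r, hr⟩ : ∃ r : ℕ, r = 2 * T ^ (n + 1) * hd P (crd x) (bx n m) + 1 := ⟨_, rfl⟩
  obtain ⟨κ', _, a', ha', has', hali', hac'⟩ := exists_ind P'
    (fun b : Pool.Agent.H33.TR.Bx n (T * m) => mz (crd (x ^ l)) (cst b))
  have hrm' : Set.range (fun b : Pool.Agent.H33.TR.Bx n (T * m) => mz (crd (x ^ l)) (cst b)) =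
      mz (crd (x ^ l)) '' (bx n (T * m) : Set (Fin n → ℤ)) := by
    rw [← cst_range, ← Set.range_comp]
    rfl
  have hrk : r ≤ Fintype.card κ' := by
    rw [hac', hrm', hr]
    exact hcon
  have hkQ : Fintype.card κ' ≤ (T * m + 1) ^ n := by
    refine (Fintype.card_le_of_injective a' ha').trans (le_of_eq ?_)
    rw [Fintype.card_fun, Fintype.card_fin, Fintype.card_fin]
  obtain ⟨em, hem⟩ : ∃ em : Fin r → κ', Function.Injective em :=
    ⟨fun i => (Fintype.equivFin κ').symm (Fin.castLE hrk i), fun i j hij =>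
      Fin.castLE_injective hrk ((Fintype.equivFin κ').symm.injective hij)⟩
  have hMdl : Mdl ({x ^ l} : Set (Tor Ω n)) (crd (x ^ l)) := by
    refine ⟨fun i => Units.ne_zero _, ?_⟩
    intro s b
    have h1 : ∑ e ∈ s, algebraMap Ω Ω (b e) * mz (crd (x ^ l)) e =
        ∑ e ∈ s, b e * ((ch e (x ^ l) : Ωˣ) : Ω) := by
      refine Finset.sum_congr rfl fun e _ => ?_
      rw [mz_ch]
      rfl
    rw [h1]
    constructor
    · intro h y hy
      rw [Set.mem_singleton_iff.1 hy]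
      exact h
    · intro h
      exact h _ rfl
  obtain ⟨y, hy, hdet⟩ := minor P' {x ^ l} (crd (x ^ l)) hMdl
    (fun i : Fin r => cst (a' (em i))) (hali'.comp em hem)
  have hy' : ∀ i, ∃ σ : Ω ≃ₐ[ℚ] Ω, σ ∈ HN Ω (N / l) ∧ y i = mv σ (x ^ l) := by
    intro i
    obtain ⟨x', hx', σ, hσ, hyx⟩ := hy i
    rw [Set.mem_singleton_iff.1 hx'] at hyx
    refine ⟨σ, ?_, hyx⟩
    unfold HN
    rw [← hP', IntermediateField.mem_fixingSubgroup_iff]
    exact hσ
  choose τ hτ hyτ using hy'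
  apply hdet
  subst hP
  have h1 := glo_desc N l hN hl hl2 hlN hT I dd x (fun b _ => hrel b) τ hτ
    (fun i => a' (em i)) (ha'.comp hem) θ hθ
    (by
      rw [hIc]
      exact num_fin r T n m l _ _ θ hr hl.two_le (hrk.trans hkQ) rfl hnum)
  rw [← h1]
  congr 1
  ext i j
  rw [Matrix.of_apply, Matrix.of_apply, ch_cst, hyτ, mv_pow, mn_pow']


end Pool.Agent.H72.AD
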