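import Pool.Agent.H72.AD.DfD
import Pool.Agent.H33.PT.Fro

/-!
# POINTS THEOREM, chapter F: Frobenius elements

`frob_ex`. PROOF: if there is no place `w₀` with `w₀ l < 1` there is nothing to prove (`Φ = 1`). Otherwise `Φ` is the Frobenius automorphism `frob_place` (`Pool/Agent/H33/PT/Fro.lean`) at `w₀`.
Let `w` be a place with `w l < 1`, `Q := w.maximalIdeal`, above `l`. `E/ℚ` is Galois: there is `ρ` with `ρ • Q = Q₀` (`Ideal.exists_smul_eq_of_isGaloisGroup`), and `w₀ (ρ a) = w a` (`place_conj`: the same multiplicities and the same norms). So `w ((ρ⁻¹ Φ ρ) a) = w₀ (Φ (ρ a)) = w₀ (ρ a) = w a` and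
`w ((ρ⁻¹ Φ ρ) a - a^l) = w₀ (Φ (ρ a) - (ρ a)^l) < 1` for `w a = w₀ (ρ a) ≤ 1`.
-/

set_option autoImplicit false

open NumberField

namespace Pool.Agent.H72.AD

private theorem fr_under {E : Type} [Field E] [NumberField E] (l : ℕ) (hl : l.Prime) (w : FinitePlace E)
    (hw : w (l : E) < 1) : w.maximalIdeal.asIdeal.LiesOver (Ideal.span {(l : ℤ)}) := by
  have hqP : (l : 𝓞 E) ∈ w.maximalIdeal.asIdeal := by
    rw [← FinitePlace.norm_lt_one_iff_mem E w.maximalIdeal, FinitePlace.norm_embedding_eq]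
    simpa using hw
  have hPp : w.maximalIdeal.asIdeal.IsPrime := w.maximalIdeal.isPrime
  have h1 : Ideal.span {(l : ℤ)} ≤ w.maximalIdeal.asIdeal.under ℤ := by
    rw [Ideal.span_singleton_le_iff_mem, Ideal.mem_comap, eq_intCast, Int.cast_natCast]
    exact hqP
  have h2 : (Ideal.span {(l : ℤ)}).IsMaximal :=
    PrincipalIdealRing.isMaximal_of_irreducible (Nat.prime_iff_prime_int.1 hl).irreducible
  exact ⟨h2.eq_of_le (Ideal.IsPrime.ne_top inferInstance) h1⟩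

open scoped Pointwise in
private theorem fr_norm {E : Type} [Field E] [NumberField E] (ρ : E ≃ₐ[ℚ] E) (P : Ideal (𝓞 E)) :
    Ideal.absNorm (ρ • P) = Ideal.absNorm P := by
  have h1 : ρ • P = P.map (MulSemiringAction.toRingEquiv (E ≃ₐ[ℚ] E) (𝓞 E) ρ : 𝓞 E →+* 𝓞 E) := rfl
  rw [h1, Ideal.absNorm_apply, Ideal.absNorm_apply]
  exact (Nat.card_congr (Ideal.quotientEquiv P _
    (MulSemiringAction.toRingEquiv (E ≃ₐ[ℚ] E) (𝓞 E) ρ) rfl).toEquiv).symm

open scoped Pointwise in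
private theorem place_conj {E : Type} [Field E] [NumberField E] [IsGalois ℚ E] (l : ℕ) (hl : l.Prime)
    (w w₀ : FinitePlace E) (hw : w (l : E) < 1) (hw₀ : w₀ (l : E) < 1) :
    ∃ ρ : E ≃ₐ[ℚ] E, ∀ a, w₀ (ρ a) = w a := by
  have i1 := fr_under l hl w hw
  have i2 := fr_under l hl w₀ hw₀
  have i3 : w.maximalIdeal.asIdeal.IsPrime := w.maximalIdeal.isPrime
  have i4 : w₀.maximalIdeal.asIdeal.IsPrime := w₀.maximalIdeal.isPrime
  obtain ⟨ρ, hρ⟩ := Ideal.exists_smul_eq_of_isGaloisGroup (Ideal.span {(l : ℤ)}) w.maximalIdeal.asIdeal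
    w₀.maximalIdeal.asIdeal (E ≃ₐ[ℚ] E)
  have hN : Ideal.absNorm w₀.maximalIdeal.asIdeal = Ideal.absNorm w.maximalIdeal.asIdeal := by
    rw [← hρ, fr_norm]
  have hint : ∀ x : 𝓞 E, w₀ ((ρ • x : 𝓞 E) : E) = w (x : E) := by
    intro x
    have hpow : ∀ (n : ℕ), ρ • x ∈ w₀.maximalIdeal.asIdeal ^ n ↔ x ∈ w.maximalIdeal.asIdeal ^ n := by
      intro n
      rw [← hρ, ← smul_pow']
      exact Ideal.smul_mem_pointwise_smul_iff
    by_cases hx : x = 0
    · rw [hx, smul_zero]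
      simp
    have hx' : ρ • x ≠ 0 := by
      intro h
      apply hx
      have h1 : ρ⁻¹ • (ρ • x) = 0 := by rw [h, smul_zero]
      rwa [inv_smul_smul] at h1
    have h1 := w.apply_mul_absNorm_pow_eq_one hx
    have h2 := w₀.apply_mul_absNorm_pow_eq_one hx'
    have h3 : emultiplicity w₀.maximalIdeal.asIdeal (Ideal.span {ρ • x}) =
        emultiplicity w.maximalIdeal.asIdeal (Ideal.span {x}) := by
      refine emultiplicity_eq_emultiplicity_iff.2 fun n => ?_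
      rw [Ideal.dvd_span_singleton, Ideal.dvd_span_singleton]
      exact hpow n
    have h4 : multiplicity w₀.maximalIdeal.asIdeal (Ideal.span {ρ • x}) =
        multiplicity w.maximalIdeal.asIdeal (Ideal.span {x}) := by
      unfold multiplicity
      rw [h3]
    rw [h4, hN] at h2
    have h5 := h2.trans h1.symm
    refine mul_right_cancel₀ ?_ h5
    intro h
    rw [h, mul_zero] at h1
    exact zero_ne_one h1
  refine ⟨ρ, fun x => ?_⟩
  obtain ⟨a, b, hb, hab⟩ := IsFractionRing.div_surjective (A := 𝓞 E) x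
  have h1 : ρ x = ((ρ • a : 𝓞 E) : E) / ((ρ • b : 𝓞 E) : E) := by
    rw [← hab, map_div₀]
    rfl
  rw [h1, map_div₀, hint, hint, ← hab, map_div₀]

theorem frob_ex {E : Type} [Field E] [NumberField E] [IsGalois ℚ E] (l : ℕ) (hl : l.Prime) :
    ∃ Φ : E ≃ₐ[ℚ] E, IsFr l Φ := by
  by_cases hex : ∃ w₀ : FinitePlace E, w₀ (l : E) < 1
  · obtain ⟨w₀, hw₀⟩ := hex
    obtain ⟨Φ, hΦ1, hΦ2⟩ := Pool.Agent.H33.PT.frob_place w₀ l hl hw₀
    refine ⟨Φ, fun w hw => ?_⟩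
    obtain ⟨ρ, hρ⟩ := place_conj l hl w w₀ hw hw₀
    have e : ∀ a, ρ ((ρ⁻¹ * Φ * ρ) a) = Φ (ρ a) := fun a => by
      have h1 : (ρ⁻¹ * Φ * ρ) a = ρ⁻¹ (Φ (ρ a)) := rfl
      rw [h1]
      exact ρ.apply_symm_apply _
    refine ⟨ρ, fun a => ?_, fun a ha => ?_⟩
    · rw [← hρ, e, hΦ1, hρ]
    · rw [← hρ, map_sub, map_pow, e]
      refine hΦ2 _ ?_
      rw [hρ]
      exact ha
  · exact ⟨1, fun w hw => absurd ⟨w, hw⟩ hex⟩

end Pool.Agent.H72.AD
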