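import Pool.Agent.H72.AD.DfE

/-!
# POINTS THEOREM, chapter F: automorphisms permute the finite places

`prod_conj`. PROOF: for `g : E ≃ₐ[ℚ] E` the map `w ↦ w ∘ g` is a bijection of `FinitePlace E`: `FinitePlace.mk v` for `v : HeightOneSpectrum (𝓞 E)` is given by the normalized absolute value of `v`; `(FinitePlace.mk v) (g a) = (FinitePlace.mk (g⁻¹ v)) a`, where `g⁻¹ v` is the prime ideal `{x : 𝓞 E | g x ∈ v}` (same norm: `𝓞 E ⧸ v ≃ 𝓞 E ⧸ g⁻¹ v`; `fb_apply`, `fb_val`, `fb_inv` in `Pool/Agent/H72/PL/FrobB.lean`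
treat the case `g v = v`; `IsDedekindDomain.HeightOneSpectrum.equivOfRingEquiv`, `RingOfIntegers.mapRingEquiv` exist in Mathlib). Let `ψ : FinitePlace E ≃ FinitePlace E` be this bijection, `(ψ w) a = w (g a)` for all `a`; `(ψ w) (l : E) = w (g l) = w l`. So the function on the left at `w` is the function on the right at `ψ w`: `finprod_comp_equiv` (or `finprod_eq_of_bijective`). Prove also `perm_places`.
`perm_places`: the bijection itself.
-/

set_option autoImplicit false

open NumberField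

namespace Pool.Agent.H72.AD

open IsDedekindDomain in
theorem perm_places {E : Type} [Field E] [NumberField E] (g : E ≃ₐ[ℚ] E) :
    ∃ ψ : FinitePlace E ≃ FinitePlace E, ∀ w a, (ψ w) a = w (g a) := by
  classical
  let r : 𝓞 E ≃+* 𝓞 E := RingOfIntegers.mapRingEquiv g.toRingEquiv
  have hr : ∀ x : 𝓞 E, ((r x : 𝓞 E) : E) = g (x : E) := fun x => rfl
  let ψ : FinitePlace E ≃ FinitePlace E := FinitePlace.equivHeightOneSpectrum.trans
    ((HeightOneSpectrum.equivOfRingEquiv r.symm).trans FinitePlace.equivHeightOneSpectrum.symm)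
  refine ⟨ψ, fun w => ?_⟩
  have hmax : (ψ w).maximalIdeal = HeightOneSpectrum.equivOfRingEquiv r.symm w.maximalIdeal := by
    have h1 : FinitePlace.equivHeightOneSpectrum (ψ w) =
        HeightOneSpectrum.equivOfRingEquiv r.symm (FinitePlace.equivHeightOneSpectrum w) :=
      FinitePlace.equivHeightOneSpectrum.apply_symm_apply _
    exact h1
  have hI : (ψ w).maximalIdeal.asIdeal = w.maximalIdeal.asIdeal.comap (r : 𝓞 E →+* 𝓞 E) := by
    rw [hmax]
    rfl
  have hpow : ∀ n : ℕ, (w.maximalIdeal.asIdeal.comap (r : 𝓞 E →+* 𝓞 E)) ^ n =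
      (w.maximalIdeal.asIdeal ^ n).comap (r : 𝓞 E →+* 𝓞 E) := by
    intro n
    have h1 : ∀ J : Ideal (𝓞 E), J.comap (r : 𝓞 E →+* 𝓞 E) = J.map (r.symm : 𝓞 E →+* 𝓞 E) :=
      fun J => (Ideal.map_symm r).symm
    rw [h1, h1, Ideal.map_pow]
  have hnorm : (ψ w).maximalIdeal.asIdeal.absNorm = w.maximalIdeal.asIdeal.absNorm := by
    rw [Ideal.absNorm_apply, Ideal.absNorm_apply, Submodule.cardQuot_apply,
      Submodule.cardQuot_apply, hI]
    refine Nat.card_congr (Ideal.quotientEquiv _ _ r ?_).toEquiv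
    exact (Ideal.map_comap_of_surjective (r : 𝓞 E →+* 𝓞 E) r.surjective _).symm
  have hmul : ∀ x : 𝓞 E, multiplicity (ψ w).maximalIdeal.asIdeal (Ideal.span {x}) =
      multiplicity w.maximalIdeal.asIdeal (Ideal.span {r x}) := by
    intro x
    have h1 : emultiplicity (ψ w).maximalIdeal.asIdeal (Ideal.span {x}) =
        emultiplicity w.maximalIdeal.asIdeal (Ideal.span {r x}) := by
      rw [emultiplicity_eq_emultiplicity_iff]
      intro n
      rw [Ideal.dvd_span_singleton, Ideal.dvd_span_singleton, hI, hpow]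
      exact Iff.rfl
    unfold multiplicity
    rw [h1]
  have hint : ∀ x : 𝓞 E, (ψ w) (x : E) = w (g (x : E)) := by
    intro x
    rcases eq_or_ne x 0 with rfl | hx
    · have h0 : ((0 : 𝓞 E) : E) = 0 := rfl
      rw [h0, map_zero, map_zero, map_zero]
    have hx' : r x ≠ 0 := by
      rw [Ne, map_eq_zero_iff r r.injective]
      exact hx
    have h1 := FinitePlace.apply_mul_absNorm_pow_eq_one (ψ w) hx
    have h2 := FinitePlace.apply_mul_absNorm_pow_eq_one w hx'
    rw [hnorm, hmul] at h1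
    rw [hr] at h2
    have h3 : ((w.maximalIdeal.asIdeal.absNorm : ℝ) ^
        multiplicity w.maximalIdeal.asIdeal (Ideal.span {r x})) ≠ 0 := by
      intro h0
      rw [h0, mul_zero] at h2
      exact zero_ne_one h2
    exact mul_right_cancel₀ h3 (h1.trans h2.symm)
  intro a
  obtain ⟨x, y, hy, rfl⟩ := IsFractionRing.div_surjective (𝓞 E) a
  have hx := hint x
  have hy' := hint y
  rw [RingOfIntegers.coe_eq_algebraMap] at hx hy'
  rw [map_div₀, map_div₀, map_div₀, hx, hy']

theorem prod_conj {E : Type} [Field E] [NumberField E] (g : E ≃ₐ[ℚ] E) (l : ℕ) (d : E) :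
    ∏ᶠ w : FinitePlace E, (if w (l : E) < 1 then w (g d) else 1) =
      ∏ᶠ w : FinitePlace E, (if w (l : E) < 1 then w d else 1) := by
  obtain ⟨ψ, hψ⟩ := perm_places g
  rw [← finprod_comp_equiv ψ (f := fun w : FinitePlace E => if w (l : E) < 1 then w d else 1)]
  refine finprod_congr fun w => ?_
  rw [hψ, hψ, map_natCast g l]

end Pool.Agent.H72.AD
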