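import Pool.Agent.H72.AD.GrLoc
import Pool.Agent.H72.AD.PlPerm

/-!
# POINTS THEOREM, chapter F: the number of moved points, global inequality

`gram_glo`. PROOF (imports may be sorried). `d := det (mn (e j) (X i)) ≠ 0`, `S := ∑_j ∑_i logHeight₁ (X j i)`. `m w l` := `w (l : E) < 1`.
(1) `pf_ineq` (`Pool/Agent/H72/PL/PF.lean`) for `Δ := d`, index set `Fin D × Fin n`, `a := X j i`, exponents `N`, `C := D!`, and `e w := ∏_(l ∈ P) (if w l < 1 then w d else 1)` raised..: precisely `e w := if ∃ l ∈ P, w l < 1 then w d else 1`, equal to `∏_(l ∈ P) (if w l < 1 then w d else 1)` because a place lies above at most one prime. Infinite places: Leibniz, `v d ≤ D! ∏ max(1, v)^N` (`det_arch'` in `Pool/Agent/H11/TS/GloR.lean`, private: copy); finite places: `w d ≤ ∏ max^N` (ultrametric)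
and `w d ≤ w d * ∏ max^N`. Result: `0 ≤ finrank * log D! + N S + log ∏ᶠ e`, so `- ∑_(l ∈ P) log ∏ᶠ_w (if w l < 1 then w d else 1) ≤ finrank * log D! + N S` (`finprod_mul_distrib`, finite supports: `FinitePlace.hasFiniteMulSupport`).
(2) For `l ∈ P`: `prod_conj` for `g := (Φ l)⁻¹`: `∏ᶠ (if w l < 1 then w d else 1) = ∏ᶠ (if w l < 1 then w ((Φ l)⁻¹ d) else 1)`, `(Φ l)⁻¹ d = det (mn (e j) (cj (Φ l)⁻¹ X i))` (`map_det`). `Stab V (cj g X)`: for `τ ∈ V`: `τ (g (X j i)) = g ((g⁻¹ τ g) (X j i))`, `g⁻¹ τ g = (g⁻¹ τ g τ⁻¹) τ ∈ V` (`comm`).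
 `gram_loc` at every `w` with `w l < 1`: `(w ((Φ l)⁻¹ d))^(4 J) ≤ w l ^ bd V w (cj (Φ l)⁻¹ X) * ∏∏ max(1, w (cj .. j i))^(4 J N)`. Product over these `w` (finitely many, `finprod` as a finite product over the finite set `{w | w l < 1}`, all factors `> 0`), logarithm:
 `4 J log ∏ᶠ (if w l < 1 then w ((Φ l)⁻¹ d) else 1) ≤ log ∏ᶠ (if w l < 1 then w l ^ bd else 1) + 4 J N S`, because `∑_(w | l) log max(1, w y) ≤ logHeight₁ y` for every `y` (the other terms of the height are `≥ 0`) and `logHeight₁ (g y) = logHeight₁ y` (`perm_places` and the same for the infinite places; or `absLogHeight_eq` in `Pool/Agent/H4/RR`: the height does not depend on the embedding).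
(3) Add over `l ∈ P`: `- log ∏ᶠ UU = - ∑_l log ∏ᶠ (if .. w l ^ bd ..) ≤ - 4 J ∑_l log ∏ᶠ (if w l < 1 then w d else 1) + 4 J N |P| S ≤ 4 J (finrank * log D! + N S) + 4 J N |P| S`.
-/

set_option autoImplicit false

open NumberField Module

namespace Pool.Agent.H72.AD

open Pool.Agent.H33.TR

section

variable {E : Type} [Field E] [NumberField E]

private theorem fp_sum_le (w : FinitePlace E) {ι : Type} (s : Finset ι) (f : ι → E) (B : ℝ)
    (hB : 0 ≤ B) (h : ∀ i ∈ s, w (f i) ≤ B) : w (∑ i ∈ s, f i) ≤ B := by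
  classical
  induction s using Finset.induction_on with
  | empty =>
    rw [Finset.sum_empty, map_zero]
    exact hB
  | insert a s ha ih =>
    rw [Finset.sum_insert ha]
    exact (FinitePlace.add_le w _ _).trans (max_le (h a (Finset.mem_insert_self a s))
      (ih fun i hi => h i (Finset.mem_insert_of_mem hi)))

private theorem fp_nat_le (w : FinitePlace E) (n : ℤ) : w (n : E) ≤ 1 := by
  have h : (n : E) = algebraMap (𝓞 E) E (n : 𝓞 E) := (map_intCast _ _).symm
  rw [h, ← FinitePlace.norm_embedding_eq]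
  exact FinitePlace.norm_le_one E w.maximalIdeal (n : 𝓞 E)

omit [NumberField E] in
private theorem mn_le'' (v : AbsoluteValue E ℝ) {k M : ℕ} (m : Bx k M) (y : Fin k → E) :
    v (mn m y) ≤ ∏ l, (max 1 (v (y l))) ^ M := by
  unfold mn
  rw [map_prod]
  refine Finset.prod_le_prod (fun l _ => v.nonneg _) fun l _ => ?_
  rw [map_pow]
  calc v (y l) ^ (m l : ℕ) ≤ (max 1 (v (y l))) ^ (m l : ℕ) :=
        pow_le_pow_left₀ (v.nonneg _) (le_max_right _ _) _
    _ ≤ (max 1 (v (y l))) ^ M :=
        pow_le_pow_right₀ (le_max_left _ _) (Nat.le_of_lt_succ (m l).2)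

omit [NumberField E] in
private theorem det_arch'' (v : AbsoluteValue E ℝ) {D : ℕ}
    (A : Matrix (Fin D) (Fin D) E) (h : Fin D → ℝ) (hA : ∀ i j, v (A i j) ≤ h i) :
    v A.det ≤ (D.factorial : ℝ) * ∏ i, h i := by
  rw [Matrix.det_apply']
  refine (v.sum_le _ _).trans ?_
  have h1 : ∀ π ∈ (Finset.univ : Finset (Equiv.Perm (Fin D))),
      v ((((Equiv.Perm.sign π : ℤˣ) : ℤ) : E) * ∏ i, A (π i) i) ≤ ∏ i, h i := by
    intro π _
    have h2 : v (((Equiv.Perm.sign π : ℤˣ) : ℤ) : E) = 1 := by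
      rcases Int.units_eq_one_or (Equiv.Perm.sign π) with h | h
      · rw [h]; simp
      · rw [h]; simp
    rw [map_mul, h2, one_mul, map_prod, ← Equiv.prod_comp π h]
    exact Finset.prod_le_prod (fun i _ => v.nonneg _) fun i _ => hA _ _
  refine (Finset.sum_le_sum h1).trans (le_of_eq ?_)
  rw [Finset.sum_const, nsmul_eq_mul, Finset.card_univ, Fintype.card_perm, Fintype.card_fin]

private theorem det_fin'' (w : FinitePlace E) {D : ℕ}
    (A : Matrix (Fin D) (Fin D) E) (h : Fin D → ℝ) (h0 : ∀ i, 0 ≤ h i) (hA : ∀ i j, w (A i j) ≤ h i) :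
    w A.det ≤ ∏ i, h i := by
  rw [Matrix.det_apply']
  refine fp_sum_le w _ _ _ (Finset.prod_nonneg fun i _ => h0 i) fun π _ => ?_
  rw [map_mul, map_prod, ← Equiv.prod_comp π h]
  refine (mul_le_of_le_one_left (Finset.prod_nonneg fun i _ => apply_nonneg w _)
    (fp_nat_le w _)).trans ?_
  exact Finset.prod_le_prod (fun i _ => apply_nonneg w _) fun i _ => hA _ _

private theorem above_finite (l : ℕ) (hl : l.Prime) : {w : FinitePlace E | w (l : E) < 1}.Finite := by
  have h0 : (l : E) ≠ 0 := by exact_mod_cast hl.ne_zero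
  refine (FinitePlace.hasFiniteMulSupport (K := E) h0).subset fun w hw => ?_
  rw [Function.mem_mulSupport]
  exact ne_of_lt hw

private theorem above_uniq (w : FinitePlace E) {l l' : ℕ} (hl : l.Prime) (hl' : l'.Prime)
    (h : w (l : E) < 1) (h' : w (l' : E) < 1) : l = l' := by
  by_contra hne
  obtain ⟨a, b, hab⟩ := Nat.isCoprime_iff_coprime.2 ((Nat.coprime_primes hl hl').2 hne)
  have h1 : (a : E) * (l : E) + (b : E) * (l' : E) = 1 := by
    have := congrArg (fun z : ℤ => (z : E)) hab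
    push_cast at this
    exact this
  have h2 := FinitePlace.add_le w ((a : E) * (l : E)) ((b : E) * (l' : E))
  rw [h1, map_one, map_mul, map_mul] at h2
  have h3 : w (a : E) * w (l : E) < 1 :=
    lt_of_le_of_lt (mul_le_of_le_one_left (apply_nonneg w _) (fp_nat_le w a)) h
  have h4 : w (b : E) * w (l' : E) < 1 :=
    lt_of_le_of_lt (mul_le_of_le_one_left (apply_nonneg w _) (fp_nat_le w b)) h'
  exact absurd h2 (not_le.2 (max_lt h3 h4))

private theorem log_fp (f : FinitePlace E → ℝ) (hf : ∀ w, 0 < f w) (s : Finset (FinitePlace E))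
    (hs : ∀ w, w ∉ s → f w = 1) : Real.log (∏ᶠ w, f w) = ∑ w ∈ s, Real.log (f w) := by
  have h1 : (∏ᶠ w : FinitePlace E, f w) = ∏ w ∈ s, f w := by
    refine finprod_eq_prod_of_mulSupport_subset _ fun w hw => ?_
    by_contra h
    exact hw (hs w h)
  rw [h1, Real.log_prod fun w _ => (hf w).ne']

private theorem poslog_le (g : E ≃ₐ[ℚ] E) (s : Finset (FinitePlace E)) (y : E) :
    ∑ w ∈ s, Real.posLog (w (g y)) ≤ Height.logHeight₁ y := by
  classical
  obtain ⟨ψ, hψ⟩ := perm_places g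
  have h1 : ∑ w ∈ s, Real.posLog (w (g y)) = ∑ w ∈ s.map ψ.toEmbedding, Real.posLog (w y) := by
    rw [Finset.sum_map]
    refine Finset.sum_congr rfl fun w _ => ?_
    rw [← hψ]
    rfl
  have hfin : {w : FinitePlace E | Real.posLog (w y) ≠ 0}.Finite := by
    rcases eq_or_ne y 0 with rfl | hy
    · have : {w : FinitePlace E | Real.posLog (w (0 : E)) ≠ 0} = ∅ := by
        ext w
        simp
      rw [this]
      exact Set.finite_empty
    · refine (FinitePlace.hasFiniteMulSupport (K := E) hy).subset fun w hw => ?_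
      rw [Function.mem_mulSupport]
      intro h
      apply hw
      show Real.posLog (w y) = 0
      have h' : w y = 1 := h
      rw [h', Real.posLog_one]
  have h2 : ∑ᶠ w : FinitePlace E, Real.posLog (w y) =
      ∑ w ∈ s.map ψ.toEmbedding ∪ hfin.toFinset, Real.posLog (w y) := by
    refine finsum_eq_sum_of_support_subset _ fun w hw => ?_
    rw [Finset.coe_union]
    right
    rw [Set.Finite.coe_toFinset]
    exact hw
  rw [h1, logHeight₁_eq, h2]
  have h3 : 0 ≤ ∑ v : InfinitePlace E, (v.mult : ℝ) * Real.posLog (v y) :=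
    Finset.sum_nonneg fun v _ => mul_nonneg (Nat.cast_nonneg _) Real.posLog_nonneg
  have h4 : ∑ w ∈ s.map ψ.toEmbedding, Real.posLog (w y) ≤
      ∑ w ∈ s.map ψ.toEmbedding ∪ hfin.toFinset, Real.posLog (w y) :=
    Finset.sum_le_sum_of_subset_of_nonneg Finset.subset_union_left fun w _ _ => Real.posLog_nonneg
  linarith

private theorem stab_cj {n D : ℕ} {V : Subgroup (E ≃ₐ[ℚ] E)} {X : Fin D → Fin n → E}
    (hX : Stab V X) (g : E ≃ₐ[ℚ] E) : Stab V (cj g X) where
  comm := hX.comm
  ne := by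
    intro j i
    unfold cj
    rw [Ne, map_eq_zero_iff g g.injective]
    exact hX.ne j i
  inj := by
    intro j j' h
    apply hX.inj
    funext i
    exact g.injective (congrFun h i)
  st := by
    intro τ hτ j
    have h1 : g⁻¹ * τ * g ∈ V := by
      have h2 := V.mul_mem (hX.comm g⁻¹ τ) hτ
      have h3 : g⁻¹ * τ * g⁻¹⁻¹ * τ⁻¹ * τ = g⁻¹ * τ * g := by group
      rwa [h3] at h2
    obtain ⟨j', hj'⟩ := hX.st _ h1 j
    refine ⟨j', fun i => ?_⟩
    have h4 := hj' i
    unfold cj
    rw [← h4]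
    have h5 : g ((g⁻¹ * τ * g) (X j i)) = (g * (g⁻¹ * τ * g)) (X j i) := rfl
    rw [h5]
    have h6 : g * (g⁻¹ * τ * g) = τ * g := by group
    rw [h6]
    rfl

end

theorem gram_glo {E : Type} [Field E] [NumberField E] [IsGalois ℚ E] {n D N : ℕ} (P : Finset ℕ)
    (hP : ∀ l ∈ P, l.Prime) (V : Subgroup (E ≃ₐ[ℚ] E)) (J : ℕ)
    (hJ : ∀ l ∈ P, ∀ w : FinitePlace E, w (l : E) < 1 → V.relIndex (Ine w) ≤ J)
    (X : Fin D → Fin n → E) (hX : Stab V X) (e : Fin D → Bx n N)
    (he : Matrix.det (Matrix.of fun i j : Fin D => mn (e j) (X i)) ≠ 0)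
    (Φ : ℕ → (E ≃ₐ[ℚ] E)) :
    (Function.mulSupport (UU P V Φ X)).Finite ∧ (∀ w, 0 < UU P V Φ X w) ∧
    -Real.log (∏ᶠ w, UU P V Φ X w) ≤ 4 * J * ((finrank ℚ E : ℝ) * Real.log (D.factorial : ℕ) +
      ((P.card : ℝ) + 1) * N * ∑ j, ∑ i, Height.logHeight₁ (X j i)) := by
  classical
  obtain ⟨d, hd⟩ : ∃ d : E, d = Matrix.det (Matrix.of fun i j : Fin D => mn (e j) (X i)) := ⟨_, rfl⟩
  have hd0 : d ≠ 0 := by
    rw [hd]
    exact he
  obtain ⟨S, hS⟩ : ∃ S : ℝ, S = ∑ j, ∑ i, Height.logHeight₁ (X j i) := ⟨_, rfl⟩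
  rw [← hS]
  have hfinP : ∀ l ∈ P, {w : FinitePlace E | w (l : E) < 1}.Finite := fun l hl =>
    above_finite l (hP l hl)
  -- the places above `l`
  let Pl : ℕ → Finset (FinitePlace E) := fun l =>
    if h : {w : FinitePlace E | w (l : E) < 1}.Finite then h.toFinset else ∅
  have hPl : ∀ l ∈ P, ∀ w, w ∈ Pl l ↔ w (l : E) < 1 := by
    intro l hl w
    show w ∈ (if h : {w : FinitePlace E | w (l : E) < 1}.Finite then h.toFinset else ∅) ↔ _
    rw [dif_pos (hfinP l hl), Set.Finite.mem_toFinset]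
    rfl
  have hdisj : Set.PairwiseDisjoint (P : Set ℕ) Pl := by
    intro l hl l' hl' hne
    show Disjoint (Pl l) (Pl l')
    rw [Finset.disjoint_left]
    intro w hw hw'
    exact hne (above_uniq w (hP l hl) (hP l' hl') ((hPl l hl w).1 hw) ((hPl l' hl' w).1 hw'))
  have hlpos : ∀ l ∈ P, ∀ w : FinitePlace E, 0 < w (l : E) := fun l hl w => by
    have h0 : (l : E) ≠ 0 := by exact_mod_cast (hP l hl).ne_zero
    exact FinitePlace.pos_iff.2 h0
  have hUpos : ∀ w, 0 < UU P V Φ X w := by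
    intro w
    unfold UU
    refine Finset.prod_pos fun l hl => ?_
    split
    · exact pow_pos (hlpos l hl w) _
    · exact one_pos
  have hUone : ∀ w, w ∉ P.biUnion Pl → UU P V Φ X w = 1 := by
    intro w hw
    unfold UU
    refine Finset.prod_eq_one fun l hl => ?_
    rw [if_neg]
    intro h
    exact hw (Finset.mem_biUnion.2 ⟨l, hl, (hPl l hl w).2 h⟩)
  have hUsum : Real.log (∏ᶠ w, UU P V Φ X w) =
      ∑ l ∈ P, ∑ w ∈ Pl l, (bd V w (cj (Φ l)⁻¹ X) : ℝ) * Real.log (w (l : E)) := by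
    rw [log_fp _ hUpos (P.biUnion Pl) hUone, Finset.sum_biUnion hdisj]
    refine Finset.sum_congr rfl fun l hl => Finset.sum_congr rfl fun w hw => ?_
    have hwl := (hPl l hl w).1 hw
    unfold UU
    rw [Finset.prod_eq_single l]
    · rw [if_pos hwl, Real.log_pow]
    · intro l' hl' hne
      rw [if_neg]
      intro h
      exact hne (above_uniq w (hP l' hl') (hP l hl) h hwl)
    · intro h
      exact absurd hl h
  -- step 1
  have hstep1 : -∑ l ∈ P, ∑ w ∈ Pl l, Real.log (w d) ≤
      (finrank ℚ E : ℝ) * Real.log (D.factorial : ℕ) + N * S := by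
    have hre : ∀ v : AbsoluteValue E ℝ, ∏ i, ∏ l, (max 1 (v (X i l))) ^ N =
        ∏ j : Fin D × Fin n, ((max 1 (v (X j.1 j.2))) ^ N *
          (max 1 (v ((fun _ : Fin D × Fin n => (1 : E)) j))) ^ 0) := by
      intro v
      rw [Fintype.prod_prod_type]
      simp only [pow_zero, mul_one]
    have hinf : ∀ v : InfinitePlace E, v d ≤ ((D.factorial : ℕ) : ℝ) *
        ∏ j : Fin D × Fin n, ((max 1 (v (X j.1 j.2))) ^ N *
          (max 1 (v ((fun _ : Fin D × Fin n => (1 : E)) j))) ^ 0) := by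
      intro v
      have h1 := det_arch'' v.1 (Matrix.of fun i j : Fin D => mn (e j) (X i))
        (fun i => ∏ l, (max 1 (v.1 (X i l))) ^ N) (fun i j => mn_le'' v.1 (e j) (X i))
      rw [← hd, hre] at h1
      exact h1
    have hmf : ∀ w : FinitePlace E, w d ≤
        ∏ j : Fin D × Fin n, ((max 1 (w (X j.1 j.2))) ^ N *
          (max 1 (w ((fun _ : Fin D × Fin n => (1 : E)) j))) ^ 0) := by
      intro w
      have h1 := det_fin'' w (Matrix.of fun i j : Fin D => mn (e j) (X i))
        (fun i => ∏ l, (max 1 (w.1 (X i l))) ^ N)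
        (fun i => Finset.prod_nonneg fun l _ => pow_nonneg (zero_le_one.trans (le_max_left _ _)) _)
        (fun i j => mn_le'' w.1 (e j) (X i))
      rw [← hd, hre] at h1
      exact h1
    have h1le : ∀ w : FinitePlace E, 1 ≤
        ∏ j : Fin D × Fin n, ((max 1 (w (X j.1 j.2))) ^ N *
          (max 1 (w ((fun _ : Fin D × Fin n => (1 : E)) j))) ^ 0) := by
      intro w
      have h2 : (∏ _j : Fin D × Fin n, (1 : ℝ)) ≤
          ∏ j : Fin D × Fin n, ((max 1 (w (X j.1 j.2))) ^ N *
            (max 1 (w ((fun _ : Fin D × Fin n => (1 : E)) j))) ^ 0) := by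
        refine Finset.prod_le_prod (fun _ _ => zero_le_one) fun j _ => ?_
        rw [pow_zero, mul_one]
        exact one_le_pow₀ (le_max_left _ _)
      rwa [Finset.prod_const_one] at h2
    let ee : FinitePlace E → ℝ := fun w => if w ∈ P.biUnion Pl then w d else 1
    have hee0 : ∀ w, 0 < ee w := by
      intro w
      show 0 < (if w ∈ P.biUnion Pl then w d else 1)
      split
      · exact FinitePlace.pos_iff.2 hd0
      · exact one_pos
    have hees : (Function.mulSupport ee).Finite := by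
      refine (P.biUnion Pl).finite_toSet.subset fun w hw => ?_
      by_contra h
      exact hw (if_neg h)
    have hfin : ∀ w : FinitePlace E, w d ≤ ee w *
        ∏ j : Fin D × Fin n, ((max 1 (w (X j.1 j.2))) ^ N *
          (max 1 (w ((fun _ : Fin D × Fin n => (1 : E)) j))) ^ 0) := by
      intro w
      show w d ≤ (if w ∈ P.biUnion Pl then w d else 1) * _
      split
      · exact le_mul_of_one_le_right (apply_nonneg w _) (h1le w)
      · rw [one_mul]
        exact hmf w
    have hC1 : (1 : ℝ) ≤ ((D.factorial : ℕ) : ℝ) := by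
      exact_mod_cast Nat.succ_le_iff.2 (Nat.factorial_pos _)
    have key := Pool.Agent.H72.PL.pf_ineq d hd0 (fun j : Fin D × Fin n => X j.1 j.2)
      (fun _ : Fin D × Fin n => (1 : E)) (fun _ => N) (fun _ => 0)
      ((D.factorial : ℕ) : ℝ) hC1 ee hee0 hees hinf hfin
    have h4 : ∑ j : Fin D × Fin n, ((N : ℝ) * Height.logHeight₁ (X j.1 j.2) +
        ((0 : ℕ) : ℝ) * Height.logHeight₁ (1 : E)) = N * S := by
      rw [Fintype.sum_prod_type, hS, Finset.mul_sum]
      refine Finset.sum_congr rfl fun i _ => ?_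
      rw [Finset.mul_sum]
      refine Finset.sum_congr rfl fun l _ => ?_
      rw [Nat.cast_zero, zero_mul, add_zero]
    have h5 : Real.log (∏ᶠ w, ee w) = ∑ l ∈ P, ∑ w ∈ Pl l, Real.log (w d) := by
      rw [log_fp ee hee0 (P.biUnion Pl) (fun w hw => if_neg hw), Finset.sum_biUnion hdisj]
      refine Finset.sum_congr rfl fun l hl => Finset.sum_congr rfl fun w hw => ?_
      show Real.log (if w ∈ P.biUnion Pl then w d else 1) = _
      rw [if_pos (Finset.mem_biUnion.2 ⟨l, hl, hw⟩)]
    rw [h4, h5] at key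
    linarith
  -- step 2
  have hstep2 : ∀ l ∈ P, 4 * (J : ℝ) * ∑ w ∈ Pl l, Real.log (w d) ≤
      ∑ w ∈ Pl l, (bd V w (cj (Φ l)⁻¹ X) : ℝ) * Real.log (w (l : E)) + 4 * J * N * S := by
    intro l hl
    obtain ⟨g, hg⟩ : ∃ g : E ≃ₐ[ℚ] E, g = (Φ l)⁻¹ := ⟨_, rfl⟩
    rw [← hg]
    have hgd : g d = Matrix.det (Matrix.of fun i j : Fin D => mn (e j) (cj g X i)) := by
      rw [hd]
      have h1 := RingHom.map_det ((g : E ≃ₐ[ℚ] E) : E →+* E)
        (Matrix.of fun i j : Fin D => mn (e j) (X i))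
      refine h1.trans ?_
      congr 1
      ext i j
      show g (mn (e j) (X i)) = mn (e j) (cj g X i)
      unfold mn cj
      rw [map_prod]
      exact Finset.prod_congr rfl fun k _ => map_pow _ _ _
    have hgd0 : g d ≠ 0 := by
      rw [Ne, map_eq_zero_iff g g.injective]
      exact hd0
    have h1 : ∑ w ∈ Pl l, Real.log (w (g d)) = ∑ w ∈ Pl l, Real.log (w d) := by
      have h2 := congrArg Real.log (prod_conj g l d)
      rw [log_fp (fun w : FinitePlace E => if w (l : E) < 1 then w (g d) else 1) (fun w => by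
          split
          · exact FinitePlace.pos_iff.2 hgd0
          · exact one_pos) (Pl l) (fun w hw => if_neg fun h => hw ((hPl l hl w).2 h)),
        log_fp (fun w : FinitePlace E => if w (l : E) < 1 then w d else 1) (fun w => by
          split
          · exact FinitePlace.pos_iff.2 hd0
          · exact one_pos) (Pl l) (fun w hw => if_neg fun h => hw ((hPl l hl w).2 h))] at h2
      rw [Finset.sum_congr rfl fun w hw => by rw [if_pos ((hPl l hl w).1 hw)]] at h2
      rw [h2]
      exact Finset.sum_congr rfl fun w hw => by rw [if_pos ((hPl l hl w).1 hw)]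
    rw [← h1, Finset.mul_sum]
    have h2 : ∀ w ∈ Pl l, 4 * (J : ℝ) * Real.log (w (g d)) ≤
        (bd V w (cj g X) : ℝ) * Real.log (w (l : E)) +
          ∑ j, ∑ i, (4 * J * N : ℝ) * Real.posLog (w (g (X j i))) := by
      intro w hw
      have hwl := (hPl l hl w).1 hw
      have h3 := gram_loc w l (hP l hl) hwl V J (hJ l hl w hwl) (cj g X) (stab_cj hX g) e
      rw [← hgd] at h3
      have hmax : ∀ x : ℝ, (0 : ℝ) < max 1 x := fun x => lt_of_lt_of_le one_pos (le_max_left _ _)
      have hpos1 : 0 < w (g d) ^ (4 * J) := pow_pos (FinitePlace.pos_iff.2 hgd0) _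
      have hpos2 : 0 < w (l : E) ^ bd V w (cj g X) := pow_pos (hlpos l hl w) _
      have hpos3 : ∀ j, 0 < ∏ i, (max 1 (w (cj g X j i))) ^ (4 * J * N) := fun j =>
        Finset.prod_pos fun i _ => pow_pos (hmax _) _
      have h4 := Real.log_le_log hpos1 h3
      rw [Real.log_pow, Real.log_mul hpos2.ne' (Finset.prod_pos fun j _ => hpos3 j).ne',
        Real.log_pow, Real.log_prod fun j _ => (hpos3 j).ne'] at h4
      have h5 : ∑ j, Real.log (∏ i, (max 1 (w (cj g X j i))) ^ (4 * J * N)) =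
          ∑ j, ∑ i, (4 * J * N : ℝ) * Real.posLog (w (g (X j i))) := by
        refine Finset.sum_congr rfl fun j _ => ?_
        rw [Real.log_prod fun i _ => (pow_pos (hmax _) _).ne']
        refine Finset.sum_congr rfl fun i _ => ?_
        rw [Real.log_pow, Real.posLog_eq_log_max_one (apply_nonneg w _)]
        push_cast
        rfl
      rw [h5] at h4
      push_cast at h4
      exact h4
    refine (Finset.sum_le_sum h2).trans ?_
    rw [Finset.sum_add_distrib]
    have h6 : ∑ w ∈ Pl l, ∑ j, ∑ i, (4 * J * N : ℝ) * Real.posLog (w (g (X j i))) ≤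
        4 * J * N * S := by
      rw [Finset.sum_comm, hS, Finset.mul_sum]
      refine Finset.sum_le_sum fun j _ => ?_
      rw [Finset.sum_comm, Finset.mul_sum]
      refine Finset.sum_le_sum fun i _ => ?_
      rw [← Finset.mul_sum]
      exact mul_le_mul_of_nonneg_left (poslog_le g (Pl l) (X j i)) (by positivity)
    linarith
  -- step 3
  refine ⟨?_, hUpos, ?_⟩
  · refine (P.biUnion Pl).finite_toSet.subset fun w hw => ?_
    by_contra h
    exact hw (hUone w h)
  · rw [hUsum]
    have h7 := Finset.sum_le_sum hstep2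
    rw [← Finset.mul_sum, Finset.sum_add_distrib, Finset.sum_const, nsmul_eq_mul] at h7
    have h8 : (0 : ℝ) ≤ 4 * J := by positivity
    have h9 := mul_le_mul_of_nonneg_left hstep1 h8
    nlinarith [h7, h9]

end Pool.Agent.H72.AD
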