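import Mathlib

/-!
# POINTS THEOREM, chapter F: choice of rows and columns

`choose_rows`. PROOF: `exists_linearIndependent` (or `exists_linearIndependent'`): `A₀` with `u i`, `i ∈ A₀`, a basis of `span (range u)` (choose indices: `exists_linearIndependent' E u : ∃ κ, a : κ → ιJ injective, span (range (u ∘ a)) = span (range u), LinearIndependent (u ∘ a)`, `A₀ := image of a`). Extend the independent family by evaluations: a maximal set `A₁` of indices of `ιE` such that
`Sum.elim (u restricted to A₀) (t restricted to A₁)` is linearly independent (finite induction / `exists_maximal`); then every `t j` is in the span of the family, so `span (range t) ≤` span, `card ιE = finrank (span (range t)) ≤ A₀.card + A₁.card`. The matrix with `A₀.card + A₁.card` independent rows and columns `B` has a nonzero minor: the transpose has the same rank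
(`Matrix.rank_transpose`, `rank_eq_finrank_span_cols`), choose columns `c` which are a basis of the column space (`exists_linearIndependent'` again; their number is the rank = number of rows), injective, square matrix with independent columns: `det ≠ 0` (`Matrix.linearIndependent_rows_iff_isUnit`, ..).
-/

set_option autoImplicit false

namespace Pool.Agent.H72.AD

private lemma choose_cols {E : Type} [Field E] {B n : Type} [Fintype B] [Fintype n]
    [DecidableEq n] (M : n → B → E) (hM : LinearIndependent E M) :
    ∃ c : n → B, Function.Injective c ∧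
      Matrix.det (Matrix.of fun i j : n => M i (c j)) ≠ 0 := by
  classical
  obtain ⟨κ, a, ha, hspan, hind⟩ := exists_linearIndependent' E (fun b : B => fun i : n => M i b)
  have : Finite κ := Finite.of_injective a ha
  letI : Fintype κ := Fintype.ofFinite κ
  have hrank : (Matrix.of M).rank = Fintype.card n := by
    rw [Matrix.rank_eq_finrank_span_row]
    exact finrank_span_eq_card hM
  have hcol : (Matrix.of M).rank = Fintype.card κ := by
    rw [Matrix.rank_eq_finrank_span_cols]
    have h1 : Set.range (Matrix.of M).col = Set.range (fun b : B => fun i : n => M i b) := rfl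
    rw [h1, ← hspan]
    exact finrank_span_eq_card hind
  have hcard : Fintype.card n = Fintype.card κ := hrank.symm.trans hcol
  let e : n ≃ κ := Fintype.equivOfCardEq hcard
  refine ⟨a ∘ e, ha.comp e.injective, ?_⟩
  have h2 : LinearIndependent E (fun j : n => fun i : n => M i (a (e j))) :=
    hind.comp e e.injective
  have h3 : IsUnit (Matrix.of fun j i : n => M i (a (e j))) := by
    rw [← Matrix.linearIndependent_rows_iff_isUnit]
    exact h2
  have h4 := (Matrix.isUnit_iff_isUnit_det _).1 h3
  rw [← Matrix.det_transpose]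
  exact h4.ne_zero

theorem choose_rows {E : Type} [Field E] {B ιJ ιE : Type} [Fintype B] [Fintype ιJ] [Fintype ιE]
    [DecidableEq ιJ] [DecidableEq ιE] (u : ιJ → B → E) (t : ιE → B → E)
    (ht : LinearIndependent E t) :
    ∃ (A₀ : Finset ιJ) (A₁ : Finset ιE) (c : A₀ ⊕ A₁ → B), Function.Injective c ∧
      Matrix.det (Matrix.of fun i j : A₀ ⊕ A₁ =>
        Sum.elim (fun i : A₀ => u i (c j)) (fun i : A₁ => t i (c j)) i) ≠ 0 ∧
      (∀ j, u j ∈ Submodule.span E (Set.range fun i : A₀ => u i)) ∧
      Fintype.card ιE ≤ A₀.card + A₁.card := by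
  classical
  obtain ⟨b₀, hb₀, -, hs₀, hi₀⟩ := exists_linearIndepOn_extension
    (K := E) (v := Sum.elim u t) (s := ∅) (t := Set.range Sum.inl)
    (linearIndepOn_empty _ _) (Set.empty_subset _)
  obtain ⟨b, -, hb₀b, hs, hi⟩ := exists_linearIndepOn_extension
    (K := E) (v := Sum.elim u t) (s := b₀) (t := Set.univ) hi₀ (Set.subset_univ _)
  let A₀ : Finset ιJ := Finset.univ.filter fun i => Sum.inl i ∈ b
  let A₁ : Finset ιE := Finset.univ.filter fun i => Sum.inr i ∈ b
  have hA₀ : ∀ i : A₀, (Sum.inl (i : ιJ) : ιJ ⊕ ιE) ∈ b := fun i => (Finset.mem_filter.1 i.2).2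
  have hA₁ : ∀ i : A₁, (Sum.inr (i : ιE) : ιJ ⊕ ιE) ∈ b := fun i => (Finset.mem_filter.1 i.2).2
  let M : A₀ ⊕ A₁ → B → E := Sum.elim (fun i : A₀ => u i) (fun i : A₁ => t i)
  let φ : A₀ ⊕ A₁ → b := Sum.elim (fun i => ⟨Sum.inl (i : ιJ), hA₀ i⟩)
    (fun i => ⟨Sum.inr (i : ιE), hA₁ i⟩)
  have hφ : Function.Injective φ := by
    rintro (i | i) (j | j) h
    · have := congrArg Subtype.val h
      simp only [φ, Sum.elim_inl, Sum.inl.injEq] at this
      rw [Subtype.ext this]
    · have := congrArg Subtype.val h
      simp [φ] at this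
    · have := congrArg Subtype.val h
      simp [φ] at this
    · have := congrArg Subtype.val h
      simp only [φ, Sum.elim_inr, Sum.inr.injEq] at this
      rw [Subtype.ext this]
  have hMi : LinearIndependent E M := by
    have h1 : LinearIndependent E ((fun x : b => Sum.elim u t (x : ιJ ⊕ ιE)) ∘ φ) :=
      LinearIndependent.comp hi φ hφ
    have h2 : ((fun x : b => Sum.elim u t (x : ιJ ⊕ ιE)) ∘ φ) = M := by
      funext x
      rcases x with i | i <;> rfl
    rwa [h2] at h1
  obtain ⟨c, hc, hdet⟩ := choose_cols M hMi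
  refine ⟨A₀, A₁, c, hc, ?_, ?_, ?_⟩
  · convert hdet using 3
    funext i j
    rcases i with i | i <;> rfl
  · intro j
    have h1 : u j ∈ Submodule.span E ((Sum.elim u t) '' b₀) :=
      hs₀ ⟨Sum.inl j, ⟨j, rfl⟩, rfl⟩
    refine Submodule.span_mono ?_ h1
    rintro _ ⟨x, hx, rfl⟩
    obtain ⟨i, rfl⟩ := hb₀ hx
    exact ⟨⟨i, Finset.mem_filter.2 ⟨Finset.mem_univ _, hb₀b hx⟩⟩, rfl⟩
  · have h1 : Submodule.span E (Set.range t) ≤ Submodule.span E (Set.range M) := by
      rw [Submodule.span_le]
      rintro _ ⟨j, rfl⟩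
      have h2 : t j ∈ Submodule.span E ((Sum.elim u t) '' b) :=
        hs ⟨Sum.inr j, Set.mem_univ _, rfl⟩
      refine Submodule.span_mono ?_ h2
      rintro _ ⟨x, hx, rfl⟩
      rcases x with i | i
      · exact ⟨Sum.inl ⟨i, Finset.mem_filter.2 ⟨Finset.mem_univ _, hx⟩⟩, rfl⟩
      · exact ⟨Sum.inr ⟨i, Finset.mem_filter.2 ⟨Finset.mem_univ _, hx⟩⟩, rfl⟩
    have h3 := Submodule.finrank_mono h1
    rw [finrank_span_eq_card ht, finrank_span_eq_card hMi] at h3
    simpa [Fintype.card_sum, Fintype.card_coe] using h3

end Pool.Agent.H72.AD
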