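import Pool.Agent.H33.TR.Loc

/-!
# POINTS THEOREM, chapter F: separation of a union of point sets

`sep`. PROOF. Write `g(z)` for `∑_(b ∈ Bx n N') a_b mn b z`: function of box `N'`. Products: box `N'` times box `N''` is in box `N' + N''`; a function of a box is a function of every larger box.
(1) For each `l`: the functions of box `N` take arbitrary values at the `D` points `Z l i` (`hZ`: `D` of the columns form an invertible matrix); in particular the `Z l i` are different.
(2) `y ≠ Z l i` for all `i`: there is a function `s` of box `N + 1` with `s (Z l i) = 0` for all `i` and `s y ≠ 0`. Suppose not. For `φ : Fin D → E` let `λ φ := g(y)` for any `g` of box `N` with `g (Z l i) = φ i`: well defined and linear (two choices differ by a function of box `N` vanishing on `Z l`, so `0` at `y`). `λ 1 = 1` (constant function `1`).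
`λ (i ↦ Z l i c * φ i) = y c * λ φ` for each coordinate `c`: `X_c g - g'` with `g'` of box `N`, `g' (Z l i) = Z l i c φ i`, has box `N + 1` and vanishes on `Z l`, so at `y`. `1 = λ 1 = ∑_i λ δ_i`, so `λ δ_i ≠ 0` for one `i`, and `Z l i c * λ δ_i = λ (Z l · c δ_i) = y c λ δ_i` for all `c`: `y = Z l i`, contradiction. (`D = 0`: the constant `1` itself, it vanishes on the empty set.)
(3) For `(l, i)`: `g` of box `N` with `g (Z l i) = 1`, `g (Z l i') = 0` for `i' ≠ i`, times the product over `l' ≠ l` of the `s` of (2) for `l'` and `y = Z l i` (`hdis`): a function of box `N + (card I - 1) (N + 1) ≤ M` which is `≠ 0` at `Z l i` and `0` at all other points `Z l' i'`. So the evaluation rows are independent (apply a vanishing combination `∑ c_p (b ↦ mn b (Z p))` to the coefficients of this function: `c_(l,i) = 0`).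
-/

set_option autoImplicit false

namespace Pool.Agent.H72.AD

open Pool.Agent.H33.TR

/-- the functions of box `N` -/
private def Bo (E : Type) [Field E] (n N : ℕ) : Submodule E ((Fin n → E) → E) :=
  Submodule.span E (Set.range fun b : Bx n N => fun z : Fin n → E => mn b z)

private theorem mn_mem {E : Type} [Field E] {n N : ℕ} (b : Bx n N) : (fun z : Fin n → E => mn b z) ∈ Bo E n N :=
  Submodule.subset_span ⟨b, rfl⟩

private theorem bo_mono {E : Type} [Field E] {n N N' : ℕ} (h : N ≤ N') : Bo E n N ≤ Bo E n N' := by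
  unfold Bo
  rw [Submodule.span_le]
  rintro _ ⟨b, rfl⟩
  refine Submodule.subset_span ⟨fun l => ⟨b l, by have := (b l).2; omega⟩, ?_⟩
  rfl

private theorem bo_mul {E : Type} [Field E] {n N N' : ℕ} {f g : (Fin n → E) → E} (hf : f ∈ Bo E n N) (hg : g ∈ Bo E n N') :
    f * g ∈ Bo E n (N + N') := by
  unfold Bo at hf hg
  induction hf using Submodule.span_induction with
  | mem f hf =>
    obtain ⟨b, rfl⟩ := hf
    induction hg using Submodule.span_induction with
    | mem g hg =>
      obtain ⟨b', rfl⟩ := hg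
      refine Submodule.subset_span ⟨fun l => ⟨b l + b' l, by have := (b l).2; have := (b' l).2; omega⟩, ?_⟩
      funext z
      show ∏ l, z l ^ ((b l : ℕ) + (b' l : ℕ)) = (∏ l, z l ^ (b l : ℕ)) * ∏ l, z l ^ (b' l : ℕ)
      rw [← Finset.prod_mul_distrib]
      exact Finset.prod_congr rfl fun l _ => pow_add _ _ _
    | zero => rw [mul_zero]; exact zero_mem _
    | add x y _ _ hx hy => rw [mul_add]; exact add_mem hx hy
    | smul a x _ hx => rw [mul_smul_comm]; exact Submodule.smul_mem _ _ hx
  | zero => rw [zero_mul]; exact zero_mem _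
  | add x y _ _ hx hy => rw [add_mul]; exact add_mem hx hy
  | smul a x _ hx => rw [smul_mul_assoc]; exact Submodule.smul_mem _ _ hx

private theorem bo_one {E : Type} [Field E] {n N : ℕ} : (1 : (Fin n → E) → E) ∈ Bo E n N := by
  refine Submodule.subset_span ⟨fun _ => 0, ?_⟩
  funext z
  show ∏ l, z l ^ (((0 : Fin (N + 1)) : ℕ)) = 1
  simp

private theorem bo_X {E : Type} [Field E] {n : ℕ} (c : Fin n) : (fun z : Fin n → E => z c) ∈ Bo E n 1 := by
  classical
  refine Submodule.subset_span ⟨fun l => if l = c then 1 else 0, ?_⟩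
  funext z
  show ∏ l, z l ^ (((if l = c then 1 else 0 : Fin 2)) : ℕ) = z c
  rw [Finset.prod_eq_single c]
  · simp
  · intro b _ hb
    rw [if_neg hb]
    simp
  · intro h
    exact absurd (Finset.mem_univ c) h

private theorem bo_interp {E : Type} [Field E] {n N D : ℕ} (Z : Fin D → Fin n → E)
    (hZ : ∃ e : Fin D → Bx n N, Matrix.det (Matrix.of fun i j : Fin D => mn (e j) (Z i)) ≠ 0) (φ : Fin D → E) :
    ∃ g ∈ Bo E n N, ∀ i, g (Z i) = φ i := by
  obtain ⟨e, he⟩ := hZ
  set A : Matrix (Fin D) (Fin D) E := Matrix.of fun i j : Fin D => mn (e j) (Z i) with hA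
  have hU : IsUnit A.det := isUnit_iff_ne_zero.2 he
  refine ⟨∑ j, (A⁻¹.mulVec φ) j • (fun z : Fin n → E => mn (e j) z), ?_, ?_⟩
  · exact Submodule.sum_mem _ fun j _ => Submodule.smul_mem _ _ (mn_mem _)
  · intro i
    have h1 : A.mulVec (A⁻¹.mulVec φ) = φ := by
      rw [Matrix.mulVec_mulVec, Matrix.mul_nonsing_inv _ hU, Matrix.one_mulVec]
    have h2 := congrFun h1 i
    rw [Matrix.mulVec, dotProduct] at h2
    rw [Finset.sum_apply, ← h2]
    refine Finset.sum_congr rfl fun j _ => ?_
    show (A⁻¹.mulVec φ) j * mn (e j) (Z i) = mn (e j) (Z i) * (A⁻¹.mulVec φ) j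
    rw [mul_comm]

private theorem bo_sep {E : Type} [Field E] {n N D : ℕ} (Z : Fin D → Fin n → E)
    (hZ : ∃ e : Fin D → Bx n N, Matrix.det (Matrix.of fun i j : Fin D => mn (e j) (Z i)) ≠ 0) (y : Fin n → E)
    (hy : ∀ i, Z i ≠ y) : ∃ s ∈ Bo E n (N + 1), (∀ i, s (Z i) = 0) ∧ s y ≠ 0 := by
  classical
  by_contra hcon
  push Not at hcon
  have hg : ∀ i, ∃ g ∈ Bo E n N, ∀ j, g (Z j) = if j = i then 1 else 0 := fun i =>
    bo_interp Z hZ fun j => if j = i then 1 else 0
  choose g hg1 hg2 using hg
  have h1 : (1 - ∑ i, g i : (Fin n → E) → E) ∈ Bo E n (N + 1) :=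
    sub_mem bo_one (Submodule.sum_mem _ fun i _ => bo_mono (Nat.le_succ N) (hg1 i))
  have h2 := hcon _ h1 (by
    intro j
    rw [Pi.sub_apply, Finset.sum_apply, Pi.one_apply]
    simp only [hg2]
    simp)
  rw [Pi.sub_apply, Finset.sum_apply, Pi.one_apply, sub_eq_zero] at h2
  obtain ⟨i, -, hi⟩ : ∃ i ∈ Finset.univ, g i y ≠ 0 := by
    apply Finset.exists_ne_zero_of_sum_ne_zero
    rw [← h2]
    exact one_ne_zero
  apply hy i
  funext c
  have h3 : ((fun z : Fin n → E => z c) * g i - Z i c • g i : (Fin n → E) → E) ∈ Bo E n (N + 1) := by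
    refine sub_mem ?_ (Submodule.smul_mem _ _ (bo_mono (Nat.le_succ N) (hg1 i)))
    have := bo_mul (bo_X (E := E) c) (hg1 i)
    rwa [add_comm] at this
  have h4 := hcon _ h3 (by
    intro j
    show Z j c * g i (Z j) - Z i c * g i (Z j) = 0
    rw [hg2]
    by_cases hji : j = i
    · rw [hji]
      ring
    · rw [if_neg hji]
      ring)
  have h5 : y c * g i y - Z i c * g i y = 0 := h4
  have h6 : (y c - Z i c) * g i y = 0 := by rw [← h5]; ring
  exact (sub_eq_zero.1 ((mul_eq_zero.1 h6).resolve_right hi)).symm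

private theorem bo_prod {E : Type} [Field E] {n N : ℕ} {I : Type} (t : Finset I) (s : I → (Fin n → E) → E)
    (h : ∀ i ∈ t, s i ∈ Bo E n N) : ∏ i ∈ t, s i ∈ Bo E n (t.card * N) := by
  classical
  induction t using Finset.induction_on with
  | empty => simp only [Finset.prod_empty]; exact bo_one
  | insert a t ha ih =>
    rw [Finset.prod_insert ha, Finset.card_insert_of_notMem ha, add_mul, one_mul, add_comm]
    exact bo_mul (h a (Finset.mem_insert_self _ _)) (ih fun i hi => h i (Finset.mem_insert_of_mem hi))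

theorem sep {E : Type} [Field E] {n N M D : ℕ} {I : Type} [Fintype I] (Z : I → Fin D → Fin n → E)
    (hZ : ∀ l, ∃ e : Fin D → Bx n N, Matrix.det (Matrix.of fun i j : Fin D => mn (e j) (Z l i)) ≠ 0)
    (hdis : ∀ l l', l ≠ l' → ∀ i j, Z l i ≠ Z l' j) (hM : Fintype.card I * (N + 1) ≤ M) :
    LinearIndependent E (fun p : I × Fin D => fun b : Bx n M => mn b (Z p.1 p.2)) := by
  classical
  rw [Fintype.linearIndependent_iff]
  intro c hc
  have h1 : ∀ f ∈ Bo E n M, ∑ p : I × Fin D, c p * f (Z p.1 p.2) = 0 := by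
    intro f hf
    unfold Bo at hf
    induction hf using Submodule.span_induction with
    | mem f hf =>
      obtain ⟨b, rfl⟩ := hf
      have h2 := congrFun hc b
      rw [Finset.sum_apply] at h2
      exact h2
    | zero => simp
    | add x y _ _ hx hy =>
      simp only [Pi.add_apply, mul_add, Finset.sum_add_distrib, hx, hy, add_zero]
    | smul a x _ hx =>
      simp only [Pi.smul_apply, smul_eq_mul]
      have h3 : ∀ p : I × Fin D, c p * (a * x (Z p.1 p.2)) = a * (c p * x (Z p.1 p.2)) := fun p => by ring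
      simp only [h3]
      rw [← Finset.mul_sum, hx, mul_zero]
  rintro ⟨l, i⟩
  obtain ⟨g, hg1, hg2⟩ := bo_interp (Z l) (hZ l) fun j => if j = i then 1 else 0
  have hs : ∀ l' : I, ∃ s ∈ Bo E n (N + 1), l' ≠ l → (∀ j, s (Z l' j) = 0) ∧ s (Z l i) ≠ 0 := by
    intro l'
    by_cases hl : l' = l
    · exact ⟨0, zero_mem _, fun h => absurd hl h⟩
    · obtain ⟨s, hs1, hs2, hs3⟩ := bo_sep (Z l') (hZ l') (Z l i) fun j => hdis l' l hl j i
      exact ⟨s, hs1, fun _ => ⟨hs2, hs3⟩⟩
  choose s hs1 hs2 using hs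
  have hcard : (Finset.univ.erase l).card + 1 = Fintype.card I := by
    rw [Finset.card_erase_of_mem (Finset.mem_univ l), Finset.card_univ]
    have : 0 < Fintype.card I := Fintype.card_pos_iff.2 ⟨l⟩
    omega
  have hf : g * ∏ l' ∈ Finset.univ.erase l, s l' ∈ Bo E n M := by
    refine bo_mono ?_ (bo_mul hg1 (bo_prod _ s fun l' _ => hs1 l'))
    rw [← hcard] at hM
    have h2 : ((Finset.univ.erase l).card + 1) * (N + 1) = (Finset.univ.erase l).card * (N + 1) + (N + 1) := by ring
    omega
  have h2 := h1 _ hf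
  rw [Finset.sum_eq_single (l, i)] at h2
  · rw [Pi.mul_apply, Finset.prod_apply, hg2, if_pos rfl, one_mul] at h2
    refine (mul_eq_zero.1 h2).resolve_right ?_
    exact Finset.prod_ne_zero_iff.2 fun l' hl' => (hs2 l' (Finset.mem_erase.1 hl').1).2
  · rintro ⟨l', i'⟩ _ hne
    rw [Pi.mul_apply, Finset.prod_apply]
    by_cases hl : l' = l
    · subst hl
      have hi : i' ≠ i := fun h => hne (by rw [h])
      show c (l', i') * (g (Z l' i') * _) = 0
      rw [hg2, if_neg hi, zero_mul, mul_zero]
    · show c (l', i') * (g (Z l' i') * ∏ l'' ∈ Finset.univ.erase l, s l'' (Z l' i')) = 0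
      rw [Finset.prod_eq_zero (Finset.mem_erase.2 ⟨hl, Finset.mem_univ _⟩) ((hs2 l' hl).1 i'), mul_zero, mul_zero]
  · intro h
    exact absurd (Finset.mem_univ _) h

end Pool.Agent.H72.AD
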