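import Pool.Agent.H72.AD.DeLoc
import Pool.Agent.H72.AD.GrGlo
import Pool.Agent.H72.AD.Fr
import Pool.Agent.H72.AD.Lin
import Pool.Agent.H72.AD.Sep

/-!
# POINTS THEOREM, chapter F: the final inequality

`det_ineq`. PROOF (imports may be sorried). `R := P.card`, `M := R (N + 1)`. If `P = ∅`: the left side is `- T^(n+1) D lam ≤ 0 ≤` right side (`θ ≥ 0` if `D ≥ 1`: heights are `≥ 0`; `J, T` natural). Let `P ≠ ∅`, so `L ≥ 2`.
1. `Φ l` from `frob_ex` for `l ∈ P` (`1` otherwise). Rows `tt Φ X` are independent: `sep` with `I := P`, `Z l i := fun a => (cj (Φ l)⁻¹ X i a)^l`: `hreg` and `map_det` for `(Φ l)⁻¹` (`(Φ l)⁻¹ (det) ≠ 0`); `hdis`: if `(Φ_l⁻¹ X i i₀)^l = (Φ_l'⁻¹ X j i₀)^l'` then `l h₀ = l' h₀` (`logHeight₁ (x^l) = l logHeight₁ x`, `logHeight₁ (g x) = logHeight₁ x`), `l = l'`.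
2. `choose_rows` for `uu X`, `tt Φ X`: `A₀`, `A₁`, `c`, `det ≠ 0`, `hspan`, `R D ≤ r₀ + r₁`, `r₀ := A₀.card ≤ D T^n`, `r₁ := A₁.card ≤ R D`. So `r₁ ≥ (R - T^n) D` (real numbers), `r := r₀ + r₁ ≤ (R + T^n) D`.
3. `Δ := (DM ..).det`, `pf_ineq` for `Δ^J`, index set `(A₀ ⊕ A₁) × Fin n`, `a := pt .. i a`, exponents `J (L M + T)`, `C := (r! * (M + 1)^(n T r₀))^J ≥ 1`, `e w := (∏_(a ∈ A₁) (if w l_a < 1 then w l_a ^ T else 1)) / (UU w)^T`. Infinite `v`: `v Δ ≤ r! ∏_i (row bound)`, row bounds: jets: `binom(b, k) ≤ (M+1)^k ≤ (M + 1)^T` for each of the `n` coordinates, `∏ max(1, v)^M`; evaluations `∏ max(1, v p)^(l M)`;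
 all exponents `≤ L M + T`. Finite `w`: `de_loc`. `mulSupport e` finite (`gram_glo`, and `w l ≠ 1` for finitely many `w`).
 `log ∏ᶠ e = T ∑_(a ∈ A₁) log ∏ᶠ_w (if w l_a < 1 then w l_a else 1) - T log ∏ᶠ UU = - T finrank ∑_a log l_a - T log ∏ᶠ UU` (product formula for the integer `l`, as at the end of `glo_E'` in `Pool/Agent/H11/TS/GloR.lean`; `w l ≤ 1` always) `≤ - T finrank r₁ lam + T * (bound of gram_glo)`.
 `gram_glo` with box `L N` and exponents `l₀ e_j` (`l₀ ∈ P` any element, `e` from `hreg l₀`: `mn (l₀ e_j) (X i) = mn (e_j) (X i ^ l₀)`, and `l₀ e_j ≤ l₀ N ≤ L N`).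
4. Heights: `∑_i ∑_a logHeight₁ (pt i a) ≤ r * finrank * θ`, `∑_j ∑_i logHeight₁ (X j i) ≤ D * finrank * θ`. Divide by `finrank > 0`: `T r₁ lam ≤ J (log r! + n T r₀ log (M + 1) + r (L M + T) θ) + T 4 J (log D! + (R + 1) (L N) D θ)`; insert `r₁ ≥ (R - T^n) D` (`lam ≥ 0`), `r₀ ≤ D T^n`, `r ≤ (R + T^n) D`, monotonicity of the factorial.
-/

set_option autoImplicit false

open NumberField Module

namespace Pool.Agent.H72.AD

open Pool.Agent.H33.TR

private theorem dg_ht {E : Type} [Field E] [NumberField E] (g : E ≃ₐ[ℚ] E) (x : E) :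
    Height.logHeight₁ (g x) = Height.logHeight₁ x :=
  Pool.Agent.H72.PL.height_conj g.toRingEquiv x

private theorem dg_mn {E : Type} [Field E] [NumberField E] {n M : ℕ} (g : E ≃ₐ[ℚ] E) (b : Bx n M)
    (y : Fin n → E) (l : ℕ) : mn b (fun a => g (y a) ^ l) = g (mn b (fun a => y a ^ l)) := by
  unfold mn
  rw [map_prod]
  refine Finset.prod_congr rfl fun i _ => ?_
  rw [map_pow, map_pow]

private theorem dg_indep {E : Type} [Field E] [NumberField E] {n D N : ℕ}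
    (P : Finset ℕ) (X : Fin D → Fin n → E)
    (hreg : ∀ l ∈ P, ∃ e : Fin D → Bx n N,
      Matrix.det (Matrix.of fun i j : Fin D => mn (e j) (fun a => X i a ^ l)) ≠ 0)
    (i₀ : Fin n) (h₀ : ℝ) (hh₀ : 0 < h₀) (hh : ∀ j, Height.logHeight₁ (X j i₀) = h₀)
    (Φ : ℕ → (E ≃ₐ[ℚ] E)) :
    LinearIndependent E (tt Φ X : P × Fin D → Bx n (P.card * (N + 1)) → E) := by
  have h := sep (N := N) (M := P.card * (N + 1)) (I := P)
    (fun (l : P) (i : Fin D) (a : Fin n) => cj (Φ l)⁻¹ X i a ^ (l : ℕ)) ?_ ?_ ?_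
  · exact h
  · rintro ⟨l, hl⟩
    obtain ⟨e, he⟩ := hreg l hl
    refine ⟨e, ?_⟩
    have h1 : (Matrix.of fun i j : Fin D => mn (e j) (fun a => cj (Φ l)⁻¹ X i a ^ l)) =
        ((((Φ l)⁻¹ : E ≃ₐ[ℚ] E) : E →+* E)).mapMatrix
          (Matrix.of fun i j : Fin D => mn (e j) (fun a => X i a ^ l)) := by
      ext i j
      exact dg_mn _ _ _ _
    change Matrix.det (Matrix.of fun i j : Fin D => mn (e j) (fun a => cj (Φ l)⁻¹ X i a ^ l)) ≠ 0
    rw [h1, ← RingHom.map_det]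
    intro h2
    exact he ((map_eq_zero_iff _ (RingHom.injective _)).1 h2)
  · intro l l' hne i j heq
    apply hne
    have h1 := congrArg Height.logHeight₁ (congrFun heq i₀)
    have h2 : ∀ (l : P) (i : Fin D), Height.logHeight₁ (cj (Φ l)⁻¹ X i i₀ ^ (l : ℕ)) =
        ((l : ℕ) : ℝ) * h₀ := by
      intro l i
      rw [Height.logHeight₁_pow]
      unfold cj
      rw [dg_ht, hh]
    have h3 : ((l : ℕ) : ℝ) * h₀ = ((l' : ℕ) : ℝ) * h₀ := by
      rw [← h2 l i, ← h2 l' j]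
      exact h1
    have h4 := mul_right_cancel₀ hh₀.ne' h3
    exact Subtype.ext (by exact_mod_cast h4)
  · rw [Fintype.card_coe]

private theorem dg_jet {E : Type} [Field E] [NumberField E] (v : InfinitePlace E) {n M T Q : ℕ}
    (hQ : M ≤ Q) (k : Fin n → Fin T) (b : Bx n M) (x : Fin n → E) :
    v (jt (fun i => (k i : ℕ)) b x) ≤
      ((M + 1 : ℕ) : ℝ) ^ (n * T) * ∏ i, (max 1 (v (x i))) ^ Q := by
  unfold jt
  rw [map_prod]
  have h : ((M + 1 : ℕ) : ℝ) ^ (n * T) = ∏ _i : Fin n, ((M + 1 : ℕ) : ℝ) ^ T := by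
    rw [Finset.prod_const, Finset.card_univ, Fintype.card_fin, ← pow_mul, mul_comm]
  rw [h, ← Finset.prod_mul_distrib]
  refine Finset.prod_le_prod (fun i _ => apply_nonneg v _) fun i _ => ?_
  rw [map_mul, map_pow, InfinitePlace.map_natCast]
  refine mul_le_mul ?_ ?_ (pow_nonneg (apply_nonneg v _) _) (by positivity)
  · have h1 : (b i : ℕ).choose (k i) ≤ (M + 1) ^ T := by
      calc (b i : ℕ).choose (k i) ≤ (b i : ℕ) ^ (k i : ℕ) := Nat.choose_le_pow _ _
        _ ≤ (M + 1) ^ (k i : ℕ) := Nat.pow_le_pow_left (b i).2.le _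
        _ ≤ (M + 1) ^ T := Nat.pow_le_pow_right (Nat.succ_pos _) (k i).2.le
    exact_mod_cast h1
  · calc v (x i) ^ ((b i : ℕ) - k i) ≤ (max 1 (v (x i))) ^ ((b i : ℕ) - k i) :=
        pow_le_pow_left₀ (apply_nonneg v _) (le_max_right _ _) _
      _ ≤ (max 1 (v (x i))) ^ Q := by
        refine pow_le_pow_right₀ (le_max_left _ _) ?_
        have := (b i).2
        omega

private theorem dg_ev {E : Type} [Field E] [NumberField E] (v : InfinitePlace E) {n M L l Q : ℕ}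
    (hl : l ≤ L) (hQ : L * M ≤ Q) (b : Bx n M) (x : Fin n → E) :
    v (mn b (fun i => x i ^ l)) ≤ ∏ i, (max 1 (v (x i))) ^ Q := by
  unfold mn
  rw [map_prod]
  refine Finset.prod_le_prod (fun i _ => apply_nonneg v _) fun i _ => ?_
  rw [map_pow, map_pow, ← pow_mul]
  calc v (x i) ^ (l * (b i : ℕ)) ≤ (max 1 (v (x i))) ^ (l * (b i : ℕ)) :=
        pow_le_pow_left₀ (apply_nonneg v _) (le_max_right _ _) _
    _ ≤ (max 1 (v (x i))) ^ Q := by
        refine pow_le_pow_right₀ (le_max_left _ _) ?_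
        have h1 := (b i).2
        exact (Nat.mul_le_mul hl (by omega)).trans hQ

private theorem dg_arch {E : Type} [Field E] (v : AbsoluteValue E ℝ) {B : Type} [Fintype B]
    [DecidableEq B] (A : Matrix B B E) (h : B → ℝ) (hA : ∀ i j, v (A i j) ≤ h i) :
    v A.det ≤ ((Fintype.card B).factorial : ℝ) * ∏ i, h i := by
  rw [Matrix.det_apply']
  refine (v.sum_le _ _).trans ?_
  have h1 : ∀ π ∈ (Finset.univ : Finset (Equiv.Perm B)),
      v ((((Equiv.Perm.sign π : ℤˣ) : ℤ) : E) * ∏ i, A (π i) i) ≤ ∏ i, h i := by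
    intro π _
    have h2 : v (((Equiv.Perm.sign π : ℤˣ) : ℤ) : E) = 1 := by
      rcases Int.units_eq_one_or (Equiv.Perm.sign π) with h | h
      · rw [h]; simp
      · rw [h]; simp
    rw [map_mul, h2, one_mul, map_prod, ← Equiv.prod_comp π h]
    exact Finset.prod_le_prod (fun i _ => v.nonneg _) fun i _ => hA _ _
  refine (Finset.sum_le_sum h1).trans (le_of_eq ?_)
  rw [Finset.sum_const, nsmul_eq_mul, Finset.card_univ, Fintype.card_perm]

/-- the determinant at an infinite place -/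
private theorem dg_inf {E : Type} [Field E] [NumberField E] {n D T M L : ℕ} (hL : 1 ≤ L)
    {P : Finset ℕ} (hP : ∀ l ∈ P, l ≤ L) (X : Fin D → Fin n → E) (Φ : ℕ → (E ≃ₐ[ℚ] E))
    (A₀ : Finset (Fin D × (Fin n → Fin T))) (A₁ : Finset (P × Fin D)) (c : A₀ ⊕ A₁ → Bx n M)
    (v : InfinitePlace E) :
    v (DM Φ X A₀ A₁ c).det ≤ (((A₀.card + A₁.card).factorial : ℕ) : ℝ) *
      ((M + 1 : ℕ) : ℝ) ^ (n * T * A₀.card) *
        ∏ i, ∏ a, (max 1 (v (pt Φ X A₀ A₁ i a))) ^ (L * M + T) := by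
  have hM : M ≤ L * M + T := (Nat.le_mul_of_pos_left M hL).trans (Nat.le_add_right _ _)
  have h1 := dg_arch v.1 (DM Φ X A₀ A₁ c)
    (fun i => Sum.elim (fun _ : A₀ => ((M + 1 : ℕ) : ℝ) ^ (n * T)) (fun _ : A₁ => (1 : ℝ)) i *
      ∏ a, (max 1 (v (pt Φ X A₀ A₁ i a))) ^ (L * M + T)) ?_
  · rw [Fintype.card_sum, Fintype.card_coe, Fintype.card_coe, Finset.prod_mul_distrib] at h1
    have h2 : ∏ i : A₀ ⊕ A₁, Sum.elim (fun _ : A₀ => ((M + 1 : ℕ) : ℝ) ^ (n * T))
        (fun _ : A₁ => (1 : ℝ)) i = ((M + 1 : ℕ) : ℝ) ^ (n * T * A₀.card) := by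
      rw [Fintype.prod_sum_type]
      simp only [Sum.elim_inl, Sum.elim_inr, Finset.prod_const_one, mul_one, Finset.prod_const,
        Finset.card_univ, Fintype.card_coe]
      rw [← pow_mul]
    rw [h2, ← mul_assoc] at h1
    exact h1
  · rintro (i | i) j
    · exact dg_jet v hM i.1.2 (c j) (X i.1.1)
    · change v (mn (c j) (fun a => cj (Φ i.1.1)⁻¹ X i.1.2 a ^ (i.1.1 : ℕ))) ≤ 1 * _
      rw [one_mul]
      exact dg_ev v (hP _ i.1.1.2) (Nat.le_add_right _ _) (c j) (cj (Φ i.1.1)⁻¹ X i.1.2)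

private theorem dg_le1 {E : Type} [Field E] [NumberField E] (w : FinitePlace E) (l : ℕ) :
    w (l : E) ≤ 1 := by
  have hna : IsNonarchimedean (w.1 : E → ℝ) := fun a b => FinitePlace.add_le w a b
  exact hna.apply_natCast_le_one

private theorem dg_fp {E : Type} [Field E] [NumberField E] (l : ℕ) (hl : l.Prime) (T : ℕ) :
    (Function.mulSupport fun w : FinitePlace E =>
      (if w (l : E) < 1 then w (l : E) ^ T else (1 : ℝ))).Finite ∧
    (∀ w : FinitePlace E, 0 < (if w (l : E) < 1 then w (l : E) ^ T else (1 : ℝ))) ∧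
    Real.log (∏ᶠ w : FinitePlace E, (if w (l : E) < 1 then w (l : E) ^ T else (1 : ℝ))) =
      -(T * ((finrank ℚ E : ℝ) * Real.log l)) := by
  have hp0 : (l : E) ≠ 0 := by exact_mod_cast hl.ne_zero
  have h0 : (fun w : FinitePlace E => (if w (l : E) < 1 then w (l : E) ^ T else (1 : ℝ))) =
      fun w => w (l : E) ^ T := by
    funext w
    split_ifs with h
    · rfl
    · rw [le_antisymm (dg_le1 w l) (not_lt.1 h), one_pow]
  have hes0 : (Function.mulSupport fun w : FinitePlace E => w (l : E)).Finite :=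
    FinitePlace.hasFiniteMulSupport (K := E) hp0
  have hes : (Function.mulSupport fun w : FinitePlace E => w (l : E) ^ T).Finite := by
    refine hes0.subset fun w hw => ?_
    rw [Function.mem_mulSupport] at hw ⊢
    intro h
    exact hw (by rw [h, one_pow])
  have hpos : ∀ w : FinitePlace E, 0 < w (l : E) := fun w => FinitePlace.pos_iff.2 hp0
  refine ⟨by rw [h0]; exact hes, fun w => ?_, ?_⟩
  · have h1 := congrFun h0 w
    exact lt_of_lt_of_eq (pow_pos (hpos w) T) h1.symm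
  · rw [h0]
    have hpf := prod_abs_eq_one (K := E) hp0
    have h2 : ∏ v : InfinitePlace E, v (l : E) ^ v.mult = (l : ℝ) ^ finrank ℚ E := by
      rw [← InfinitePlace.sum_mult_eq (K := E), ← Finset.prod_pow_eq_pow_sum]
      refine Finset.prod_congr rfl fun v _ => ?_
      rw [InfinitePlace.map_natCast]
    rw [h2] at hpf
    have h3 : ∏ᶠ w : FinitePlace E, w (l : E) = ((l : ℝ) ^ finrank ℚ E)⁻¹ :=
      eq_inv_of_mul_eq_one_right hpf
    have h3' : ∏ᶠ w : FinitePlace E, w (l : E) ^ T =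
        (((l : ℝ) ^ finrank ℚ E)⁻¹) ^ T := by
      rw [← h3, finprod_pow hes0]
    rw [h3', Real.log_pow, Real.log_inv, Real.log_pow]
    ring

private theorem dg_fpos {ι : Type} (f : ι → ℝ) (hf : ∀ i, 0 < f i) : 0 < ∏ᶠ i, f i :=
  finprod_induction (fun x : ℝ => 0 < x) one_pos (fun _ _ hx hy => mul_pos hx hy) hf

private theorem dg_fin {ι κ : Type} [Fintype κ] (g : κ → ι → ℝ)
    (hg : ∀ a, (Function.mulSupport (g a)).Finite) (hg0 : ∀ a w, 0 < g a w) (u : ι → ℝ)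
    (hu : (Function.mulSupport u).Finite) (hu0 : ∀ w, 0 < u w) (T : ℕ) :
    (Function.mulSupport fun w => (∏ a, g a w) / u w ^ T).Finite ∧
    Real.log (∏ᶠ w, (∏ a, g a w) / u w ^ T) =
      ∑ a, Real.log (∏ᶠ w, g a w) - T * Real.log (∏ᶠ w, u w) := by
  have h1 : Function.HasFiniteMulSupport (fun w => ∏ a, g a w) :=
    Function.HasFiniteMulSupport.prod (f := g) (fun i => hg i) Finset.univ
  have h2 : Function.HasFiniteMulSupport (fun w => u w ^ T) :=
    Function.HasFiniteMulSupport.fun_pow (f := u) hu T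
  refine ⟨h1.fun_div h2, ?_⟩
  rw [finprod_div_distrib h1 h2, ← finprod_pow hu,
    finprod_prod_comm Finset.univ (fun w a => g a w) (fun a _ => hg a),
    Real.log_div (Finset.prod_ne_zero_iff.2 fun a _ => (dg_fpos _ (hg0 a)).ne')
      (pow_ne_zero _ (dg_fpos _ hu0).ne'), Real.log_prod (fun a _ => (dg_fpos _ (hg0 a)).ne'),
    Real.log_pow]

/-- the inequality with the chosen rows -/
private theorem dg_core {E : Type} [Field E] [NumberField E] [IsGalois ℚ E] {n D T M N L J : ℕ}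
    (hL : 1 ≤ L) (P : Finset ℕ) (hP : ∀ l ∈ P, l.Prime ∧ l ≤ L) (lam : ℝ)
    (hlam : ∀ l ∈ P, lam ≤ Real.log l) (V : Subgroup (E ≃ₐ[ℚ] E))
    (hJ : ∀ l ∈ P, ∀ w : FinitePlace E, w (l : E) < 1 → V.relIndex (Ine w) ≤ J)
    (X : Fin D → Fin n → E) (hX : Stab V X) (e : Fin D → Bx n (L * N))
    (he : Matrix.det (Matrix.of fun i j : Fin D => mn (e j) (X i)) ≠ 0)
    (Φ : ℕ → (E ≃ₐ[ℚ] E)) (hΦ : ∀ l ∈ P, IsFr l (Φ l))
    (A₀ : Finset (Fin D × (Fin n → Fin T))) (A₁ : Finset (P × Fin D)) (c : A₀ ⊕ A₁ → Bx n M)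
    (hc : Function.Injective c) (hdet : (DM Φ X A₀ A₁ c).det ≠ 0)
    (hspan : ∀ s : Fin D × (Fin n → Fin T), (uu X s : Bx n M → E) ∈
      Submodule.span E (Set.range fun i : A₀ => (uu X i.1 : Bx n M → E)))
    (θ : ℝ) (hθ : ∀ j, ∑ i, Height.logHeight₁ (X j i) ≤ (finrank ℚ E : ℝ) * θ) :
    (T : ℝ) * A₁.card * lam ≤
      J * (Real.log ((A₀.card + A₁.card).factorial : ℕ) +
        n * T * A₀.card * Real.log ((M + 1 : ℕ) : ℝ) +
        ((L * M + T : ℕ) : ℝ) * ((A₀.card + A₁.card : ℕ) * θ)) +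
      4 * J * T * (Real.log (D.factorial : ℕ) + ((P.card : ℝ) + 1) * (L * N : ℕ) * (D * θ)) := by
  obtain ⟨hU1, hU2, hU3⟩ := gram_glo P (fun l hl => (hP l hl).1) V J hJ X hX e he Φ
  obtain ⟨F, hF⟩ : ∃ F : ℝ, F = (finrank ℚ E : ℝ) := ⟨_, rfl⟩
  have hF0 : 0 < F := by
    rw [hF]
    exact_mod_cast Module.finrank_pos (R := ℚ) (M := E)
  obtain ⟨C₀, hC₀⟩ : ∃ C₀ : ℝ, C₀ = (((A₀.card + A₁.card).factorial : ℕ) : ℝ) *
      ((M + 1 : ℕ) : ℝ) ^ (n * T * A₀.card) := ⟨_, rfl⟩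
  have hC1 : 1 ≤ C₀ := by
    have h1 : (1 : ℝ) ≤ (((A₀.card + A₁.card).factorial : ℕ) : ℝ) := by
      exact_mod_cast Nat.succ_le_iff.2 (Nat.factorial_pos _)
    have h2 : (1 : ℝ) ≤ ((M + 1 : ℕ) : ℝ) ^ (n * T * A₀.card) := by
      refine one_le_pow₀ ?_
      exact_mod_cast Nat.succ_le_iff.2 (Nat.succ_pos _)
    rw [hC₀]
    exact one_le_mul_of_one_le_of_one_le h1 h2
  have hG := fun a : A₁ => dg_fp (E := E) (a.1.1 : ℕ) (hP _ a.1.1.2).1 T
  obtain ⟨he1, he2⟩ := dg_fin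
    (fun (a : A₁) (w : FinitePlace E) =>
      (if w ((a.1.1 : ℕ) : E) < 1 then w ((a.1.1 : ℕ) : E) ^ T else (1 : ℝ)))
    (fun a => (hG a).1) (fun a => (hG a).2.1) (UU P V Φ X) hU1 hU2 T
  have hre : ∀ f : (Fin n → E) → Fin n → ℝ, ∏ i, ∏ a, f (pt Φ X A₀ A₁ i) a ^ (J * (L * M + T)) =
      ∏ q : (A₀ ⊕ A₁) × Fin n, f (pt Φ X A₀ A₁ q.1) q.2 ^ (J * (L * M + T)) := by
    intro f
    rw [Fintype.prod_prod_type]
  have key := Pool.Agent.H72.PL.pf_ineq ((DM Φ X A₀ A₁ c).det ^ J) (pow_ne_zero _ hdet)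
    (fun q : (A₀ ⊕ A₁) × Fin n => pt Φ X A₀ A₁ q.1 q.2)
    (fun _ : (A₀ ⊕ A₁) × Fin n => (1 : E)) (fun _ => J * (L * M + T)) (fun _ => 0)
    (C₀ ^ J) (one_le_pow₀ hC1) _ (fun w => div_pos (Finset.prod_pos fun a _ => (hG a).2.1 w)
      (pow_pos (hU2 w) T)) he1 ?_ ?_
  · rw [he2, Real.log_pow] at key
    have h1 : Real.log C₀ = Real.log ((A₀.card + A₁.card).factorial : ℕ) +
        n * T * A₀.card * Real.log ((M + 1 : ℕ) : ℝ) := by
      rw [hC₀, Real.log_mul (by positivity) (by positivity), Real.log_pow]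
      push_cast
      ring
    have h2 : ∑ q : (A₀ ⊕ A₁) × Fin n, (((J * (L * M + T) : ℕ) : ℝ) *
        Height.logHeight₁ (pt Φ X A₀ A₁ q.1 q.2) + ((0 : ℕ) : ℝ) * Height.logHeight₁ (1 : E)) ≤
        (J : ℝ) * ((L * M + T : ℕ) : ℝ) * ((A₀.card + A₁.card : ℕ) * (F * θ)) := by
      have h3 : ∀ i : A₀ ⊕ A₁, ∑ a, Height.logHeight₁ (pt Φ X A₀ A₁ i a) ≤ F * θ := by
        rintro (i | i)
        · rw [hF]
          exact hθ i.1.1
        · rw [hF]
          refine le_trans (le_of_eq ?_) (hθ i.1.2)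
          refine Finset.sum_congr rfl fun a _ => ?_
          exact dg_ht _ _
      have h4 : ∑ q : (A₀ ⊕ A₁) × Fin n, (((J * (L * M + T) : ℕ) : ℝ) *
          Height.logHeight₁ (pt Φ X A₀ A₁ q.1 q.2) + ((0 : ℕ) : ℝ) * Height.logHeight₁ (1 : E)) =
          (J : ℝ) * ((L * M + T : ℕ) : ℝ) *
            ∑ i : A₀ ⊕ A₁, ∑ a, Height.logHeight₁ (pt Φ X A₀ A₁ i a) := by
        rw [Fintype.sum_prod_type, Finset.mul_sum]
        refine Finset.sum_congr rfl fun i _ => ?_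
        rw [Finset.mul_sum]
        refine Finset.sum_congr rfl fun a _ => ?_
        rw [Nat.cast_zero, zero_mul, add_zero, Nat.cast_mul]
      rw [h4]
      refine mul_le_mul_of_nonneg_left ?_ (by positivity)
      refine (Finset.sum_le_sum fun i _ => h3 i).trans (le_of_eq ?_)
      rw [Finset.sum_const, Finset.card_univ, Fintype.card_sum, Fintype.card_coe, Fintype.card_coe,
        nsmul_eq_mul]
    have h5 : ∑ a : A₁, Real.log (∏ᶠ w : FinitePlace E,
        (if w ((a.1.1 : ℕ) : E) < 1 then w ((a.1.1 : ℕ) : E) ^ T else (1 : ℝ))) ≤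
        -(T * A₁.card * lam * F) := by
      have h6 : ∀ a : A₁, Real.log (∏ᶠ w : FinitePlace E,
          (if w ((a.1.1 : ℕ) : E) < 1 then w ((a.1.1 : ℕ) : E) ^ T else (1 : ℝ))) ≤
          -(T * (F * lam)) := by
        intro a
        rw [(hG a).2.2, ← hF]
        have h7 := hlam _ a.1.1.2
        have h8 : (T : ℝ) * (F * lam) ≤ T * (F * Real.log (a.1.1 : ℕ)) :=
          mul_le_mul_of_nonneg_left (mul_le_mul_of_nonneg_left h7 hF0.le) (Nat.cast_nonneg _)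
        linarith
      refine (Finset.sum_le_sum fun a _ => h6 a).trans (le_of_eq ?_)
      rw [Finset.sum_const, Finset.card_univ, Fintype.card_coe, nsmul_eq_mul]
      ring
    have h9 : ∑ j, ∑ i, Height.logHeight₁ (X j i) ≤ D * (F * θ) := by
      refine (Finset.sum_le_sum fun j _ => hθ j).trans (le_of_eq ?_)
      rw [Finset.sum_const, Finset.card_univ, Fintype.card_fin, nsmul_eq_mul, hF]
    have h10 : -(T : ℝ) * Real.log (∏ᶠ w, UU P V Φ X w) ≤
        4 * J * T * (F * Real.log (D.factorial : ℕ) +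
          ((P.card : ℝ) + 1) * (L * N : ℕ) * (D * (F * θ))) := by
      have h11 : 4 * (J : ℝ) * ((finrank ℚ E : ℝ) * Real.log (D.factorial : ℕ) +
          ((P.card : ℝ) + 1) * (L * N : ℕ) * ∑ j, ∑ i, Height.logHeight₁ (X j i)) ≤
          4 * J * (F * Real.log (D.factorial : ℕ) +
            ((P.card : ℝ) + 1) * (L * N : ℕ) * (D * (F * θ))) := by
        rw [← hF]
        refine mul_le_mul_of_nonneg_left ?_ (by positivity)
        have h12 := mul_le_mul_of_nonneg_left h9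
          (show (0 : ℝ) ≤ ((P.card : ℝ) + 1) * (L * N : ℕ) by positivity)
        linarith
      have h13 := mul_le_mul_of_nonneg_left (hU3.trans h11) (Nat.cast_nonneg (α := ℝ) T)
      calc -(T : ℝ) * Real.log (∏ᶠ w, UU P V Φ X w) =
            T * -Real.log (∏ᶠ w, UU P V Φ X w) := by ring
        _ ≤ T * (4 * J * (F * Real.log (D.factorial : ℕ) +
            ((P.card : ℝ) + 1) * (L * N : ℕ) * (D * (F * θ)))) := h13
        _ = _ := by ring
    have h14 : F * ((T : ℝ) * A₁.card * lam) ≤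
      F * (J * (Real.log ((A₀.card + A₁.card).factorial : ℕ) +
        n * T * A₀.card * Real.log ((M + 1 : ℕ) : ℝ) +
        ((L * M + T : ℕ) : ℝ) * ((A₀.card + A₁.card : ℕ) * θ)) +
      4 * J * T * (Real.log (D.factorial : ℕ) +
        ((P.card : ℝ) + 1) * (L * N : ℕ) * (D * θ))) := by
      rw [h1, ← hF] at key
      linarith
    exact le_of_mul_le_mul_left h14 hF0
  · intro v
    have h1 := dg_inf hL (fun l hl => (hP l hl).2) X Φ A₀ A₁ c v
    rw [← hC₀] at h1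
    rw [map_pow]
    refine (pow_le_pow_left₀ (apply_nonneg v _) h1 J).trans (le_of_eq ?_)
    rw [mul_pow]
    congr 1
    simp only [pow_zero, mul_one]
    rw [← hre (fun x a => max 1 (v (x a))), ← Finset.prod_pow]
    refine Finset.prod_congr rfl fun i _ => ?_
    rw [← Finset.prod_pow]
    refine Finset.prod_congr rfl fun a _ => ?_
    rw [← pow_mul, mul_comm J]
  · intro w
    have h1 := de_loc hL hP V hJ X hX Φ hΦ A₀ A₁ c hc hdet hspan w
    simp only [pow_zero, mul_one]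
    rw [← hre (fun x a => max 1 (w (x a))), map_pow, div_mul_eq_mul_div,
      le_div_iff₀ (pow_pos (hU2 w) T)]
    exact h1

theorem det_ineq {E : Type} [Field E] [NumberField E] [IsGalois ℚ E] {n D T N L J : ℕ}
    (hD : 1 ≤ D) (hT : 1 ≤ T) (P : Finset ℕ) (hP : ∀ l ∈ P, l.Prime ∧ l ≤ L) (lam : ℝ)
    (hlam0 : 0 ≤ lam) (hlam : ∀ l ∈ P, lam ≤ Real.log l)
    (V : Subgroup (E ≃ₐ[ℚ] E))
    (hJ : ∀ l ∈ P, ∀ w : FinitePlace E, w (l : E) < 1 → V.relIndex (Ine w) ≤ J)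
    (X : Fin D → Fin n → E) (hX : Stab V X)
    (hreg : ∀ l ∈ P, ∃ e : Fin D → Bx n N,
      Matrix.det (Matrix.of fun i j : Fin D => mn (e j) (fun a => X i a ^ l)) ≠ 0)
    (i₀ : Fin n) (h₀ : ℝ) (hh₀ : 0 < h₀) (hh : ∀ j, Height.logHeight₁ (X j i₀) = h₀)
    (θ : ℝ) (hθ : ∀ j, ∑ i, Height.logHeight₁ (X j i) ≤ (finrank ℚ E : ℝ) * θ) :
    (T : ℝ) * ((P.card : ℝ) - T ^ n) * D * lam ≤
      J * (Real.log (((P.card + T ^ n) * D).factorial : ℕ) +
        n * T * (T ^ n * D) * Real.log ((P.card * (N + 1) + 1 : ℕ) : ℝ) +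
        ((P.card : ℝ) + T ^ n) * D * ((L * (P.card * (N + 1)) + T : ℕ) : ℝ) * θ) +
      4 * J * T * (Real.log (D.factorial : ℕ) + ((P.card : ℝ) + 1) * (L * N : ℕ) * (D * θ)) := by
  have hF0 : 0 < (finrank ℚ E : ℝ) := by
    exact_mod_cast Module.finrank_pos (R := ℚ) (M := E)
  have hθ0 : 0 ≤ θ := by
    have h1 : 0 ≤ (finrank ℚ E : ℝ) * θ :=
      (Finset.sum_nonneg fun i _ => Height.zero_le_logHeight₁ _).trans (hθ ⟨0, hD⟩)
    exact nonneg_of_mul_nonneg_right h1 hF0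
  have hfac : ∀ m : ℕ, 0 ≤ Real.log (m.factorial : ℕ) := fun m => Real.log_natCast_nonneg _
  have hlogM : 0 ≤ Real.log ((P.card * (N + 1) + 1 : ℕ) : ℝ) := Real.log_natCast_nonneg _
  rcases P.eq_empty_or_nonempty with hPe | ⟨l₀, hl₀⟩
  · have h1 : (T : ℝ) * ((P.card : ℝ) - T ^ n) * D * lam ≤ 0 := by
      rw [hPe, Finset.card_empty, Nat.cast_zero]
      have h2 : (0 : ℝ) ≤ T * T ^ n * D * lam := by positivity
      linarith
    refine h1.trans ?_
    have h3 := hfac ((P.card + T ^ n) * D)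
    have h4 := hfac D
    positivity
  have hL : 1 ≤ L := (hP l₀ hl₀).1.one_le.trans (hP l₀ hl₀).2
  -- the Frobenius elements
  have hex : ∀ l : ℕ, ∃ g : E ≃ₐ[ℚ] E, l ∈ P → IsFr l g := by
    intro l
    by_cases hl : l ∈ P
    · obtain ⟨g, hg⟩ := frob_ex (E := E) l (hP l hl).1
      exact ⟨g, fun _ => hg⟩
    · exact ⟨1, fun h => absurd h hl⟩
  choose Φ hΦ using hex
  have hind := dg_indep P X hreg i₀ h₀ hh₀ hh Φ
  obtain ⟨A₀, A₁, c, hc, hdet, hspan, hcard⟩ := choose_rows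
    (uu X : Fin D × (Fin n → Fin T) → Bx n (P.card * (N + 1)) → E) (tt Φ X) hind
  -- the columns for the Gram determinant
  obtain ⟨e₀, he₀⟩ := hreg l₀ hl₀
  obtain ⟨e, he⟩ : ∃ e : Fin D → Bx n (L * N),
      Matrix.det (Matrix.of fun i j : Fin D => mn (e j) (X i)) ≠ 0 := by
    refine ⟨fun j a => ⟨l₀ * (e₀ j a : ℕ), ?_⟩, ?_⟩
    · have h1 := (e₀ j a).2
      exact Nat.lt_succ_of_le (Nat.mul_le_mul (hP l₀ hl₀).2 (by omega))
    · have h1 : (Matrix.of fun i j : Fin D => mn (fun a => (⟨l₀ * (e₀ j a : ℕ), by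
          have h1 := (e₀ j a).2
          exact Nat.lt_succ_of_le (Nat.mul_le_mul (hP l₀ hl₀).2 (by omega))⟩ : Fin (L * N + 1)))
            (X i)) =
          (Matrix.of fun i j : Fin D => mn (e₀ j) (fun a => X i a ^ l₀)) := by
        ext i j
        rw [Matrix.of_apply, Matrix.of_apply]
        unfold mn
        refine Finset.prod_congr rfl fun a _ => ?_
        rw [← pow_mul]
      rw [h1]
      exact he₀
  have key := dg_core hL P hP lam hlam V hJ X hX e he Φ hΦ A₀ A₁ c hc hdet hspan θ hθ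
  -- cardinalities
  have hA₀ : A₀.card ≤ T ^ n * D := by
    refine (Finset.card_le_univ A₀).trans (le_of_eq ?_)
    rw [Fintype.card_prod, Fintype.card_fun, Fintype.card_fin, Fintype.card_fin, Fintype.card_fin,
      mul_comm]
  have hA₁ : A₁.card ≤ P.card * D := by
    refine (Finset.card_le_univ A₁).trans (le_of_eq ?_)
    rw [Fintype.card_prod, Fintype.card_coe, Fintype.card_fin]
  have hcard' : P.card * D ≤ A₀.card + A₁.card := by
    have h1 : Fintype.card (P × Fin D) = P.card * D := by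
      rw [Fintype.card_prod, Fintype.card_coe, Fintype.card_fin]
    rw [← h1]
    exact hcard
  have hr : A₀.card + A₁.card ≤ (P.card + T ^ n) * D := by
    rw [add_mul]
    omega
  have hA₀' : (A₀.card : ℝ) ≤ T ^ n * D := by exact_mod_cast hA₀
  have hr' : ((A₀.card + A₁.card : ℕ) : ℝ) ≤ ((P.card : ℝ) + T ^ n) * D := by exact_mod_cast hr
  have hcr : ((P.card : ℝ) - T ^ n) * D ≤ A₁.card := by
    have h1 : (P.card : ℝ) * D ≤ A₀.card + A₁.card := by exact_mod_cast hcard'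
    linarith
  have hT0 : (0 : ℝ) ≤ T := Nat.cast_nonneg _
  have h1 : (T : ℝ) * ((P.card : ℝ) - T ^ n) * D * lam ≤ (T : ℝ) * A₁.card * lam := by
    have h2 := mul_le_mul_of_nonneg_right (mul_le_mul_of_nonneg_left hcr hT0) hlam0
    linarith
  have h2 : Real.log ((A₀.card + A₁.card).factorial : ℕ) ≤
      Real.log (((P.card + T ^ n) * D).factorial : ℕ) := by
    refine Real.log_le_log (by exact_mod_cast Nat.factorial_pos _) ?_
    exact_mod_cast Nat.factorial_le hr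
  have h3 : n * T * A₀.card * Real.log ((P.card * (N + 1) + 1 : ℕ) : ℝ) ≤
      n * T * (T ^ n * D) * Real.log ((P.card * (N + 1) + 1 : ℕ) : ℝ) := by
    refine mul_le_mul_of_nonneg_right ?_ hlogM
    exact mul_le_mul_of_nonneg_left hA₀' (by positivity)
  have h4 : ((L * (P.card * (N + 1)) + T : ℕ) : ℝ) * ((A₀.card + A₁.card : ℕ) * θ) ≤
      ((P.card : ℝ) + T ^ n) * D * ((L * (P.card * (N + 1)) + T : ℕ) : ℝ) * θ := by
    have h5 := mul_le_mul_of_nonneg_left (mul_le_mul_of_nonneg_right hr' hθ0)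
      (Nat.cast_nonneg (α := ℝ) (L * (P.card * (N + 1)) + T))
    linarith
  have h6 := mul_le_mul_of_nonneg_left (add_le_add (add_le_add h2 h3) h4)
    (Nat.cast_nonneg (α := ℝ) J)
  linarith

end Pool.Agent.H72.AD
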