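import Pool.Agent.H72.AD.CycF
import Pool.Agent.H72.AD.OrbA
import Pool.Agent.H33.TR.Loc
import Pool.Agent.H11.TS.Dsc

/-!
# POINTS THEOREM, chapter G: regularity as a determinant over the conjugates

`reg_det` (imports may be sorried). PROOF: `D = dgT (HA Ω) x = hd (Ab Ω) (crd (x^l)) (bx n N)`: there are exponents `e j ∈ bx n N`, `j : Fin D`, with the monomials `mz (crd (x^l)) (e j)` linearly independent over `Ab Ω` (a basis of the span chosen among the monomials, as in `exists_ind` in `Pool/Agent/H11/TS/ThA.lean`); they are `mn (e' j)` with `e' j : Bx n N`.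
`minor` (`Pool/Agent/H11/TS/Dsc.lean`) with `P := Ab Ω`, `X := {x^l}`, `F := Ω`, `g := crd (x^l)`: `y j = mv (σ j) (x^l)`, `σ j` fixes `Ab Ω`, `det (ch (e j) (y i)) ≠ 0`, so `y` is injective: `y : Fin D → orb (HA Ω) (x^l)`, a set with `D` elements, so a bijection. The map `i ↦ (X i)^l` from `Fin D` to `orb (HA Ω) (x^l)` is onto (`orb_pow`, `hX`), so a bijection. So `y i = (X (π i))^l` for a
permutation `π`, and the determinant with the rows in the order of `X` is the same up to the sign (`Matrix.det_permute`).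
-/

set_option autoImplicit false
set_option linter.unusedSectionVars false

namespace Pool.Agent.H72.AD

open Pool.Agent.H11.TH Pool.Agent.H11.TS Pool.Agent.H33.TR

private def cst {n N : ℕ} (b : Pool.Agent.H33.TR.Bx n N) : Fin n → ℤ := fun l => ((b l : ℕ) : ℤ)

private theorem cst_inj {n N : ℕ} : Function.Injective (cst : Pool.Agent.H33.TR.Bx n N → Fin n → ℤ) := by
  intro b b' h
  funext l
  have h1 := congrFun h l
  unfold cst at h1
  exact Fin.ext (by exact_mod_cast h1)

private theorem cst_range {n N : ℕ} :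
    Set.range (cst : Pool.Agent.H33.TR.Bx n N → Fin n → ℤ) = (bx n N : Set (Fin n → ℤ)) := by
  ext e
  rw [Finset.mem_coe, mem_bx]
  constructor
  · rintro ⟨b, rfl⟩ i
    unfold cst
    have h1 := (b i).2
    constructor
    · positivity
    · have h2 : (b i : ℕ) ≤ N := by omega
      exact_mod_cast h2
  · intro h
    refine ⟨fun l => ⟨(e l).toNat, ?_⟩, ?_⟩
    · have h1 := h l
      omega
    · funext l
      unfold cst
      have h1 := h l
      simp only
      omega

private theorem exists_ind (L : Type) {F B : Type} [Field L] [Field F] [Algebra L F] [Fintype B]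
    (w : B → F) : ∃ (κ : Type) (_ : Fintype κ) (a : κ → B), Function.Injective a ∧
      Submodule.span L (Set.range (w ∘ a)) = Submodule.span L (Set.range w) ∧
      LinearIndependent L (w ∘ a) ∧ Fintype.card κ = Module.finrank L (Submodule.span L (Set.range w)) := by
  obtain ⟨κ, a, ha, hs, hli⟩ := exists_linearIndependent' L w
  have : Finite κ := Finite.of_injective a ha
  have := Fintype.ofFinite κ
  refine ⟨κ, this, a, ha, hs, hli, ?_⟩
  rw [← hs, finrank_span_eq_card hli]

private theorem ch_cst {Ω : Type} [Field Ω] {n N : ℕ} (b : Pool.Agent.H33.TR.Bx n N) (y : Tor Ω n) :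
    ((ch (cst b) y : Ωˣ) : Ω) = Pool.Agent.H33.TR.mn b (crd y) := by
  unfold ch cst Pool.Agent.H33.TR.mn crd
  push_cast
  refine Finset.prod_congr rfl fun l _ => ?_
  rw [zpow_natCast]

variable {Ω : Type} [Field Ω] [CharZero Ω] [IsAlgClosed Ω] [IsGalois ℚ Ω] {n : ℕ}

theorem reg_det {N l D : ℕ} (x : Tor Ω n) (hD : dgT (HA Ω) x = D) (hl : dgT (HA Ω) (x ^ l) = D)
    (h : hd (Ab Ω) (crd (x ^ l)) (bx n N) = D) (X : Fin D → Tor Ω n) (hXi : Function.Injective X)
    (hX : Set.range X = orb (HA Ω) x) :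
    ∃ e : Fin D → Bx n N,
      Matrix.det (Matrix.of fun i j : Fin D => mn (e j) (fun a => ((X i a : Ωˣ) : Ω) ^ l)) ≠ 0 := by
  classical
  obtain ⟨P, hP⟩ : ∃ P : IntermediateField ℚ Ω, P = Ab Ω := ⟨_, rfl⟩
  rw [← hP] at h
  obtain ⟨κ, _, a, ha, has, hali, hac⟩ := exists_ind P
    (fun b : Bx n N => mz (crd (x ^ l)) (cst b))
  have hrm : Set.range (fun b : Bx n N => mz (crd (x ^ l)) (cst b)) =
      mz (crd (x ^ l)) '' (bx n N : Set (Fin n → ℤ)) := by
    rw [← cst_range, ← Set.range_comp]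
    rfl
  have hacard : Fintype.card κ = D := by
    rw [hac, hrm, ← h]
    rfl
  obtain ⟨f⟩ : Nonempty (Fin D ≃ κ) := ⟨Fintype.equivOfCardEq (by rw [Fintype.card_fin, hacard])⟩
  have hMdl : Mdl ({x ^ l} : Set (Tor Ω n)) (crd (x ^ l)) := by
    refine ⟨fun i => Units.ne_zero _, ?_⟩
    intro s b
    have h1 : ∑ e ∈ s, algebraMap Ω Ω (b e) * mz (crd (x ^ l)) e =
        ∑ e ∈ s, b e * ((ch e (x ^ l) : Ωˣ) : Ω) := by
      refine Finset.sum_congr rfl fun e _ => ?_
      rw [mz_ch]
      rfl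
    rw [h1]
    constructor
    · intro h y hy
      rw [Set.mem_singleton_iff.1 hy]
      exact h
    · intro h
      exact h _ rfl
  obtain ⟨y, hy, hdet⟩ := minor P {x ^ l} (crd (x ^ l)) hMdl
    (fun i : Fin D => cst (a (f i))) (hali.comp f f.injective)
  have hyX : ∀ i, ∃ j, y i = X j ^ l := by
    intro i
    obtain ⟨x', hx', σ, hσ, hyx⟩ := hy i
    rw [Set.mem_singleton_iff.1 hx'] at hyx
    have h1 : mv σ x ∈ orb (HA Ω) x := by
      refine ⟨σ, ?_, rfl⟩
      unfold HA
      rw [← hP, IntermediateField.mem_fixingSubgroup_iff]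
      exact hσ
    rw [← hX] at h1
    obtain ⟨j, hj⟩ := h1
    exact ⟨j, by rw [hyx, mv_pow, hj]⟩
  choose π hπ using hyX
  have hyi : Function.Injective y := by
    intro i i' hii
    by_contra hne
    apply hdet
    refine Matrix.det_zero_of_row_eq hne ?_
    funext j
    rw [Matrix.of_apply, Matrix.of_apply, hii]
  have hπi : Function.Injective π := by
    intro i i' hii
    apply hyi
    rw [hπ, hπ, hii]
  obtain ⟨τ, hτ⟩ : ∃ τ : Equiv.Perm (Fin D), ∀ i, τ i = π i :=
    ⟨Equiv.ofBijective π (Finite.injective_iff_bijective.1 hπi), fun i => rfl⟩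
  refine ⟨fun j => a (f j), ?_⟩
  intro h0
  apply hdet
  have h1 : (Matrix.of fun i j : Fin D => ((ch (cst (a (f j))) (y i) : Ωˣ) : Ω)) =
      (Matrix.of fun i j : Fin D => mn (a (f j)) (fun b => ((X i b : Ωˣ) : Ω) ^ l)).submatrix τ id := by
    ext i j
    rw [Matrix.submatrix_apply, Matrix.of_apply, Matrix.of_apply, ch_cst, hπ, hτ]
    rfl
  rw [h1, Matrix.det_permute, h0, mul_zero]


end Pool.Agent.H72.AD
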