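import Pool.Agent.H72.AD.FldA
import Pool.Agent.H72.AD.FldC
import Pool.Agent.H72.AD.DeGlo

/-!
# POINTS THEOREM, chapter G: the final inequality in `Ω`

`ineq_Om` (imports may be sorried). PROOF: `D := dgT (HA Ω) x ≥ 1`, `E` from `ex_E x N₀`, `res := AlgEquiv.restrictNormalHom E`, `V' := V.map res`. `X : Fin D → Tor Ω n` an enumeration of the finite set `orb (HA Ω) x` (injective, range the orbit); `X j = mv σ_j x` has coordinates in `E` (`E` normal: `σ_j (x i) ∈ E`). `Y j i : E` the coordinates.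
`Stab V' Y`: `comm`: `g, h ∈ Gal(E/ℚ)` lift to `Ω` (`res` surjective), the commutator of the lifts is in `HN Ω N₀ ≤ V` (`HN_comm`); `ne`: units; `inj`; `st`: `τ = res σ`, `σ ∈ V`: `σ (X j) ∈ orb V x = orb (HA Ω) x` (`X j ∈ orb V x`, a group), so `= X j'` (`AlgEquiv.restrictNormal_commutes`).
`hJ`: for `l ∈ P` and `w` with `w l < 1`: `N'` from `hram`, `ine_index` (`z^(N') = 1` implies `z^(N₀) = 1`, so `z ∈ E`). `hreg`: `reg_det`, the determinant in `E` is mapped to the one in `Ω` by the injective `E → Ω`. `hh`: `logHeight₁ (Y j i₀) = finrank ℚ E * absLogHeight₁ (X j i₀)` (`Pool.Agent.H4.RR.absLogHeight_eq E Ω ψ`), and `absLogHeight₁ (σ y) = absLogHeight₁ y` (`height_map` in `Pool/Agent/H72/PB/HTwist.lean`, `K = ℚ`):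
`h₀ := finrank * absLogHeight₁ (x i₀) > 0`. `hθ`: `∑_i logHeight₁ (Y j i) = finrank * ht (X j) = finrank * ht x ≤ finrank * θ`. `det_ineq` is the result.
-/

set_option autoImplicit false
set_option linter.unusedSectionVars false

open NumberField

namespace Pool.Agent.H72.AD

open Pool.Agent.H11.TH Pool.Agent.H11.TS Pool.Agent.H33.TR

variable {Ω : Type} [Field Ω] [CharZero Ω] [IsAlgClosed Ω] [IsGalois ℚ Ω] {n : ℕ}

private theorem fd_ht (σ : Ω ≃ₐ[ℚ] Ω) (y : Ω) : absLogHeight₁ (σ y) = absLogHeight₁ y :=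
  Pool.Agent.H4.RR.absLogHeight_eq_of_minpoly_eq Ω (σ y) y (Algebra.IsIntegral.isIntegral _)
    (minpoly.algEquiv_eq σ y)

private theorem fd_enum (x : Tor Ω n) {D : ℕ} (hD : dgT (HA Ω) x = D) :
    ∃ X : Fin D → Tor Ω n, Function.Injective X ∧ Set.range X = orb (HA Ω) x := by
  have hfin := orb_fin (HA Ω) x
  have hc : hfin.toFinset.card = D := by
    rw [← Set.ncard_eq_toFinset_card _ hfin]
    exact hD
  let e := hfin.toFinset.equivFinOfCardEq hc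
  refine ⟨fun j => (e.symm j : Tor Ω n), fun a b h => e.symm.injective (Subtype.ext h), ?_⟩
  ext y
  constructor
  · rintro ⟨j, rfl⟩
    exact hfin.mem_toFinset.1 (e.symm j).2
  · intro hy
    exact ⟨e ⟨y, hfin.mem_toFinset.2 hy⟩, by simp⟩

private theorem fd_res (E : IntermediateField ℚ Ω) [Normal ℚ E] (σ : Ω ≃ₐ[ℚ] Ω) (y : E) :
    ((AlgEquiv.restrictNormalHom E σ y : E) : Ω) = σ (y : Ω) :=
  AlgEquiv.restrictNormal_commutes σ E y

private theorem fd_mem (E : IntermediateField ℚ Ω) [Normal ℚ E] (σ : Ω ≃ₐ[ℚ] Ω) (y : Ω)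
    (hy : y ∈ E) : σ y ∈ E := by
  rw [← fd_res E σ ⟨y, hy⟩]
  exact SetLike.coe_mem _

private theorem fd_stab (x : Tor Ω n) {D : ℕ} (N₀ : ℕ) (hN₀ : 1 ≤ N₀)
    (V : Subgroup (Ω ≃ₐ[ℚ] Ω)) (hV : HN Ω N₀ ≤ V) (horb : orb V x = orb (HA Ω) x)
    (X : Fin D → Tor Ω n) (hXi : Function.Injective X) (hXr : Set.range X = orb (HA Ω) x)
    (E : IntermediateField ℚ Ω) [Normal ℚ E] (Y : Fin D → Fin n → E)
    (hY : ∀ j i, ((Y j i : E) : Ω) = ((X j i : Ωˣ) : Ω)) [NumberField E] :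
    Stab (V.map (AlgEquiv.restrictNormalHom E)) Y := by
  refine ⟨?_, ?_, ?_, ?_⟩
  · intro g h
    obtain ⟨g', rfl⟩ := AlgEquiv.restrictNormalHom_surjective (F := ℚ) (K₁ := E) Ω g
    obtain ⟨h', rfl⟩ := AlgEquiv.restrictNormalHom_surjective (F := ℚ) (K₁ := E) Ω h
    refine ⟨g' * h' * g'⁻¹ * h'⁻¹, hV (HN_comm hN₀ g' h'), ?_⟩
    simp only [map_mul, map_inv]
  · intro j i h0
    have h1 := hY j i
    rw [h0] at h1
    exact (X j i).ne_zero h1.symm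
  · intro a b hab
    apply hXi
    funext i
    apply Units.ext
    rw [← hY a i, ← hY b i, hab]
  · rintro τ ⟨σ, hσ, rfl⟩ j
    have h1 : X j ∈ orb V x := by
      rw [horb, ← hXr]
      exact Set.mem_range_self j
    obtain ⟨ρ, hρ, hρX⟩ := h1
    have h2 : mv σ (X j) ∈ orb V x := ⟨σ * ρ, mul_mem hσ hρ, by rw [hρX, mv_comp]⟩
    rw [horb, ← hXr] at h2
    obtain ⟨j', hj'⟩ := h2
    refine ⟨j', fun i => Subtype.ext ?_⟩
    rw [hY j' i, hj', fd_res, hY j i]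
    rfl

theorem ineq_Om {N L J T D : ℕ} (x : Tor Ω n) (hD : dgT (HA Ω) x = D) (i₀ : Fin n)
    (hpos : 0 < absLogHeight₁ ((x i₀ : Ωˣ) : Ω)) (N₀ : ℕ) (hN₀ : 1 ≤ N₀)
    (V : Subgroup (Ω ≃ₐ[ℚ] Ω)) (hV : HN Ω N₀ ≤ V) (horb : orb V x = orb (HA Ω) x) (hT : 1 ≤ T)
    (P : Finset ℕ) (hP : ∀ l ∈ P, l.Prime ∧ l ≤ L) (lam : ℝ) (hlam0 : 0 ≤ lam)
    (hlam : ∀ l ∈ P, lam ≤ Real.log l)
    (hram : ∀ l ∈ P, ∃ N' : ℕ, 1 ≤ N' ∧ N' ∣ N₀ ∧ ¬ l ∣ N' ∧ V.relIndex (HN Ω N') ≤ J ∧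
      V.relIndex (HN Ω N') ≠ 0)
    (hreg : ∀ l ∈ P, dgT (HA Ω) (x ^ l) = D ∧ hd (Ab Ω) (crd (x ^ l)) (bx n N) = D)
    (θ : ℝ) (hθ : ht x ≤ θ) :
    (T : ℝ) * ((P.card : ℝ) - T ^ n) * D * lam ≤
      J * (Real.log (((P.card + T ^ n) * D).factorial : ℕ) +
        n * T * (T ^ n * D) * Real.log ((P.card * (N + 1) + 1 : ℕ) : ℝ) +
        ((P.card : ℝ) + T ^ n) * D * ((L * (P.card * (N + 1)) + T : ℕ) : ℝ) * θ) +
      4 * J * T * (Real.log (D.factorial : ℕ) + ((P.card : ℝ) + 1) * (L * N : ℕ) * (D * θ)) := by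
  have hD1 : 1 ≤ D := hD ▸ dg_pos (HA Ω) x
  obtain ⟨E, hEn, hEg, hEx, hEz⟩ := ex_E x N₀ hN₀
  obtain ⟨X, hXi, hXr⟩ := fd_enum x hD
  have hσ : ∀ j, ∃ σ ∈ HA Ω, X j = mv σ x := by
    intro j
    have h1 : X j ∈ orb (HA Ω) x := by
      rw [← hXr]
      exact Set.mem_range_self j
    exact h1
  have hmem : ∀ j i, ((X j i : Ωˣ) : Ω) ∈ E := by
    intro j i
    obtain ⟨σ, _, hj⟩ := hσ j
    rw [hj]
    exact fd_mem E σ _ (hEx i)
  have hht : ∀ j i, absLogHeight₁ ((X j i : Ωˣ) : Ω) = absLogHeight₁ ((x i : Ωˣ) : Ω) := by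
    intro j i
    obtain ⟨σ, _, hj⟩ := hσ j
    rw [hj]
    exact fd_ht σ _
  have hF0 : 0 < (Module.finrank ℚ E : ℝ) := by
    exact_mod_cast Module.finrank_pos (R := ℚ) (M := E)
  let Y : Fin D → Fin n → E := fun j i => ⟨((X j i : Ωˣ) : Ω), hmem j i⟩
  have hlog : ∀ j i, Height.logHeight₁ (Y j i) =
      (Module.finrank ℚ E : ℝ) * absLogHeight₁ ((x i : Ωˣ) : Ω) := by
    intro j i
    have h1 := Pool.Agent.H4.RR.absLogHeight_eq E Ω (algebraMap E Ω) (Y j i)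
    have h2 : absLogHeight₁ (algebraMap E Ω (Y j i)) = absLogHeight₁ ((x i : Ωˣ) : Ω) := hht j i
    rw [h2, eq_div_iff hF0.ne'] at h1
    rw [← h1]
    ring
  refine det_ineq (E := E) (N := N) (L := L) (J := J) (T := T) hD1 hT P hP lam hlam0 hlam
    (V.map (AlgEquiv.restrictNormalHom E)) ?_ Y
    (fd_stab x N₀ hN₀ V hV horb X hXi hXr E Y fun _ _ => rfl) ?_ i₀
    ((Module.finrank ℚ E : ℝ) * absLogHeight₁ ((x i₀ : Ωˣ) : Ω)) (mul_pos hF0 hpos)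
    (fun j => hlog j i₀) θ ?_
  · intro l hl w hw
    obtain ⟨N', h1, ⟨k, hk⟩, h3, h4, h5⟩ := hram l hl
    refine (ine_index E V N' h1 (fun z hz => hEz z ?_) l (hP l hl).1 h3 w hw h5).trans h4
    rw [hk, pow_mul, hz, one_pow]
  · intro l hl
    obtain ⟨e, he⟩ := reg_det x hD (hreg l hl).1 (hreg l hl).2 X hXi hXr
    refine ⟨e, fun h0 => he ?_⟩
    have h1 : (Matrix.of fun i j : Fin D => mn (e j) (fun a => ((X i a : Ωˣ) : Ω) ^ l)) =
        (algebraMap E Ω).mapMatrix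
          (Matrix.of fun i j : Fin D => mn (e j) (fun a => Y i a ^ l)) := by
      ext i j
      simp only [Matrix.of_apply, RingHom.mapMatrix_apply, Matrix.map_apply, mn, map_prod, map_pow]
      rfl
    rw [h1, ← RingHom.map_det, h0, map_zero]
  · intro j
    rw [Finset.sum_congr rfl fun i _ => hlog j i, ← Finset.mul_sum]
    exact mul_le_mul_of_nonneg_left hθ hF0.le

end Pool.Agent.H72.AD
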