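import Pool.Agent.H72.AD.OrbB
import Pool.Agent.H36.LE.LqB

/-!
# POINTS THEOREM, chapter G: the dimension of a span of monomials is at most the degree; torsion translates; heights

`hd_le_dg` (imports may be sorried). PROOF: the span is contained in `adjoin L (range x)` (finite-dimensional over `L`), of dimension `degP L x = dgT L.fixingSubgroup x` (`degP_dg`).
`hd_box_mono`: `hd L g (bx n N) ≤ hd L g (bx n N')` for `N ≤ N'` (`hd_mono`, `Pool/Agent/H11/TS/Hdb.lean`).
`ind_tw`: `z^N = 1`: `((∏ (z_i x_i)^(a_i))^m)^N = (∏ x_i^(a_i))^(m N)`. `ht_tw`: `(z_i x_i)^N = x_i^N`, `absLogHeight_pow` (see `Pool/Agent/H72/PB/HTwist.lean`). `ind_pos`: `IndM ⊥ x` and `i₀`: `x i₀` is not a root of unity (`a = Pi.single i₀ 1`), and an algebraic number `≠ 0` of height `0` is a root of unity (Kronecker's theorem; search for a lemma: `Pool/Agent/H72`, `H36/LH`, `H4/RR`;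
or derive it from Northcott / `NumberField.Embeddings.pow_eq_one_of_norm_eq_one`: height `0` implies that `y` is an algebraic integer all of whose conjugates have absolute value `≤ 1`, and so has its inverse).
-/

set_option autoImplicit false
set_option linter.unusedSectionVars false

open NumberField IntermediateField

namespace Pool.Agent.H72.AD

open Pool.Agent.H11.TH Pool.Agent.H11.TS

variable {Ω : Type} [Field Ω] [CharZero Ω] [IsAlgClosed Ω] [IsGalois ℚ Ω] {n : ℕ}

theorem hd_le_dg (L : IntermediateField ℚ Ω) (x : Tor Ω n) (E : Finset (Fin n → ℤ)) :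
    hd L (crd x) E ≤ dgT L.fixingSubgroup x := by
  rw [← degP_dg]
  unfold degP hd
  obtain ⟨M, hM⟩ : ∃ M : IntermediateField L Ω, M = IntermediateField.adjoin L
    (Set.range fun i => (x i : Ω)) := ⟨_, rfl⟩
  rw [← hM]
  have hmem : ∀ i, (x i : Ω) ∈ M := fun i => by
    rw [hM]
    exact IntermediateField.subset_adjoin L _ ⟨i, rfl⟩
  have hfd : FiniteDimensional L M := by
    rw [hM]
    have : Finite (Set.range fun i => (x i : Ω)) := (Set.finite_range _).to_subtype
    exact IntermediateField.finiteDimensional_adjoin fun y _ => Algebra.IsIntegral.isIntegral y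
  have hfd2 : Module.Finite L (Subalgebra.toSubmodule M.toSubalgebra) := hfd
  have hle : Submodule.span L (mz (crd x) '' (E : Set (Fin n → ℤ))) ≤
      Subalgebra.toSubmodule M.toSubalgebra := by
    rw [Submodule.span_le]
    rintro _ ⟨e, -, rfl⟩
    have h1 : ∏ i, (x i : Ω) ^ e i ∈ M := prod_mem fun i _ => zpow_mem (hmem i) (e i)
    exact h1
  exact Submodule.finrank_mono hle

theorem hd_box_mono (L : IntermediateField ℚ Ω) (x : Tor Ω n) {N N' : ℕ} (h : N ≤ N') :
    hd L (crd x) (bx n N) ≤ hd L (crd x) (bx n N') := by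
  refine hd_mono (crd x) fun e he => ?_
  rw [mem_bx] at he ⊢
  intro i
  refine ⟨(he i).1, (he i).2.trans ?_⟩
  exact_mod_cast h

theorem ind_tw (x z : Tor Ω n) (hz : IsT z) (hx : IndM (⊥ : Subgroup Ωˣ) x) :
    IndM (⊥ : Subgroup Ωˣ) (z * x) := by
  obtain ⟨N, hN, hz⟩ := hz
  intro a ha m hm hmem
  rw [Subgroup.mem_bot] at hmem
  refine hx a ha (m * N) (Nat.mul_pos hm hN) ?_
  rw [Subgroup.mem_bot]
  have h1 : ∏ i, (z * x) i ^ a i = (∏ i, z i ^ a i) * ∏ i, x i ^ a i := by
    rw [← Finset.prod_mul_distrib]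
    exact Finset.prod_congr rfl fun i _ => by rw [Pi.mul_apply, mul_zpow]
  have h2 : (∏ i, z i ^ a i) ^ N = 1 := by
    rw [← Finset.prod_pow]
    refine Finset.prod_eq_one fun i _ => ?_
    have h3 : z i ^ N = 1 := by
      have := congrFun hz i
      rwa [Pi.pow_apply, Pi.one_apply] at this
    rw [← zpow_natCast, ← zpow_mul, mul_comm, zpow_mul, zpow_natCast, h3, one_zpow]
  rw [h1, mul_pow] at hmem
  have h3 : ((∏ i, z i ^ a i) ^ m * (∏ i, x i ^ a i) ^ m) ^ N = 1 := by
    rw [hmem, one_pow]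
  rw [mul_pow, ← pow_mul, mul_comm m N, pow_mul, h2, one_pow, one_mul, ← pow_mul] at h3
  exact h3

theorem ht_tw (x z : Tor Ω n) (hz : IsT z) (i : Fin n) :
    absLogHeight₁ (((z * x) i : Ωˣ) : Ω) = absLogHeight₁ ((x i : Ωˣ) : Ω) := by
  obtain ⟨N, hN, hz⟩ := hz
  have hint : ∀ y : Ω, IsIntegral ℚ y := fun y => Algebra.IsIntegral.isIntegral y
  have h1 : (((z * x) i : Ωˣ) : Ω) ^ N = ((x i : Ωˣ) : Ω) ^ N := by
    have h2 : z i ^ N = 1 := by
      have := congrFun hz i
      rwa [Pi.pow_apply, Pi.one_apply] at this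
    rw [← Units.val_pow_eq_pow_val, ← Units.val_pow_eq_pow_val, Pi.mul_apply, mul_pow, h2, one_mul]
  have e1 := Pool.Agent.H4.RR.absLogHeight_pow Ω (((z * x) i : Ωˣ) : Ω) (hint _) N
  have e2 := Pool.Agent.H4.RR.absLogHeight_pow Ω ((x i : Ωˣ) : Ω) (hint _) N
  rw [h1, e2] at e1
  have hN0 : (N : ℝ) ≠ 0 := by
    have : 0 < N := hN
    positivity
  exact (mul_left_cancel₀ hN0 e1).symm

theorem ind_pos (x : Tor Ω n) (hx : IndM (⊥ : Subgroup Ωˣ) x) (i₀ : Fin n) :
    0 < absLogHeight₁ ((x i₀ : Ωˣ) : Ω) := by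
  classical
  obtain ⟨c, hc, h⟩ := Pool.Agent.H36.LE.lehmerQ
  have hint : IsIntegral ℚ ((x i₀ : Ωˣ) : Ω) := Algebra.IsIntegral.isIntegral _
  have h1 := h Ω ((x i₀ : Ωˣ) : Ω) hint (x i₀).ne_zero (fun k hk hk1 => by
    refine hx (Pi.single i₀ 1) (fun h0 => ?_) k hk ?_
    · have h2 := congrFun h0 i₀
      rw [Pi.single_eq_same, Pi.zero_apply] at h2
      exact one_ne_zero h2
    · rw [Subgroup.mem_bot, Finset.prod_eq_single i₀ (fun j _ hj => by
        rw [Pi.single_eq_of_ne hj, zpow_zero]) (fun h2 => absurd (Finset.mem_univ i₀) h2),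
        Pi.single_eq_same, zpow_one]
      apply Units.ext
      rw [Units.val_pow_eq_pow_val, hk1, Units.val_one]) _ le_rfl
  refine lt_of_lt_of_le ?_ h1
  have : FiniteDimensional ℚ ℚ⟮((x i₀ : Ωˣ) : Ω)⟯ :=
    IntermediateField.adjoin.finiteDimensional hint
  have h2 : 0 < Module.finrank ℚ ℚ⟮((x i₀ : Ωˣ) : Ω)⟯ := Module.finrank_pos
  exact div_pos hc (pow_pos (by exact_mod_cast h2) 4)

end Pool.Agent.H72.AD
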