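import Pool.Agent.H72.AD.DfG

/-!
# POINTS THEOREM, chapter G: the degree is the number of conjugates

`degP_dg`. PROOF: `M := adjoin L (range x)`, finite over `L` (the coordinates are algebraic), separable. `Fintype.card (M →ₐ[L] Ω) = finrank L M = degP L x` (`AlgHom.card`, `Ω` algebraically closed, characteristic 0). `f ↦ (f (x i))_i` is injective on these embeddings (they are determined on generators), and its image is `orb`: every `f` extends to an automorphism `σ` of `Ω` over `L`
(`IsAlgClosed.lift` / `AlgHom.liftNormal`, `Ω / L` is normal and algebraic; `AlgEquiv.restrictScalars ℚ`), which lies in `L.fixingSubgroup`; conversely `σ ∈ L.fixingSubgroup` restricts to an `L`-embedding of `M`. Units: `mv σ x i` is the unit with value `σ (x i)`. A similar proof for one element: `dg` in `Pool/Agent/H72/PB`; the orbit statement is also in `Pool/Agent/H33/PT/Exq.lean`.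
-/

set_option autoImplicit false
set_option linter.unusedSectionVars false

namespace Pool.Agent.H72.AD

open Pool.Agent.H11.TH Pool.Agent.H11.TS

variable {Ω : Type} [Field Ω] [CharZero Ω] [IsAlgClosed Ω] [IsGalois ℚ Ω] {n : ℕ}

theorem degP_dg (L : IntermediateField ℚ Ω) (x : Tor Ω n) : degP L x = dgT L.fixingSubgroup x := by
  classical
  unfold degP dgT
  set E := IntermediateField.adjoin L (Set.range fun i => (x i : Ω)) with hE
  have hmem : ∀ i, (x i : Ω) ∈ E := fun i => IntermediateField.subset_adjoin L _ ⟨i, rfl⟩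
  have hfd : FiniteDimensional L E := by
    rw [hE]
    have : Finite (Set.range fun i => (x i : Ω)) := (Set.finite_range _).to_subtype
    exact IntermediateField.finiteDimensional_adjoin fun y _ => Algebra.IsIntegral.isIntegral y
  let Θ : (E →ₐ[L] Ω) → Tor Ω n := fun f i =>
    Units.mk0 (f ⟨(x i : Ω), hmem i⟩) (by
      rw [Ne, map_eq_zero]
      intro h0
      exact (x i).ne_zero (congrArg Subtype.val h0))
  have hinj : Function.Injective Θ := by
    intro f g hfg
    have key : ∀ y : Ω, ∀ hy : y ∈ E, f ⟨y, hy⟩ = g ⟨y, hy⟩ := by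
      intro y hy
      have h1 : y ∈ IntermediateField.adjoin L (Set.range fun i => (x i : Ω)) := hy
      induction h1 using IntermediateField.adjoin_induction with
      | mem z hz =>
        obtain ⟨i, rfl⟩ := hz
        exact congrArg Units.val (congrFun hfg i)
      | algebraMap z => exact (f.commutes z).trans (g.commutes z).symm
      | add z t hz ht ihz iht =>
        have e1 : (⟨z + t, hy⟩ : E) = ⟨z, hz⟩ + ⟨t, ht⟩ := rfl
        rw [e1, map_add, map_add, ihz hz, iht ht]
      | inv z hz ihz =>
        have e1 : (⟨z⁻¹, hy⟩ : E) = (⟨z, hz⟩ : E)⁻¹ := rfl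
        rw [e1, map_inv₀, map_inv₀, ihz hz]
      | mul z t hz ht ihz iht =>
        have e1 : (⟨z * t, hy⟩ : E) = ⟨z, hz⟩ * ⟨t, ht⟩ := rfl
        rw [e1, map_mul, map_mul, ihz hz, iht ht]
    exact AlgHom.ext fun y => key y.1 y.2
  have hrange : Set.range Θ = orb L.fixingSubgroup x := by
    ext y
    constructor
    · rintro ⟨f, rfl⟩
      obtain ⟨φ, hφ⟩ := IntermediateField.exists_algHom_of_splits (F := L) (E := Ω) (K := Ω)
        (L := E) (fun s => ⟨Algebra.IsIntegral.isIntegral s, IsAlgClosed.splits _⟩) f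
      let F : Ω ≃ₐ[L] Ω := AlgEquiv.ofBijective φ (Algebra.IsAlgebraic.algHom_bijective φ)
      let σ := (L.fixingSubgroupEquiv).symm F
      refine ⟨σ, σ.2, ?_⟩
      funext i
      apply Units.ext
      exact (DFunLike.congr_fun hφ (⟨(x i : Ω), hmem i⟩ : E)).symm
    · rintro ⟨σ, hσ, rfl⟩
      refine ⟨((L.fixingSubgroupEquiv ⟨σ, hσ⟩ : Ω ≃ₐ[L] Ω) : Ω →ₐ[L] Ω).comp E.val, ?_⟩
      funext i
      apply Units.ext
      rfl
  rw [← hrange, ← Set.image_univ, Set.ncard_image_of_injective _ hinj, Set.ncard_univ,
    Nat.card_eq_fintype_card, AlgHom.card]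

end Pool.Agent.H72.AD
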