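import Pool.Agent.H72.AD.CycF
import Pool.Agent.H72.AD.OrbA
import Pool.Agent.H72.AD.OrbB
import Pool.Agent.H33.PT.Rpw

/-!
# POINTS THEOREM, chapter G: regularity over `ℚ(μ_∞)` and over `ℚ(μ_(N/l))`

`hd_sp`. PROOF: the two spans are spanned by the same set: `mz g e`, `e ∈ bx n N`, is `mo g a` with `a i = (e i).toNat ≤ N` (`zpow_natCast`).
`reg_ab`, `reg_cy` (imports may be sorried). PROOF: `reg_pow` (`Pool/Agent/H33/PT/Rpw.lean`) with `k := Ab Ω` resp. `k := Cy Ω (N/l)`, `F := Ω`, `g i := (x i : Ω)`, `q := l`, `B := Z^(c₁ + 1)`: the right side has dimension `degP k (x^l) = dgT k.fixingSubgroup (x^l)` (`degP_dg`; `range (fun i => ((x^l) i : Ω)) = range (fun i => g i ^ l)`), so `hd k (crd (x^l)) (bx n (2 (Z^n Z^(c₁+1))^2 max 1 M₁)) = dgT .. (x^l)` (`hd_sp`).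
`hfin`: finitely many algebraic elements. `hli` over `Cy Ω (N/l)`: linear independence over the larger field `Ab Ω` (`Cy Ω M ≤ Ab Ω` for `M ≥ 1`) gives it over the smaller one (`LinearIndependent.restrict_scalars` with the injective algebra map `Cy → Ab`, `IntermediateField.inclusion`; or by hand). `hD` for `Ab Ω`: `degP = dgT (HA Ω) x ≤ (M₁+1)^n Z^(c₁)`.
For `Cy Ω (N/l)`: `dgT (HN (N/l)) x ≤ (HN N).relIndex (HN (N/l)) * dgT (HN N) x ≤ l D ≤ Z D` (`orb_index`, `HN_rel`, `hNx`) `≤ (M₁+1)^n Z^(c₁+1)`.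
-/

set_option autoImplicit false
set_option linter.unusedSectionVars false

namespace Pool.Agent.H72.AD

open Pool.Agent.H11.TH Pool.Agent.H11.TS Pool.Agent.H33.PT

theorem hd_sp (k : Type) {F : Type} [Field k] [Field F] [Algebra k F] {n : ℕ} (g : Fin n → F)
    (N : ℕ) : hd k g (bx n N) = Module.finrank k (sp k g (fun _ => N)) := by
  have h : mz g '' ((bx n N : Finset (Fin n → ℤ)) : Set (Fin n → ℤ)) =
      mo g '' {a : Fin n → ℕ | ∀ i, a i ≤ N} := by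
    ext y
    constructor
    · rintro ⟨e, he, rfl⟩
      have he' := (mem_bx e).1 (Finset.mem_coe.1 he)
      refine ⟨fun i => (e i).toNat, fun i => ?_, ?_⟩
      · have h1 := (he' i).2
        show (e i).toNat ≤ N
        omega
      · unfold mo mz
        refine Finset.prod_congr rfl fun i _ => ?_
        rw [← zpow_natCast, Int.toNat_of_nonneg (he' i).1]
    · rintro ⟨a, ha, rfl⟩
      refine ⟨fun i => (a i : ℤ), ?_, ?_⟩
      · refine Finset.mem_coe.2 ((mem_bx _).2 fun i => ⟨Int.natCast_nonneg _, ?_⟩)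
        have h1 : a i ≤ N := ha i
        exact_mod_cast h1
      · unfold mo mz
        exact Finset.prod_congr rfl fun i _ => zpow_natCast _ _
  unfold hd sp
  rw [h]

variable {Ω : Type} [Field Ω] [CharZero Ω] [IsAlgClosed Ω] [IsGalois ℚ Ω] {n : ℕ}

private theorem reg_gen (L : IntermediateField ℚ Ω) (x : Tor Ω n) (M₁ Z B l : ℕ) (hl : 1 ≤ l)
    (hlZ : l ≤ Z)
    (hli : LinearIndependent L fun a : Fin n → Fin (M₁ + 1) =>
      mo (fun i => ((x i : Ωˣ) : Ω)) (fun i => (a i : ℕ)))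
    (hD : dgT L.fixingSubgroup x ≤ (M₁ + 1) ^ n * B) :
    hd L (crd (x ^ l)) (bx n (2 * (Z ^ n * B) ^ 2 * max 1 M₁)) =
      dgT L.fixingSubgroup (x ^ l) := by
  have hfin : FiniteDimensional L
      (IntermediateField.adjoin L (Set.range fun i => ((x i : Ωˣ) : Ω))) := by
    have : Finite (Set.range fun i => ((x i : Ωˣ) : Ω)) := (Set.finite_range _).to_subtype
    exact IntermediateField.finiteDimensional_adjoin fun y _ => Algebra.IsIntegral.isIntegral y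
  have hD' : Module.finrank L (IntermediateField.adjoin L (Set.range fun i => ((x i : Ωˣ) : Ω))) ≤
      (M₁ + 1) ^ n * B := by
    have h1 := degP_dg L x
    unfold degP at h1
    rw [h1]
    exact hD
  have h := reg_pow (fun i => ((x i : Ωˣ) : Ω)) hfin M₁ B Z l hl hlZ hli hD'
  have hc : (crd (x ^ l)) = fun i => ((x i : Ωˣ) : Ω) ^ l := by
    funext i
    exact Units.val_pow_eq_pow_val (x i) l
  have h3 := degP_dg L (x ^ l)
  unfold degP at h3
  have hc2 : (fun i => (((x ^ l) i : Ωˣ) : Ω)) = fun i => ((x i : Ωˣ) : Ω) ^ l := hc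
  rw [hc2] at h3
  rw [hd_sp, hc, h]
  exact h3

private theorem li_le {L L' : IntermediateField ℚ Ω} (h : L ≤ L') {ι : Type} {v : ι → Ω}
    (hli : LinearIndependent L' v) : LinearIndependent L v := by
  rw [linearIndependent_iff'] at hli ⊢
  intro s c hc i hi
  have h0 : ∑ j ∈ s, (⟨(c j : Ω), h (c j).2⟩ : L') • v j = 0 := by
    rw [← hc]
    exact Finset.sum_congr rfl fun j _ => rfl
  exact Subtype.ext (congrArg (fun t : L' => (t : Ω)) (hli s _ h0 i hi))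

theorem reg_ab (x : Tor Ω n) (M₁ Z c₁ l : ℕ) (hl : 1 ≤ l) (hlZ : l ≤ Z)
    (hli : LinearIndependent (Ab Ω) fun a : Fin n → Fin (M₁ + 1) =>
      mo (fun i => ((x i : Ωˣ) : Ω)) (fun i => (a i : ℕ)))
    (hD : dgT (HA Ω) x ≤ (M₁ + 1) ^ n * Z ^ c₁) :
    hd (Ab Ω) (crd (x ^ l)) (bx n (2 * (Z ^ n * Z ^ (c₁ + 1)) ^ 2 * max 1 M₁)) =
      dgT (HA Ω) (x ^ l) := by
  refine reg_gen (Ab Ω) x M₁ Z (Z ^ (c₁ + 1)) l hl hlZ hli (hD.trans ?_)
  exact Nat.mul_le_mul_left _ (Nat.pow_le_pow_right (hl.trans hlZ) (Nat.le_succ c₁))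

theorem reg_cy (x : Tor Ω n) (M₁ Z c₁ l N : ℕ) (hl : l.Prime) (hlZ : l ≤ Z) (hN : 1 ≤ N)
    (hlN : l ∣ N)
    (hli : LinearIndependent (Ab Ω) fun a : Fin n → Fin (M₁ + 1) =>
      mo (fun i => ((x i : Ωˣ) : Ω)) (fun i => (a i : ℕ)))
    (hD : dgT (HA Ω) x ≤ (M₁ + 1) ^ n * Z ^ c₁) (hNx : dgT (HN Ω N) x = dgT (HA Ω) x) :
    hd (Cy Ω (N / l)) (crd (x ^ l)) (bx n (2 * (Z ^ n * Z ^ (c₁ + 1)) ^ 2 * max 1 M₁)) =
      dgT (HN Ω (N / l)) (x ^ l) := by
  have hM : 1 ≤ N / l := Nat.div_pos (Nat.le_of_dvd hN hlN) hl.pos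
  have hle : Cy Ω (N / l) ≤ Ab Ω :=
    IntermediateField.adjoin.mono ℚ _ _ fun z hz => ⟨N / l, hM, hz⟩
  have hHle : HN Ω N ≤ HN Ω (N / l) := HN_anti (Nat.div_dvd_of_dvd hlN)
  have hli' : LinearIndependent (Cy Ω (N / l)) fun a : Fin n → Fin (M₁ + 1) =>
      mo (fun i => ((x i : Ωˣ) : Ω)) (fun i => (a i : ℕ)) := li_le hle hli
  have hrel := HN_rel (Ω := Ω) hN hl hlN
  have hD' : dgT (HN Ω (N / l)) x ≤ (M₁ + 1) ^ n * Z ^ (c₁ + 1) := by
    calc dgT (HN Ω (N / l)) x ≤ (HN Ω N).relIndex (HN Ω (N / l)) * dgT (HN Ω N) x :=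
          orb_index hHle hrel.2 x
      _ ≤ Z * ((M₁ + 1) ^ n * Z ^ c₁) := by
          rw [hNx]
          exact Nat.mul_le_mul (hrel.1.trans hlZ) hD
      _ = (M₁ + 1) ^ n * Z ^ (c₁ + 1) := by ring
  exact reg_gen (Cy Ω (N / l)) x M₁ Z (Z ^ (c₁ + 1)) l hl.one_lt.le hlZ hli' hD'

end Pool.Agent.H72.AD
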