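import Pool.Agent.H72.AD.DfG

/-!
# POINTS THEOREM, chapter G: the groups of the cyclotomic fields

All elementary. `mem_HN`: an automorphism fixes `adjoin ℚ S` iff it fixes the elements of `S` (`IntermediateField.mem_fixingSubgroup_iff`, `adjoin_induction` or `fixedField`). A primitive root `ζ` of order `N` exists in `Ω` (algebraically closed, characteristic 0: `HasEnoughRootsOfUnity`, `IsAlgClosed`, `IsPrimitiveRoot`), every `z` with `z^N = 1` is a power of `ζ`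
(`IsPrimitiveRoot.eq_pow_of_pow_eq_one`). `HN_comm`: `g ζ = ζ^a`, `h ζ = ζ^b`, so `g h ζ = h g ζ`, for every `N`-th root of unity. `HN_split`: `N = l N'`, `l ∤ N'`: every `z` with `z^N = 1` is a product of a `z'` with `z'^(N') = 1` and a `z''` with `z''^l = 1` (Bezout).
`HN_rel`: the index of `HN N` in `HN (N / l)`: for `l^2 ∣ N`: `σ ↦ σ ζ / ζ` is an injective map of the left (or right) cosets into `{z | z^l = 1}` (`ζ^l` is fixed), a homomorphism since `μ_l ⊆ μ_(N/l)` is fixed; so the index divides `l` (`HN_sq`) : the group `HN (N/l) / HN N` is isomorphic to a subgroup of the group of the `l`-th roots of unity, which has order `l`.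
For `l^2 ∤ N`: `σ` is determined modulo `HN N` by its action on a primitive `l`-th root of unity `ω` (`HN_split`), `σ ω` is one of the `l - 1` (`≤ l`) powers: index `≤ l`, finite (`≠ 0`).
`tors_fix`: `mv σ z = z` coordinatewise.
-/

set_option autoImplicit false
set_option linter.unusedSectionVars false

namespace Pool.Agent.H72.AD

open Pool.Agent.H11.TH Pool.Agent.H11.TS

variable {Ω : Type} [Field Ω] [CharZero Ω] [IsAlgClosed Ω] [IsGalois ℚ Ω] {n : ℕ}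

private theorem fix_adj {S : Set Ω} (σ : Ω ≃ₐ[ℚ] Ω) :
    σ ∈ (IntermediateField.adjoin ℚ S).fixingSubgroup ↔ ∀ z ∈ S, σ z = z := by
  rw [IntermediateField.mem_fixingSubgroup_iff]
  constructor
  · intro h z hz
    exact h z (IntermediateField.subset_adjoin ℚ S hz)
  · intro h x hx
    induction hx using IntermediateField.adjoin_induction with
    | mem x hx => exact h x hx
    | algebraMap x => exact σ.commutes x
    | add x y _ _ h1 h2 => rw [map_add, h1, h2]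
    | inv x _ h1 => rw [map_inv₀, h1]
    | mul x y _ _ h1 h2 => rw [map_mul, h1, h2]

theorem mem_HN {N : ℕ} (σ : Ω ≃ₐ[ℚ] Ω) : σ ∈ HN Ω N ↔ ∀ z : Ω, z ^ N = 1 → σ z = z :=
  fix_adj σ

theorem mem_HA (σ : Ω ≃ₐ[ℚ] Ω) : σ ∈ HA Ω ↔ ∀ z : Ω, ∀ N : ℕ, 1 ≤ N → z ^ N = 1 → σ z = z := by
  refine (fix_adj σ).trans ?_
  constructor
  · intro h z N hN hz
    exact h z ⟨N, hN, hz⟩
  · rintro h z ⟨N, hN, hz⟩
    exact h z N hN hz

theorem HN_anti {N N' : ℕ} (h : N ∣ N') : HN Ω N' ≤ HN Ω N := by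
  intro σ hσ
  rw [mem_HN] at hσ ⊢
  obtain ⟨k, rfl⟩ := h
  intro z hz
  exact hσ z (by rw [pow_mul, hz, one_pow])

theorem HA_le {N : ℕ} (hN : 1 ≤ N) : HA Ω ≤ HN Ω N := by
  intro σ hσ
  rw [mem_HA] at hσ
  rw [mem_HN]
  exact fun z hz => hσ z N hN hz

private theorem prim (Ω : Type) [Field Ω] [CharZero Ω] [IsAlgClosed Ω] {N : ℕ} (hN : 1 ≤ N) :
    ∃ ζ : Ω, IsPrimitiveRoot ζ N := by
  have : NeZero (N : Ω) := ⟨Nat.cast_ne_zero.2 (by omega)⟩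
  have hd : (Polynomial.cyclotomic N Ω).degree ≠ 0 := by
    rw [Polynomial.degree_cyclotomic]
    have := Nat.totient_pos.2 (show 0 < N by omega)
    exact_mod_cast this.ne'
  obtain ⟨ζ, hζ⟩ := IsAlgClosed.exists_root _ hd
  exact ⟨ζ, Polynomial.isRoot_cyclotomic_iff.1 hζ⟩

theorem HN_of_prim {N : ℕ} (hN : 1 ≤ N) (ζ : Ω) (hζ : IsPrimitiveRoot ζ N) (σ : Ω ≃ₐ[ℚ] Ω)
    (h : σ ζ = ζ) : σ ∈ HN Ω N := by
  rw [mem_HN]
  intro z hz
  have : NeZero N := ⟨by omega⟩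
  obtain ⟨i, _, hi⟩ := hζ.eq_pow_of_pow_eq_one hz
  rw [← hi, map_pow, h]

theorem HN_comm {N : ℕ} (hN : 1 ≤ N) (g h : Ω ≃ₐ[ℚ] Ω) : g * h * g⁻¹ * h⁻¹ ∈ HN Ω N := by
  obtain ⟨ζ, hζ⟩ := prim Ω hN
  have : NeZero N := ⟨by omega⟩
  have hpow : ∀ σ : Ω ≃ₐ[ℚ] Ω, ∃ a : ℕ, σ ζ = ζ ^ a := by
    intro σ
    obtain ⟨i, _, hi⟩ := hζ.eq_pow_of_pow_eq_one (ξ := σ ζ)
      (by rw [← map_pow, hζ.pow_eq_one, map_one])
    exact ⟨i, hi.symm⟩
  obtain ⟨a, ha⟩ := hpow g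
  obtain ⟨b, hb⟩ := hpow h
  obtain ⟨c, hc⟩ := hpow (g⁻¹ * h⁻¹)
  have hgh : g (h ζ) = h (g ζ) := by
    rw [ha, hb, map_pow, map_pow, ha, hb, ← pow_mul, ← pow_mul, mul_comm]
  refine HN_of_prim hN ζ hζ _ ?_
  have h1 : (g * h * g⁻¹ * h⁻¹) ζ = g (h ((g⁻¹ * h⁻¹) ζ)) := rfl
  have h2 : h (g ((g⁻¹ * h⁻¹) ζ)) = ζ := by
    have h3 : h (g ((g⁻¹ * h⁻¹) ζ)) = (h * (g * g⁻¹) * h⁻¹) ζ := rfl
    rw [h3, mul_inv_cancel, mul_one, mul_inv_cancel]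
    rfl
  rw [h1, ← h2, h2, hc, map_pow, map_pow, hgh, ← map_pow, ← map_pow, ← hc, h2]

theorem HN_normal {N : ℕ} (hN : 1 ≤ N) : (HN Ω N).Normal := by
  refine ⟨fun n hn g => ?_⟩
  rw [mem_HN] at hn ⊢
  intro z hz
  have h1 : (g * n * g⁻¹) z = g (n (g⁻¹ z)) := rfl
  have h2 : g (g⁻¹ z) = (g * g⁻¹) z := rfl
  rw [h1, hn _ (by rw [← map_pow, hz, map_one]), h2, mul_inv_cancel]
  rfl

theorem HN_split {N l : ℕ} (hN : 1 ≤ N) (hl : l.Prime) (hlN : l ∣ N) (hl2 : ¬ l ^ 2 ∣ N)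
    (σ : Ω ≃ₐ[ℚ] Ω) (h1 : σ ∈ HN Ω (N / l)) (h2 : ∀ z : Ω, z ^ l = 1 → σ z = z) : σ ∈ HN Ω N := by
  rw [mem_HN] at h1 ⊢
  obtain ⟨m, rfl⟩ := hlN
  rw [Nat.mul_div_cancel_left _ hl.pos] at h1
  have hlm : ¬ l ∣ m := by
    rintro ⟨k, rfl⟩
    exact hl2 ⟨k, by ring⟩
  have hco : Nat.Coprime l m := (Nat.Prime.coprime_iff_not_dvd hl).2 hlm
  have hbz : ((l : ℤ) * Nat.gcdA l m + m * Nat.gcdB l m) = 1 := by
    have := Nat.gcd_eq_gcd_ab l m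
    rw [hco] at this
    rw [← this]
    rfl
  intro z hz
  have hz0 : z ≠ 0 := by
    rintro rfl
    rw [zero_pow (by omega)] at hz
    exact zero_ne_one hz
  have e1 : σ (z ^ l) = z ^ l := h1 _ (by rw [← pow_mul, hz])
  have e2 : σ (z ^ m) = z ^ m := h2 _ (by rw [← pow_mul, mul_comm, hz])
  have e3 : z = (z ^ l) ^ (Nat.gcdA l m) * (z ^ m) ^ (Nat.gcdB l m) := by
    conv_lhs => rw [← zpow_one z, ← hbz, zpow_add₀ hz0, zpow_mul, zpow_mul, zpow_natCast, zpow_natCast]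
  conv_lhs => rw [e3]
  rw [map_mul, map_zpow₀, map_zpow₀, e1, e2, ← e3]

private theorem idx_le {G : Type} [Group G] (H : Subgroup G) {T : Type} [Finite T] (φ : G → T)
    (hφ : ∀ a b, φ a = φ b → a⁻¹ * b ∈ H) : H.index ≤ Nat.card T ∧ H.index ≠ 0 := by
  have hinj : Function.Injective (fun q : G ⧸ H => φ q.out) := by
    intro q q' h
    have h1 := hφ _ _ h
    rw [← QuotientGroup.eq] at h1
    rwa [QuotientGroup.out_eq', QuotientGroup.out_eq'] at h1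
  have : Finite (G ⧸ H) := Finite.of_injective _ hinj
  refine ⟨Nat.card_le_card_of_injective _ hinj, ?_⟩
  exact (Nat.card_pos (α := G ⧸ H)).ne'

private theorem ph_root {N l : ℕ} (hlN : l ∣ N) (ζ : Ω) (hζ : IsPrimitiveRoot ζ N) (hN : 1 ≤ N)
    (σ : HN Ω (N / l)) : (σ.1 ζ / ζ) ^ l = 1 := by
  have h1 := (mem_HN σ.1).1 σ.2 (ζ ^ l) (by rw [← pow_mul, Nat.mul_div_cancel' hlN, hζ.pow_eq_one])
  have h0 : ζ ≠ 0 := hζ.ne_zero (by omega)
  rw [div_pow, ← map_pow, h1, div_self (pow_ne_zero _ h0)]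

private theorem ph_inj {N l : ℕ} (ζ : Ω) (hζ : IsPrimitiveRoot ζ N) (hN : 1 ≤ N)
    (σ τ : HN Ω (N / l)) (h : σ.1 ζ / ζ = τ.1 ζ / ζ) :
    σ⁻¹ * τ ∈ (HN Ω N).subgroupOf (HN Ω (N / l)) := by
  have h0 : ζ ≠ 0 := hζ.ne_zero (by omega)
  rw [div_left_inj' h0] at h
  rw [Subgroup.mem_subgroupOf]
  refine HN_of_prim hN ζ hζ _ ?_
  have h1 : ((σ⁻¹ * τ : HN Ω (N / l)) : Ω ≃ₐ[ℚ] Ω) ζ = (σ.1)⁻¹ (τ.1 ζ) := rfl
  have h2 : (σ.1)⁻¹ (σ.1 ζ) = ((σ.1)⁻¹ * σ.1) ζ := rfl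
  rw [h1, ← h, h2, inv_mul_cancel]
  rfl

theorem HN_rel {N l : ℕ} (hN : 1 ≤ N) (hl : l.Prime) (hlN : l ∣ N) :
    (HN Ω N).relIndex (HN Ω (N / l)) ≤ l ∧ (HN Ω N).relIndex (HN Ω (N / l)) ≠ 0 := by
  obtain ⟨ζ, hζ⟩ := prim Ω hN
  have : NeZero l := ⟨hl.ne_zero⟩
  let φ : HN Ω (N / l) → rootsOfUnity l Ω := fun σ =>
    rootsOfUnity.mkOfPowEq (σ.1 ζ / ζ) (ph_root hlN ζ hζ hN σ)
  have hφ : ∀ a b, φ a = φ b → a⁻¹ * b ∈ (HN Ω N).subgroupOf (HN Ω (N / l)) := by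
    intro a b hab
    refine ph_inj ζ hζ hN a b ?_
    have h1 := congrArg (fun u : rootsOfUnity l Ω => ((u : Ωˣ) : Ω)) hab
    simpa only [φ, rootsOfUnity.coe_mkOfPowEq] using h1
  obtain ⟨h1, h2⟩ := idx_le _ φ hφ
  refine ⟨h1.trans ?_, h2⟩
  exact card_rootsOfUnity Ω l

theorem HN_sq {N l : ℕ} (hN : 1 ≤ N) (hl : l.Prime) (hlN : l ^ 2 ∣ N) :
    (HN Ω N).relIndex (HN Ω (N / l)) ∣ l := by
  obtain ⟨ζ, hζ⟩ := prim Ω hN
  have : NeZero l := ⟨hl.ne_zero⟩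
  have hlN' : l ∣ N := (dvd_pow_self l two_ne_zero).trans hlN
  have hlq : l ∣ N / l := by
    obtain ⟨k, rfl⟩ := hlN
    refine ⟨k, ?_⟩
    rw [pow_two, mul_assoc, Nat.mul_div_cancel_left _ hl.pos]
  have h0 : ζ ≠ 0 := hζ.ne_zero (by omega)
  let φ : HN Ω (N / l) →* rootsOfUnity l Ω :=
    { toFun := fun σ => rootsOfUnity.mkOfPowEq (σ.1 ζ / ζ) (ph_root hlN' ζ hζ hN σ)
      map_one' := by
        apply Subtype.ext
        apply Units.ext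
        rw [rootsOfUnity.coe_mkOfPowEq]
        show ζ / ζ = 1
        exact div_self h0
      map_mul' := by
        intro σ τ
        apply Subtype.ext
        apply Units.ext
        rw [rootsOfUnity.coe_mkOfPowEq]
        show (σ * τ).1 ζ / ζ =
          ((rootsOfUnity.mkOfPowEq (σ.1 ζ / ζ) (ph_root hlN' ζ hζ hN σ) : Ωˣ) : Ω) *
          ((rootsOfUnity.mkOfPowEq (τ.1 ζ / ζ) (ph_root hlN' ζ hζ hN τ) : Ωˣ) : Ω)
        rw [rootsOfUnity.coe_mkOfPowEq, rootsOfUnity.coe_mkOfPowEq]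
        have h1 : σ.1 (τ.1 ζ / ζ) = τ.1 ζ / ζ := by
          have h4 := ph_root hlN' ζ hζ hN τ
          refine (mem_HN σ.1).1 σ.2 _ ?_
          generalize τ.1 ζ / ζ = u at h4 ⊢
          obtain ⟨k, hk⟩ := hlq
          calc u ^ (N / l) = (u ^ l) ^ k := by rw [← pow_mul, ← hk]
            _ = 1 := by rw [h4, one_pow]
        have h2 : (σ * τ).1 ζ = σ.1 (τ.1 ζ) := rfl
        have h3 : σ.1 ζ ≠ 0 := (map_ne_zero σ.1).2 h0
        rw [map_div₀, div_eq_div_iff h3 h0] at h1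
        rw [h2]
        field_simp
        linear_combination h1 }
  have hker : (HN Ω N).subgroupOf (HN Ω (N / l)) = φ.ker := by
    ext σ
    rw [MonoidHom.mem_ker, Subgroup.mem_subgroupOf]
    constructor
    · intro hσ
      have h1 := (mem_HN σ.1).1 hσ ζ hζ.pow_eq_one
      apply Subtype.ext
      apply Units.ext
      show ((rootsOfUnity.mkOfPowEq (σ.1 ζ / ζ) (ph_root hlN' ζ hζ hN σ) : Ωˣ) : Ω) = 1
      rw [rootsOfUnity.coe_mkOfPowEq, h1, div_self h0]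
    · intro hσ
      have h1 := congrArg (fun u : rootsOfUnity l Ω => ((u : Ωˣ) : Ω)) hσ
      have h2 : σ.1 ζ / ζ = 1 := by
        have h3 : (((φ σ : rootsOfUnity l Ω) : Ωˣ) : Ω) = σ.1 ζ / ζ :=
          rootsOfUnity.coe_mkOfPowEq (ph_root hlN' ζ hζ hN σ)
        rw [← h3]
        exact h1
      refine HN_of_prim hN ζ hζ _ ?_
      rwa [div_eq_one_iff_eq h0] at h2
  have hidx : (HN Ω N).relIndex (HN Ω (N / l)) = φ.ker.index := by
    rw [Subgroup.relIndex, hker]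
  rw [hidx, Subgroup.index_ker]
  obtain ⟨ω, hω⟩ := prim Ω (show 1 ≤ l from hl.one_le)
  have hcard : Nat.card (rootsOfUnity l Ω) = l := hω.card_rootsOfUnity
  have h1 := Subgroup.card_subgroup_dvd_card φ.range
  rw [hcard] at h1
  exact h1

theorem tors_fix {N : ℕ} (z : Tor Ω n) (hz : z ^ N = 1) (σ : Ω ≃ₐ[ℚ] Ω) (hσ : σ ∈ HN Ω N) :
    mv σ z = z := by
  funext i
  apply Units.ext
  have h1 : (z i) ^ N = 1 := congrFun hz i
  have h2 : ((z i : Ωˣ) : Ω) ^ N = 1 := by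
    rw [← Units.val_pow_eq_pow_val, h1, Units.val_one]
  exact (mem_HN σ).1 hσ _ h2

theorem tors_fix' (z : Tor Ω n) (hz : IsT z) (σ : Ω ≃ₐ[ℚ] Ω) (hσ : σ ∈ HA Ω) : mv σ z = z := by
  obtain ⟨N, hN, hz⟩ := hz
  exact tors_fix z hz σ (HA_le hN hσ)

end Pool.Agent.H72.AD
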