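import Pool.Agent.H11.TS.Ech
import Pool.Agent.H33.TR.Loc

/-!
# POINTS THEOREM, chapter F: the local inequality for a determinant with two kinds of rows

`loc_det2`. PROOF (`ι = ι₀ ⊕ ι₁`, `Φ : ι → ℕ` any injection, `Fintype.equivFin`). `K := {G : ι → E | ∑_j G j Y (inl i) j = 0 for all i : ι₀}`, a subspace of dimension `≥ card ι₁` (`card ι₀` equations). `echelon` (`Pool/Agent/H11/TS/Ech.lean`) for `K` and `Φ`: `S : Finset ι`, `S.card ≥ card ι₁`, `f u ∈ K`, `v (f u u) = 1`, `v (f u b) ≤ 1`, `< 1` for `Φ u < Φ b`.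
`Q : Matrix ι ι E`, `Q b u := f u b` for `u ∈ S`, `if b = u then 1 else 0` otherwise; `unimod` (`Pool/Agent/H33/TR/Loc.lean`): `v Q.det = 1`. `Y' := Y * Q`, `v Y'.det = v Y.det`. `v (Y' i u) ≤ H i` (ultrametric). For `u ∈ S`: `Y' (inl i) u = 0`, `v (Y' (inr i) u)^J ≤ q i * H (inr i)^J` (`hq`).
Leibniz (`Matrix.det_apply'`, the term is `∏_u Y' (π u) u`): a term with `π u = inl i` for some `u ∈ S` is `0`. Otherwise `π` maps `S` into the `inr`, so injectively, and `S.card ≥ card ι₁`: the `u ∉ S` are mapped to the `inl` (`S.card = card ι₁`, `π` maps `S` onto all `inr i`). So every row `inr i` is `π u` with `u ∈ S`: the `J`-th power of the value of the term is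
`≤ ∏_i q i * ∏_i H i^J`. The sum is attained by one term (`IsNonarchimedean.finset_image_add_of_nonempty`), the set of permutations is nonempty; if the whole determinant is `0` and `J = 0` note `0^0 = 1`: for `J = 0` the left side is `1`: (then use that some term is nonzero: assume `hdet : Y.det ≠ 0`, which is a hypothesis).
-/

set_option autoImplicit false

namespace Pool.Agent.H72.AD

open Pool.Agent.H11.TS

theorem loc_det2 {E : Type} [Field E] (v : AbsoluteValue E ℝ) (hv : IsNonarchimedean v)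
    {ι₀ ι₁ : Type} [Fintype ι₀] [Fintype ι₁] [DecidableEq ι₀] [DecidableEq ι₁]
    (Y : Matrix (ι₀ ⊕ ι₁) (ι₀ ⊕ ι₁) E) (hdet : Y.det ≠ 0) (J : ℕ) (H : ι₀ ⊕ ι₁ → ℝ)
    (hH : ∀ i j, v (Y i j) ≤ H i) (q : ι₁ → ℝ) (hq0 : ∀ i, 0 ≤ q i)
    (hq : ∀ G : ι₀ ⊕ ι₁ → E, (∀ j, v (G j) ≤ 1) →
      (∀ i : ι₀, ∑ j, G j * Y (Sum.inl i) j = 0) →
      ∀ i : ι₁, v (∑ j, G j * Y (Sum.inr i) j) ^ J ≤ q i * H (Sum.inr i) ^ J) :
    v Y.det ^ J ≤ (∏ i, q i) * ∏ i, H i ^ J := by
  classical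
  obtain ⟨Φ, hΦ⟩ : ∃ Φ : ι₀ ⊕ ι₁ → ℕ, Function.Injective Φ :=
    ⟨fun i => (Fintype.equivFin (ι₀ ⊕ ι₁) i : ℕ), fun a b h =>
      (Fintype.equivFin (ι₀ ⊕ ι₁)).injective (Fin.ext h)⟩
  obtain ⟨M, hM⟩ : ∃ M : Matrix ι₀ (ι₀ ⊕ ι₁) E, M = Matrix.of fun i j => Y (Sum.inl i) j :=
    ⟨_, rfl⟩
  obtain ⟨S, f, hS, hf⟩ := echelon v Φ hΦ (LinearMap.ker M.mulVecLin)
  have hfK : ∀ u ∈ S, ∀ i : ι₀, ∑ j, f u j * Y (Sum.inl i) j = 0 := by
    intro u hu i
    have h1 := LinearMap.mem_ker.1 (hf u hu).1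
    have h2 : M.mulVec (f u) i = 0 := congrFun h1 i
    have h3 : M.mulVec (f u) i = ∑ j, Y (Sum.inl i) j * f u j := by
      rw [hM]
      rfl
    rw [h3] at h2
    rw [← h2]
    exact Finset.sum_congr rfl fun j _ => mul_comm _ _
  have hcard : Fintype.card ι₁ ≤ S.card := by
    have h1 := LinearMap.finrank_range_add_finrank_ker M.mulVecLin
    have h2 : Module.finrank E (LinearMap.range M.mulVecLin) ≤ Fintype.card ι₀ := by
      refine (Submodule.finrank_le _).trans ?_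
      rw [Module.finrank_fintype_fun_eq_card]
    rw [Module.finrank_fintype_fun_eq_card, Fintype.card_sum] at h1
    omega
  obtain ⟨Q, hQ⟩ : ∃ Q : Matrix (ι₀ ⊕ ι₁) (ι₀ ⊕ ι₁) E,
      Q = Matrix.of fun b u => if u ∈ S then f u b else if b = u then 1 else 0 := ⟨_, rfl⟩
  have hQe : ∀ b u, Q b u = if u ∈ S then f u b else if b = u then 1 else 0 := by
    intro b u
    rw [hQ]
    rfl
  have hQdet : v Q.det = 1 := by
    refine Pool.Agent.H33.TR.unimod v hv Φ hΦ Q ?_ ?_ ?_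
    · intro i j
      rw [hQe]
      split_ifs with h1 h2
      · exact (hf j h1).2.2.1 i
      · rw [map_one]
      · rw [map_zero]
        exact zero_le_one
    · intro j
      rw [hQe]
      by_cases h1 : j ∈ S
      · rw [if_pos h1]
        exact (hf j h1).2.1
      · rw [if_neg h1, if_pos rfl, map_one]
    · intro i j hij
      rw [hQe]
      split_ifs with h1 h2
      · exact (hf j h1).2.2.2 i hij
      · rw [h2] at hij
        exact absurd hij (lt_irrefl _)
      · rw [map_zero]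
        exact zero_lt_one
  have hY' : v (Y * Q).det = v Y.det := by
    rw [Matrix.det_mul, map_mul, hQdet, mul_one]
  have e1 : ∀ i, ∀ u ∈ S, (Y * Q) i u = ∑ j, f u j * Y i j := by
    intro i u hu
    rw [Matrix.mul_apply]
    refine Finset.sum_congr rfl fun j _ => ?_
    rw [hQe, if_pos hu, mul_comm]
  have e2 : ∀ i u, u ∉ S → (Y * Q) i u = Y i u := by
    intro i u hu
    rw [Matrix.mul_apply, Finset.sum_eq_single u]
    · rw [hQe, if_neg hu, if_pos rfl, mul_one]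
    · intro b _ hb
      rw [hQe, if_neg hu, if_neg hb, mul_zero]
    · intro h
      exact absurd (Finset.mem_univ u) h
  have hpos : 0 < v (Y * Q).det := by
    rw [hY']
    exact v.pos hdet
  obtain ⟨π, -, hπ⟩ := hv.finset_image_add_of_nonempty
    (fun π : Equiv.Perm (ι₀ ⊕ ι₁) => Equiv.Perm.sign π • ∏ i, (Y * Q) (π i) i)
    (Finset.univ_nonempty)
  rw [← Matrix.det_apply] at hπ
  have hterm : v (Equiv.Perm.sign π • ∏ i, (Y * Q) (π i) i) = ∏ i, v ((Y * Q) (π i) i) := by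
    rcases Int.units_eq_one_or (Equiv.Perm.sign π) with h | h
    · rw [h, one_smul, map_prod]
    · rw [h, Units.neg_smul, one_smul, map_neg_eq_map, map_prod]
  rw [hterm] at hπ
  have hne : ∀ u, (Y * Q) (π u) u ≠ 0 := by
    intro u h0
    have h1 : ∏ i, v ((Y * Q) (π i) i) = 0 :=
      Finset.prod_eq_zero (Finset.mem_univ u) (by rw [h0, map_zero])
    rw [h1] at hπ
    exact absurd hπ (not_le.2 hpos)
  have hS1 : ∀ u ∈ S, ∃ i : ι₁, π u = Sum.inr i := by
    intro u hu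
    rcases hc : π u with i | i
    · exfalso
      refine hne u ?_
      rw [hc, e1 _ u hu]
      exact hfK u hu i
    · exact ⟨i, rfl⟩
  have himg : S.map π.toEmbedding = Finset.univ.map Function.Embedding.inr := by
    refine Finset.eq_of_subset_of_card_le ?_ ?_
    · intro x hx
      obtain ⟨u, hu, rfl⟩ := Finset.mem_map.1 hx
      obtain ⟨i, hi⟩ := hS1 u hu
      exact Finset.mem_map.2 ⟨i, Finset.mem_univ _, hi.symm⟩
    · rw [Finset.card_map, Finset.card_map, Finset.card_univ]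
      exact hcard
  have hr : ∀ i : ι₁, π.symm (Sum.inr i) ∈ S := by
    intro i
    have h1 : (Sum.inr i : ι₀ ⊕ ι₁) ∈ S.map π.toEmbedding := by
      rw [himg]
      exact Finset.mem_map.2 ⟨i, Finset.mem_univ _, rfl⟩
    obtain ⟨u, hu, h2⟩ := Finset.mem_map.1 h1
    have h3 : π u = Sum.inr i := h2
    rw [← h3, Equiv.symm_apply_apply]
    exact hu
  have hl : ∀ i : ι₀, π.symm (Sum.inl i) ∉ S := by
    intro i h
    obtain ⟨k, hk⟩ := hS1 _ h
    rw [Equiv.apply_symm_apply] at hk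
    exact absurd hk (by simp)
  have hprod : ∏ i, v ((Y * Q) (π i) i) = ∏ i, v ((Y * Q) i (π.symm i)) := by
    rw [← Equiv.prod_comp π fun i => v ((Y * Q) i (π.symm i))]
    refine Finset.prod_congr rfl fun i _ => ?_
    rw [Equiv.symm_apply_apply]
  rw [← hY']
  refine (pow_le_pow_left₀ (v.nonneg _) hπ J).trans ?_
  rw [hprod, ← Finset.prod_pow, Fintype.prod_sum_type, Fintype.prod_sum_type]
  have h1 : ∏ i : ι₀, v ((Y * Q) (Sum.inl i) (π.symm (Sum.inl i))) ^ J ≤
      ∏ i : ι₀, H (Sum.inl i) ^ J := by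
    refine Finset.prod_le_prod (fun i _ => pow_nonneg (v.nonneg _) _) fun i _ => ?_
    rw [e2 _ _ (hl i)]
    exact pow_le_pow_left₀ (v.nonneg _) (hH _ _) J
  have h2 : ∏ i : ι₁, v ((Y * Q) (Sum.inr i) (π.symm (Sum.inr i))) ^ J ≤
      ∏ i : ι₁, (q i * H (Sum.inr i) ^ J) := by
    refine Finset.prod_le_prod (fun i _ => pow_nonneg (v.nonneg _) _) fun i _ => ?_
    rw [e1 _ _ (hr i)]
    exact hq _ (hf _ (hr i)).2.2.1 (hfK _ (hr i)) i
  rw [Finset.prod_mul_distrib] at h2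
  have hH0 : ∀ i, 0 ≤ H i := fun i => (v.nonneg _).trans (hH i i)
  calc _ ≤ (∏ i : ι₀, H (Sum.inl i) ^ J) * ((∏ i, q i) * ∏ i : ι₁, H (Sum.inr i) ^ J) :=
        mul_le_mul h1 h2 (Finset.prod_nonneg fun i _ => pow_nonneg (v.nonneg _) _)
          (Finset.prod_nonneg fun i _ => pow_nonneg (hH0 _) _)
    _ = _ := by ring

end Pool.Agent.H72.AD
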