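import Pool.Agent.H72.AD.Gain
import Pool.Agent.H72.AD.LDet

/-!
# POINTS THEOREM, chapter F: the big determinant at a finite place

`de_loc`. PROOF (imports may be sorried). `v := w.val`, `Y := DM Φ X A₀ A₁ c`, `Q := J * (L * M + T)`. `loc_det2` with
`H i := ∏_a (max 1 (w (pt Φ X A₀ A₁ i a)))^(L M + T)` (so `H i ^ J = ∏ max^Q`), `q a := if w l < 1 ∧ (the point pt (inr a) is fixed by V ⊓ Ine w) then w l ^ T else 1` for `a ∈ A₁`, `l = l_a` its prime.
* `hH`: an entry of a jet row is `∏ binom * X^(b - k)`, `w (binom) ≤ 1`, `w (x^(b - k)) ≤ max(1, w x)^M`; an evaluation row: `w (mn b (p^l)) ≤ ∏ max(1, w p)^(l M)`, `l ≤ L`; `M, l M ≤ L M + T` (`L ≥ 1` because `P` contains a prime `≤ L` if `A₁` is nonempty; if `A₁` is empty the jet rows need `M ≤ L M + T`: use `hL : 1 ≤ L`).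
* `hq`: let `G : A₀ ⊕ A₁ → E`, `v ≤ 1`, kill the jet rows `i ∈ A₀`. `Ĝ : Bx n M → E`, `Ĝ (c j) = G j`, `0` outside of the range of `c` (`hc` injective): `∑_b Ĝ b f b = ∑_j G j f (c j)` for every `f`. It kills `uu X i` for `i ∈ A₀`, so all `uu X s` (`hspan`). Let `a ∈ A₁`, `l, j` its prime and index, `p := cj (Φ l)⁻¹ X j`. If `q a = 1`: `hH` and the ultrametric inequality. Otherwise `IsFr`: `ρ`, `σ := ρ⁻¹ Φ_l ρ`.
 `σ Φ_l⁻¹ = ρ⁻¹ Φ_l ρ Φ_l⁻¹ ∈ V` (`comm`), so `σ ∘ p = (σ Φ_l⁻¹) ∘ X j = X j'` for some `j'` (`st`): the jets `∑_b Ĝ b jt k b (σ ∘ p) = 0` for all `k` with `k_i < T` (`s = (j', k)`). `gain`: `w (∑_b Ĝ b mn b (p^l))^J ≤ w l ^ T ∏ max(1, w p)^(J (l M + T)) ≤ q a * H^J`.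
* Result: `w (det)^J ≤ (∏_a q a) * ∏_i ∏_a max^Q`. Finally `(∏_(a ∈ A₁) q a) * (UU w)^T ≤ ∏_(a ∈ A₁) (if w l < 1 then w l ^ T else 1)`: if no `l ∈ P` has `w l < 1` all factors are `1`. Otherwise exactly one `l` (two different primes cannot both have value `< 1`: Bezout), `UU w = w l ^ bd`; the number of `a ∈ A₁` with prime `l` and moved point is at most `bd` (the map `a ↦ j` is injective on them), so
 `w l ^ (T #fixed) * w l ^ (T bd) ≤ w l ^ (T #all)`, as `w l ≤ 1`. Multiply the inequality for `w (det)^J` with `(UU w)^T ≥ 0`.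
-/

set_option autoImplicit false

open NumberField

namespace Pool.Agent.H72.AD

open Pool.Agent.H33.TR

private theorem dl_sum {E : Type} [Field E] [NumberField E] (w : FinitePlace E) {α : Type}
    (s : Finset α) (f : α → E) (B : ℝ) (hB : 0 ≤ B) (h : ∀ a ∈ s, w (f a) ≤ B) :
    w (∑ a ∈ s, f a) ≤ B := by
  classical
  induction s using Finset.induction_on with
  | empty =>
    rw [Finset.sum_empty, map_zero]
    exact hB
  | insert a s ha ih =>
    rw [Finset.sum_insert ha]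
    refine (FinitePlace.add_le w _ _).trans (max_le (h a (Finset.mem_insert_self _ _)) (ih ?_))
    intro b hb
    exact h b (Finset.mem_insert_of_mem hb)

private theorem dl_nat {E : Type} [Field E] [NumberField E] (w : FinitePlace E) (m : ℕ) :
    w ((m : ℕ) : E) ≤ 1 := by
  induction m with
  | zero =>
    rw [Nat.cast_zero, map_zero]
    exact zero_le_one
  | succ m ih =>
    rw [Nat.cast_succ]
    refine (FinitePlace.add_le w _ _).trans (max_le ih ?_)
    rw [map_one]

private theorem dl_pow {x : ℝ} (hx : 0 ≤ x) {m N : ℕ} (h : m ≤ N) : x ^ m ≤ (max 1 x) ^ N :=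
  (pow_le_pow_left₀ hx (le_max_right _ _) m).trans (pow_le_pow_right₀ (le_max_left _ _) h)

private theorem dl_jt {E : Type} [Field E] [NumberField E] (w : FinitePlace E) {n M N : ℕ}
    (hN : M ≤ N) (k : Fin n → ℕ) (b : Bx n M) (x : Fin n → E) :
    w (jt k b x) ≤ ∏ i, (max 1 (w (x i))) ^ N := by
  unfold jt
  rw [map_prod]
  refine Finset.prod_le_prod (fun i _ => apply_nonneg w _) fun i _ => ?_
  rw [map_mul, map_pow]
  have h1 : w (x i) ^ ((b i : ℕ) - k i) ≤ (max 1 (w (x i))) ^ N := by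
    refine dl_pow (apply_nonneg w _) ?_
    have := (b i).2
    omega
  calc w ((((b i : ℕ).choose (k i) : ℕ) : E)) * w (x i) ^ ((b i : ℕ) - k i)
      ≤ 1 * w (x i) ^ ((b i : ℕ) - k i) :=
        mul_le_mul_of_nonneg_right (dl_nat w _) (pow_nonneg (apply_nonneg w _) _)
    _ = w (x i) ^ ((b i : ℕ) - k i) := one_mul _
    _ ≤ _ := h1

private theorem dl_mn {E : Type} [Field E] [NumberField E] (w : FinitePlace E) {n M N l : ℕ}
    (hN : l * M ≤ N) (b : Bx n M) (x : Fin n → E) :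
    w (mn b (fun i => x i ^ l)) ≤ ∏ i, (max 1 (w (x i))) ^ N := by
  unfold mn
  rw [map_prod]
  refine Finset.prod_le_prod (fun i _ => apply_nonneg w _) fun i _ => ?_
  rw [map_pow, map_pow, ← pow_mul]
  refine dl_pow (apply_nonneg w _) ?_
  have h1 := (b i).2
  calc l * (b i : ℕ) ≤ l * M := Nat.mul_le_mul_left _ (by omega)
    _ ≤ N := hN

private theorem dl_key {α : Type} (x : ℝ) (hx0 : 0 ≤ x) (hx1 : x ≤ 1) (T b : ℕ) (s : Finset α)
    (Q : α → Prop) [DecidablePred Q] (hb : (s.filter fun a => ¬ Q a).card ≤ b) :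
    (∏ a ∈ s, if Q a then x ^ T else 1) * (x ^ b) ^ T ≤ ∏ _a ∈ s, x ^ T := by
  rw [Finset.prod_ite, Finset.prod_const_one, mul_one,
    ← Finset.prod_filter_mul_prod_filter_not s Q]
  refine mul_le_mul_of_nonneg_left ?_ (Finset.prod_nonneg fun i _ => pow_nonneg hx0 _)
  rw [Finset.prod_const, ← pow_mul, mul_comm b T, pow_mul]
  exact pow_le_pow_of_le_one (pow_nonneg hx0 _) (pow_le_one₀ hx0 hx1) hb

theorem de_loc {E : Type} [Field E] [NumberField E] [IsGalois ℚ E] {n D T M J L : ℕ} (hL : 1 ≤ L)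
    {P : Finset ℕ} (hP : ∀ l ∈ P, l.Prime ∧ l ≤ L) (V : Subgroup (E ≃ₐ[ℚ] E))
    (hJ : ∀ l ∈ P, ∀ w : FinitePlace E, w (l : E) < 1 → V.relIndex (Ine w) ≤ J)
    (X : Fin D → Fin n → E) (hX : Stab V X) (Φ : ℕ → (E ≃ₐ[ℚ] E)) (hΦ : ∀ l ∈ P, IsFr l (Φ l))
    (A₀ : Finset (Fin D × (Fin n → Fin T))) (A₁ : Finset (P × Fin D)) (c : A₀ ⊕ A₁ → Bx n M)
    (hc : Function.Injective c) (hdet : (DM Φ X A₀ A₁ c).det ≠ 0)
    (hspan : ∀ s : Fin D × (Fin n → Fin T), (uu X s : Bx n M → E) ∈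
      Submodule.span E (Set.range fun i : A₀ => (uu X i.1 : Bx n M → E)))
    (w : FinitePlace E) :
    w (DM Φ X A₀ A₁ c).det ^ J * UU P V Φ X w ^ T ≤
      (∏ a : A₁, (if w ((a.1.1 : ℕ) : E) < 1 then w ((a.1.1 : ℕ) : E) ^ T else 1)) *
        ∏ i, ∏ a, (max 1 (w (pt Φ X A₀ A₁ i a))) ^ (J * (L * M + T)) := by
  classical
  obtain ⟨H, hHd⟩ : ∃ H : A₀ ⊕ A₁ → ℝ, H = fun i =>
      ∏ a, (max 1 (w (pt Φ X A₀ A₁ i a))) ^ (L * M + T) := ⟨_, rfl⟩
  obtain ⟨Fx, hFx⟩ : ∃ Fx : A₁ → Prop, Fx = fun a => ∀ τ ∈ V, τ ∈ Ine w → ∀ i,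
      τ (cj (Φ a.1.1)⁻¹ X a.1.2 i) = cj (Φ a.1.1)⁻¹ X a.1.2 i := ⟨_, rfl⟩
  obtain ⟨q, hqd⟩ : ∃ q : A₁ → ℝ, q = fun a =>
      if w ((a.1.1 : ℕ) : E) < 1 then (if Fx a then w ((a.1.1 : ℕ) : E) ^ T else 1) else 1 :=
    ⟨_, rfl⟩
  have hw0 : ∀ x : E, 0 ≤ w x := fun x => apply_nonneg w x
  have hHJ : ∀ i, H i ^ J = ∏ a, (max 1 (w (pt Φ X A₀ A₁ i a))) ^ (J * (L * M + T)) := by
    intro i
    rw [hHd]
    simp only
    rw [← Finset.prod_pow]
    refine Finset.prod_congr rfl fun a _ => ?_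
    rw [← pow_mul, mul_comm]
  have hq0 : ∀ a, 0 ≤ q a := by
    intro a
    rw [hqd]
    simp only
    split_ifs
    · exact pow_nonneg (hw0 _) _
    · exact zero_le_one
    · exact zero_le_one
  have hH : ∀ i j, w (DM Φ X A₀ A₁ c i j) ≤ H i := by
    intro i j
    rw [hHd]
    rcases i with i | i
    · change w (uu X i.1 (c j)) ≤ ∏ a, (max 1 (w (X i.1.1 a))) ^ (L * M + T)
      refine dl_jt w ?_ _ _ _
      calc M = 1 * M := (one_mul M).symm
        _ ≤ L * M := Nat.mul_le_mul_right _ hL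
        _ ≤ L * M + T := Nat.le_add_right _ _
    · change w (mn (c j) (fun a => cj (Φ i.1.1)⁻¹ X i.1.2 a ^ ((i.1.1 : P) : ℕ))) ≤
        ∏ a, (max 1 (w (cj (Φ i.1.1)⁻¹ X i.1.2 a))) ^ (L * M + T)
      refine dl_mn w ?_ _ _
      calc ((i.1.1 : P) : ℕ) * M ≤ L * M := Nat.mul_le_mul_right _ (hP _ i.1.1.2).2
        _ ≤ L * M + T := Nat.le_add_right _ _
  have hHnn : ∀ i, 0 ≤ H i := by
    intro i
    rw [hHd]
    exact Finset.prod_nonneg fun a _ => pow_nonneg (le_trans zero_le_one (le_max_left _ _)) _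
  -- the condition
  have hq : ∀ G : A₀ ⊕ A₁ → E, (∀ j, w.val (G j) ≤ 1) →
      (∀ i : A₀, ∑ j, G j * DM Φ X A₀ A₁ c (Sum.inl i) j = 0) →
      ∀ i : A₁, w.val (∑ j, G j * DM Φ X A₀ A₁ c (Sum.inr i) j) ^ J ≤ q i * H (Sum.inr i) ^ J := by
    intro G hG hker a
    by_cases hcase : w ((a.1.1 : ℕ) : E) < 1 ∧ Fx a
    swap
    · have hq1 : q a = 1 := by
        rw [hqd]
        simp only
        by_cases h1 : w ((a.1.1 : ℕ) : E) < 1
        · have h2 : ¬ Fx a := fun h => hcase ⟨h1, h⟩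
          rw [if_pos h1, if_neg h2]
        · rw [if_neg h1]
      rw [hq1, one_mul]
      refine pow_le_pow_left₀ (w.val.nonneg _) ?_ J
      change w (∑ j, G j * DM Φ X A₀ A₁ c (Sum.inr a) j) ≤ H (Sum.inr a)
      refine dl_sum w _ _ _ (hHnn _) ?_
      intro j _
      rw [map_mul]
      calc w (G j) * w (DM Φ X A₀ A₁ c (Sum.inr a) j) ≤ 1 * H (Sum.inr a) :=
            mul_le_mul (hG j) (hH _ _) (hw0 _) zero_le_one
        _ = _ := one_mul _
    · obtain ⟨hl1, hfx⟩ := hcase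
      have hq1 : q a = w ((a.1.1 : ℕ) : E) ^ T := by
        rw [hqd]
        simp only
        rw [if_pos hl1, if_pos hfx]
      -- extension
      obtain ⟨G', hG'⟩ : ∃ G' : Bx n M → E, G' = Function.extend c G 0 := ⟨_, rfl⟩
      have hG'c : ∀ j, G' (c j) = G j := by
        intro j
        rw [hG']
        exact hc.extend_apply G 0 j
      have hG'0 : ∀ b, b ∉ Set.range c → G' b = 0 := by
        intro b hb
        rw [hG', Function.extend_apply']
        · rfl
        · exact hb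
      have hG'1 : ∀ b, w (G' b) ≤ 1 := by
        intro b
        by_cases hb : b ∈ Set.range c
        · obtain ⟨j, rfl⟩ := hb
          rw [hG'c]
          exact hG j
        · rw [hG'0 b hb, map_zero]
          exact zero_le_one
      have hsum : ∀ f : Bx n M → E, ∑ b, G' b * f b = ∑ j, G j * f (c j) := by
        intro f
        symm
        refine Fintype.sum_of_injective c hc _ _ ?_ ?_
        · intro b hb
          rw [hG'0 b hb, zero_mul]
        · intro j
          rw [hG'c]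
      obtain ⟨lam, hlam⟩ : ∃ lam : (Bx n M → E) →ₗ[E] E, ∀ f, lam f = ∑ b, G' b * f b := by
        refine ⟨{ toFun := fun f => ∑ b, G' b * f b, map_add' := ?_, map_smul' := ?_ }, fun f => rfl⟩
        · intro f g
          rw [← Finset.sum_add_distrib]
          refine Finset.sum_congr rfl fun b _ => ?_
          rw [Pi.add_apply]
          ring
        · intro r f
          rw [RingHom.id_apply, smul_eq_mul, Finset.mul_sum]
          refine Finset.sum_congr rfl fun b _ => ?_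
          rw [Pi.smul_apply, smul_eq_mul]
          ring
      have hle : Submodule.span E (Set.range fun i : A₀ => (uu X i.1 : Bx n M → E)) ≤
          LinearMap.ker lam := by
        refine Submodule.span_le.2 ?_
        rintro _ ⟨i, rfl⟩
        rw [SetLike.mem_coe, LinearMap.mem_ker, hlam, hsum]
        exact hker i
      have hall : ∀ s : Fin D × (Fin n → Fin T), ∑ b, G' b * uu X s b = 0 := by
        intro s
        have h1 := hle (hspan s)
        rw [LinearMap.mem_ker, hlam] at h1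
        exact h1
      -- the Frobenius
      have hlP : ((a.1.1 : P) : ℕ) ∈ P := a.1.1.2
      obtain ⟨ρ, hρ1, hρ2⟩ := hΦ _ hlP w hl1
      obtain ⟨j', hj'⟩ := hX.st (ρ⁻¹ * Φ (a.1.1 : P) * (ρ⁻¹)⁻¹ * (Φ (a.1.1 : P))⁻¹)
        (hX.comm _ _) a.1.2
      have hσX : (fun i => (ρ⁻¹ * Φ (a.1.1 : P) * ρ) (cj (Φ (a.1.1 : P))⁻¹ X a.1.2 i)) = X j' := by
        funext i
        rw [← hj' i, inv_inv]
        rfl
      have hg := gain w _ (hP _ hlP).1 hl1 V hX.comm J (hJ _ hlP w hl1)
        (ρ⁻¹ * Φ (a.1.1 : P) * ρ) hρ1 hρ2 (cj (Φ (a.1.1 : P))⁻¹ X a.1.2)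
        (fun i => (map_ne_zero _).2 (hX.ne _ _)) (by rw [hFx] at hfx; exact hfx) T G' hG'1
        (by
          intro k hk
          rw [hσX]
          exact hall (j', fun i => ⟨k i, hk i⟩))
      rw [hsum] at hg
      rw [hq1, hHJ]
      refine le_trans hg (mul_le_mul_of_nonneg_left ?_ (pow_nonneg (hw0 _) _))
      refine Finset.prod_le_prod (fun i _ => pow_nonneg (le_trans zero_le_one (le_max_left _ _)) _)
        fun i _ => ?_
      refine pow_le_pow_right₀ (le_max_left _ _) ?_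
      refine Nat.mul_le_mul_left _ (Nat.add_le_add_right ?_ _)
      exact Nat.mul_le_mul_right _ (hP _ hlP).2
  have hmain := loc_det2 w.val (fun a b => FinitePlace.add_le w a b) (DM Φ X A₀ A₁ c) hdet J H hH q
    hq0 hq
  -- the factor of the moved points
  have hfin : (∏ a, q a) * UU P V Φ X w ^ T ≤
      ∏ a : A₁, (if w ((a.1.1 : ℕ) : E) < 1 then w ((a.1.1 : ℕ) : E) ^ T else 1) := by
    unfold UU
    rw [← Finset.prod_coe_sort P, ← Finset.prod_pow,
      ← Finset.prod_fiberwise (Finset.univ : Finset A₁) (fun a => a.1.1) q,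
      ← Finset.prod_fiberwise (Finset.univ : Finset A₁) (fun a => a.1.1)
        (fun a => if w ((a.1.1 : ℕ) : E) < 1 then w ((a.1.1 : ℕ) : E) ^ T else 1),
      ← Finset.prod_mul_distrib]
    refine Finset.prod_le_prod ?_ ?_
    · intro l _
      refine mul_nonneg (Finset.prod_nonneg fun a _ => hq0 a) (pow_nonneg ?_ _)
      split_ifs
      · exact pow_nonneg (hw0 _) _
      · exact zero_le_one
    · intro l _
      by_cases hl : w ((l : ℕ) : E) < 1
      · rw [if_pos hl]
        have h1 : ∏ a ∈ Finset.univ.filter (fun a : A₁ => a.1.1 = l), q a =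
            ∏ a ∈ Finset.univ.filter (fun a : A₁ => a.1.1 = l),
              (if Fx a then w ((l : ℕ) : E) ^ T else 1) := by
          refine Finset.prod_congr rfl fun a ha => ?_
          rw [Finset.mem_filter] at ha
          rw [hqd]
          simp only
          rw [ha.2, if_pos hl]
        have h2 : ∏ a ∈ Finset.univ.filter (fun a : A₁ => a.1.1 = l),
            (if w ((a.1.1 : ℕ) : E) < 1 then w ((a.1.1 : ℕ) : E) ^ T else 1) =
            ∏ _a ∈ Finset.univ.filter (fun a : A₁ => a.1.1 = l), w ((l : ℕ) : E) ^ T := by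
          refine Finset.prod_congr rfl fun a ha => ?_
          rw [Finset.mem_filter] at ha
          rw [ha.2, if_pos hl]
        rw [h1, h2]
        refine dl_key _ (hw0 _) hl.le T _ _ Fx ?_
        unfold bd
        rw [← Finset.card_image_of_injOn (f := fun a : A₁ => a.1.2), ← Set.ncard_coe_finset]
        · refine Set.ncard_le_ncard ?_ (Set.toFinite _)
          intro j hj
          rw [Finset.mem_coe, Finset.mem_image] at hj
          obtain ⟨a, ha, rfl⟩ := hj
          rw [Finset.mem_filter, Finset.mem_filter] at ha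
          have h3 := ha.2
          rw [hFx] at h3
          push Not at h3
          rw [Set.mem_ofPred_eq, ← ha.1.2]
          exact h3
        · intro a ha b hb hab
          rw [Finset.mem_coe, Finset.mem_filter, Finset.mem_filter] at ha hb
          apply Subtype.ext
          apply Prod.ext
          · rw [ha.1.2, hb.1.2]
          · exact hab
      · rw [if_neg hl, one_pow, mul_one]
        refine le_of_eq (Finset.prod_congr rfl fun a ha => ?_)
        rw [Finset.mem_filter] at ha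
        rw [hqd]
        simp only
        rw [ha.2, if_neg hl, if_neg hl]
  have hUU : 0 ≤ UU P V Φ X w := by
    unfold UU
    refine Finset.prod_nonneg fun l _ => ?_
    split_ifs
    · exact pow_nonneg (hw0 _) _
    · exact zero_le_one
  calc w (DM Φ X A₀ A₁ c).det ^ J * UU P V Φ X w ^ T
      ≤ ((∏ a, q a) * ∏ i, H i ^ J) * UU P V Φ X w ^ T :=
        mul_le_mul_of_nonneg_right hmain (pow_nonneg hUU _)
    _ = ((∏ a, q a) * UU P V Φ X w ^ T) * ∏ i, H i ^ J := by ring
    _ ≤ (∏ a : A₁, (if w ((a.1.1 : ℕ) : E) < 1 then w ((a.1.1 : ℕ) : E) ^ T else 1)) *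
        ∏ i, H i ^ J :=
        mul_le_mul_of_nonneg_right hfin (Finset.prod_nonneg fun i _ => pow_nonneg (hHnn i) _)
    _ = _ := by
        congr 1
        exact Finset.prod_congr rfl fun i _ => hHJ i

end Pool.Agent.H72.AD
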