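import Pool.Agent.H72.AD.DfE

/-!
# POINTS THEOREM over `ℚ(μ_∞)` (MP_187c26_nt, think 1791): the rows of the big determinant

`uu X (j, k)`: the jet of order `k`, `k_i < T`, at `X j`. `tt Φ X (l, j)`: the evaluation at `(Φ_l⁻¹ X_j)^l`. `pt` the point which belongs
to a row; `DM` the determinant matrix with chosen rows `A₀` (jets), `A₁` (evaluations) and columns `c`. `UU` the factor of the moved
points.
-/

set_option autoImplicit false
set_option linter.unusedSectionVars false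

open NumberField

namespace Pool.Agent.H72.AD

open Pool.Agent.H33.TR

variable {E : Type} [Field E] [NumberField E] {n D T M : ℕ} {P : Finset ℕ}

/-- the jets -/
def uu {n D T M : ℕ} (X : Fin D → Fin n → E) (s : Fin D × (Fin n → Fin T)) (b : Bx n M) : E :=
  jt (fun i => (s.2 i : ℕ)) b (X s.1)

/-- the evaluations -/
def tt {n D M : ℕ} {P : Finset ℕ} (Φ : ℕ → (E ≃ₐ[ℚ] E)) (X : Fin D → Fin n → E) (s : P × Fin D)
    (b : Bx n M) : E := mn b (fun i => cj (Φ s.1)⁻¹ X s.2 i ^ (s.1 : ℕ))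

/-- the point which belongs to a row -/
def pt {n D T : ℕ} {P : Finset ℕ} (Φ : ℕ → (E ≃ₐ[ℚ] E)) (X : Fin D → Fin n → E)
    (A₀ : Finset (Fin D × (Fin n → Fin T))) (A₁ : Finset (P × Fin D)) : A₀ ⊕ A₁ → Fin n → E :=
  Sum.elim (fun i => X i.1.1) (fun i => cj (Φ i.1.1)⁻¹ X i.1.2)

/-- the matrix -/
def DM {n D T M : ℕ} {P : Finset ℕ} (Φ : ℕ → (E ≃ₐ[ℚ] E)) (X : Fin D → Fin n → E)
    (A₀ : Finset (Fin D × (Fin n → Fin T))) (A₁ : Finset (P × Fin D)) (c : A₀ ⊕ A₁ → Bx n M) :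
    Matrix (A₀ ⊕ A₁) (A₀ ⊕ A₁) E :=
  Matrix.of fun i j => Sum.elim (fun i : A₀ => uu X i.1 (c j)) (fun i : A₁ => tt Φ X i.1 (c j)) i

/-- the factor of the moved points -/
noncomputable def UU {n D : ℕ} (P : Finset ℕ) (V : Subgroup (E ≃ₐ[ℚ] E)) (Φ : ℕ → (E ≃ₐ[ℚ] E))
    (X : Fin D → Fin n → E) (w : FinitePlace E) : ℝ :=
  ∏ l ∈ P, (if w (l : E) < 1 then w (l : E) ^ bd V w (cj (Φ l)⁻¹ X) else 1)

/-- `Φ` is a lift of the Frobenius at `l` (a conjugate of it at every place above `l`) -/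
def IsFr (l : ℕ) (Φ : E ≃ₐ[ℚ] E) : Prop :=
  ∀ w : FinitePlace E, w (l : E) < 1 → ∃ ρ : E ≃ₐ[ℚ] E,
    (∀ a, w ((ρ⁻¹ * Φ * ρ) a) = w a) ∧ ∀ a, w a ≤ 1 → w ((ρ⁻¹ * Φ * ρ) a - a ^ l) < 1

/-- the hypotheses on the group `V` and the points `X`: `V` contains the commutators, the set of the points `X j` (pairwise different,
coordinates `≠ 0`) is stable under `V` -/
structure Stab {n D : ℕ} (V : Subgroup (E ≃ₐ[ℚ] E)) (X : Fin D → Fin n → E) : Prop where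
  comm : ∀ g h : E ≃ₐ[ℚ] E, g * h * g⁻¹ * h⁻¹ ∈ V
  ne : ∀ j i, X j i ≠ 0
  inj : Function.Injective X
  st : ∀ τ ∈ V, ∀ j, ∃ j', ∀ i, τ (X j i) = X j' i

end Pool.Agent.H72.AD
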