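import Pool.Agent.H33.TR.Loc
import Pool.Agent.H72.PL.PF

/-!
# POINTS THEOREM over `ℚ(μ_∞)` (MP_187c26_nt, think 1791): definitions for the determinant part (chapter F)

`E` is a number field, Galois over `ℚ` in the theorems. `Ine w` is the inertia group of the finite place `w` in `Gal(E/ℚ)`:
`τ` with `w ∘ τ = w` and `w (τ a - a) < 1` for all `w`-integral `a`. `jt k b x = ∏ binom(b_i, k_i) x_i^(b_i - k_i)` is the jet of order `k`
of the monomial with exponents `b` at `x`. `bd V w X` is the number of the points `X j` which are moved by `Ine w ⊓ V`.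
-/

set_option autoImplicit false
set_option linter.unusedSectionVars false

open NumberField

namespace Pool.Agent.H72.AD

open Pool.Agent.H33.TR

section

variable {E : Type} [Field E] [NumberField E]

/-- the inertia group of the place `w` -/
def Ine (w : FinitePlace E) : Subgroup (E ≃ₐ[ℚ] E) where
  carrier := {τ | (∀ a, w (τ a) = w a) ∧ ∀ a, w a ≤ 1 → w (τ a - a) < 1}
  one_mem' := by
    refine ⟨fun a => rfl, fun a _ => ?_⟩
    rw [AlgEquiv.one_apply, sub_self, map_zero]
    exact one_pos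
  mul_mem' := by
    rintro σ τ ⟨h1, h2⟩ ⟨h3, h4⟩
    refine ⟨fun a => by rw [AlgEquiv.mul_apply, h1, h3], fun a ha => ?_⟩
    have h5 : (σ * τ) a - a = (σ (τ a) - τ a) + (τ a - a) := by
      rw [AlgEquiv.mul_apply]
      ring
    rw [h5]
    refine lt_of_le_of_lt (FinitePlace.add_le w _ _) (max_lt (h2 _ ?_) (h4 a ha))
    rw [h3]
    exact ha
  inv_mem' := by
    rintro σ ⟨h1, h2⟩
    have h3 : ∀ a, w (σ⁻¹ a) = w a := by
      intro a
      rw [← h1 (σ⁻¹ a), ← AlgEquiv.mul_apply, mul_inv_cancel, AlgEquiv.one_apply]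
    refine ⟨h3, fun a ha => ?_⟩
    have h4 := h2 (σ⁻¹ a) (by rw [h3]; exact ha)
    rw [← AlgEquiv.mul_apply, mul_inv_cancel, AlgEquiv.one_apply] at h4
    have h5 : σ⁻¹ a - a = -(a - σ⁻¹ a) := by ring
    rw [h5]
    exact lt_of_eq_of_lt (w.val.map_neg _) h4

/-- the number of the points `X j` which are moved by `Ine w ⊓ V` -/
noncomputable def bd {D n : ℕ} (V : Subgroup (E ≃ₐ[ℚ] E)) (w : FinitePlace E) (X : Fin D → Fin n → E) :
    ℕ := Set.ncard {j | ∃ τ ∈ V, τ ∈ Ine w ∧ ∃ i, τ (X j i) ≠ X j i}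

/-- the conjugate family of points -/
def cj {D n : ℕ} (g : E ≃ₐ[ℚ] E) (X : Fin D → Fin n → E) : Fin D → Fin n → E := fun j i => g (X j i)

end

/-- the jet of order `k` at `x` of the monomial with exponents `b` -/
def jt {E : Type} [Field E] {n M : ℕ} (k : Fin n → ℕ) (b : Bx n M) (x : Fin n → E) : E :=
  ∏ i, (((b i : ℕ).choose (k i) : ℕ) : E) * x i ^ ((b i : ℕ) - k i)

end Pool.Agent.H72.AD
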