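import Pool.Agent.H11.TS.FinB

/-!
# POINTS THEOREM over `ℚ(μ_∞)` (MP_187c26_nt, think 1791): definitions for the group part (chapter G)

`Cy Ω N = ℚ(μ_N)`, `Ab Ω = ℚ(μ_∞)`, `HN Ω N`, `HA Ω` their groups in `Gal(Ω/ℚ)`; `orb V x` the orbit of the point `x` of the torus under
the subgroup `V`, `dgT V x` the number of its elements; `IsT z`: `z` is a torsion point; `Stb V y` the stabilizer of `y` in `V`.
-/

set_option autoImplicit false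
set_option linter.unusedSectionVars false

open NumberField

namespace Pool.Agent.H72.AD

open Pool.Agent.H11.TH Pool.Agent.H11.TS

section

variable (Ω : Type) [Field Ω] [CharZero Ω]

/-- `ℚ(μ_N)` -/
noncomputable def Cy (N : ℕ) : IntermediateField ℚ Ω := IntermediateField.adjoin ℚ {z : Ω | z ^ N = 1}

/-- `ℚ(μ_∞)` -/
noncomputable def Ab : IntermediateField ℚ Ω :=
  IntermediateField.adjoin ℚ {z : Ω | ∃ N : ℕ, 1 ≤ N ∧ z ^ N = 1}

/-- the group of `ℚ(μ_N)` -/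
noncomputable def HN (N : ℕ) : Subgroup (Ω ≃ₐ[ℚ] Ω) := (Cy Ω N).fixingSubgroup

/-- the group of `ℚ(μ_∞)` -/
noncomputable def HA : Subgroup (Ω ≃ₐ[ℚ] Ω) := (Ab Ω).fixingSubgroup

end

variable {Ω : Type} [Field Ω] [CharZero Ω] {n : ℕ}

/-- the orbit of `x` under `V` -/
def orb (V : Subgroup (Ω ≃ₐ[ℚ] Ω)) (x : Tor Ω n) : Set (Tor Ω n) := {y | ∃ σ ∈ V, y = mv σ x}

/-- the number of elements of the orbit -/
noncomputable def dgT (V : Subgroup (Ω ≃ₐ[ℚ] Ω)) (x : Tor Ω n) : ℕ := (orb V x).ncard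

/-- torsion points -/
def IsT (z : Tor Ω n) : Prop := ∃ N : ℕ, 1 ≤ N ∧ z ^ N = 1

theorem mv_one (x : Tor Ω n) : mv (1 : Ω ≃ₐ[ℚ] Ω) x = x := by
  funext i
  exact Units.ext rfl

theorem mv_comp (σ τ : Ω ≃ₐ[ℚ] Ω) (x : Tor Ω n) : mv (σ * τ) x = mv σ (mv τ x) := by
  funext i
  exact Units.ext rfl

theorem mv_mul (σ : Ω ≃ₐ[ℚ] Ω) (x y : Tor Ω n) : mv σ (x * y) = mv σ x * mv σ y := by
  funext i
  exact map_mul (sgm σ) (x i) (y i)

theorem mv_pow (σ : Ω ≃ₐ[ℚ] Ω) (x : Tor Ω n) (l : ℕ) : mv σ (x ^ l) = mv σ x ^ l := by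
  funext i
  exact map_pow (sgm σ) (x i) l

/-- the stabilizer of `y` in `V` -/
def Stb (V : Subgroup (Ω ≃ₐ[ℚ] Ω)) (y : Tor Ω n) : Subgroup (Ω ≃ₐ[ℚ] Ω) where
  carrier := {s | s ∈ V ∧ mv s y = y}
  one_mem' := ⟨one_mem _, mv_one y⟩
  mul_mem' := by
    rintro s t ⟨h1, h2⟩ ⟨h3, h4⟩
    exact ⟨mul_mem h1 h3, by rw [mv_comp, h4, h2]⟩
  inv_mem' := by
    rintro s ⟨h1, h2⟩
    refine ⟨inv_mem h1, ?_⟩
    conv_lhs => rw [← h2]
    rw [← mv_comp, inv_mul_cancel, mv_one]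

end Pool.Agent.H72.AD
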