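import Pool.Agent.H72.AD.CycF
import Pool.Agent.H72.AD.OrbA
import Pool.Agent.H72.AD.DfE

/-!
# POINTS THEOREM, chapter G: the finite Galois extension `E` and the index of the inertia groups

`ex_E`. PROOF: `E := normalClosure` of `adjoin ℚ ({x i} ∪ {z | z^N = 1})` in `Ω` (finite-dimensional, normal), a number field, `IsGalois ℚ E` (characteristic 0).
`ine_index` (imports may be sorried). PROOF: `res := AlgEquiv.restrictNormalHom E : (Ω ≃ₐ[ℚ] Ω) →* (E ≃ₐ[ℚ] E)`, surjective (`AlgEquiv.restrictNormalHom_surjective`). (1) `Ine w ≤ (HN Ω N').map res`: let `τ ∈ Ine w`, `σ` a preimage; `σ ∈ HN Ω N'` (`mem_HN`): let `z^(N') = 1`, `z ∈ E`, `ζ := τ z / z`, `ζ^(N') = 1`; `w (ζ - 1) = w (τ z - z) < 1` (`w z = 1`). If `ζ ≠ 1`: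
`∏_(ζ' ≠ 1, ζ'^(N') = 1) (1 - ζ') = N'` in `Ω` (or: `ζ` is a root of `(X^(N') - 1)/(X - 1) = 1 + X + .. `, and `1 + ζ + .. + ζ^(N'-1) = 0`, while `ζ^k ≡ 1` modulo the maximal ideal of `w`, so `w (N') = w (N' - (1 + ζ + ..)) < 1`), but `w (N' : E) = 1` since `l ∤ N'` (Bezout: `a l + b N' = 1`, `w l < 1`). So `τ z = z`.
(2) `relIndex` is monotone in the second argument and does not grow under the homomorphism `res`: `(V.map res).relIndex (Ine w) ≤ (V.map res).relIndex ((HN Ω N').map res) ≤ V.relIndex (HN Ω N')` (`Subgroup.relIndex_le_of_le_right`, the middle index is `≠ 0` because the group is finite; the second inequality: the map of the cosets `HN N' / (V ⊓ HN N') → res(HN N') / (..)` is onto; with `h0`).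
-/

set_option autoImplicit false
set_option linter.unusedSectionVars false

open NumberField

namespace Pool.Agent.H72.AD

open Pool.Agent.H11.TH Pool.Agent.H11.TS

variable {Ω : Type} [Field Ω] [CharZero Ω] [IsAlgClosed Ω] [IsGalois ℚ Ω] {n : ℕ}

theorem ex_E (x : Tor Ω n) (N : ℕ) (hN : 1 ≤ N) : ∃ E : IntermediateField ℚ Ω,
    NumberField E ∧ IsGalois ℚ E ∧ (∀ i, ((x i : Ωˣ) : Ω) ∈ E) ∧ ∀ z : Ω, z ^ N = 1 → z ∈ E := by
  classical
  have : Algebra.IsAlgebraic ℚ Ω := inferInstance
  let S : Set Ω := Set.range (fun i => ((x i : Ωˣ) : Ω)) ∪ {z | z ^ N = 1}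
  have hSf : S.Finite := by
    refine (Set.finite_range _).union ?_
    have h1 : {z : Ω | z ^ N = 1} ⊆ ((Polynomial.nthRoots N (1 : Ω)).toFinset : Set Ω) := by
      intro z hz
      rw [Finset.mem_coe, Multiset.mem_toFinset, Polynomial.mem_nthRoots hN]
      exact hz
    exact (Finset.finite_toSet _).subset h1
  haveI : Finite S := hSf.to_subtype
  haveI : FiniteDimensional ℚ (IntermediateField.adjoin ℚ S) :=
    IntermediateField.finiteDimensional_adjoin fun y _ => Algebra.IsIntegral.isIntegral y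
  let E : IntermediateField ℚ Ω := IntermediateField.normalClosure ℚ (IntermediateField.adjoin ℚ S) Ω
  have hle : IntermediateField.adjoin ℚ S ≤ E := IntermediateField.le_normalClosure _
  haveI : FiniteDimensional ℚ E := normalClosure.is_finiteDimensional ℚ (IntermediateField.adjoin ℚ S) Ω
  haveI : Normal ℚ E := normalClosure.normal ℚ (IntermediateField.adjoin ℚ S) Ω
  haveI : NumberField E := { to_charZero := inferInstance, to_finiteDimensional := inferInstance }
  refine ⟨E, inferInstance, ⟨⟩, fun i => ?_, fun z hz => ?_⟩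
  · exact hle (IntermediateField.subset_adjoin ℚ S (Or.inl ⟨i, rfl⟩))
  · exact hle (IntermediateField.subset_adjoin ℚ S (Or.inr hz))

private theorem w_sum_lt {E : Type} [Field E] [NumberField E] (w : FinitePlace E) {ι : Type} (s : Finset ι) (f : ι → E)
    (h : ∀ i ∈ s, w (f i) < 1) : w (∑ i ∈ s, f i) < 1 := by
  classical
  induction s using Finset.induction_on with
  | empty =>
    rw [Finset.sum_empty, map_zero]
    exact one_pos
  | insert a s ha ih =>
    rw [Finset.sum_insert ha]
    exact lt_of_le_of_lt (FinitePlace.add_le w _ _)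
      (max_lt (h a (Finset.mem_insert_self _ _)) (ih fun i hi => h i (Finset.mem_insert_of_mem hi)))

private theorem w_nat_le {E : Type} [Field E] [NumberField E] (w : FinitePlace E) (k : ℕ) : w (k : E) ≤ 1 := by
  induction k with
  | zero => rw [Nat.cast_zero, map_zero]; exact zero_le_one
  | succ k ih =>
    rw [Nat.cast_succ]
    refine (FinitePlace.add_le w _ _).trans (max_le ih ?_)
    rw [map_one]

private theorem w_int_le {E : Type} [Field E] [NumberField E] (w : FinitePlace E) (k : ℤ) : w (k : E) ≤ 1 := by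
  rcases Int.eq_nat_or_neg k with ⟨m, rfl | rfl⟩
  · rw [Int.cast_natCast]
    exact w_nat_le w m
  · rw [Int.cast_neg, Int.cast_natCast]
    have h : w (-(m : E)) = w (m : E) := w.val.map_neg _
    rw [h]
    exact w_nat_le w m

private theorem root_close {E : Type} [Field E] [NumberField E] (w : FinitePlace E) {N' l : ℕ} (hl : l.Prime)
    (hlN : ¬ l ∣ N') (hw : w (l : E) < 1) {ζ : E} (hζ : ζ ^ N' = 1) (h : w (ζ - 1) < 1) : ζ = 1 := by
  by_contra hne
  have hN0 : N' ≠ 0 := by
    rintro rfl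
    exact hlN (dvd_zero _)
  have hwζ : w ζ = 1 := by
    have h1 : w ζ ^ N' = 1 := by rw [← map_pow, hζ, map_one]
    exact (pow_eq_one_iff_of_nonneg (apply_nonneg w ζ) hN0).1 h1
  have hs : ∑ k ∈ Finset.range N', ζ ^ k = 0 := by
    have h1 := geom_sum_mul ζ N'
    rw [hζ, sub_self] at h1
    exact (mul_eq_zero.1 h1).resolve_right (sub_ne_zero.2 hne)
  have hk : ∀ k : ℕ, w (1 - ζ ^ k) < 1 := by
    intro k
    induction k with
    | zero =>
      rw [pow_zero, sub_self, map_zero]
      exact one_pos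
    | succ k ih =>
      have e : 1 - ζ ^ (k + 1) = (1 - ζ ^ k) + -(ζ ^ k * (ζ - 1)) := by ring
      rw [e]
      refine lt_of_le_of_lt (FinitePlace.add_le w _ _) (max_lt ih ?_)
      have h2 : w (-(ζ ^ k * (ζ - 1))) = w (ζ ^ k * (ζ - 1)) := w.val.map_neg _
      rw [h2, map_mul, map_pow, hwζ, one_pow, one_mul]
      exact h
  have hN : w (N' : E) < 1 := by
    have e : (N' : E) = ∑ k ∈ Finset.range N', (1 - ζ ^ k) := by
      rw [Finset.sum_sub_distrib, hs, sub_zero, Finset.sum_const, Finset.card_range, nsmul_eq_mul, mul_one]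
    rw [e]
    exact w_sum_lt w _ _ fun k _ => hk k
  have hco : IsCoprime (l : ℤ) (N' : ℤ) := by
    rw [Nat.isCoprime_iff_coprime]
    exact (Nat.Prime.coprime_iff_not_dvd hl).2 hlN
  obtain ⟨s, t, hst⟩ := hco
  have h1 : w (1 : E) < 1 := by
    have e : (1 : E) = (s : E) * (l : E) + (t : E) * (N' : E) := by exact_mod_cast hst.symm
    rw [e]
    refine lt_of_le_of_lt (FinitePlace.add_le w _ _) (max_lt ?_ ?_)
    · rw [map_mul]
      exact lt_of_le_of_lt (mul_le_of_le_one_left (apply_nonneg w _) (w_int_le w s)) hw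
    · rw [map_mul]
      exact lt_of_le_of_lt (mul_le_of_le_one_left (apply_nonneg w _) (w_int_le w t)) hN
  rw [map_one] at h1
  exact lt_irrefl _ h1

private theorem relIndex_map_dvd' {G G' : Type} [Group G] [Group G'] (f : G →* G') (V H : Subgroup G) :
    (V.map f).relIndex (H.map f) ∣ V.relIndex H := by
  have h1 : ((V.subgroupOf H).map (f.subgroupMap H)) ≤ (V.map f).subgroupOf (H.map f) := by
    rintro _ ⟨y, hy, rfl⟩
    exact Subgroup.mem_map_of_mem f hy
  exact (Subgroup.index_dvd_of_le h1).trans (Subgroup.index_map_dvd _ (f.subgroupMap_surjective H))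

theorem ine_index (E : IntermediateField ℚ Ω) [NumberField E] [IsGalois ℚ E]
    (V : Subgroup (Ω ≃ₐ[ℚ] Ω)) (N' : ℕ) (hN' : 1 ≤ N') (hE : ∀ z : Ω, z ^ N' = 1 → z ∈ E) (l : ℕ)
    (hl : l.Prime) (hlN : ¬ l ∣ N') (w : FinitePlace E) (hw : w (l : E) < 1)
    (h0 : V.relIndex (HN Ω N') ≠ 0) :
    (V.map (AlgEquiv.restrictNormalHom E)).relIndex (Ine w) ≤ V.relIndex (HN Ω N') := by
  have hsur : Function.Surjective (AlgEquiv.restrictNormalHom (F := ℚ) (K₁ := Ω) E) :=
    AlgEquiv.restrictNormalHom_surjective Ω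
  have hle : Ine w ≤ (HN Ω N').map (AlgEquiv.restrictNormalHom E) := by
    intro τ hτ
    obtain ⟨σ, rfl⟩ := hsur τ
    refine Subgroup.mem_map_of_mem _ ?_
    rw [mem_HN]
    intro z hz
    have hzE := hE z hz
    have hz0 : (⟨z, hzE⟩ : E) ≠ 0 := by
      intro h
      have h1 : z = 0 := congrArg Subtype.val h
      rw [h1, zero_pow (by omega)] at hz
      exact zero_ne_one hz
    have hz' : (⟨z, hzE⟩ : E) ^ N' = 1 := Subtype.ext hz
    set z' : E := ⟨z, hzE⟩ with hz'def
    have hwz : w z' = 1 := by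
      have h1 : w z' ^ N' = 1 := by rw [← map_pow, hz', map_one]
      exact (pow_eq_one_iff_of_nonneg (apply_nonneg w z') (by omega)).1 h1
    have h2 : w ((AlgEquiv.restrictNormalHom E σ) z' - z') < 1 := hτ.2 z' hwz.le
    have h3 : (AlgEquiv.restrictNormalHom E σ) z' / z' = 1 := by
      refine root_close w hl hlN hw ?_ ?_
      · rw [div_pow, ← map_pow, hz', map_one, div_one]
      · rw [div_sub_one hz0, map_div₀, hwz, div_one]
        exact h2
    have h4 : (AlgEquiv.restrictNormalHom E σ) z' = z' := by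
      rwa [div_eq_one_iff_eq hz0] at h3
    have h5 := congrArg (Subtype.val) h4
    have h6 := AlgEquiv.restrictNormal_commutes σ E z'
    exact h6.symm.trans h5
  haveI : Finite (E ≃ₐ[ℚ] E) := inferInstance
  have h1 : (V.map (AlgEquiv.restrictNormalHom E)).relIndex (Ine w) ≤
      (V.map (AlgEquiv.restrictNormalHom E)).relIndex ((HN Ω N').map (AlgEquiv.restrictNormalHom E)) := by
    refine Subgroup.relIndex_le_of_le_right hle ?_
    exact Subgroup.index_ne_zero_of_finite
  exact h1.trans (Nat.le_of_dvd (Nat.pos_of_ne_zero h0) (relIndex_map_dvd' _ _ _))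

end Pool.Agent.H72.AD
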