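import Pool.Agent.H72.AD.DfE

/-!
# POINTS THEOREM, chapter F: Taylor's formula for the monomials of a box

`taylor`. PROOF: `(x_i + a_i)^(b_i) = ∑_(k ≤ M) binom(b_i, k) x_i^(b_i - k) a_i^k` (`add_pow`, the terms with `k > b_i` are `0` because the binomial coefficient is `0`), product over `i`: `Finset.prod_univ_sum` / `Fintype.piFinset_univ`, then exchange the sums over `b` and `k`.
-/

set_option autoImplicit false

namespace Pool.Agent.H72.AD

open Pool.Agent.H33.TR

private theorem tay_one {E : Type} [Field E] (M b : ℕ) (hb : b ≤ M) (x a : E) :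
    (x + a) ^ b = ∑ k : Fin (M + 1), a ^ (k : ℕ) * ((b.choose (k : ℕ) : ℕ) * x ^ (b - (k : ℕ))) := by
  rw [Fin.sum_univ_eq_sum_range (fun k => a ^ k * ((b.choose k : ℕ) * x ^ (b - k))) (M + 1),
    add_comm, add_pow]
  refine (Finset.sum_subset (Finset.range_subset_range.2 (by omega : b + 1 ≤ M + 1)) fun k _ hk =>
    ?_).trans ?_
  · rw [Finset.mem_range, not_lt] at hk
    rw [Nat.choose_eq_zero_of_lt (by omega), Nat.cast_zero, mul_zero]
  · refine Finset.sum_congr rfl fun k _ => ?_
    ring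

theorem taylor {E : Type} [Field E] {n M : ℕ} (G : Bx n M → E) (x a : Fin n → E) :
    ∑ b, G b * mn b (fun i => x i + a i) =
      ∑ k : Bx n M, (∏ i, a i ^ (k i : ℕ)) * ∑ b, G b * jt (fun i => (k i : ℕ)) b x := by
  have h1 : ∀ b : Bx n M, mn b (fun i => x i + a i) =
      ∑ k : Bx n M, (∏ i, a i ^ (k i : ℕ)) * jt (fun i => (k i : ℕ)) b x := by
    intro b
    unfold mn jt
    rw [Finset.prod_congr rfl fun i _ => tay_one M (b i : ℕ) (Nat.lt_succ_iff.1 (b i).2) (x i) (a i),
      Finset.prod_univ_sum, Fintype.piFinset_univ]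
    exact Finset.sum_congr rfl fun k _ => Finset.prod_mul_distrib
  simp only [h1, Finset.mul_sum]
  rw [Finset.sum_comm]
  refine Finset.sum_congr rfl fun k _ => Finset.sum_congr rfl fun b _ => ?_
  ring

end Pool.Agent.H72.AD
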