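import Pool.Agent.H72.AD.Ur
import Pool.Agent.H72.AD.Tay
import Pool.Agent.H72.AD.DfD

/-!
# POINTS THEOREM, chapter F: the `l`-adic gain at a point which is fixed by `Ine w ⊓ V`

`gain`. PROOF (imports may be sorried). `J ≥ 1` because `1 ≤ V.relIndex (Ine w)` (finite group).
Case 1: `w (p i) > 1` for some `i`. `a := (p i)⁻¹`, `w a < 1`, fixed by `V ⊓ Ine w`: `ine_rel`: `w a ^ J ≤ w l`, so `1 ≤ w l * w (p i)^J ≤ w l * (max 1 (w (p i)))^J`, and `1 ≤ w l ^ T * (max 1 (w (p i)))^(J T)`. The left side is `≤ (∏_i max(1, w p_i)^(l M))^J` (ultrametric, `w (G b) ≤ 1`,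
`w (mn b (p^l)) ≤ ∏ max(1, w p_i)^(l M)`).
Case 2: `w (p i) ≤ 1` for all `i`. `a i := p i ^ l - σ (p i)`. `a i` is fixed by every `τ ∈ V ⊓ Ine w`: `τ (σ y) = σ ((σ⁻¹ τ σ) y)` for `y = p i`; `σ⁻¹ τ σ ∈ Ine w` (because `w ∘ σ = w`, also `w ∘ σ⁻¹ = w`: `w (σ⁻¹ τ σ b - b) = w (τ (σ b) - σ b) < 1`) and `∈ V` (`σ⁻¹ τ σ = (σ⁻¹ τ σ τ⁻¹) τ`, `comm`). `w (a i) < 1` (`hσ2`, up to the sign).
`ine_rel`: `w (a i) ^ J ≤ w l`, also `w (a i) ≤ 1`. `taylor` for `x := σ ∘ p` and `a`: `p i ^ l = σ (p i) + a i`: `∑_b G b mn b (p^l) = ∑_k (∏ a_i^(k_i)) ∑_b G b jt k b (σ ∘ p)`. If all `k_i < T` the inner sum is `0` (`hjet`). Otherwise some `k_i ≥ T`: `w (∏ a_i^(k_i))^J ≤ w (a_i)^(J T) ≤ w l ^ T`, and `w (inner sum) ≤ 1`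
(`w (σ (p i)) = w (p i) ≤ 1`, `w` of a natural number is `≤ 1`: `IsNonarchimedean.apply_natCast_le_one` for `w.val`). Ultrametric inequality (`w x^J ≤ max ..`): the sum is attained by one of its terms (`hv.finset_image_add_of_nonempty`). The product of the maxima is `1`.
-/

set_option autoImplicit false

open NumberField

namespace Pool.Agent.H72.AD

open Pool.Agent.H33.TR

private theorem ga_sum {E : Type} [Field E] [NumberField E] (w : FinitePlace E) {ι : Type}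
    [Nonempty ι] [Fintype ι] (f : ι → E) : ∃ i, w (∑ j, f j) ≤ w (f i) := by
  have hna : IsNonarchimedean (fun x : E => w x) := fun a b => FinitePlace.add_le w a b
  obtain ⟨i, -, hi⟩ := hna.finset_image_add_of_nonempty f (Finset.univ_nonempty (α := ι))
  exact ⟨i, hi⟩

private theorem ga_nat {E : Type} [Field E] [NumberField E] (w : FinitePlace E) (k : ℕ) :
    w (k : E) ≤ 1 := by
  induction k with
  | zero =>
    rw [Nat.cast_zero, map_zero]
    exact zero_le_one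
  | succ k ih =>
    rw [Nat.cast_succ]
    exact (FinitePlace.add_le w _ _).trans (max_le ih (map_one w).le)

private theorem ga_one_le {ι : Type} (s : Finset ι) (f : ι → ℝ) (hf : ∀ i, 1 ≤ f i) :
    1 ≤ ∏ i ∈ s, f i := by
  classical
  induction s using Finset.induction_on with
  | empty => rw [Finset.prod_empty]
  | insert a s ha ih =>
    rw [Finset.prod_insert ha]
    exact one_le_mul_of_one_le_of_one_le (hf a) ih

private theorem ga_le_one {ι : Type} (s : Finset ι) (f : ι → ℝ) (h0 : ∀ i, 0 ≤ f i)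
    (hf : ∀ i, f i ≤ 1) : ∏ i ∈ s, f i ≤ 1 :=
  Finset.prod_le_one (fun i _ => h0 i) fun i _ => hf i

private theorem ga_single {ι : Type} [Fintype ι] [DecidableEq ι] (f : ι → ℝ) (hf : ∀ i, 1 ≤ f i)
    (a : ι) : f a ≤ ∏ i, f i := by
  rw [← Finset.mul_prod_erase Finset.univ f (Finset.mem_univ a)]
  exact le_mul_of_one_le_right (zero_le_one.trans (hf a)) (ga_one_le _ f hf)

private theorem ga_single' {ι : Type} [Fintype ι] [DecidableEq ι] (f : ι → ℝ) (h0 : ∀ i, 0 ≤ f i)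
    (hf : ∀ i, f i ≤ 1) (a : ι) : ∏ i, f i ≤ f a := by
  rw [← Finset.mul_prod_erase Finset.univ f (Finset.mem_univ a)]
  exact mul_le_of_le_one_right (h0 a) (ga_le_one _ f h0 hf)

private theorem ga_mn {E : Type} [Field E] [NumberField E] {n M : ℕ} (w : FinitePlace E)
    (l : ℕ) (p : Fin n → E) (b : Bx n M) :
    w (mn b (fun i => p i ^ l)) ≤ ∏ i, (max 1 (w (p i))) ^ (l * M) := by
  unfold mn
  rw [map_prod]
  refine Finset.prod_le_prod (fun i _ => apply_nonneg w _) fun i _ => ?_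
  rw [map_pow, map_pow, ← pow_mul]
  have h1 : w (p i) ^ (l * (b i : ℕ)) ≤ (max 1 (w (p i))) ^ (l * (b i : ℕ)) :=
    pow_le_pow_left₀ (apply_nonneg w _) (le_max_right _ _) _
  refine h1.trans (pow_le_pow_right₀ (le_max_left _ _) (Nat.mul_le_mul_left l ?_))
  exact Nat.lt_succ_iff.1 (b i).2

theorem gain {E : Type} [Field E] [NumberField E] [IsGalois ℚ E] {n M : ℕ} (w : FinitePlace E)
    (l : ℕ) (hl : l.Prime) (hw : w (l : E) < 1) (V : Subgroup (E ≃ₐ[ℚ] E))
    (hV : ∀ g h : E ≃ₐ[ℚ] E, g * h * g⁻¹ * h⁻¹ ∈ V) (J : ℕ) (hJ : V.relIndex (Ine w) ≤ J)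
    (σ : E ≃ₐ[ℚ] E) (hσ1 : ∀ a, w (σ a) = w a) (hσ2 : ∀ a, w a ≤ 1 → w (σ a - a ^ l) < 1)
    (p : Fin n → E) (hp0 : ∀ i, p i ≠ 0) (hp : ∀ τ ∈ V, τ ∈ Ine w → ∀ i, τ (p i) = p i)
    (T : ℕ) (G : Bx n M → E) (hG : ∀ b, w (G b) ≤ 1)
    (hjet : ∀ k : Fin n → ℕ, (∀ i, k i < T) → ∑ b, G b * jt k b (fun i => σ (p i)) = 0) :
    w (∑ b, G b * mn b (fun i => p i ^ l)) ^ J ≤
      w (l : E) ^ T * ∏ i, (max 1 (w (p i))) ^ (J * (l * M + T)) := by
  classical
  haveI : Nonempty (Bx n M) := ⟨fun _ => 0⟩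
  have hwn := ga_nat w
  have hJ1 : 1 ≤ J := by
    refine le_trans (Nat.one_le_iff_ne_zero.2 ?_) hJ
    exact Subgroup.index_ne_zero_of_finite
  have hl0 : 0 ≤ w (l : E) := apply_nonneg w _
  by_cases hbig : ∃ i, 1 < w (p i)
  · obtain ⟨i₀, hi₀⟩ := hbig
    have hwa : w ((p i₀)⁻¹) = (w (p i₀))⁻¹ := map_inv₀ w (p i₀)
    have h1 := ine_rel w l hl hw V J hJ ((p i₀)⁻¹) (fun τ hτ hτ2 => by
      rw [map_inv₀, hp τ hτ hτ2 i₀]) (by
      rw [hwa]
      exact inv_lt_one_of_one_lt₀ hi₀)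
    rw [hwa, inv_pow] at h1
    have hpos : 0 < w (p i₀) ^ J := pow_pos (zero_lt_one.trans hi₀) J
    have h2 : 1 ≤ w (l : E) * w (p i₀) ^ J := by
      have := mul_le_mul_of_nonneg_right h1 hpos.le
      rwa [inv_mul_cancel₀ hpos.ne'] at this
    have h3 : 1 ≤ w (l : E) ^ T * w (p i₀) ^ (J * T) := by
      have := one_le_pow₀ (n := T) h2
      rwa [mul_pow, ← pow_mul] at this
    have h4 : w (p i₀) ^ (J * T) ≤ ∏ i, (max 1 (w (p i))) ^ (J * T) := by
      refine le_trans ?_ (ga_single (fun i => (max 1 (w (p i))) ^ (J * T))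
        (fun i => one_le_pow₀ (le_max_left _ _)) i₀)
      exact pow_le_pow_left₀ (apply_nonneg w _) (le_max_right _ _) _
    have h5 : 1 ≤ w (l : E) ^ T * ∏ i, (max 1 (w (p i))) ^ (J * T) :=
      h3.trans (mul_le_mul_of_nonneg_left h4 (pow_nonneg hl0 T))
    obtain ⟨b, hb⟩ := ga_sum w (fun b : Bx n M => G b * mn b (fun i => p i ^ l))
    have h6 : w (∑ b, G b * mn b (fun i => p i ^ l)) ≤ ∏ i, (max 1 (w (p i))) ^ (l * M) := by
      refine hb.trans ?_
      rw [map_mul]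
      refine (mul_le_of_le_one_left (apply_nonneg w _) (hG b)).trans (ga_mn w l p b)
    have h7 : w (∑ b, G b * mn b (fun i => p i ^ l)) ^ J ≤
        (∏ i, (max 1 (w (p i))) ^ (l * M)) ^ J := pow_le_pow_left₀ (apply_nonneg w _) h6 J
    refine h7.trans ?_
    have h8 : w (l : E) ^ T * ∏ i, (max 1 (w (p i))) ^ (J * (l * M + T)) =
        (w (l : E) ^ T * ∏ i, (max 1 (w (p i))) ^ (J * T)) *
          (∏ i, (max 1 (w (p i))) ^ (l * M)) ^ J := by
      rw [← Finset.prod_pow, mul_assoc, ← Finset.prod_mul_distrib]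
      congr 1
      refine Finset.prod_congr rfl fun i _ => ?_
      rw [← pow_mul, ← pow_add]
      congr 1
      ring
    rw [h8]
    refine le_mul_of_one_le_left (pow_nonneg ?_ J) h5
    exact Finset.prod_nonneg fun i _ => pow_nonneg (zero_le_one.trans (le_max_left _ _)) _
  · have hsm : ∀ i, w (p i) ≤ 1 := fun i => not_lt.1 fun h => hbig ⟨i, h⟩
    have hσi : ∀ a, w (σ⁻¹ a) = w a := by
      intro a
      rw [← hσ1 (σ⁻¹ a), ← AlgEquiv.mul_apply, mul_inv_cancel, AlgEquiv.one_apply]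
    have hfix : ∀ τ ∈ V, τ ∈ Ine w → ∀ i, τ (σ (p i)) = σ (p i) := by
      intro τ hτ hτ2 i
      have h1 : σ⁻¹ * τ * σ ∈ V := by
        have h2 := V.mul_mem (hV σ⁻¹ τ) hτ
        rwa [inv_inv, inv_mul_cancel_right] at h2
      have h3 : σ⁻¹ * τ * σ ∈ Ine w := by
        refine ⟨fun a => ?_, fun a ha => ?_⟩
        · rw [AlgEquiv.mul_apply, AlgEquiv.mul_apply, hσi, hτ2.1, hσ1]
        · have h4 : (σ⁻¹ * τ * σ) a - a = σ⁻¹ (τ (σ a) - σ a) := by
            rw [map_sub, AlgEquiv.mul_apply, AlgEquiv.mul_apply, ← AlgEquiv.mul_apply σ⁻¹ σ a,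
              inv_mul_cancel, AlgEquiv.one_apply]
          rw [h4, hσi]
          exact hτ2.2 (σ a) (by rw [hσ1]; exact ha)
      have h5 := hp _ h1 h3 i
      rw [AlgEquiv.mul_apply, AlgEquiv.mul_apply] at h5
      have h6 := congrArg σ h5
      rwa [← AlgEquiv.mul_apply σ σ⁻¹, mul_inv_cancel, AlgEquiv.one_apply] at h6
    have ha1 : ∀ i, w (p i ^ l - σ (p i)) < 1 := by
      intro i
      rw [← neg_sub]
      exact lt_of_eq_of_lt (w.val.map_neg _) (hσ2 (p i) (hsm i))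
    have haJ : ∀ i, w (p i ^ l - σ (p i)) ^ J ≤ w (l : E) := by
      intro i
      refine ine_rel w l hl hw V J hJ _ (fun τ hτ hτ2 => ?_) (ha1 i)
      rw [map_sub, map_pow, hp τ hτ hτ2 i, hfix τ hτ hτ2 i]
    have htay : ∑ b, G b * mn b (fun i => p i ^ l) =
        ∑ k : Bx n M, (∏ i, (p i ^ l - σ (p i)) ^ (k i : ℕ)) *
          ∑ b, G b * jt (fun i => (k i : ℕ)) b (fun i => σ (p i)) := by
      rw [← taylor G (fun i => σ (p i)) (fun i => p i ^ l - σ (p i))]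
      refine Finset.sum_congr rfl fun b _ => ?_
      congr 2
      funext i
      ring
    have hmax : ∏ i, (max 1 (w (p i))) ^ (J * (l * M + T)) = 1 := by
      refine Finset.prod_eq_one fun i _ => ?_
      rw [max_eq_left (hsm i), one_pow]
    rw [hmax, mul_one, htay]
    obtain ⟨k, hk⟩ := ga_sum w (fun k : Bx n M => (∏ i, (p i ^ l - σ (p i)) ^ (k i : ℕ)) *
      ∑ b, G b * jt (fun i => (k i : ℕ)) b (fun i => σ (p i)))
    refine (pow_le_pow_left₀ (apply_nonneg w _) hk J).trans ?_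
    by_cases hkT : ∀ i, (k i : ℕ) < T
    · rw [hjet (fun i => (k i : ℕ)) hkT, mul_zero, map_zero, zero_pow (by omega)]
      exact pow_nonneg hl0 T
    · obtain ⟨i₀, hi₀⟩ := not_forall.1 hkT
      rw [not_lt] at hi₀
      have hin : w (∑ b, G b * jt (fun i => (k i : ℕ)) b (fun i => σ (p i))) ≤ 1 := by
        obtain ⟨b, hb⟩ := ga_sum w
          (fun b : Bx n M => G b * jt (fun i => (k i : ℕ)) b (fun i => σ (p i)))
        refine hb.trans ?_
        rw [map_mul]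
        refine mul_le_one₀ (hG b) (apply_nonneg w _) ?_
        unfold jt
        rw [map_prod]
        refine ga_le_one _ _ (fun i => apply_nonneg w _) fun i => ?_
        rw [map_mul, map_pow, hσ1]
        exact mul_le_one₀ (hwn _) (pow_nonneg (apply_nonneg w _) _)
          (pow_le_one₀ (apply_nonneg w _) (hsm i))
      have hpr : w (∏ i, (p i ^ l - σ (p i)) ^ (k i : ℕ)) ≤ w (p i₀ ^ l - σ (p i₀)) ^ T := by
        rw [map_prod]
        refine (ga_single' (fun i => w ((p i ^ l - σ (p i)) ^ (k i : ℕ)))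
          (fun i => apply_nonneg w _) (fun i => ?_) i₀).trans ?_
        · rw [map_pow]
          exact pow_le_one₀ (apply_nonneg w _) (ha1 i).le
        · rw [map_pow]
          exact pow_le_pow_of_le_one (apply_nonneg w _) (ha1 i₀).le hi₀
      have h9 : w ((∏ i, (p i ^ l - σ (p i)) ^ (k i : ℕ)) *
          ∑ b, G b * jt (fun i => (k i : ℕ)) b (fun i => σ (p i))) ≤
            w (p i₀ ^ l - σ (p i₀)) ^ T := by
        rw [map_mul]
        exact (mul_le_of_le_one_right (apply_nonneg w _) hin).trans hpr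
      refine (pow_le_pow_left₀ (apply_nonneg w _) h9 J).trans ?_
      rw [← pow_mul, mul_comm, pow_mul]
      exact pow_le_pow_left₀ (pow_nonneg (apply_nonneg w _) J) (haJ i₀) T

end Pool.Agent.H72.AD
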