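import Pool.Agent.H72.AD.Kc
import Pool.Agent.H72.AD.LocD
import Pool.Agent.H11.TS.GloR

/-!
# POINTS THEOREM, chapter G: minors with rows at the conjugates over `ℚ(μ_(N/l))` vanish

`glo_desc`. PROOF: copy of `glo_E'` and `glo_minor` in `Pool/Agent/H11/TS/GloR.lean` with `loc_desc` in the place of `loc_minor`. `E :=` the subfield of `Ω` generated over `ℚ` by `{z | z^N = 1}` and the coordinates of all `y i := mv (τ i) x`, a number field. `F := Cy Ω N`, `φ : F → E` the inclusion, `φ' i : F → E`, `a ↦ τ i a` (`τ i` maps roots of unity to roots of unity, so `F` to `F`).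
The relations at `y i`: apply `τ i` to `hx`. For a finite place `w` of `E` with `w l < 1`: `hφ` by `kc` with the absolute value `v := w.val` restricted to `F`, `τ := τ i` restricted to `F`: `hτ` holds since `τ i ∈ HN Ω (N / l)`. For `w l = 1` (`w l ≤ 1` always): the trivial bound `w (det) ≤ ∏∏ max^(p T m)` (ultrametric, Leibniz).
The infinite places, the product formula and the final comparison are unchanged (`ht (mv σ x) = ht x`; `y i l` has the height of `x l`).
-/

set_option autoImplicit false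
set_option linter.unusedSectionVars false

open NumberField

namespace Pool.Agent.H72.AD

open Pool.Agent.H33.TR Pool.Agent.H11.TH

open Module

private theorem mn_le' {E : Type} [Field E] (v : AbsoluteValue E ℝ) {k M : ℕ} (p : ℕ) (m : Bx k M)
    (y : Fin k → E) : v (mn m y ^ p) ≤ ∏ l, (max 1 (v (y l))) ^ (p * M) := by
  rw [map_pow]
  unfold mn
  rw [map_prod, ← Finset.prod_pow]
  refine Finset.prod_le_prod (fun l _ => pow_nonneg (v.nonneg _) _) fun l _ => ?_
  rw [map_pow, ← pow_mul]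
  calc v (y l) ^ ((m l : ℕ) * p) ≤ (max 1 (v (y l))) ^ ((m l : ℕ) * p) :=
        pow_le_pow_left₀ (v.nonneg _) (le_max_right _ _) _
    _ ≤ (max 1 (v (y l))) ^ (p * M) := by
        refine pow_le_pow_right₀ (le_max_left _ _) ?_
        have := (m l).2
        rw [mul_comm]
        exact Nat.mul_le_mul_left _ (by omega)

private theorem det_arch' {E : Type} [Field E] (v : AbsoluteValue E ℝ) {B : Type} [Fintype B] [DecidableEq B]
    (A : Matrix B B E) (h : B → ℝ) (hA : ∀ i j, v (A i j) ≤ h i) :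
    v A.det ≤ ((Fintype.card B).factorial : ℝ) * ∏ i, h i := by
  rw [Matrix.det_apply']
  refine (v.sum_le _ _).trans ?_
  have h1 : ∀ π ∈ (Finset.univ : Finset (Equiv.Perm B)),
      v ((((Equiv.Perm.sign π : ℤˣ) : ℤ) : E) * ∏ i, A (π i) i) ≤ ∏ i, h i := by
    intro π _
    have h2 : v (((Equiv.Perm.sign π : ℤˣ) : ℤ) : E) = 1 := by
      rcases Int.units_eq_one_or (Equiv.Perm.sign π) with h | h
      · rw [h]; simp
      · rw [h]; simp
    rw [map_mul, h2, one_mul, map_prod, ← Equiv.prod_comp π h]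
    exact Finset.prod_le_prod (fun i _ => v.nonneg _) fun i _ => hA _ _
  refine (Finset.sum_le_sum h1).trans (le_of_eq ?_)
  rw [Finset.sum_const, nsmul_eq_mul, Finset.card_univ, Fintype.card_perm]

private theorem glo_E' {F E : Type} [Field F] [Field E] [NumberField E] (p : ℕ) (hp : p.Prime) (hp2 : p ≠ 2)
    {n m T r : ℕ} (hT : 1 ≤ T) (φ : F →+* E) (φ' : Fin r → (F →+* E))
    (hφ : ∀ w : FinitePlace E, w (p : E) < 1 → ∀ i a, w.1 (φ a) ≤ 1 →
      w.1 (φ' i a) ≤ 1 ∧ w.1 (φ' i a ^ p - φ a ^ p) ≤ w.1 (p : E))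
    (I : Finset (Bx n m)) (c : Bx n m → Bx n m → F)
    (y : Fin r → Fin n → E)
    (hy : ∀ i, ∀ b, b ∉ I → mn b (y i) = ∑ j ∈ I, φ' i (c b j) * mn j (y i))
    (C : Fin r → Bx n (T * m)) (hC : Function.Injective C)
    (hdet : Matrix.det (Matrix.of fun i j : Fin r => mn (C j) (y i) ^ p) ≠ 0) :
    (finrank ℚ E : ℝ) * (T * (r - T ^ (n + 1) * I.card) : ℕ) * Real.log p ≤
      (finrank ℚ E : ℝ) * Real.log (r.factorial : ℕ) +
        ((p * (T * m) : ℕ) : ℝ) * ∑ i, ∑ l, Height.logHeight₁ (y i l) := by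
  classical
  obtain ⟨e, he⟩ : ∃ e : ℕ, e = T * (r - T ^ (n + 1) * I.card) := ⟨_, rfl⟩
  rw [← he]
  obtain ⟨Z, hZ⟩ : ∃ Z : E, Z = Matrix.det (Matrix.of fun i j : Fin r => mn (C j) (y i) ^ p) := ⟨_, rfl⟩
  have hZ0 : Z ≠ 0 := by
    rw [hZ]
    exact hdet
  have hp0 : (p : E) ≠ 0 := by exact_mod_cast hp.ne_zero
  have hre : ∀ v : AbsoluteValue E ℝ, ∏ i, ∏ l, (max 1 (v (y i l))) ^ (p * (T * m)) =
      ∏ j : Fin r × Fin n, ((max 1 (v (y j.1 j.2))) ^ (p * (T * m)) *
        (max 1 (v ((fun _ : Fin r × Fin n => (1 : E)) j))) ^ 0) := by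
    intro v
    rw [Fintype.prod_prod_type]
    simp only [pow_zero, mul_one]
  have hinf : ∀ v : InfinitePlace E, v Z ≤ ((r.factorial : ℕ) : ℝ) *
      ∏ j : Fin r × Fin n, ((max 1 (v (y j.1 j.2))) ^ (p * (T * m)) *
        (max 1 (v ((fun _ : Fin r × Fin n => (1 : E)) j))) ^ 0) := by
    intro v
    have h1 := det_arch' v.1 (Matrix.of fun i j : Fin r => mn (C j) (y i) ^ p)
      (fun i => ∏ l, (max 1 (v.1 (y i l))) ^ (p * (T * m))) (fun i j => mn_le' v.1 p (C j) (y i))
    rw [Fintype.card_fin, ← hZ, hre] at h1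
    exact h1
  have hfin : ∀ w : FinitePlace E, w Z ≤ w (p : E) ^ e *
      ∏ j : Fin r × Fin n, ((max 1 (w (y j.1 j.2))) ^ (p * (T * m)) *
        (max 1 (w ((fun _ : Fin r × Fin n => (1 : E)) j))) ^ 0) := by
    intro w
    have hna : IsNonarchimedean (w.1 : E → ℝ) := fun a b => FinitePlace.add_le w a b
    have hwp : w.1 (p : E) ≤ 1 := IsNonarchimedean.apply_natCast_le_one hna
    rcases lt_or_eq_of_le hwp with hlt | heq
    · have h1 := loc_desc w.1 hna p hp hp2 hT φ φ' (hφ w hlt) I c y hy C hC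
      rw [← hZ, hre, ← he] at h1
      exact h1
    · have h1 := det_le w.1 hna (Matrix.of fun i j : Fin r => mn (C j) (y i) ^ p)
        (fun i => ∏ l, (max 1 (w.1 (y i l))) ^ (p * (T * m))) 1 ∅
        (fun i j => mn_le' w.1 p (C j) (y i)) (fun i j hj => absurd hj (Finset.notMem_empty _))
      rw [← hZ, hre, Finset.card_empty, pow_zero, one_mul] at h1
      have h2 : w (p : E) ^ e = 1 := by
        have h3 : w (p : E) = 1 := heq
        rw [h3, one_pow]
      rw [h2, one_mul]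
      exact h1
  have he0 : ∀ w : FinitePlace E, 0 < w (p : E) ^ e :=
    fun w => pow_pos (FinitePlace.pos_iff.2 hp0) _
  have hes0 : (Function.mulSupport fun w : FinitePlace E => w (p : E)).Finite :=
    FinitePlace.hasFiniteMulSupport (K := E) hp0
  have hes : (Function.mulSupport fun w : FinitePlace E => w (p : E) ^ e).Finite := by
    refine hes0.subset fun w hw => ?_
    rw [Function.mem_mulSupport] at hw ⊢
    intro h
    exact hw (by rw [h, one_pow])
  have hC1 : (1 : ℝ) ≤ ((r.factorial : ℕ) : ℝ) := by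
    exact_mod_cast Nat.succ_le_iff.2 (Nat.factorial_pos _)
  have key := Pool.Agent.H72.PL.pf_ineq Z hZ0 (fun j : Fin r × Fin n => y j.1 j.2)
    (fun _ : Fin r × Fin n => (1 : E)) (fun _ => p * (T * m)) (fun _ => 0)
    ((r.factorial : ℕ) : ℝ) hC1 (fun w => w (p : E) ^ e) he0 hes hinf hfin
  -- the product formula for `p`
  have hpp : (0 : ℝ) < p := by exact_mod_cast hp.pos
  have hpf := prod_abs_eq_one (K := E) hp0
  have h2 : ∏ v : InfinitePlace E, v (p : E) ^ v.mult = (p : ℝ) ^ finrank ℚ E := by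
    rw [← InfinitePlace.sum_mult_eq (K := E), ← Finset.prod_pow_eq_pow_sum]
    refine Finset.prod_congr rfl fun v _ => ?_
    rw [InfinitePlace.map_natCast]
  rw [h2] at hpf
  have h3 : ∏ᶠ w : FinitePlace E, w (p : E) = ((p : ℝ) ^ finrank ℚ E)⁻¹ :=
    eq_inv_of_mul_eq_one_right hpf
  have h3' : ∏ᶠ w : FinitePlace E, w (p : E) ^ e =
      (((p : ℝ) ^ finrank ℚ E)⁻¹) ^ e := by
    rw [← h3, finprod_pow hes0]
  rw [h3', Real.log_pow, Real.log_inv, Real.log_pow] at key
  have h4 : ∑ j : Fin r × Fin n, (((p * (T * m) : ℕ) : ℝ) * Height.logHeight₁ (y j.1 j.2) +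
      ((0 : ℕ) : ℝ) * Height.logHeight₁ (1 : E)) =
      ((p * (T * m) : ℕ) : ℝ) * ∑ i, ∑ l, Height.logHeight₁ (y i l) := by
    rw [Fintype.sum_prod_type, Finset.mul_sum]
    refine Finset.sum_congr rfl fun i _ => ?_
    rw [Finset.mul_sum]
    refine Finset.sum_congr rfl fun l _ => ?_
    rw [Nat.cast_zero, zero_mul, add_zero]
  rw [h4] at key
  have h5 : (finrank ℚ E : ℝ) * (e : ℕ) * Real.log p =
      (e : ℕ) * ((finrank ℚ E : ℝ) * Real.log p) := by ring
  rw [h5]
  linarith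


theorem glo_desc {Ω : Type} [Field Ω] [CharZero Ω] [IsAlgClosed Ω] [IsGalois ℚ Ω] (N l : ℕ)
    (hN : 1 ≤ N) (hl : l.Prime) (hl2 : l ≠ 2) (hlN : l ∣ N) {n m T r : ℕ} (hT : 1 ≤ T)
    (I : Finset (Bx n m)) (c : Bx n m → Bx n m → Cy Ω N) (x : Tor Ω n)
    (hx : ∀ b, b ∉ I → mn b (crd x) = ∑ j ∈ I, ((c b j : Cy Ω N) : Ω) * mn j (crd x))
    (τ : Fin r → (Ω ≃ₐ[ℚ] Ω)) (hτ : ∀ i, τ i ∈ HN Ω (N / l))
    (C : Fin r → Bx n (T * m)) (hC : Function.Injective C) (θ : ℝ) (hθ : ht x ≤ θ)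
    (hnum : Real.log (r.factorial : ℕ) + (r : ℝ) * (((l * (T * m) : ℕ) : ℝ) * θ) <
      (T * (r - T ^ (n + 1) * I.card) : ℕ) * Real.log l) :
    Matrix.det (Matrix.of fun i j : Fin r => mn (C j) (crd (mv (τ i) x)) ^ l) = 0 := by
  classical
  by_contra hdet
  -- all elements are integral
  have hint : ∀ z : Ω, IsIntegral ℚ z := fun z => Algebra.IsIntegral.isIntegral z
  obtain ⟨y, hyd⟩ : ∃ y : Fin r → Fin n → Ω, y = fun i => crd (mv (τ i) x) := ⟨_, rfl⟩
  have hyl : ∀ i l, y i l = τ i (crd x l) := by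
    intro i l
    rw [hyd]
    rfl
  have hdet1 : Matrix.det (Matrix.of fun i j : Fin r => mn (C j) (y i) ^ l) ≠ 0 := by
    rw [hyd]
    exact hdet
  have hθ1 : ∀ i, ∑ k, absLogHeight₁ (y i k) ≤ θ := by
    intro i
    refine le_trans (le_of_eq ?_) hθ
    unfold ht
    refine Finset.sum_congr rfl fun k _ => ?_
    rw [hyl]
    exact Pool.Agent.H72.PB.height_map (τ i) _
  -- the field of the roots of unity is stable
  have hst : ∀ i, ∀ a ∈ Cy Ω N, τ i a ∈ Cy Ω N := by
    intro i a ha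
    have h1 : τ i a ∈ (Cy Ω N).map ((τ i : Ω ≃ₐ[ℚ] Ω) : Ω →ₐ[ℚ] Ω) := ⟨a, ha, rfl⟩
    unfold Cy at h1
    rw [IntermediateField.adjoin_map] at h1
    refine (IntermediateField.adjoin.mono ℚ _ _ ?_) h1
    rintro _ ⟨z, hz, rfl⟩
    have hz' : z ^ N = 1 := hz
    change (τ i z) ^ N = 1
    rw [← map_pow, hz', map_one]
  let τ' : Fin r → (Cy Ω N →+* Cy Ω N) := fun i =>
    { toFun := fun a => ⟨τ i a, hst i a a.2⟩
      map_one' := Subtype.ext (map_one (τ i))
      map_mul' := fun a b => Subtype.ext (map_mul (τ i) (a : Ω) (b : Ω))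
      map_zero' := Subtype.ext (map_zero (τ i))
      map_add' := fun a b => Subtype.ext (map_add (τ i) (a : Ω) (b : Ω)) }
  have hτ' : ∀ i a, ((τ' i a : Cy Ω N) : Ω) = τ i a := fun i a => rfl
  -- the number field
  obtain ⟨A, hA⟩ : ∃ A : Set Ω, A = {z : Ω | z ^ N = 1} ∪
    Set.range (fun j : Fin r × Fin n => y j.1 j.2) := ⟨_, rfl⟩
  have hrf : {z : Ω | z ^ N = 1}.Finite := by
    have h1 : {z : Ω | z ^ N = 1} ⊆ ((Polynomial.nthRoots N (1 : Ω)).toFinset : Set Ω) := by
      intro z hz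
      rw [Finset.mem_coe, Multiset.mem_toFinset, Polynomial.mem_nthRoots (by omega)]
      exact hz
    exact (Finset.finite_toSet _).subset h1
  have hAfin : A.Finite := by
    rw [hA]
    exact hrf.union (Set.finite_range _)
  have hfd : FiniteDimensional ℚ (IntermediateField.adjoin ℚ A) := by
    have : Finite A := hAfin
    exact IntermediateField.finiteDimensional_adjoin fun z _ => hint z
  have hnf : NumberField (IntermediateField.adjoin ℚ A) := {}
  obtain ⟨E, hE⟩ : ∃ E : IntermediateField ℚ Ω, E = IntermediateField.adjoin ℚ A := ⟨_, rfl⟩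
  rw [← hE] at hfd hnf
  have hCE : Cy Ω N ≤ E := by
    rw [hE]
    unfold Cy
    refine IntermediateField.adjoin.mono ℚ _ _ ?_
    rw [hA]
    exact Set.subset_union_left
  have hyE : ∀ i k, y i k ∈ E := by
    intro i k
    rw [hE]
    refine IntermediateField.subset_adjoin ℚ _ ?_
    rw [hA]
    exact Or.inr ⟨(i, k), rfl⟩
  let y' : Fin r → Fin n → E := fun i k => ⟨y i k, hyE i k⟩
  let ψ : E →+* Ω := (IntermediateField.val E).toRingHom
  have hψ : Function.Injective ψ := ψ.injective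
  have hψy : ∀ i k, ψ (y' i k) = y i k := fun i k => rfl
  let φ : Cy Ω N →+* E := (IntermediateField.inclusion hCE).toRingHom
  have hφψ : ∀ a, ψ (φ a) = (a : Ω) := fun a => rfl
  have hψmn : ∀ {B : ℕ} (b : Bx n B) (i : Fin r), ψ (mn b (y' i)) = mn b (y i) := by
    intro B b i
    unfold mn
    rw [map_prod]
    refine Finset.prod_congr rfl fun k _ => ?_
    rw [map_pow, hψy]
  have hmn : ∀ {B : ℕ} (b : Bx n B) (i : Fin r), mn b (y i) = τ i (mn b (crd x)) := by
    intro B b i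
    unfold mn
    rw [map_prod]
    refine Finset.prod_congr rfl fun k _ => ?_
    rw [map_pow, hyl]
  have hy' : ∀ i, ∀ b, b ∉ I → mn b (y' i) = ∑ j ∈ I, (φ.comp (τ' i)) (c b j) * mn j (y' i) := by
    intro i b hb
    apply hψ
    rw [map_sum, hψmn, hmn, hx b hb, map_sum]
    refine Finset.sum_congr rfl fun j _ => ?_
    rw [map_mul, map_mul, hψmn, hmn]
    rfl
  have hdet' : Matrix.det (Matrix.of fun i j : Fin r => mn (C j) (y' i) ^ l) ≠ 0 := by
    intro h
    apply hdet1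
    have h1 := congrArg ψ h
    rw [map_zero, RingHom.map_det] at h1
    rw [← h1]
    congr 1
    ext i j
    rw [RingHom.mapMatrix_apply, Matrix.map_apply, Matrix.of_apply, Matrix.of_apply, map_pow, hψmn]
  have hφ : ∀ w : FinitePlace E, w (l : E) < 1 → ∀ i a, w.1 (φ a) ≤ 1 →
      w.1 ((φ.comp (τ' i)) a) ≤ 1 ∧ w.1 ((φ.comp (τ' i)) a ^ l - φ a ^ l) ≤ w.1 (l : E) := by
    intro w hw i a ha
    have hna : IsNonarchimedean (w.1 : E → ℝ) := fun a b => FinitePlace.add_le w a b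
    have hna' : IsNonarchimedean (w.1.comp φ.injective : Cy Ω N → ℝ) := by
      intro a b
      change w.1 (φ (a + b)) ≤ max (w.1 (φ a)) (w.1 (φ b))
      rw [map_add]
      exact hna _ _
    have h1 := kc N l hN hl hlN (w.1.comp φ.injective) hna' (by
      change w.1 (φ (l : Cy Ω N)) < 1
      rw [map_natCast]
      exact hw) (τ' i) (fun z hz => by
      apply Subtype.ext
      rw [hτ']
      have h2 : ((z : Cy Ω N) : Ω) ∈ Cy Ω (N / l) := by
        refine IntermediateField.subset_adjoin ℚ _ ?_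
        have h3 := congrArg (fun t : Cy Ω N => (t : Ω)) hz
        simpa using h3
      have h4 := hτ i
      unfold HN at h4
      rw [IntermediateField.mem_fixingSubgroup_iff] at h4
      exact h4 _ h2) a ha
    obtain ⟨h2, h3⟩ := h1
    refine ⟨h2, ?_⟩
    have h4 : w.1 (φ (τ' i a ^ l - a ^ l)) ≤ w.1 (φ (l : Cy Ω N)) := h3
    rw [map_sub, map_pow, map_pow, map_natCast] at h4
    exact h4
  have key := glo_E' l hl hl2 hT φ (fun i => φ.comp (τ' i)) hφ I c y' hy' C hC hdet'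
  have hH : ∀ i k, Height.logHeight₁ (y' i k) = (finrank ℚ E : ℝ) * absLogHeight₁ (y i k) := by
    intro i k
    have h1 := Pool.Agent.H4.RR.absLogHeight_eq E Ω ψ (y' i k)
    rw [hψy] at h1
    have h2 : (finrank ℚ E : ℝ) ≠ 0 := by
      exact_mod_cast (Module.finrank_pos (R := ℚ) (M := E)).ne'
    rw [h1]
    field_simp
  simp only [hH] at key
  have hfp : (0 : ℝ) < (finrank ℚ E : ℝ) := by
    exact_mod_cast Module.finrank_pos (R := ℚ) (M := E)
  have h1 : ∑ i : Fin r, ∑ k, (finrank ℚ E : ℝ) * absLogHeight₁ (y i k) ≤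
      (finrank ℚ E : ℝ) * ((r : ℝ) * θ) := by
    have h2 : ∀ i ∈ (Finset.univ : Finset (Fin r)), ∑ k, (finrank ℚ E : ℝ) * absLogHeight₁ (y i k) ≤
        (finrank ℚ E : ℝ) * θ := by
      intro i _
      rw [← Finset.mul_sum]
      exact mul_le_mul_of_nonneg_left (hθ1 i) hfp.le
    refine (Finset.sum_le_sum h2).trans (le_of_eq ?_)
    rw [Finset.sum_const, nsmul_eq_mul, Finset.card_univ, Fintype.card_fin]
    ring
  have h2 : (finrank ℚ E : ℝ) * ((T * (r - T ^ (n + 1) * I.card) : ℕ) * Real.log l) ≤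
      (finrank ℚ E : ℝ) * (Real.log (r.factorial : ℕ) +
        (r : ℝ) * (((l * (T * m) : ℕ) : ℝ) * θ)) := by
    calc (finrank ℚ E : ℝ) * ((T * (r - T ^ (n + 1) * I.card) : ℕ) * Real.log l)
        = (finrank ℚ E : ℝ) * (T * (r - T ^ (n + 1) * I.card) : ℕ) * Real.log l := by ring
      _ ≤ (finrank ℚ E : ℝ) * Real.log (r.factorial : ℕ) +
          ((l * (T * m) : ℕ) : ℝ) * ∑ i, ∑ k, (finrank ℚ E : ℝ) * absLogHeight₁ (y i k) := key
      _ ≤ (finrank ℚ E : ℝ) * Real.log (r.factorial : ℕ) +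
          ((l * (T * m) : ℕ) : ℝ) * ((finrank ℚ E : ℝ) * ((r : ℝ) * θ)) := by
          have h0 : (0 : ℝ) ≤ ((l * (T * m) : ℕ) : ℝ) := Nat.cast_nonneg _
          have h3 := mul_le_mul_of_nonneg_left h1 h0
          linarith
      _ = _ := by ring
  have h3 := le_of_mul_le_mul_left h2 hfp
  linarith

end Pool.Agent.H72.AD
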