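import Mathlib

/-!
# POINTS THEOREM, chapter F: determinants over a valuation ring whose small minors are not units

`minors_det`. PROOF: induction on `D` (for all `s`, `G`), with `Fin D` replaced by any finite type if convenient. If `s = 0` (or more generally all entries have `v < 1`): all entries are `≤ ρ` (`hF`), so `v G.det ≤ ρ^D ≤ ρ^(D - s)` (Leibniz, ultrametric). Otherwise some entry is a unit, `v (G i₀ j₀) = 1`; then `s ≥ 1` (`hm` for `s = 0` says that all entries are `< 1`).
By permutation of rows and columns (`v` of the determinant does not change) `i₀ = j₀ = 0`. Schur complement: `G' i j := G (i+1) (j+1) - G (i+1) 0 (G 0 0)⁻¹ G 0 (j+1)`, `D - 1` rows, entries in `F`, `v ≤ 1`; `G.det = G 0 0 * G'.det`, and for `e, f : Fin s → Fin (D - 1)` the `s`-minor of `G'` is the `(s+1)`-minor of `G` with the row and column `0` added, divided by `G 0 0`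
(`Matrix.det_fromBlocks₁₁`, or `Matrix.det_succ_..` after subtracting multiples of row `0`: `Matrix.det_eq_of_forall_row_eq_smul_add_const`): `v < 1`. Induction with `s - 1`: `v G'.det ≤ ρ^((D - 1) - (s - 1)) = ρ^(D - s)`.
-/

set_option autoImplicit false

namespace Pool.Agent.H72.AD

private theorem vsum {E ι : Type} [Field E] (v : AbsoluteValue E ℝ) (hv : IsNonarchimedean v)
    (B : ℝ) (hB : 0 ≤ B) (t : Finset ι) (f : ι → E) (h : ∀ i ∈ t, v (f i) ≤ B) :
    v (∑ i ∈ t, f i) ≤ B := by
  classical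
  induction t using Finset.induction_on with
  | empty => rwa [Finset.sum_empty, map_zero]
  | insert a t ha ih =>
    rw [Finset.sum_insert ha]
    exact (hv _ _).trans (max_le (h a (Finset.mem_insert_self a t))
      (ih fun i hi => h i (Finset.mem_insert_of_mem hi)))

private theorem vneg1 {E : Type} [Field E] (v : AbsoluteValue E ℝ) (n : ℕ) :
    v ((-1) ^ n) = 1 := by
  rw [map_pow, v.map_neg, map_one, one_pow]

/-- the Schur complement -/
private def sch {E : Type} [Field E] {n : ℕ} (M : Matrix (Fin (n + 1)) (Fin (n + 1)) E)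
    (i₀ j₀ : Fin (n + 1)) : Matrix (Fin n) (Fin n) E := Matrix.of fun i j =>
  M (i₀.succAbove i) (j₀.succAbove j) -
    M (i₀.succAbove i) j₀ * (M i₀ j₀)⁻¹ * M i₀ (j₀.succAbove j)

private theorem sch_det {E : Type} [Field E] {n : ℕ} (M : Matrix (Fin (n + 1)) (Fin (n + 1)) E)
    (i₀ j₀ : Fin (n + 1)) (h : M i₀ j₀ ≠ 0) :
    M.det = (-1) ^ (i₀ + j₀ : ℕ) * M i₀ j₀ * (sch M i₀ j₀).det := by
  classical
  set c : Fin (n + 1) → E := fun i => if i = i₀ then 0 else M i j₀ * (M i₀ j₀)⁻¹ with hc
  set B : Matrix (Fin (n + 1)) (Fin (n + 1)) E := Matrix.of fun i j => M i j - c i * M i₀ j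
    with hB
  have hc0 : c i₀ = 0 := by rw [hc]; exact if_pos rfl
  have hc1 : ∀ i, i ≠ i₀ → c i = M i j₀ * (M i₀ j₀)⁻¹ := fun i hi => by
    rw [hc]; exact if_neg hi
  have hBij : ∀ i j, B i j = M i j - c i * M i₀ j := fun i j => rfl
  have h1 : M.det = B.det := by
    refine Matrix.det_eq_of_forall_row_eq_smul_add_const c i₀ hc0 fun i j => ?_
    rw [hBij, hBij, hc0]
    ring
  rw [h1, Matrix.det_succ_column B j₀, Finset.sum_eq_single i₀]
  · have h2 : B i₀ j₀ = M i₀ j₀ := by
      rw [hBij, hc0]
      ring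
    have h3 : B.submatrix i₀.succAbove j₀.succAbove = sch M i₀ j₀ := by
      ext i j
      rw [Matrix.submatrix_apply, hBij, hc1 _ (Fin.succAbove_ne i₀ i)]
      rfl
    rw [h2, h3]
  · intro i _ hi
    have h4 : B i j₀ = 0 := by
      rw [hBij, hc1 i hi, mul_assoc, inv_mul_cancel₀ h, mul_one, sub_self]
    rw [h4]
    ring
  · intro hi
    exact absurd (Finset.mem_univ _) hi

theorem minors_det {E : Type} [Field E] (v : AbsoluteValue E ℝ) (hv : IsNonarchimedean v)
    (F : Subfield E) (ρ : ℝ) (hρ0 : 0 ≤ ρ) (hρ1 : ρ ≤ 1) (hF : ∀ a ∈ F, v a < 1 → v a ≤ ρ)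
    {D s : ℕ} (hs : s ≤ D) (G : Matrix (Fin D) (Fin D) E) (hG : ∀ i j, G i j ∈ F)
    (h1 : ∀ i j, v (G i j) ≤ 1)
    (hm : ∀ e f : Fin (s + 1) → Fin D, v (G.submatrix e f).det < 1) : v G.det ≤ ρ ^ (D - s) := by
  classical
  induction D generalizing s with
  | zero =>
    have : s = 0 := by omega
    subst this
    rw [Matrix.det_fin_zero, map_one, Nat.sub_self, pow_zero]
  | succ D ih =>
    by_cases hall : ∀ i j, v (G i j) < 1
    · have h2 : ∀ i j, v (G i j) ≤ ρ := fun i j => hF _ (hG i j) (hall i j)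
      have h3 : v G.det ≤ ρ ^ (D + 1) := by
        rw [Matrix.det_apply']
        refine vsum v hv _ (pow_nonneg hρ0 _) _ _ fun σ _ => ?_
        rw [map_mul]
        have h4 : v (((Equiv.Perm.sign σ : ℤˣ) : ℤ) : E) = 1 := by
          rcases Int.units_eq_one_or (Equiv.Perm.sign σ) with h5 | h5
          · rw [h5]
            simp
          · rw [h5]
            simp
        rw [h4, one_mul, map_prod]
        calc ∏ i, v (G (σ i) i) ≤ ∏ _i : Fin (D + 1), ρ :=
              Finset.prod_le_prod (fun i _ => v.nonneg _) fun i _ => h2 _ _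
          _ = ρ ^ (D + 1) := by rw [Finset.prod_const, Finset.card_univ, Fintype.card_fin]
      exact h3.trans (pow_le_pow_of_le_one hρ0 hρ1 (Nat.sub_le _ _))
    · push Not at hall
      obtain ⟨i₀, j₀, h00⟩ := hall
      have hv1 : v (G i₀ j₀) = 1 := le_antisymm (h1 _ _) h00
      have hne : G i₀ j₀ ≠ 0 := by
        intro h0
        rw [h0, map_zero] at hv1
        exact zero_ne_one hv1
      obtain ⟨s', rfl⟩ : ∃ s', s = s' + 1 := by
        rcases Nat.eq_zero_or_pos s with h0 | h0
        · subst h0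
          exfalso
          have := hm (fun _ => i₀) (fun _ => j₀)
          rw [Matrix.det_fin_one, Matrix.submatrix_apply] at this
          exact absurd this (not_lt.2 h00)
        · exact ⟨s - 1, by omega⟩
      have hdet := sch_det G i₀ j₀ hne
      have hvd : v G.det = v (sch G i₀ j₀).det := by
        rw [hdet, map_mul, map_mul, vneg1, hv1, one_mul, one_mul]
      have hinv : v (G i₀ j₀)⁻¹ = 1 := by
        rw [map_inv₀, hv1, inv_one]
      have hsub : D + 1 - (s' + 1) = D - s' := by omega
      rw [hvd, hsub]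
      refine ih (s := s') (by omega) _ ?_ ?_ ?_
      · intro i j
        exact F.sub_mem (hG _ _) (F.mul_mem (F.mul_mem (hG _ _) (F.inv_mem (hG _ _))) (hG _ _))
      · intro i j
        show v (G (i₀.succAbove i) (j₀.succAbove j) -
          G (i₀.succAbove i) j₀ * (G i₀ j₀)⁻¹ * G i₀ (j₀.succAbove j)) ≤ 1
        rw [sub_eq_add_neg]
        refine (hv _ _).trans (max_le (h1 _ _) ?_)
        rw [v.map_neg, map_mul, map_mul, hinv, mul_one]
        exact mul_le_one₀ (h1 _ _) (v.nonneg _) (h1 _ _)
      · intro e f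
        have h5 := hm (Fin.cons i₀ fun i => i₀.succAbove (e i))
          (Fin.cons j₀ fun j => j₀.succAbove (f j))
        set M := G.submatrix (Fin.cons i₀ fun i => i₀.succAbove (e i) : Fin (s' + 1 + 1) → _)
          (Fin.cons j₀ fun j => j₀.succAbove (f j) : Fin (s' + 1 + 1) → _) with hM
        have h6 : M 0 0 = G i₀ j₀ := by
          rw [hM, Matrix.submatrix_apply, Fin.cons_zero, Fin.cons_zero]
        have h7 : sch M 0 0 = (sch G i₀ j₀).submatrix e f := by
          ext i j
          show M ((0 : Fin (s' + 1 + 1)).succAbove i) ((0 : Fin (s' + 1 + 1)).succAbove j) -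
            M ((0 : Fin (s' + 1 + 1)).succAbove i) 0 * (M 0 0)⁻¹ *
              M 0 ((0 : Fin (s' + 1 + 1)).succAbove j) =
            G (i₀.succAbove (e i)) (j₀.succAbove (f j)) -
              G (i₀.succAbove (e i)) j₀ * (G i₀ j₀)⁻¹ * G i₀ (j₀.succAbove (f j))
          rw [Fin.succAbove_zero, h6, hM]
          simp only [Matrix.submatrix_apply, Fin.cons_zero, Fin.cons_succ]
        have h8 := sch_det M 0 0 (by rw [h6]; exact hne)
        rw [h7, h6] at h8
        have h9 : v M.det = v ((sch G i₀ j₀).submatrix e f).det := by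
          rw [h8, map_mul, map_mul, vneg1, hv1, one_mul, one_mul]
        rwa [h9] at h5

end Pool.Agent.H72.AD
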