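import Pool.Agent.H72.AD.Ur
import Pool.Agent.H72.AD.Vr
import Pool.Agent.H72.AD.DfD

/-!
# POINTS THEOREM, chapter F: the Gram determinant at a place, moved points

`gram_loc`. PROOF (imports may be sorried). `W := V ⊓ Ine w`, `v := w.val`, `v ≤ 1` values etc. If `V.relIndex (Ine w) = r` then `1 ≤ r ≤ J`.
* `W` acts on `Fin D`: for `τ ∈ W` and `j` there is exactly one `j'` with `τ ∘ X j = X j'` (`st`, `inj`); write `τ j`; it is a permutation (inverse: `τ⁻¹`). Orbits; `rep : Fin D → Fin D` a choice of representatives, `rep j = τ j` for some `τ ∈ W`, constant on orbits; `s` := the number of orbits (cardinality of the image of `rep`). `bd V w X` = number of `j` whose orbit has more than one point. So `s ≤ (D - bd) + bd / 2`, i.e. `bd ≤ 2 (D - s)`, `s ≤ D`.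
* `c j := ∏_i (if 1 < w (X j i) then X j i else 1)^N ≠ 0`, `w (c j) = ∏_i (max 1 (w (X j i)))^N`; `A' j k := mn (e k) (X j) / c j`, `w (A' j k) ≤ 1`; for `τ ∈ W`: `τ (c j) = c (τ j)` (because `w (τ a) = w a`), `τ (A' j k) = A' (τ j) k`. `det (A) = det A' * ∏_j c j`.
* `G := A'ᵀ * A'`, `G k k' = ∑_j A' j k * A' j k'`: fixed by `W` (reindex the sum by the permutation `τ`): entries in the subfield `F := {a | ∀ τ ∈ W, τ a = a}`. `ine_rel`: `a ∈ F`, `w a < 1` implies `w a ^ J ≤ w l`, i.e. `w a ≤ ρ := (w l)^(1/J)` (real power), `ρ^J = w l`, `0 ≤ ρ ≤ 1`.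
* The minors of size `s + 1`: `Ã j k := A' (rep j) k`: `w (A' j k - Ã j k) < 1` (`A' j k` and `A' (rep j) k = τ (A' j k)`, `τ ∈ Ine w`, `w (A' j k) ≤ 1`). `G̃ := Ãᵀ * Ã`; a submatrix of `G̃` with `s + 1` rows and columns has rank `≤ s` (`Ã` has at most `s` different rows: the submatrix is `∑_(orbits) m_o (row_o)ᵀ (row_o)`, a product of an `(s+1) × s` and an `s × (s+1)` matrix: `Matrix.rank_mul_le`, `det = 0`), so its determinant is `0`.
 `w (det (G.submatrix) - det (G̃.submatrix)) < 1` because the entries are `≤ 1` and congruent (a general lemma: determinants of matrices with entries `≤ 1` whose differences are `< 1` differ by an element `< 1`: Leibniz and `a b - a' b' = (a - a') b + a' (b - b')`). `minors_det` : `w G.det ≤ ρ^(D - s)`; `G.det = A'.det^2`. So `w A'.det ^ (4 J) = (w G.det)^(2 J) ≤ ρ^(2 J (D - s)) = (w l)^(2 (D - s)) ≤ (w l)^bd`.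
-/

set_option autoImplicit false

open NumberField

namespace Pool.Agent.H72.AD

open Pool.Agent.H33.TR

private theorem sum_lt {E ι : Type} [Field E] (v : AbsoluteValue E ℝ) (hv : IsNonarchimedean v)
    (t : Finset ι) (f : ι → E) (h : ∀ i ∈ t, v (f i) < 1) : v (∑ i ∈ t, f i) < 1 := by
  classical
  induction t using Finset.induction_on with
  | empty =>
    rw [Finset.sum_empty, map_zero]
    exact one_pos
  | insert a t ha ih =>
    rw [Finset.sum_insert ha]
    exact (hv _ _).trans_lt (max_lt (h a (Finset.mem_insert_self a t))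
      (ih fun i hi => h i (Finset.mem_insert_of_mem hi)))

private theorem sum_le1 {E ι : Type} [Field E] (v : AbsoluteValue E ℝ) (hv : IsNonarchimedean v)
    (t : Finset ι) (f : ι → E) (h : ∀ i ∈ t, v (f i) ≤ 1) : v (∑ i ∈ t, f i) ≤ 1 := by
  classical
  induction t using Finset.induction_on with
  | empty =>
    rw [Finset.sum_empty, map_zero]
    exact zero_le_one
  | insert a t ha ih =>
    rw [Finset.sum_insert ha]
    exact (hv _ _).trans (max_le (h a (Finset.mem_insert_self a t))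
      (ih fun i hi => h i (Finset.mem_insert_of_mem hi)))

private theorem mul_cong {E : Type} [Field E] (v : AbsoluteValue E ℝ) (hv : IsNonarchimedean v)
    (a b a' b' : E) (h2 : v b ≤ 1) (h3 : v a' ≤ 1) (h4 : v (a - a') < 1) (h5 : v (b - b') < 1) :
    v (a * b - a' * b') < 1 := by
  have h : a * b - a' * b' = (a - a') * b + a' * (b - b') := by ring
  rw [h]
  refine (hv _ _).trans_lt (max_lt ?_ ?_)
  · rw [map_mul]
    exact (mul_le_of_le_one_right (v.nonneg _) h2).trans_lt h4
  · rw [map_mul]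
    exact (mul_le_of_le_one_left (v.nonneg _) h3).trans_lt h5

private theorem prod_cong {E ι : Type} [Field E] (v : AbsoluteValue E ℝ) (hv : IsNonarchimedean v)
    (t : Finset ι) (f g : ι → E) (hf : ∀ i, v (f i) ≤ 1) (hg : ∀ i, v (g i) ≤ 1)
    (h : ∀ i, v (f i - g i) < 1) : v (∏ i ∈ t, f i - ∏ i ∈ t, g i) < 1 := by
  classical
  induction t using Finset.induction_on with
  | empty =>
    rw [Finset.prod_empty, Finset.prod_empty, sub_self, map_zero]
    exact one_pos
  | insert a t ha ih =>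
    rw [Finset.prod_insert ha, Finset.prod_insert ha]
    refine mul_cong v hv _ _ _ _ ?_ (hg a) (h a) ih
    rw [map_prod]
    exact Finset.prod_le_one (fun i _ => v.nonneg _) fun i _ => hf i

private theorem det_cong {E : Type} [Field E] (v : AbsoluteValue E ℝ) (hv : IsNonarchimedean v)
    {m : ℕ} (A B : Matrix (Fin m) (Fin m) E) (hA : ∀ i j, v (A i j) ≤ 1)
    (hB : ∀ i j, v (B i j) ≤ 1) (h : ∀ i j, v (A i j - B i j) < 1) : v (A.det - B.det) < 1 := by
  classical
  rw [Matrix.det_apply', Matrix.det_apply', ← Finset.sum_sub_distrib]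
  refine sum_lt v hv _ _ fun σ _ => ?_
  rw [← mul_sub, map_mul]
  have h4 : v (((Equiv.Perm.sign σ : ℤˣ) : ℤ) : E) = 1 := by
    rcases Int.units_eq_one_or (Equiv.Perm.sign σ) with h5 | h5
    · rw [h5]
      simp
    · rw [h5]
      simp
  rw [h4, one_mul]
  exact prod_cong v hv _ _ _ (fun i => hA _ _) (fun i => hB _ _) fun i => h _ _

/-- the Gram matrix of a matrix with at most `s` different rows has no minors of size `s + 1` -/
private theorem det_zero {E : Type} [Field E] {D s : ℕ} (A : Matrix (Fin D) (Fin D) E)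
    (rep : Fin D → Fin D) (O : Finset (Fin D)) (hO : ∀ j, rep j ∈ O) (hs : O.card = s)
    (e f : Fin (s + 1) → Fin D) :
    ((Matrix.of fun k k' => ∑ j, A (rep j) k * A (rep j) k').submatrix e f).det = 0 := by
  classical
  by_contra hne
  let L : Matrix (Fin (s + 1)) O E := Matrix.of fun i o => A o.1 (e i)
  let R : Matrix O (Fin (s + 1)) E :=
    Matrix.of fun o i => ((Finset.univ.filter fun j => rep j = o.1).card : E) * A o.1 (f i)
  have hM : (Matrix.of fun k k' => ∑ j, A (rep j) k * A (rep j) k').submatrix e f = L * R := by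
    ext i i'
    rw [Matrix.mul_apply, Matrix.submatrix_apply, Matrix.of_apply]
    have h1 : ∀ o : O, L i o * R o i' =
        ∑ j ∈ Finset.univ.filter (fun j => rep j = o.1), A (rep j) (e i) * A (rep j) (f i') := by
      intro o
      rw [Finset.sum_congr rfl (g := fun _ => A o.1 (e i) * A o.1 (f i'))]
      · rw [Finset.sum_const, nsmul_eq_mul]
        show A o.1 (e i) * (_ * A o.1 (f i')) = _
        ring
      · intro j hj
        rw [(Finset.mem_filter.1 hj).2]
    rw [Finset.sum_congr rfl fun o _ => h1 o]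
    rw [Finset.sum_coe_sort O (fun o => ∑ j ∈ Finset.univ.filter (fun j => rep j = o),
      A (rep j) (e i) * A (rep j) (f i'))]
    exact (Finset.sum_fiberwise_of_maps_to (fun j _ => hO j) _).symm
  rw [hM] at hne
  have h2 : (L * R).rank = s + 1 := by
    rw [Matrix.rank_of_isUnit _ ((Matrix.isUnit_iff_isUnit_det _).2 (isUnit_iff_ne_zero.2 hne)),
      Fintype.card_fin]
  have h3 : (L * R).rank ≤ s := by
    refine (Matrix.rank_mul_le_left L R).trans ((Matrix.rank_le_card_width L).trans ?_)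
    rw [Fintype.card_coe, hs]
  omega

theorem gram_loc {E : Type} [Field E] [NumberField E] [IsGalois ℚ E] {n D N : ℕ}
    (w : FinitePlace E) (l : ℕ) (hl : l.Prime) (hw : w (l : E) < 1) (V : Subgroup (E ≃ₐ[ℚ] E)) (J : ℕ)
    (hJ : V.relIndex (Ine w) ≤ J) (X : Fin D → Fin n → E) (hX : Stab V X) (e : Fin D → Bx n N) :
    w (Matrix.det (Matrix.of fun i j : Fin D => mn (e j) (X i))) ^ (4 * J) ≤
      w (l : E) ^ bd V w X * ∏ j, ∏ i, (max 1 (w (X j i))) ^ (4 * J * N) := by
  classical
  obtain ⟨v, hvv⟩ : ∃ v : AbsoluteValue E ℝ, v = w.val := ⟨_, rfl⟩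
  have hvw : ∀ a, w a = v a := fun a => by rw [hvv]; rfl
  have hv : IsNonarchimedean v := fun x y => by
    rw [← hvw, ← hvw, ← hvw]
    exact FinitePlace.add_le w x y
  have hr : 1 ≤ V.relIndex (Ine w) :=
    Nat.one_le_iff_ne_zero.2
      (Subgroup.index_ne_zero_of_finite (H := V.subgroupOf (Ine w)))
  have hJ1 : 1 ≤ J := hr.trans hJ
  -- the group
  obtain ⟨W, hW⟩ : ∃ W : Subgroup (E ≃ₐ[ℚ] E), W = V ⊓ Ine w := ⟨_, rfl⟩
  have hWV : ∀ τ ∈ W, τ ∈ V := fun τ h => by rw [hW] at h; exact h.1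
  have hW1 : ∀ τ ∈ W, ∀ a, v (τ a) = v a := fun τ h a => by
    rw [hW] at h
    rw [← hvw, ← hvw]
    exact h.2.1 a
  have hW2 : ∀ τ ∈ W, ∀ a, v a ≤ 1 → v (τ a - a) < 1 := fun τ h a ha => by
    rw [hW] at h
    rw [← hvw]
    exact h.2.2 a (by rw [hvw]; exact ha)
  -- the relation
  obtain ⟨R, hR⟩ : ∃ R : Fin D → Fin D → Prop,
      R = fun j j' => ∃ τ ∈ W, ∀ i, τ (X j i) = X j' i := ⟨_, rfl⟩
  have hRi : ∀ j j', R j j' ↔ ∃ τ ∈ W, ∀ i, τ (X j i) = X j' i := fun j j' => by rw [hR]
  have hrefl : ∀ j, R j j := fun j => (hRi j j).2 ⟨1, W.one_mem, fun i => rfl⟩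
  have hsymm : ∀ j j', R j j' → R j' j := by
    intro j j' h
    obtain ⟨τ, h1, h2⟩ := (hRi _ _).1 h
    refine (hRi _ _).2 ⟨τ⁻¹, W.inv_mem h1, fun i => ?_⟩
    rw [← h2, ← AlgEquiv.mul_apply, inv_mul_cancel, AlgEquiv.one_apply]
  have htrans : ∀ j j' j'', R j j' → R j' j'' → R j j'' := by
    intro j j' j'' h h'
    obtain ⟨τ, h1, h2⟩ := (hRi _ _).1 h
    obtain ⟨σ, h3, h4⟩ := (hRi _ _).1 h'
    refine (hRi _ _).2 ⟨σ * τ, W.mul_mem h3 h1, fun i => ?_⟩
    rw [AlgEquiv.mul_apply, h2, h4]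
  let S : Setoid (Fin D) := ⟨R, hrefl, fun {a b} => hsymm a b, fun {a b c} => htrans a b c⟩
  obtain ⟨rep, hrep⟩ : ∃ rep : Fin D → Fin D,
      rep = fun j => (Quotient.out (Quotient.mk S j)) := ⟨_, rfl⟩
  have hrep1 : ∀ j, R j (rep j) := by
    intro j
    rw [hrep]
    exact hsymm _ _ (Quotient.mk_out (s := S) j)
  have hrep2 : ∀ j j', R j j' → rep j = rep j' := by
    intro j j' h
    rw [hrep]
    show Quotient.out (Quotient.mk S j) = Quotient.out (Quotient.mk S j')
    rw [Quotient.sound (s := S) h]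
  have hrep3 : ∀ j, rep (rep j) = rep j := fun j => (hrep2 _ _ (hrep1 j)).symm
  obtain ⟨O, hO⟩ : ∃ O : Finset (Fin D), O = Finset.univ.image rep := ⟨_, rfl⟩
  have hOm : ∀ j, rep j ∈ O := fun j => by
    rw [hO]
    exact Finset.mem_image_of_mem _ (Finset.mem_univ j)
  have hOi : ∀ j, j ∈ O ↔ rep j = j := by
    intro j
    constructor
    · intro h
      rw [hO] at h
      obtain ⟨j', -, rfl⟩ := Finset.mem_image.1 h
      exact hrep3 j'
    · intro h
      rw [← h]
      exact hOm j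
  have hsD : O.card ≤ D := by
    simpa using Finset.card_le_univ O
  -- the moved points
  have hbd : bd V w X ≤ 2 * (D - O.card) := by
    have h1 : bd V w X = (Finset.univ.filter fun j => ∃ j', R j j' ∧ j' ≠ j).card := by
      rw [← Set.ncard_coe_finset]
      unfold bd
      congr 1
      ext j
      simp only [Set.mem_setOf_eq, Finset.coe_filter, Finset.mem_univ, true_and]
      constructor
      · rintro ⟨τ, h1, h2, i, h3⟩
        obtain ⟨j', hj'⟩ := hX.st τ h1 j
        refine ⟨j', (hRi _ _).2 ⟨τ, by rw [hW]; exact ⟨h1, h2⟩, hj'⟩, ?_⟩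
        rintro rfl
        exact h3 (hj' i)
      · rintro ⟨j', h1, h2⟩
        obtain ⟨τ, h3, h4⟩ := (hRi _ _).1 h1
        rw [hW] at h3
        refine ⟨τ, h3.1, h3.2, ?_⟩
        by_contra hcon
        push Not at hcon
        refine h2 (hX.inj (funext fun i => ?_))
        rw [← h4 i, hcon i]
    have h2 : (Finset.univ \ O).card = D - O.card := by
      rw [Finset.card_sdiff_of_subset (Finset.subset_univ O), Finset.card_univ, Fintype.card_fin]
    rw [h1, ← Finset.card_filter_add_card_filter_not (s := Finset.univ.filter fun j => ∃ j', R j j' ∧ j' ≠ j)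
      (fun j => j ∈ O), two_mul, ← h2]
    refine Nat.add_le_add ?_ ?_
    · have h3 : ∀ j, ∃ j', (∃ j', R j j' ∧ j' ≠ j) → R j j' ∧ j' ≠ j := by
        intro j
        by_cases h : ∃ j', R j j' ∧ j' ≠ j
        · obtain ⟨j', h'⟩ := h
          exact ⟨j', fun _ => h'⟩
        · exact ⟨j, fun h' => absurd h' h⟩
      choose φ hφ using h3
      refine Finset.card_le_card_of_injOn φ ?_ ?_
      · intro j hj
        rw [Finset.mem_coe, Finset.mem_filter, Finset.mem_filter] at hj
        obtain ⟨h4, h5⟩ := hφ j hj.1.2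
        rw [Finset.mem_coe, Finset.mem_sdiff]
        refine ⟨Finset.mem_univ _, fun h6 => h5 ?_⟩
        rw [← (hOi _).1 h6, ← hrep2 _ _ h4, (hOi _).1 hj.2]
      · intro j hj j' hj' h
        rw [Finset.mem_coe, Finset.mem_filter, Finset.mem_filter] at hj hj'
        have h4 := (hφ j hj.1.2).1
        have h5 := (hφ j' hj'.1.2).1
        rw [← (hOi _).1 hj.2, ← (hOi _).1 hj'.2, hrep2 _ _ h4, hrep2 _ _ h5, h]
    · refine Finset.card_le_card fun j hj => ?_
      rw [Finset.mem_filter] at hj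
      exact Finset.mem_sdiff.2 ⟨Finset.mem_univ _, hj.2⟩
  -- the denominators
  obtain ⟨c, hc⟩ : ∃ c : Fin D → E,
      c = fun j => ∏ i, (if 1 < v (X j i) then X j i else 1) ^ N := ⟨_, rfl⟩
  have hcj : ∀ j, c j = ∏ i, (if 1 < v (X j i) then X j i else 1) ^ N := fun j => by rw [hc]
  have hc0 : ∀ j, c j ≠ 0 := by
    intro j
    rw [hcj]
    refine Finset.prod_ne_zero_iff.2 fun i _ => pow_ne_zero _ ?_
    split_ifs
    · exact hX.ne j i
    · exact one_ne_zero
  have hvc : ∀ j, v (c j) = ∏ i, (max 1 (v (X j i))) ^ N := by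
    intro j
    rw [hcj, map_prod]
    refine Finset.prod_congr rfl fun i _ => ?_
    rw [map_pow]
    congr 1
    split_ifs with h
    · rw [max_eq_right h.le]
    · rw [map_one, max_eq_left (not_lt.1 h)]
  obtain ⟨A, hA⟩ : ∃ A : Matrix (Fin D) (Fin D) E,
      A = Matrix.of fun j k => mn (e k) (X j) / c j := ⟨_, rfl⟩
  have hAj : ∀ j k, A j k = mn (e k) (X j) / c j := fun j k => by rw [hA]; rfl
  have hA1 : ∀ j k, v (A j k) ≤ 1 := by
    intro j k
    rw [hAj, map_div₀, div_le_one (v.pos (hc0 j)), hvc]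
    show v (∏ i, X j i ^ (e k i : ℕ)) ≤ _
    rw [map_prod]
    refine Finset.prod_le_prod (fun i _ => v.nonneg _) fun i _ => ?_
    rw [map_pow]
    have h1 : (e k i : ℕ) ≤ N := Nat.lt_succ_iff.1 (e k i).2
    calc v (X j i) ^ (e k i : ℕ) ≤ (max 1 (v (X j i))) ^ (e k i : ℕ) :=
          pow_le_pow_left₀ (v.nonneg _) (le_max_right _ _) _
      _ ≤ _ := pow_le_pow_right₀ (le_max_left _ _) h1
  -- equivariance
  have hτA : ∀ τ ∈ W, ∀ j j', (∀ i, τ (X j i) = X j' i) → ∀ k, τ (A j k) = A j' k := by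
    intro τ hτ j j' h k
    rw [hAj, hAj, map_div₀]
    congr 1
    · show τ (∏ i, X j i ^ (e k i : ℕ)) = ∏ i, X j' i ^ (e k i : ℕ)
      rw [map_prod]
      refine Finset.prod_congr rfl fun i _ => ?_
      rw [map_pow, h]
    · rw [hcj, hcj, map_prod]
      refine Finset.prod_congr rfl fun i _ => ?_
      rw [map_pow]
      congr 1
      have h1 : v (X j' i) = v (X j i) := by rw [← h i, hW1 τ hτ]
      rw [h1]
      split_ifs
      · exact h i
      · exact map_one τ
  have hAr : ∀ j k, v (A j k - A (rep j) k) < 1 := by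
    intro j k
    obtain ⟨τ, h1, h2⟩ := (hRi _ _).1 (hrep1 j)
    rw [← hτA τ h1 j (rep j) h2 k, ← v.map_neg, neg_sub]
    exact hW2 τ h1 _ (hA1 j k)
  -- the Gram matrix
  obtain ⟨G, hG⟩ : ∃ G : Matrix (Fin D) (Fin D) E,
      G = Matrix.of fun k k' => ∑ j, A j k * A j k' := ⟨_, rfl⟩
  have hGe : ∀ k k', G k k' = ∑ j, A j k * A j k' := fun k k' => by rw [hG]; rfl
  have hGd : G.det = A.det ^ 2 := by
    have h1 : G = A.transpose * A := by
      ext k k'
      rw [hGe, Matrix.mul_apply]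
      rfl
    rw [h1, Matrix.det_mul, Matrix.det_transpose, sq]
  have hGF : ∀ k k', G k k' ∈ (IntermediateField.fixedField W).toSubfield := by
    intro k k'
    show G k k' ∈ IntermediateField.fixedField W
    rw [IntermediateField.mem_fixedField_iff]
    intro τ hτ
    have h1 : ∀ j, ∃ j', ∀ i, τ (X j i) = X j' i := hX.st τ (hWV τ hτ)
    choose π hπ using h1
    have hπi : Function.Injective π := by
      intro j j' h
      refine hX.inj (funext fun i => ?_)
      apply τ.injective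
      rw [hπ, hπ, h]
    have hπb : Function.Bijective π := Finite.injective_iff_bijective.1 hπi
    rw [hGe, map_sum]
    refine Fintype.sum_bijective π hπb _ _ fun j => ?_
    rw [map_mul, hτA τ hτ j (π j) (hπ j), hτA τ hτ j (π j) (hπ j)]
  have hG1 : ∀ k k', v (G k k') ≤ 1 := by
    intro k k'
    rw [hGe]
    refine sum_le1 v hv _ _ fun j _ => ?_
    rw [map_mul]
    exact mul_le_one₀ (hA1 _ _) (v.nonneg _) (hA1 _ _)
  -- the bound for the elements of the fixed field
  have hwl0 : 0 ≤ w (l : E) := apply_nonneg w _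
  obtain ⟨ρ, hρ⟩ : ∃ ρ : ℝ, ρ = (w (l : E)) ^ ((J : ℝ)⁻¹) := ⟨_, rfl⟩
  have hρ0 : 0 ≤ ρ := by
    rw [hρ]
    exact Real.rpow_nonneg hwl0 _
  have hρJ : ρ ^ J = w (l : E) := by
    rw [hρ]
    exact Real.rpow_inv_natCast_pow hwl0 (by omega)
  have hρ1 : ρ ≤ 1 := by
    rw [hρ]
    exact Real.rpow_le_one hwl0 hw.le (inv_nonneg.2 (Nat.cast_nonneg J))
  have hFρ : ∀ a ∈ (IntermediateField.fixedField W).toSubfield, v a < 1 → v a ≤ ρ := by
    intro a ha h1
    have ha' : a ∈ IntermediateField.fixedField W := ha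
    rw [IntermediateField.mem_fixedField_iff] at ha'
    have h2 := ine_rel w l hl hw V J hJ a (fun τ h3 h4 => ha' τ (by rw [hW]; exact ⟨h3, h4⟩))
      (by rw [hvw]; exact h1)
    rw [hvw, ← hρJ] at h2
    exact (pow_le_pow_iff_left₀ (v.nonneg _) hρ0 (by omega)).1 h2
  -- the minors
  have hm : ∀ e f : Fin (O.card + 1) → Fin D, v (G.submatrix e f).det < 1 := by
    intro e' f'
    have h1 := det_zero A rep O hOm rfl e' f'
    have h2 := det_cong v hv (G.submatrix e' f')
      ((Matrix.of fun k k' => ∑ j, A (rep j) k * A (rep j) k').submatrix e' f')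
      (fun i j => hG1 _ _) (fun i j => ?_) (fun i j => ?_)
    · rw [h1, sub_zero] at h2
      exact h2
    · rw [Matrix.submatrix_apply, Matrix.of_apply]
      refine sum_le1 v hv _ _ fun j _ => ?_
      rw [map_mul]
      exact mul_le_one₀ (hA1 _ _) (v.nonneg _) (hA1 _ _)
    · rw [Matrix.submatrix_apply, Matrix.submatrix_apply, Matrix.of_apply, hGe,
        ← Finset.sum_sub_distrib]
      exact sum_lt v hv _ _ fun j _ =>
        mul_cong v hv _ _ _ _ (hA1 _ _) (hA1 _ _) (hAr _ _) (hAr _ _)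
  have hdet := minors_det v hv (IntermediateField.fixedField W).toSubfield ρ hρ0 hρ1 hFρ hsD G hGF
    hG1 hm
  rw [hGd, map_pow] at hdet
  -- conclusion
  have h1 : v A.det ^ (4 * J) ≤ w (l : E) ^ bd V w X := by
    calc v A.det ^ (4 * J) = (v A.det ^ 2) ^ (2 * J) := by
          rw [← pow_mul]
          congr 1
          ring
      _ ≤ (ρ ^ (D - O.card)) ^ (2 * J) := pow_le_pow_left₀ (pow_nonneg (v.nonneg _) _) hdet _
      _ = (ρ ^ J) ^ (2 * (D - O.card)) := by
          rw [← pow_mul, ← pow_mul]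
          congr 1
          ring
      _ = w (l : E) ^ (2 * (D - O.card)) := by rw [hρJ]
      _ ≤ _ := pow_le_pow_of_le_one hwl0 hw.le hbd
  have h2 : (Matrix.of fun i j : Fin D => mn (e j) (X i)).det = (∏ j, c j) * A.det := by
    rw [← Matrix.det_mul_column]
    congr 1
    ext i j
    rw [Matrix.of_apply, Matrix.of_apply, hAj, mul_div_cancel₀ _ (hc0 i)]
  have h3 : (∏ j, v (c j)) ^ (4 * J) = ∏ j, ∏ i, (max 1 (w (X j i))) ^ (4 * J * N) := by
    rw [← Finset.prod_pow]
    refine Finset.prod_congr rfl fun j _ => ?_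
    rw [hvc, ← Finset.prod_pow]
    refine Finset.prod_congr rfl fun i _ => ?_
    rw [← pow_mul, hvw]
    congr 1
    ring
  rw [hvw, h2, map_mul, map_prod, mul_pow, h3, mul_comm]
  exact mul_le_mul_of_nonneg_right h1
    (Finset.prod_nonneg fun j _ => Finset.prod_nonneg fun i _ => pow_nonneg
      (zero_le_one.trans (le_max_left _ _)) _)

end Pool.Agent.H72.AD
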