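import Pool.Agent.H72.AD.CycF
import Pool.Agent.H72.AD.OrbA

/-!
# POINTS THEOREM, chapter G: indices

`rel_idx`. PROOF (imports may be sorried): `S := Stb H' y`, `H S = H ⊔ S` is a group (`H` normal). `[H' : S] = dgT H' y` (`dg_stb`), `[H' : S] = [H' : H ⊔ S] [H ⊔ S : S]` (`Subgroup.relIndex_mul_relIndex`, `S ≤ H ⊔ S ≤ H'`), and `[H ⊔ S : S] = [H : H ⊓ S] = [H : Stb H y] = dgT H y` (`Subgroup.relIndex_sup_..`, `relIndex_inf_..`: e.g. `Subgroup.relIndex_sup_right`/`relIndex_sup_left` for normal subgroups: the map `H → (H ⊔ S)/S` is onto; `H ⊓ S = Stb H y`).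
`sup_orb`: if `H` is normal, `S` any subgroup and all elements of `S` fix `y`, then `orb (H ⊔ S) y = orb H y`: every element of `H ⊔ S` is `h s` (`Subgroup.mem_sup` for normal `H`: `Subgroup.mul_normal`/`normal_mul`), `mv (h s) y = mv h y`.
-/

set_option autoImplicit false
set_option linter.unusedSectionVars false

namespace Pool.Agent.H72.AD

open Pool.Agent.H11.TH Pool.Agent.H11.TS

variable {Ω : Type} [Field Ω] [CharZero Ω] [IsAlgClosed Ω] [IsGalois ℚ Ω] {n : ℕ}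

private theorem sup_orb0 (H S : Subgroup (Ω ≃ₐ[ℚ] Ω)) (hn : H.Normal) (y : Tor Ω n)
    (hS : ∀ s ∈ S, mv s y = y) : orb (H ⊔ S) y = orb H y := by
  apply Set.Subset.antisymm
  · rintro z ⟨σ, hσ, rfl⟩
    haveI := hn
    have h1 : σ ∈ ((H ⊔ S : Subgroup (Ω ≃ₐ[ℚ] Ω)) : Set (Ω ≃ₐ[ℚ] Ω)) := hσ
    rw [Subgroup.normal_mul] at h1
    obtain ⟨h, hh, s, hs, hhs⟩ := Set.mem_mul.1 h1
    refine ⟨h, hh, ?_⟩
    rw [← hhs, mv_comp, hS s hs]
  · rintro z ⟨σ, hσ, rfl⟩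
    exact ⟨σ, (le_sup_left : H ≤ H ⊔ S) hσ, rfl⟩

theorem rel_idx (H H' : Subgroup (Ω ≃ₐ[ℚ] Ω)) (hn : H.Normal) (hle : H ≤ H') (y : Tor Ω n) :
    (H ⊔ Stb H' y).relIndex H' * dgT H y = dgT H' y := by
  have hS' : Stb H' y ≤ H' := fun s hs => hs.1
  have hle2 : H ⊔ Stb H' y ≤ H' := sup_le hle hS'
  have h1 : Stb (H ⊔ Stb H' y) y = Stb H' y := by
    apply le_antisymm
    · rintro s ⟨hs1, hs2⟩
      exact ⟨hle2 hs1, hs2⟩
    · rintro s hs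
      exact ⟨(le_sup_right : Stb H' y ≤ H ⊔ Stb H' y) hs, hs.2⟩
  have h2 := dg_stb (H ⊔ Stb H' y) y
  rw [h1] at h2
  have h3 : dgT (H ⊔ Stb H' y) y = dgT H y := by
    unfold dgT
    rw [sup_orb0 H (Stb H' y) hn y (fun s hs => hs.2)]
  have h4 := Subgroup.relIndex_mul_relIndex (Stb H' y) (H ⊔ Stb H' y) H' le_sup_right hle2
  rw [dg_stb H' y, h2, h3] at h4
  rw [mul_comm]
  exact h4

theorem sup_orb (H S : Subgroup (Ω ≃ₐ[ℚ] Ω)) (hn : H.Normal) (y : Tor Ω n)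
    (hS : ∀ s ∈ S, mv s y = y) : orb (H ⊔ S) y = orb H y :=
  sup_orb0 H S hn y hS

end Pool.Agent.H72.AD
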