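import Pool.Agent.H72.AD.DfG

/-!
# POINTS THEOREM, chapter G: the congruence `(τ a)^l = a^l` modulo `l` in `ℚ(μ_N)`, `l ∣ N`

`kc`. PROOF. `ζ` a primitive root of order `N` in `Cy Ω N` (`IsCyclotomicExtension {N} ℚ (Cy Ω N)`), `O := ℤ[ζ]` (`Algebra.adjoin ℤ {ζ}`) is the integral closure of `ℤ` (`IsCyclotomicExtension.Rat.isIntegralClosure_adjoin_singleton`, `Mathlib/NumberTheory/NumberField/Cyclotomic/Basic.lean`, all `N`).
(1) For `b ∈ O`, `b = ∑ b_k ζ^k`, `b_k ∈ ℤ`: `v b ≤ 1`, `v (τ b) ≤ 1` (`v ζ = 1`, `v` of an integer `≤ 1`), and `b^l ≡ ∑ b_k^l ζ^(k l)` modulo `l O` (`l` prime: e.g. `(x + y)^l - x^l - y^l ∈ l O`, induction; or the Frobenius of `O / l O`), `(τ b)^l ≡ ∑ b_k^l (τ ζ)^(k l)`, and `(τ ζ)^l = τ (ζ^l) = ζ^l`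
because `(ζ^l)^(N / l) = 1` (`hτ`). So `(τ b)^l - b^l ∈ l O` (`τ ζ` is again in `O`), `v ((τ b)^l - b^l) ≤ v l`.
(2) `a` with `v a ≤ 1`: `a = b / c` with `b, c ∈ O`, `v c = 1`: the prime ideal `𝔭 = {b ∈ O | v b < 1}` of the Dedekind domain `O` is `≠ 0` (it contains `l`), the localization `O_𝔭` is a discrete valuation ring; if `a ∉ O_𝔭` then `a⁻¹ ∈ 𝔭 O_𝔭`, so `v (a⁻¹) < 1`, contradiction (a similar localization lemma: `loc_aux` in `Pool/Agent/H84/PT2/Loc.lean`).
By (1) for `c`: `v ((τ c)^l - c^l) ≤ v l < 1 = v (c^l)`, so `v (τ c) = 1`. `v (τ a) = v (τ b) ≤ 1`, and `(τ a)^l - a^l = ((τ b)^l c^l - b^l (τ c)^l) / ((τ c)^l c^l)`, numerator `= ((τ b)^l - b^l) c^l - b^l ((τ c)^l - c^l)`, value `≤ v l`.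
-/

set_option autoImplicit false
set_option linter.unusedSectionVars false

open NumberField

namespace Pool.Agent.H72.AD

section gen

variable {A : Type} [Field A]

private def vInt (v : AbsoluteValue A ℝ) (hv : IsNonarchimedean v) : Subring A where
  carrier := {x | v x ≤ 1}
  mul_mem' := by
    intro a b ha hb
    change v (a * b) ≤ 1
    rw [map_mul]
    exact mul_le_one₀ ha (v.nonneg _) hb
  one_mem' := by
    change v 1 ≤ 1
    rw [map_one]
  add_mem' := by
    intro a b ha hb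
    exact (hv a b).trans (max_le ha hb)
  zero_mem' := by
    change v 0 ≤ 1
    rw [map_zero]
    exact zero_le_one
  neg_mem' := by
    intro a ha
    change v (-a) ≤ 1
    rw [v.map_neg]
    exact ha

private theorem v_add {v : AbsoluteValue A ℝ} (hv : IsNonarchimedean v) {x y : A} {r : ℝ}
    (hx : v x ≤ r) (hy : v y ≤ r) : v (x + y) ≤ r := (hv x y).trans (max_le hx hy)

private theorem v_sub {v : AbsoluteValue A ℝ} (hv : IsNonarchimedean v) {x y : A} {r : ℝ}
    (hx : v x ≤ r) (hy : v y ≤ r) : v (x - y) ≤ r := by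
  rw [sub_eq_add_neg]
  refine v_add hv hx ?_
  rw [v.map_neg]
  exact hy

private theorem v_pw {v : AbsoluteValue A ℝ} (hv : IsNonarchimedean v) {l : ℕ} (hl : l.Prime)
    {x y : A} (hx : v x ≤ 1) (hy : v y ≤ 1) : v ((x + y) ^ l - x ^ l - y ^ l) ≤ v (l : A) := by
  obtain ⟨r, hr⟩ := exists_add_pow_prime_eq hl (⟨x, hx⟩ : vInt v hv) (⟨y, hy⟩ : vInt v hv)
  have h1 : (x + y) ^ l = x ^ l + y ^ l + l * x * y * (r : A) := by
    have h2 := congrArg (fun w : vInt v hv => (w : A)) hr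
    simpa using h2
  have h3 : (x + y) ^ l - x ^ l - y ^ l = (l : A) * (x * (y * (r : A))) := by
    rw [h1]
    ring
  rw [h3, map_mul]
  refine mul_le_of_le_one_right (v.nonneg _) ?_
  rw [map_mul, map_mul]
  exact mul_le_one₀ hx (mul_nonneg (v.nonneg _) (v.nonneg _)) (mul_le_one₀ hy (v.nonneg _) r.2)

/-- the elements with the congruence -/
private def frS (v : AbsoluteValue A ℝ) (hv : IsNonarchimedean v) (l : ℕ) (hl : l.Prime)
    (τ : A →+* A) : Subring A where
  carrier := {b | v b ≤ 1 ∧ v (τ b) ≤ 1 ∧ v (τ b ^ l - b ^ l) ≤ v (l : A)}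
  mul_mem' := by
    rintro a b ⟨ha1, ha2, ha3⟩ ⟨hb1, hb2, hb3⟩
    refine ⟨?_, ?_, ?_⟩
    · rw [map_mul]
      exact mul_le_one₀ ha1 (v.nonneg _) hb1
    · rw [map_mul, map_mul]
      exact mul_le_one₀ ha2 (v.nonneg _) hb2
    · have h1 : τ (a * b) ^ l - (a * b) ^ l =
          τ a ^ l * (τ b ^ l - b ^ l) + b ^ l * (τ a ^ l - a ^ l) := by
        rw [map_mul, mul_pow, mul_pow]
        ring
      rw [h1]
      refine v_add hv ?_ ?_
      · rw [map_mul, map_pow]
        exact (mul_le_of_le_one_left (v.nonneg _) (pow_le_one₀ (v.nonneg _) ha2)).trans hb3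
      · rw [map_mul, map_pow]
        exact (mul_le_of_le_one_left (v.nonneg _) (pow_le_one₀ (v.nonneg _) hb1)).trans ha3
  one_mem' := by
    refine ⟨by rw [map_one], by rw [map_one, map_one], ?_⟩
    rw [map_one, sub_self, map_zero]
    exact v.nonneg _
  add_mem' := by
    rintro a b ⟨ha1, ha2, ha3⟩ ⟨hb1, hb2, hb3⟩
    refine ⟨v_add hv ha1 hb1, ?_, ?_⟩
    · rw [map_add]
      exact v_add hv ha2 hb2
    · have h1 : τ (a + b) ^ l - (a + b) ^ l =
          ((τ a + τ b) ^ l - τ a ^ l - τ b ^ l) - ((a + b) ^ l - a ^ l - b ^ l) +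
            ((τ a ^ l - a ^ l) + (τ b ^ l - b ^ l)) := by
        rw [map_add]
        ring
      rw [h1]
      exact v_add hv (v_sub hv (v_pw hv hl ha2 hb2) (v_pw hv hl ha1 hb1)) (v_add hv ha3 hb3)
  zero_mem' := by
    refine ⟨?_, ?_, ?_⟩
    · rw [map_zero]
      exact zero_le_one
    · rw [map_zero, map_zero]
      exact zero_le_one
    · rw [map_zero, sub_self, map_zero]
      exact v.nonneg _
  neg_mem' := by
    rintro a ⟨ha1, ha2, ha3⟩
    refine ⟨?_, ?_, ?_⟩
    · rw [v.map_neg]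
      exact ha1
    · rw [map_neg, v.map_neg]
      exact ha2
    · have h1 : τ (-a) ^ l - (-a) ^ l = (-1) ^ l * (τ a ^ l - a ^ l) := by
        rw [map_neg, neg_pow, neg_pow a]
        ring
      rw [h1, map_mul, map_pow, v.map_neg, map_one, one_pow, one_mul]
      exact ha3

variable [NumberField A]

/-- fractions with denominators of absolute value `1` -/
private theorem frac (v : AbsoluteValue A ℝ) (hv : IsNonarchimedean v)
    (hint : ∀ b : 𝓞 A, v (b : A) ≤ 1) (l : ℕ) (hl : l.Prime) (hvl : v (l : A) < 1) (a : A)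
    (ha : v a ≤ 1) : ∃ b c : 𝓞 A, v (c : A) = 1 ∧ a * (c : A) = (b : A) := by
  have cadd : ∀ x y : 𝓞 A, ((x + y : 𝓞 A) : A) = (x : A) + (y : A) := fun x y =>
    map_add (algebraMap (𝓞 A) A) x y
  have cmul : ∀ x y : 𝓞 A, ((x * y : 𝓞 A) : A) = (x : A) * (y : A) := fun x y =>
    map_mul (algebraMap (𝓞 A) A) x y
  have czero : ((0 : 𝓞 A) : A) = 0 := map_zero (algebraMap (𝓞 A) A)
  have cone : ((1 : 𝓞 A) : A) = 1 := map_one (algebraMap (𝓞 A) A)
  let P : Ideal (𝓞 A) :=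
    { carrier := {b | v (b : A) < 1}
      add_mem' := by
        intro x y hx hy
        change v ((x + y : 𝓞 A) : A) < 1
        rw [cadd]
        exact lt_of_le_of_lt (hv _ _) (max_lt hx hy)
      zero_mem' := by
        change v ((0 : 𝓞 A) : A) < 1
        rw [czero, map_zero]
        exact zero_lt_one
      smul_mem' := by
        intro c x hx
        change v ((c * x : 𝓞 A) : A) < 1
        rw [cmul, map_mul]
        exact lt_of_le_of_lt (mul_le_of_le_one_left (v.nonneg _) (hint c)) hx }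
  have hPm : ∀ b : 𝓞 A, b ∈ P ↔ v (b : A) < 1 := fun b => Iff.rfl
  have hPn : ∀ b : 𝓞 A, b ∉ P → v (b : A) = 1 := by
    intro b hb
    rw [hPm, not_lt] at hb
    exact le_antisymm (hint b) hb
  haveI hP : P.IsPrime := by
    refine ⟨?_, ?_⟩
    · rw [Ne, Ideal.eq_top_iff_one, hPm, cone, map_one]
      exact lt_irrefl _
    · intro x y hxy
      by_contra hcon
      rw [not_or] at hcon
      rw [hPm, cmul, map_mul, hPn x hcon.1, hPn y hcon.2, mul_one] at hxy
      exact lt_irrefl _ hxy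
  have hP0 : P ≠ ⊥ := by
    intro h
    have h1 : (l : 𝓞 A) ∈ P := by
      rw [hPm]
      have h2 : (((l : 𝓞 A)) : A) = (l : A) := by simp
      rw [h2]
      exact hvl
    rw [h, Ideal.mem_bot] at h1
    exact hl.ne_zero (by exact_mod_cast h1)
  let B := Localization.subalgebra.ofField A P.primeCompl P.primeCompl_le_nonZeroDivisors
  haveI hB1 : IsLocalization.AtPrime B P :=
    Localization.subalgebra.isLocalization_ofField A P.primeCompl P.primeCompl_le_nonZeroDivisors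
  haveI hB2 : IsDiscreteValuationRing B :=
    IsLocalization.AtPrime.isDiscreteValuationRing_of_dedekind_domain (𝓞 A) hP0 B
  have key : ∀ x : A, IsLocalization.IsInteger B x →
      ∃ (b c : 𝓞 A), c ∉ P ∧ x = (b : A) * (c : A)⁻¹ := by
    rintro x ⟨y, hy⟩
    obtain ⟨b, c, hc, hbc⟩ : (y : A) ∈ B := y.2
    exact ⟨b, c, hc, hy.symm.trans hbc⟩
  by_cases ha0 : a = 0
  · refine ⟨0, 1, ?_, ?_⟩
    · rw [cone, map_one]
    · rw [ha0, cone, czero, zero_mul]
  rcases ValuationRing.isInteger_or_isInteger B a with h | h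
  · obtain ⟨b, c, hc, hbc⟩ := key a h
    have hc1 := hPn c hc
    have hc0 : (c : A) ≠ 0 := by
      intro h0
      rw [h0, map_zero] at hc1
      exact zero_ne_one hc1
    refine ⟨b, c, hc1, ?_⟩
    rw [hbc, mul_assoc, inv_mul_cancel₀ hc0, mul_one]
  · obtain ⟨b, c, hc, hbc⟩ := key a⁻¹ h
    have hc1 := hPn c hc
    have hc0 : (c : A) ≠ 0 := by
      intro h0
      rw [h0, map_zero] at hc1
      exact zero_ne_one hc1
    have hb1 : a * (b : A) = (c : A) := by
      have h2 : (b : A) = a⁻¹ * (c : A) := by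
        rw [hbc, mul_assoc, inv_mul_cancel₀ hc0, mul_one]
      rw [h2, ← mul_assoc, mul_inv_cancel₀ ha0, one_mul]
    refine ⟨c, b, ?_, hb1⟩
    refine le_antisymm (hint b) ?_
    have h3 : v a * v (b : A) = 1 := by
      rw [← map_mul, hb1, hc1]
    calc (1 : ℝ) = v a * v (b : A) := h3.symm
      _ ≤ v (b : A) := mul_le_of_le_one_left (v.nonneg _) ha

private theorem kc_gen (N l : ℕ) (hl : l.Prime) (hlN : l ∣ N) (hN : 1 ≤ N) (ξ : A)
    (hξ : ξ ^ N = 1) (hgen : ∀ R : Subring A, ξ ∈ R → ∀ b : 𝓞 A, (b : A) ∈ R)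
    (v : AbsoluteValue A ℝ) (hv : IsNonarchimedean v) (hvl : v (l : A) < 1) (τ : A →+* A)
    (hτ : ∀ z : A, z ^ (N / l) = 1 → τ z = z) (a : A) (ha : v a ≤ 1) :
    v (τ a) ≤ 1 ∧ v (τ a ^ l - a ^ l) ≤ v (l : A) := by
  have hone : ∀ z : A, z ^ N = 1 → v z = 1 := by
    intro z hz
    have h1 : v z ^ N = 1 := by rw [← map_pow, hz, map_one]
    exact (pow_eq_one_iff_of_nonneg (v.nonneg _) (by omega)).mp h1
  have hξm : ξ ∈ frS v hv l hl τ := by
    refine ⟨(hone ξ hξ).le, ?_, ?_⟩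
    · refine (hone (τ ξ) ?_).le
      rw [← map_pow, hξ, map_one]
    · have h1 : τ (ξ ^ l) = ξ ^ l := by
        apply hτ
        rw [← pow_mul, Nat.mul_div_cancel' hlN, hξ]
      rw [← map_pow, h1, sub_self, map_zero]
      exact v.nonneg _
  have hall := hgen (frS v hv l hl τ) hξm
  obtain ⟨b, c, hc, hbc⟩ := frac v hv (fun b => (hall b).1) l hl hvl a ha
  obtain ⟨hb1, hb2, hb3⟩ := hall b
  obtain ⟨hc1, hc2, hc3⟩ := hall c
  have hc0 : (c : A) ≠ 0 := by
    intro h0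
    rw [h0, map_zero] at hc
    exact zero_ne_one hc
  have hτc : v (τ (c : A)) = 1 := by
    refine le_antisymm hc2 ?_
    by_contra hcon
    rw [not_le] at hcon
    have h1 : v (τ (c : A) ^ l) < 1 := by
      rw [map_pow]
      exact pow_lt_one₀ (v.nonneg _) hcon hl.ne_zero
    have h2 : v ((c : A) ^ l) < 1 := by
      have h3 : (c : A) ^ l = τ (c : A) ^ l - (τ (c : A) ^ l - (c : A) ^ l) := by ring
      rw [h3, sub_eq_add_neg]
      refine lt_of_le_of_lt (hv _ _) (max_lt h1 ?_)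
      rw [v.map_neg]
      exact lt_of_le_of_lt hc3 hvl
    rw [map_pow, hc, one_pow] at h2
    exact lt_irrefl _ h2
  have hτc0 : τ (c : A) ≠ 0 := by
    intro h0
    rw [h0, map_zero] at hτc
    exact zero_ne_one hτc
  have hτa : τ a * τ (c : A) = τ (b : A) := by rw [← map_mul, hbc]
  have hva : v (τ a) = v (τ (b : A)) := by
    rw [← hτa, map_mul, hτc, mul_one]
  refine ⟨by rw [hva]; exact hb2, ?_⟩
  have h5 : v (τ a ^ l - a ^ l) = v ((τ a ^ l - a ^ l) * (τ (c : A) ^ l * (c : A) ^ l)) := by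
    rw [map_mul, map_mul v (τ (c : A) ^ l), map_pow v (τ (c : A)), map_pow v (c : A), hτc, hc,
      one_pow, mul_one, mul_one]
  have h6 : (τ a ^ l - a ^ l) * (τ (c : A) ^ l * (c : A) ^ l) =
      (τ (b : A) ^ l - (b : A) ^ l) * (c : A) ^ l -
        (b : A) ^ l * (τ (c : A) ^ l - (c : A) ^ l) := by
    rw [← hτa, ← hbc]
    ring
  rw [h5, h6]
  refine v_sub hv ?_ ?_
  · rw [map_mul, map_pow v (c : A), hc, one_pow, mul_one]
    exact hb3
  · rw [map_mul, map_pow v (b : A)]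
    exact (mul_le_of_le_one_left (v.nonneg _) (pow_le_one₀ (v.nonneg _) hb1)).trans hc3

private theorem gen_int (N : ℕ) (hN : 1 ≤ N) (ξ : A) (hξ : IsPrimitiveRoot ξ N)
    (htop : IntermediateField.adjoin ℚ {ξ} = ⊤) (R : Subring A) (hR : ξ ∈ R) (b : 𝓞 A) :
    (b : A) ∈ R := by
  have hn0 : NeZero N := ⟨by omega⟩
  have htop' : Algebra.adjoin ℚ ({ξ} : Set A) = ⊤ := by
    have halg : IsAlgebraic ℚ ξ := Algebra.IsAlgebraic.isAlgebraic _
    rw [← IntermediateField.adjoin_simple_toSubalgebra_of_isAlgebraic halg, htop,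
      IntermediateField.top_toSubalgebra]
  have hc : IsCyclotomicExtension {N} ℚ A := by
    rw [IsCyclotomicExtension.iff_adjoin_eq_top]
    refine ⟨fun r hr _ => ?_, ?_⟩
    · rw [Set.mem_singleton_iff] at hr
      rw [hr]
      exact ⟨ξ, hξ⟩
    · rw [eq_top_iff, ← htop']
      refine Algebra.adjoin_mono ?_
      rw [Set.singleton_subset_iff]
      exact ⟨N, rfl, by omega, hξ.pow_eq_one⟩
  obtain ⟨y, hy⟩ := (IsCyclotomicExtension.Rat.isIntegralClosure_adjoin_singleton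
    hξ).isIntegral_iff.1 (RingOfIntegers.isIntegral_coe b)
  have hy' : (b : A) = (y : A) := hy.symm
  rw [hy']
  have h1 : ∀ y ∈ Algebra.adjoin ℤ ({ξ} : Set A), y ∈ R := by
    intro y hy
    induction hy using Algebra.adjoin_induction with
    | mem w hw =>
      rw [Set.mem_singleton_iff] at hw
      rw [hw]
      exact hR
    | algebraMap t =>
      have h2 : (algebraMap ℤ A t : A) = (t : A) := by simp
      rw [h2]
      exact intCast_mem R t
    | add u v _ _ h2 h3 => exact R.add_mem h2 h3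
    | mul u v _ _ h2 h3 => exact R.mul_mem h2 h3
  exact h1 _ y.2

end gen

private theorem top_gen {k F Ω : Type} [Field k] [Field F] [Field Ω] [Algebra k F] [Algebra k Ω]
    (f : F →ₐ[k] Ω) (ξ : F) (h : ∀ x : F, f x ∈ IntermediateField.adjoin k {f ξ}) :
    IntermediateField.adjoin k {ξ} = ⊤ := by
  rw [eq_top_iff]
  intro x _
  have h1 := h x
  have h2 : (IntermediateField.adjoin k {ξ}).map f = IntermediateField.adjoin k {f ξ} := by
    rw [IntermediateField.adjoin_map, Set.image_singleton]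
  rw [← h2] at h1
  obtain ⟨y, hy, hyx⟩ := h1
  have h3 : y = x := f.injective hyx
  rw [← h3]
  exact hy

theorem kc {Ω : Type} [Field Ω] [CharZero Ω] [IsAlgClosed Ω] (N l : ℕ) (hN : 1 ≤ N) (hl : l.Prime)
    (hlN : l ∣ N) (v : AbsoluteValue (Cy Ω N) ℝ) (hv : IsNonarchimedean v)
    (hvl : v (l : Cy Ω N) < 1) (τ : Cy Ω N →+* Cy Ω N)
    (hτ : ∀ z : Cy Ω N, z ^ (N / l) = 1 → τ z = z) (a : Cy Ω N) (ha : v a ≤ 1) :
    v (τ a) ≤ 1 ∧ v (τ a ^ l - a ^ l) ≤ v (l : Cy Ω N) := by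
  have hn0 : NeZero N := ⟨by omega⟩
  have hnΩ : NeZero (N : Ω) := ⟨by
    have : N ≠ 0 := by omega
    exact_mod_cast this⟩
  obtain ⟨ζ, hζ⟩ := HasEnoughRootsOfUnity.exists_primitiveRoot Ω N
  have hCy : Cy Ω N = IntermediateField.adjoin ℚ {ζ} := by
    unfold Cy
    apply le_antisymm
    · rw [IntermediateField.adjoin_le_iff]
      intro z hz
      obtain ⟨i, -, hi⟩ := hζ.eq_pow_of_pow_eq_one hz
      rw [← hi]
      exact pow_mem (IntermediateField.mem_adjoin_simple_self ℚ ζ) i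
    · refine IntermediateField.adjoin.mono _ _ _ ?_
      rw [Set.singleton_subset_iff]
      exact hζ.pow_eq_one
  have hζm : ζ ∈ Cy Ω N := by
    rw [hCy]
    exact IntermediateField.mem_adjoin_simple_self ℚ ζ
  have hfd : FiniteDimensional ℚ (Cy Ω N) := by
    rw [hCy]
    exact IntermediateField.adjoin.finiteDimensional (hζ.isIntegral (by omega)).tower_top
  haveI : NumberField (Cy Ω N) := ⟨⟩
  have hξ : IsPrimitiveRoot (⟨ζ, hζm⟩ : Cy Ω N) N :=
    IsPrimitiveRoot.coe_submonoidClass_iff.mp hζ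
  have htop : IntermediateField.adjoin ℚ {(⟨ζ, hζm⟩ : Cy Ω N)} = ⊤ := by
    refine top_gen (RingHom.toRatAlgHom (algebraMap (Cy Ω N) Ω)) _ fun x => ?_
    have h1 : (x : Ω) ∈ IntermediateField.adjoin ℚ {ζ} := by
      rw [← hCy]
      exact x.2
    exact h1
  exact kc_gen N l hl hlN hN (⟨ζ, hζm⟩ : Cy Ω N) hξ.pow_eq_one
    (fun R hR b => gen_int N hN _ hξ htop R hR b) v hv hvl τ hτ a ha

end Pool.Agent.H72.AD
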