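import Pool.Agent.H72.AD.CycF
import Pool.Agent.H72.AD.OrbA

/-!
# POINTS THEOREM, chapter G: Kummer theory, `l^2 ∣ N`

`ku_fix`: if `dgT (HN N) (x^l) = dgT (HN N) x` and `s ∈ HN N` fixes `x^l` then `s` fixes `x`: the surjective map `y ↦ y^l` from `orb (HN N) x` to `orb (HN N) (x^l)` is injective (finite sets of the same cardinality), and `mv s x`, `x` have the same `l`-th power.
`ku_sq` (imports may be sorried). PROOF. `ζ` a primitive root of order `N` in `Ω`; `S := {s ∈ HN (N/l) | mv s (x^l) = x^l}`. If every `s ∈ S` fixes `ζ` then `S ≤ HN N` (`HN_of_prim`) and `z := 1` works (`ku_fix`). Otherwise choose `s₀ ∈ S` with `s₀ ζ ≠ ζ`; `s₀ ζ = ζ ω`, `ω^l = 1` (`ζ^l` is fixed: `(ζ^l)^(N/l) = 1`), `ω ≠ 1`, so `ω` is a primitive `l`-th root of unity (`l` prime) and every `l`-th root of unity is a power of `ω`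
(fixed by `HN (N/l)`, because `l ∣ N / l`). `(s₀ x_i / x_i)^l = 1`, so `s₀ x_i = ω^(a_i) x_i`. `z_i := ζ^(-a_i)` (a unit, `z^N = 1`). `s₀ (z_i x_i) = ζ^(-a_i) ω^(-a_i) ω^(a_i) x_i = z_i x_i`. Let `s ∈ S`: `s ζ = ζ ω^k` for some `k`; `s₀^k ζ = ζ ω^k` (as `s₀ ω = ω`), so `t := s₀^(-k) s` fixes `ζ`: `t ∈ HN N`, `t` fixes `x^l` (both do), so `x` (`ku_fix`), and `z`.
So `t` fixes `z x` and `s = s₀^k t` fixes `z x`.
-/

set_option autoImplicit false
set_option linter.unusedSectionVars false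

namespace Pool.Agent.H72.AD

open Pool.Agent.H11.TH Pool.Agent.H11.TS

variable {Ω : Type} [Field Ω] [CharZero Ω] [IsAlgClosed Ω] [IsGalois ℚ Ω] {n : ℕ}

theorem ku_fix {N l : ℕ} (x : Tor Ω n) (hx : dgT (HN Ω N) (x ^ l) = dgT (HN Ω N) x)
    (s : Ω ≃ₐ[ℚ] Ω) (hs : s ∈ HN Ω N) (h : mv s (x ^ l) = x ^ l) : mv s x = x := by
  have h1 : ((fun y : Tor Ω n => y ^ l) '' orb (HN Ω N) x).ncard = (orb (HN Ω N) x).ncard := by
    rw [← orb_pow]
    exact hx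
  have h2 := Set.injOn_of_ncard_image_eq h1 (orb_fin _ x)
  refine h2 ⟨s, hs, rfl⟩ (mem_orb_self _ x) ?_
  change (mv s x) ^ l = x ^ l
  rw [← mv_pow]
  exact h

private lemma root_pow {l : ℕ} (hl : l.Prime) {ω : Ω} (h1 : ω ^ l = 1) (hne : ω ≠ 1) {η : Ω}
    (h2 : η ^ l = 1) : ∃ k : ℕ, ω ^ k = η := by
  have : Fact l.Prime := ⟨hl⟩
  have : NeZero l := ⟨hl.ne_zero⟩
  have h3 : orderOf ω = l := orderOf_eq_prime h1 hne
  have h4 : IsPrimitiveRoot ω l := by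
    have h5 := IsPrimitiveRoot.orderOf ω
    rwa [h3] at h5
  obtain ⟨k, -, hk⟩ := h4.eq_pow_of_pow_eq_one h2
  exact ⟨k, hk⟩

theorem ku_sq {N l : ℕ} (hN : 1 ≤ N) (hl : l.Prime) (hlN : l ^ 2 ∣ N) (x : Tor Ω n)
    (hx : dgT (HN Ω N) (x ^ l) = dgT (HN Ω N) x) :
    ∃ z : Tor Ω n, z ^ N = 1 ∧ ∀ s ∈ HN Ω (N / l), mv s (x ^ l) = x ^ l → mv s (z * x) = z * x := by
  have : NeZero N := ⟨by omega⟩
  obtain ⟨ζ, hζ⟩ := HasEnoughRootsOfUnity.exists_primitiveRoot Ω N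
  have hζ0 : ζ ≠ 0 := hζ.ne_zero (by omega)
  have hlN1 : l ∣ N := dvd_trans (dvd_pow_self l two_ne_zero) hlN
  have hlN2 : l ∣ N / l := by
    obtain ⟨c, hc⟩ := hlN
    refine ⟨c, ?_⟩
    rw [hc, pow_two, mul_assoc, Nat.mul_div_cancel_left _ hl.pos]
  have hNl : l * (N / l) = N := Nat.mul_div_cancel' hlN1
  -- the `l`-th power of `ζ` is fixed
  have hquot : ∀ s ∈ HN Ω (N / l), (s ζ / ζ) ^ l = 1 := by
    intro s hs
    have h1 : s (ζ ^ l) = ζ ^ l := by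
      refine (mem_HN s).1 hs _ ?_
      rw [← pow_mul, hNl]
      exact hζ.pow_eq_one
    rw [div_pow, ← map_pow, h1, div_self (pow_ne_zero _ hζ0)]
  by_cases hA : ∀ s ∈ HN Ω (N / l), mv s (x ^ l) = x ^ l → s ζ = ζ
  · refine ⟨1, one_pow _, fun s hs h => ?_⟩
    rw [one_mul]
    exact ku_fix x hx s (HN_of_prim hN ζ hζ s (hA s hs h)) h
  · push Not at hA
    obtain ⟨s₀, hs₀, hfix₀, hne₀⟩ := hA
    obtain ⟨ω, hω⟩ : ∃ ω : Ω, ω = s₀ ζ / ζ := ⟨_, rfl⟩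
    have hω1 : ω ^ l = 1 := by rw [hω]; exact hquot s₀ hs₀
    have hωne : ω ≠ 1 := by
      rw [hω]
      intro h
      exact hne₀ ((div_eq_one_iff_eq hζ0).1 h)
    have hs₀ζ : s₀ ζ = ζ * ω := by rw [hω]; field_simp
    have hω0 : ω ≠ 0 := by
      intro h
      rw [h, zero_pow hl.ne_zero] at hω1
      exact zero_ne_one hω1
    have hfixω : ∀ s ∈ HN Ω (N / l), s ω = ω := by
      intro s hs
      refine (mem_HN s).1 hs _ ?_
      obtain ⟨c, hc⟩ := hlN2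
      rw [hc, pow_mul, hω1, one_pow]
    -- exponents
    have hex : ∀ i, ∃ a : ℕ, ω ^ a = s₀ (x i : Ω) / (x i : Ω) := by
      intro i
      refine root_pow hl hω1 hωne ?_
      have h1 : s₀ ((x i : Ω) ^ l) = (x i : Ω) ^ l := by
        have h2 := congrArg (fun y : Tor Ω n => ((y i : Ωˣ) : Ω)) hfix₀
        simpa [mv, sgm_val] using h2
      rw [div_pow, ← map_pow, h1, div_self (pow_ne_zero _ (x i).ne_zero)]
    choose a ha using hex
    have ha' : ∀ i, s₀ (x i : Ω) = ω ^ a i * (x i : Ω) := by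
      intro i
      rw [ha i, div_mul_cancel₀ _ (x i).ne_zero]
    let ζu : Ωˣ := Units.mk0 ζ hζ0
    let z : Tor Ω n := fun i => (ζu ^ a i)⁻¹
    have hzN : z ^ N = 1 := by
      funext i
      change ((ζu ^ a i)⁻¹) ^ N = 1
      rw [inv_pow, ← pow_mul, mul_comm, pow_mul]
      have h1 : ζu ^ N = 1 := Units.ext (by simpa [ζu] using hζ.pow_eq_one)
      rw [h1, one_pow, inv_one]
    have hz0 : mv s₀ (z * x) = z * x := by
      funext i
      refine Units.ext ?_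
      change s₀ (((z i * x i : Ωˣ)) : Ω) = ((z i * x i : Ωˣ) : Ω)
      have hz : ((z i : Ωˣ) : Ω) = (ζ ^ a i)⁻¹ := by
        simp [z, ζu]
      rw [Units.val_mul, map_mul, hz, map_inv₀, map_pow, hs₀ζ, ha' i, mul_pow]
      have h3 : ω ^ a i ≠ 0 := pow_ne_zero _ hω0
      have h4 : ζ ^ a i ≠ 0 := pow_ne_zero _ hζ0
      field_simp
    refine ⟨z, hzN, fun s hs h => ?_⟩
    obtain ⟨k, hk⟩ := root_pow hl hω1 hωne (hquot s hs)
    have hsζ : s ζ = ζ * ω ^ k := by rw [hk]; field_simp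
    have hpow : ∀ k : ℕ, (s₀ ^ k) ζ = ζ * ω ^ k := by
      intro k
      induction k with
      | zero => rw [pow_zero, pow_zero, mul_one]; rfl
      | succ k ih =>
        rw [pow_succ', AlgEquiv.mul_apply, ih, map_mul, map_pow, hfixω s₀ hs₀, hs₀ζ, pow_succ']
        ring
    have hpowmv : ∀ (y : Tor Ω n), mv s₀ y = y → ∀ k : ℕ, mv (s₀ ^ k) y = y := by
      intro y hy k
      induction k with
      | zero => rw [pow_zero]; exact mv_one y
      | succ k ih => rw [pow_succ', mv_comp, ih, hy]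
    have hmem₀ : s₀ ^ k ∈ HN Ω (N / l) := pow_mem hs₀ k
    obtain ⟨t, ht⟩ : ∃ t : Ω ≃ₐ[ℚ] Ω, t = (s₀ ^ k)⁻¹ * s := ⟨_, rfl⟩
    have hst : s = s₀ ^ k * t := by rw [ht, mul_inv_cancel_left]
    have htζ : t ζ = ζ := by
      have h1 : (s₀ ^ k) (t ζ) = (s₀ ^ k) ζ := by
        rw [← AlgEquiv.mul_apply, ← hst, hsζ, hpow]
      exact (s₀ ^ k).injective h1
    have htN : t ∈ HN Ω N := HN_of_prim hN ζ hζ t htζ
    have htx : mv t (x ^ l) = x ^ l := by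
      rw [ht, mv_comp, h]
      conv_lhs => rw [← hpowmv _ hfix₀ k]
      rw [← mv_comp, inv_mul_cancel, mv_one]
    have h5 : mv t x = x := ku_fix x hx t htN htx
    have h6 : mv t z = z := tors_fix z hzN t htN
    rw [hst, mv_comp, mv_mul, h5, h6, hpowmv _ hz0 k]

end Pool.Agent.H72.AD
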