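import Pool.Agent.H72.AD.NumAd
import Pool.Agent.H72.AD.HdDg
import Pool.Agent.H72.AD.RegA
import Pool.Agent.H72.AD.FldD
import Pool.Agent.H72.AD.DesAll
import Pool.Agent.H72.AD.DesHd
import Pool.Agent.H33.PT.Gp
import Pool.Agent.H33.PT.Exq
import Pool.Agent.H33.PT.Chs

/-!
# POINTS THEOREM, chapter G: the theorem over `ℚ(μ_∞)` in dimension `n`, from the dimensions below

`pu_ab` (imports may be sorried). PROOF. `c₁ := 10 n^3 + 1`, `C := n (2 c₁ + 2 n + 5)` (`≥ 10 n^3 + 10 n`). Given `e`: `Td, T, R` from `num_ad n e c₁`, `J := 2 Td^(n+1)`, `K₀` the maximum of the constants of `num_ad`, `gp n e` (`L := Ab Ω`, `Λ := ⊥`, `K := ℚ`), `choose_primes e R`, and `1`.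
Let `Z ≥ K₀`, `γ`, `h`, `D := degP (Ab Ω) γ = dgT (HA Ω) γ ≥ 1` (`degP_dg`; `HA Ω` is `(Ab Ω).fixingSubgroup` by definition) and suppose `Z^C (D h^n) ≤ 1`; `h ≥ 0` (`n ≥ 1`). `M₁` := the largest natural number with `M₁^n Z^(c₁) ≤ D` (`0` qualifies; `Nat.findGreatest`), so `D < (M₁+1)^n Z^(c₁)`, `M₁^n ≤ D`. `N := 2 (Z^n Z^(c₁+1))^2 max 1 M₁`.
1. For every torsion point `z`, `γ' := z γ`: `IndM`, heights, `degP` are the same (`ind_tw`, `ht_tw`, `dg_mul` with `tors_fix'`), so `gp` gives `hli`: the monomials of `γ'` in the box `M₁` are independent over `Ab Ω`.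
2. Primes: `B` := the primes `l ≤ Z` (in `range (Z+1)`) with `adjoin (Ab Ω) (γ^l) ≠ adjoin (Ab Ω) γ`; `exc_deg`: `2^(card B) ≤ D ≤ Z^e`; `choose_primes`: `P`, `P.card = R`, primes, `Z ≤ l^3`, `l ≤ Z`, `l ∉ B`, so `degP (Ab Ω) (γ^l) = D`: `h1` of `desc_all`, and `J < l`, `2 < l` (`num_ad`).
3. `h2` of `desc_all`: `l ∈ P`, `l ∣ N₁`, `z` torsion, `x := z γ`, `dgT (HN N₁) x = D`. `reg_cy` (`x`, `hli` of step 1, `dgT (HA Ω) x = D ≤ (M₁+1)^n Z^(c₁)`): `dgT (HN (N₁/l)) (x^l) = hd (Cy (N₁/l)) (crd (x^l)) (bx n N) ≤ hd .. (bx n (Td N)) ≤ 2 Td^(n+1) hd (Cy N₁) (crd x) (bx n N) ≤ J dgT (HN N₁) x = J D`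
(`hd_box_mono`, `desc_hd` with `m := N`, `T := Td`, `θ := n h`, `ht x ≤ n h` (`ht_tw`), `hnum` from `num_ad`; `hd_le_dg`).
4. `desc_all`: `z, N₀, V`; `x := z γ`. `ineq_Om` for `x`, `i₀` (any index, `n ≥ 1`), `hpos` (`ind_pos`, `ind_tw`), `L := Z`, `lam := (log Z)/3` (`Z ≤ l^3`), `hram` from `desc_all`, `hreg`: `dgT (HA Ω) (x^l) = dgT (HA Ω) (γ^l) = D` (`x^l = z^l γ^l`) and `reg_ab`, `θ := n h`, `P.card = R`. It contradicts `num_ad` (second part).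
-/

set_option autoImplicit false
set_option linter.unusedSectionVars false

open NumberField

namespace Pool.Agent.H72.AD

open Pool.Agent.H11.TH Pool.Agent.H11.TS Pool.Agent.H33.PT

variable {Ω : Type} [Field Ω] [CharZero Ω] [IsAlgClosed Ω] [IsGalois ℚ Ω]

private theorem ex_M (n D w : ℕ) (hn : 1 ≤ n) (hw : 1 ≤ w) :
    ∃ M : ℕ, M ^ n * w ≤ D ∧ D < (M + 1) ^ n * w := by
  classical
  have hex : ∃ m : ℕ, D < (m + 1) ^ n * w := by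
    refine ⟨D, ?_⟩
    calc D < D + 1 := Nat.lt_succ_self _
      _ = (D + 1) ^ 1 * 1 := by ring
      _ ≤ (D + 1) ^ n * w := Nat.mul_le_mul (Nat.pow_le_pow_right (Nat.succ_pos _) hn) hw
  refine ⟨Nat.find hex, ?_, Nat.find_spec hex⟩
  rcases Nat.eq_zero_or_pos (Nat.find hex) with h | h
  · rw [h, zero_pow (by omega), zero_mul]
    exact Nat.zero_le _
  · have h1 := Nat.find_min hex (Nat.sub_lt h one_pos)
    have h2 : Nat.find hex - 1 + 1 = Nat.find hex := by omega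
    rw [h2] at h1
    omega

theorem pu_ab (n : ℕ) (hn : 1 ≤ n)
    (hlow : ∀ j : ℕ, 1 ≤ j → j < n → ∀ ε : ℝ, 0 < ε →
      ∃ c : ℝ, 0 < c ∧ PtB (Ab Ω) (⊥ : Subgroup Ωˣ) j (1 + ε) c) :
    ∃ C : ℕ, ∀ e : ℕ, ∃ K₀ : ℕ, ∀ Z : ℕ, K₀ ≤ Z → ∀ γ : Fin n → Ωˣ, IndM (⊥ : Subgroup Ωˣ) γ →
      degP (Ab Ω) γ ≤ Z ^ e → ∀ h : ℝ, (∀ i, absLogHeight₁ (γ i : Ω) ≤ h) →
      1 < (Z : ℝ) ^ C * ((degP (Ab Ω) γ : ℝ) * h ^ n) := by
  classical
  obtain ⟨c₁, hc₁⟩ : ∃ c₁ : ℕ, c₁ = 10 * n ^ 3 + 1 := ⟨_, rfl⟩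
  refine ⟨n * (2 * c₁ + 2 * n + 5), fun e => ?_⟩
  obtain ⟨Td, T, R, K₁, hTd, hT, hK₁, hnum⟩ := num_ad n e c₁ hn
  obtain ⟨K₂, hgp⟩ := gp n e hn (Ab Ω) (⊥ : Subgroup Ωˣ) hlow
  obtain ⟨K₃, hchs⟩ := choose_primes e R
  refine ⟨K₁ + K₂ + K₃, fun Z hZ γ hind hdeg h hh => ?_⟩
  by_contra hcon
  push Not at hcon
  have hZ1 : 1 ≤ Z := by omega
  have hZr : (1 : ℝ) ≤ Z := by exact_mod_cast hZ1
  obtain ⟨i₀⟩ : Nonempty (Fin n) := ⟨⟨0, hn⟩⟩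
  have hh0 : 0 ≤ h := (Pool.Agent.H72.PB.ht_nonneg (γ i₀ : Ω)).trans (hh i₀)
  obtain ⟨D, hD⟩ : ∃ D : ℕ, D = degP (Ab Ω) γ := ⟨_, rfl⟩
  rw [← hD] at hcon hdeg
  have hDA : dgT (HA Ω) γ = D := by
    rw [hD]
    exact (degP_dg (Ab Ω) γ).symm
  have hD1 : 1 ≤ D := by
    rw [← hDA]
    exact dg_pos _ _
  obtain ⟨M₁, hM1, hM2⟩ := ex_M n D (Z ^ c₁) hn (Nat.one_le_pow _ _ hZ1)
  have hMD : M₁ ^ n ≤ D := le_trans (Nat.le_mul_of_pos_right _ (Nat.pow_pos hZ1)) hM1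
  obtain ⟨N, hN⟩ : ∃ N : ℕ, N = 2 * (Z ^ n * Z ^ (c₁ + 1)) ^ 2 * max 1 M₁ := ⟨_, rfl⟩
  obtain ⟨J, hJ⟩ : ∃ J : ℕ, J = 2 * Td ^ (n + 1) := ⟨_, rfl⟩
  have hJ1 : 1 ≤ J := by
    rw [hJ]
    have := Nat.pow_pos (n := n + 1) hTd
    omega
  obtain ⟨hA, hB⟩ := hnum Z (by omega) D M₁ h hD1 hdeg hMD hh0 hcon N J hN hJ
  have hn1 : (0 : ℝ) ≤ n := Nat.cast_nonneg _
  -- step 1
  have hdz : ∀ z : Tor Ω n, IsT z → dgT (HA Ω) (z * γ) = D := fun z hz => by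
    rw [dg_mul (HA Ω) z γ (fun σ hσ => tors_fix' z hz σ hσ), hDA]
  have hsm : (Z : ℝ) ^ (10 * n ^ 3 + 10 * n) * ((D : ℝ) * h ^ n) ≤ 1 := by
    refine le_trans (mul_le_mul_of_nonneg_right (pow_le_pow_right₀ hZr ?_) (by positivity)) hcon
    rw [hc₁]
    have h1 : n ^ 3 ≤ n * n ^ 3 := Nat.le_mul_of_pos_left _ hn
    have h2 : n ≤ n * n := Nat.le_mul_of_pos_left _ hn
    have h3 : n ≤ n * n ^ 3 := by
      calc n = n * 1 := (mul_one n).symm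
        _ ≤ n * n ^ 3 := Nat.mul_le_mul_left _ (Nat.one_le_pow _ _ hn)
    have h4 : n * (2 * (10 * n ^ 3 + 1) + 2 * n + 5) = 20 * (n * n ^ 3) + 2 * (n * n) + 7 * n := by ring
    rw [h4]
    omega
  have hli : ∀ z : Tor Ω n, IsT z → LinearIndependent (Ab Ω) fun a : Fin n → Fin (M₁ + 1) =>
      mo (fun i => (((z * γ) i : Ωˣ) : Ω)) (fun i => (a i : ℕ)) := by
    intro z hz
    have e1 : degP (Ab Ω) (z * γ) = D := by
      rw [degP_dg (Ab Ω) (z * γ)]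
      exact hdz z hz
    refine hgp Z (by omega) (z * γ) (ind_tw γ z hz hind) (by rw [e1]; exact hdeg) h (fun i => ?_) ?_ M₁ ?_
    · rw [ht_tw γ z hz i]
      exact hh i
    · rw [e1]
      exact hsm
    · rw [e1, ← hc₁]
      exact hM1
  have hhtz : ∀ z : Tor Ω n, IsT z → ht (z * γ) ≤ n * h := by
    intro z hz
    unfold ht crd
    calc ∑ l, absLogHeight₁ (((z * γ) l : Ωˣ) : Ω) ≤ ∑ _l : Fin n, h := by
          refine Finset.sum_le_sum fun l _ => ?_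
          rw [ht_tw γ z hz l]
          exact hh l
      _ = n * h := by
          rw [Finset.sum_const, Finset.card_univ, Fintype.card_fin, nsmul_eq_mul]
  -- step 2
  have hpw : ∀ (x : Tor Ω n) (l : ℕ), (fun i => (((x ^ l) i : Ωˣ) : Ω)) = fun i => (x i : Ω) ^ l := by
    intro x l
    funext i
    rw [Pi.pow_apply, Units.val_pow_eq_pow_val]
  obtain ⟨B, hBd⟩ : ∃ B : Finset ℕ, B = (Finset.range (Z + 1)).filter fun l => l.Prime ∧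
      IntermediateField.adjoin (Ab Ω) (Set.range fun i => (γ i : Ω) ^ l) ≠
      IntermediateField.adjoin (Ab Ω) (Set.range fun i => (γ i : Ω)) := ⟨_, rfl⟩
  have hBm : ∀ l, l ∈ B ↔ l < Z + 1 ∧ l.Prime ∧
      IntermediateField.adjoin (Ab Ω) (Set.range fun i => (γ i : Ω) ^ l) ≠
      IntermediateField.adjoin (Ab Ω) (Set.range fun i => (γ i : Ω)) := by
    intro l
    rw [hBd, Finset.mem_filter, Finset.mem_range]
  have hB2 : 2 ^ B.card ≤ Z ^ e := by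
    refine le_trans ?_ hdeg
    rw [hD]
    exact exc_deg (Ab Ω) γ B (fun l hl => ((hBm l).1 hl).2.1) (fun l hl => ((hBm l).1 hl).2.2)
  obtain ⟨P, hPc, hP⟩ := hchs Z (by omega) B hB2
  have h1 : ∀ l ∈ P, dgT (HA Ω) (γ ^ l) = dgT (HA Ω) γ := by
    intro l hl
    obtain ⟨hp, hlB, -, hlZ⟩ := hP l hl
    have h2 : IntermediateField.adjoin (Ab Ω) (Set.range fun i => (γ i : Ω) ^ l) =
        IntermediateField.adjoin (Ab Ω) (Set.range fun i => (γ i : Ω)) := by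
      by_contra hne
      exact hlB ((hBm l).2 ⟨by omega, hp, hne⟩)
    have h3 : degP (Ab Ω) (γ ^ l) = degP (Ab Ω) γ := by
      unfold degP
      rw [hpw γ l, h2]
    have h4 := degP_dg (Ab Ω) (γ ^ l)
    have h5 := degP_dg (Ab Ω) γ
    rw [h3, h5] at h4
    exact h4.symm
  -- step 3
  have h2 : ∀ l ∈ P, ∀ N₁ : ℕ, 1 ≤ N₁ → l ∣ N₁ → ∀ z : Tor Ω n, IsT z →
      dgT (HN Ω N₁) (z * γ) = dgT (HA Ω) γ →
      dgT (HN Ω (N₁ / l)) ((z * γ) ^ l) ≤ J * dgT (HA Ω) γ := by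
    intro l hl N₁ hN₁ hlN z hz hzN
    obtain ⟨hp, hlB, hl3, hlZ⟩ := hP l hl
    obtain ⟨h2l, hJl, hln⟩ := hA l hl3 hlZ
    have e1 := reg_cy (z * γ) M₁ Z c₁ l N₁ hp hlZ hN₁ hlN (hli z hz) (by rw [hdz z hz]; exact hM2.le)
      (by rw [hdz z hz, hzN, hDA])
    rw [← hN] at e1
    have e2 := hd_box_mono (Cy Ω (N₁ / l)) ((z * γ) ^ l) (Nat.le_mul_of_pos_left N hTd)
    have e3 := desc_hd N₁ l hN₁ hp (by omega) hlN (z * γ) (n * h) (hhtz z hz) Td N hTd hln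
    have e4 := hd_le_dg (Cy Ω N₁) (z * γ) (bx n N)
    have e5 : dgT (Cy Ω N₁).fixingSubgroup (z * γ) = dgT (HA Ω) γ := hzN
    rw [← e1, hJ]
    refine e2.trans (e3.trans ?_)
    rw [e5] at e4
    exact Nat.mul_le_mul_left _ e4
  -- step 4
  obtain ⟨z, N₀, V, hz, hN₀, hV, horb, hram⟩ := desc_all γ J hJ1 P (fun l hl => by
    obtain ⟨hp, -, hl3, hlZ⟩ := hP l hl
    exact ⟨hp, (hA l hl3 hlZ).2.1⟩) h1 h2
  have hlog : 0 ≤ Real.log Z := Real.log_nonneg hZr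
  have hpos : 0 < absLogHeight₁ (((z * γ) i₀ : Ωˣ) : Ω) := by
    rw [ht_tw γ z hz i₀]
    exact ind_pos γ hind i₀
  have hfin := ineq_Om (N := N) (L := Z) (J := J) (T := T) (D := D) (z * γ) (hdz z hz) i₀ hpos N₀ hN₀ V hV horb hT P
    (fun l hl => ⟨(hP l hl).1, (hP l hl).2.2.2⟩) (Real.log Z / 3) (by positivity) (fun l hl => by
      obtain ⟨hp, -, hl3, -⟩ := hP l hl
      have h3 : (Z : ℝ) ≤ (l : ℝ) ^ 3 := by exact_mod_cast hl3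
      have h4 := Real.log_le_log (by linarith) h3
      rw [Real.log_pow] at h4
      push_cast at h4
      linarith) hram (fun l hl => by
      obtain ⟨hp, -, -, hlZ⟩ := hP l hl
      have h3 : dgT (HA Ω) ((z * γ) ^ l) = D := by
        obtain ⟨N', hN', hzN'⟩ := hz
        rw [mul_pow, dg_mul (HA Ω) (z ^ l) (γ ^ l) (fun σ hσ => tors_fix' (z ^ l)
          ⟨N', hN', by rw [← pow_mul, mul_comm, pow_mul, hzN', one_pow]⟩ σ hσ), h1 l hl, hDA]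
      refine ⟨h3, ?_⟩
      have h4 := reg_ab (z * γ) M₁ Z c₁ l hp.one_lt.le hlZ (hli z hz) (by rw [hdz z hz]; exact hM2.le)
      rw [← hN, h3] at h4
      exact h4) (n * h) (hhtz z hz)
  rw [hPc] at hfin
  exact absurd hfin (not_le.2 hB)

end Pool.Agent.H72.AD
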