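import Pool.Agent.H72.AD.Ur0

/-!
# POINTS THEOREM, chapter F: values of the elements fixed by `Ine w ⊓ V`

`ine_rel`. PROOF (import may be sorried): `I := Ine w`, `W := V.subgroupOf I` (or the quotient `I ⧸ V.subgroupOf I`, finite, of cardinality `V.relIndex I = r ≤ J`, `r ≥ 1`). `b := ∏` over the quotient of `τ a` (well defined because `a` is fixed by `I ⊓ V`: `Quotient.lift` or choose representatives `Quotient.out`). `b` is fixed by `I` (left multiplication permutes the left cosets).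
`w b = (w a)^r < 1` as `w (τ a) = w a` for `τ ∈ I` and `r ≥ 1`. `ine_fix`: `(w a)^r ≤ w l`; `(w a)^J ≤ (w a)^r` as `w a < 1`, `r ≤ J`.
-/

set_option autoImplicit false

open NumberField

namespace Pool.Agent.H72.AD

theorem ine_rel {E : Type} [Field E] [NumberField E] [IsGalois ℚ E] (w : FinitePlace E) (l : ℕ)
    (hl : l.Prime) (hw : w (l : E) < 1) (V : Subgroup (E ≃ₐ[ℚ] E)) (J : ℕ)
    (hJ : V.relIndex (Ine w) ≤ J) (a : E) (ha : ∀ τ ∈ V, τ ∈ Ine w → τ a = a) (h1 : w a < 1) :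
    w a ^ J ≤ w (l : E) := by
  classical
  have hfin : Finite (Ine w ⧸ V.subgroupOf (Ine w)) := inferInstance
  have hft : Fintype (Ine w ⧸ V.subgroupOf (Ine w)) := Fintype.ofFinite _
  have hwd : ∀ τ₁ τ₂ : Ine w, QuotientGroup.leftRel (V.subgroupOf (Ine w)) τ₁ τ₂ →
      (τ₁ : E ≃ₐ[ℚ] E) a = (τ₂ : E ≃ₐ[ℚ] E) a := by
    intro τ₁ τ₂ h
    have h2 : τ₁⁻¹ * τ₂ ∈ V.subgroupOf (Ine w) := QuotientGroup.leftRel_apply.1 h
    have h3 : ((τ₁⁻¹ * τ₂ : Ine w) : E ≃ₐ[ℚ] E) a = a :=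
      ha _ (Subgroup.mem_subgroupOf.1 h2) (τ₁⁻¹ * τ₂).2
    have h4 : (τ₂ : E ≃ₐ[ℚ] E) = (τ₁ : E ≃ₐ[ℚ] E) * ((τ₁⁻¹ * τ₂ : Ine w) : E ≃ₐ[ℚ] E) := by
      rw [← Subgroup.coe_mul, mul_inv_cancel_left]
    rw [h4, AlgEquiv.mul_apply, h3]
  let F : Ine w ⧸ V.subgroupOf (Ine w) → E :=
    Quotient.lift (fun τ : Ine w => (τ : E ≃ₐ[ℚ] E) a) hwd
  have hF : ∀ τ : Ine w, F (QuotientGroup.mk τ) = (τ : E ≃ₐ[ℚ] E) a := fun τ => rfl
  have hwF : ∀ q, w (F q) = w a := by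
    intro q
    obtain ⟨τ, rfl⟩ := QuotientGroup.mk_surjective q
    rw [hF]
    exact τ.2.1 a
  have hsF : ∀ (σ : Ine w) (q), (σ : E ≃ₐ[ℚ] E) (F q) = F (σ • q) := by
    intro σ q
    obtain ⟨τ, rfl⟩ := QuotientGroup.mk_surjective q
    rfl
  have hcard : Fintype.card (Ine w ⧸ V.subgroupOf (Ine w)) = V.relIndex (Ine w) := by
    rw [← Nat.card_eq_fintype_card]
    rfl
  have hr : 1 ≤ V.relIndex (Ine w) := by
    rw [← hcard]
    exact Fintype.card_pos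
  have hb : w (∏ q, F q) = w a ^ V.relIndex (Ine w) := by
    rw [map_prod, Finset.prod_congr rfl fun q _ => hwF q, Finset.prod_const, Finset.card_univ,
      hcard]
  have hb2 : ∀ τ ∈ Ine w, τ (∏ q, F q) = ∏ q, F q := by
    intro τ hτ
    rw [map_prod]
    exact Fintype.prod_equiv (MulAction.toPerm (⟨τ, hτ⟩ : Ine w)) _ _ fun q => hsF ⟨τ, hτ⟩ q
  have h0 : 0 ≤ w a := apply_nonneg w a
  have h2 := ine_fix w l hl hw (∏ q, F q) hb2 (by
    rw [hb]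
    exact pow_lt_one₀ h0 h1 (by omega))
  rw [hb] at h2
  exact (pow_le_pow_of_le_one h0 h1.le hJ).trans h2

end Pool.Agent.H72.AD
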