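import Pool.Agent.H72.AD.DfE
import Pool.Agent.H72.PL.FrobB

/-!
# POINTS THEOREM, chapter F: the inertia field is unramified

`ine_fix`. PROOF: `Q := w.maximalIdeal` (a prime `≠ 0` of `𝓞 E` above `l`: `w x < 1 ↔ x ∈ Q` for `x : 𝓞 E`; see `fb_int_lt` in `Pool/Agent/H72/PL/FrobB.lean`).
`Ine w` is the inertia group `Q.inertia (E ≃ₐ[ℚ] E)` of `Q`: if `τ x - x ∈ Q` for all `x : 𝓞 E` then `τ • Q = Q`, so `w ∘ τ = w` (as `fb_val`, `fb_inv` there), and for `w a ≤ 1`, `a = x / y` with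
`x, y : 𝓞 E`, `w y = 1` (`a` is in the localization at `Q`: e.g. `IsDedekindDomain.HeightOneSpectrum.valuation..`, or choose `y` by `exists_...` in the ideal `{y | y a ∈ 𝓞 E}`, which is not contained in `Q`); then `τ a - a = ((τ x - x) y - x (τ y - y)) / (y τ y)` and `w (τ y) = 1`.
Let `M := IntermediateField.fixedField (Ine w)` (a number field), `𝔮 := Q ∩ 𝓞 M` (`Ideal.under`/`comap`). By Mathlib (`Mathlib/NumberTheory/RamificationInertia/Galois.lean`, `HilbertTheory.lean`, `Inertia.lean`: `card_inertia_eq_ramificationIdxIn` or the like; `IsInertiaField.rank_right` : `[E : M] = ramificationIdxIn`)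
the ramification index `e(Q / l)` is `card (Ine w)`, and the same theorem for the Galois extension `E / M`, whose group is `Ine w` and in which the inertia group of `Q` is everything: `e(Q / 𝔮) = card (Ine w)`. So `e(𝔮 / l) = 1` (multiplicativity in towers), `𝔮` divides `l 𝓞 M` exactly once.
For `a ∈ M` with `w a < 1` write `a = x / y`, `x, y : 𝓞 M`, `y ∉ 𝔮`: then `x ∈ 𝔮`, i.e. `v_𝔮(x) ≥ 1 = v_𝔮(l)`, so `v_Q(a) ≥ v_Q(l)` (`v_Q = e(Q/𝔮) v_𝔮` on `M`): e.g. choose `z : 𝓞 M`, `z ∉ 𝔮`, with `x z ∈ l 𝓞 M` (`l 𝓞 M = 𝔮 𝔟`, `𝔟` not contained in `𝔮`, `z ∈ 𝔟`, `z ∉ 𝔮`: `x z ∈ 𝔮 𝔟`): `x z = l t`, `w x = w (x z) = w l w t ≤ w l`.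
-/

set_option autoImplicit false

open NumberField

namespace Pool.Agent.H72.AD

open IsDedekindDomain Module Pool.Agent.H72.PL

open scoped Pointwise in
private theorem uz_mem {E : Type} [Field E] [NumberField E] (w : FinitePlace E) (τ : E ≃ₐ[ℚ] E)
    (h : τ ∈ Ideal.inertia (E ≃ₐ[ℚ] E) w.maximalIdeal.asIdeal) : τ ∈ Ine w := by
  have hstab : τ • w.maximalIdeal.asIdeal = w.maximalIdeal.asIdeal :=
    MulAction.mem_stabilizer_iff.1 (Ideal.inertia_le_stabilizer _ h)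
  have hinv : ∀ z : E, w (τ z) = w z := fb_inv w τ (fb_val w.maximalIdeal τ hstab)
  have hF1 : ∀ x : 𝓞 E, w (τ (x : E) - (x : E)) < 1 := by
    intro x
    have h2 : w (((τ • x - x : 𝓞 E)) : E) < 1 := by
      rw [fb_int_lt]
      exact h x
    exact h2
  refine ⟨hinv, fun z hz => ?_⟩
  obtain ⟨n, d, hnd⟩ := w.maximalIdeal.exists_primeCompl_mul_eq_of_integer z (fb_le_one w z hz)
  have hd : w (((d : 𝓞 E)) : E) = 1 := (fb_int_eq w _).2 d.2
  have hn : w ((n : 𝓞 E) : E) ≤ 1 := by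
    rw [RingOfIntegers.coe_eq_algebraMap, ← hnd, map_mul]
    rw [RingOfIntegers.coe_eq_algebraMap] at hd
    rw [hd, mul_one]
    exact hz
  have hn1 := hF1 n
  have hd1 := hF1 (d : 𝓞 E)
  obtain ⟨D, hD⟩ : ∃ D : E, D = ((d : 𝓞 E) : E) := ⟨_, rfl⟩
  obtain ⟨n', hn'⟩ : ∃ n' : E, n' = ((n : 𝓞 E) : E) := ⟨_, rfl⟩
  rw [← hD] at hd hd1
  rw [← hn'] at hn hn1
  have hzd : z * D = n' := by
    rw [hD, hn', RingOfIntegers.coe_eq_algebraMap, RingOfIntegers.coe_eq_algebraMap]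
    exact hnd
  have e : (τ z - z) * (τ D * D) = (τ n' - n') * D + (-(n' * (τ D - D))) := by
    rw [← hzd, map_mul]
    ring
  have h1 : w ((τ z - z) * (τ D * D)) = w (τ z - z) := by
    rw [map_mul, map_mul, hinv, hd, mul_one, mul_one]
  rw [← h1, e]
  refine lt_of_le_of_lt (FinitePlace.add_le w _ _) (max_lt ?_ ?_)
  · rw [map_mul, hd, mul_one]
    exact hn1
  · rw [map_neg_eq_map, map_mul]
    calc w n' * w (τ D - D) ≤ 1 * w (τ D - D) :=
          mul_le_mul_of_nonneg_right hn (apply_nonneg w _)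
      _ < 1 := by rw [one_mul]; exact hd1

private theorem uz_le (x : WithZero (Multiplicative ℤ)) (h : x < 1) : x ≤ WithZero.exp (-1 : ℤ) := by
  rcases eq_or_ne x 0 with rfl | hx
  · exact zero_le
  · rw [← WithZero.exp_log hx, WithZero.exp_le_exp]
    rw [← WithZero.exp_log hx, ← WithZero.exp_zero, WithZero.exp_lt_exp] at h
    omega

private theorem uz_lt_iff {E : Type} [Field E] [NumberField E] (w : FinitePlace E) (z : E) :
    w z < 1 ↔ w.maximalIdeal.valuation E z < 1 := by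
  rw [fb_apply]
  have h : (WithZeroMulInt.toNNReal (HeightOneSpectrum.absNorm_ne_zero w.maximalIdeal)
      (1 : WithZero (Multiplicative ℤ)) : ℝ) = 1 := by
    rw [map_one, NNReal.coe_one]
  rw [← h, NNReal.coe_lt_coe]
  exact (WithZeroMulInt.toNNReal_strictMono
    (HeightOneSpectrum.one_lt_absNorm_nnreal w.maximalIdeal)).lt_iff_lt

private theorem uz_mono {E : Type} [Field E] [NumberField E] (w : FinitePlace E) (y z : E)
    (h : w.maximalIdeal.valuation E y ≤ w.maximalIdeal.valuation E z) : w y ≤ w z := by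
  rw [fb_apply, fb_apply, NNReal.coe_le_coe]
  exact (WithZeroMulInt.toNNReal_strictMono
    (HeightOneSpectrum.one_lt_absNorm_nnreal w.maximalIdeal)).monotone h

theorem ine_fix {E : Type} [Field E] [NumberField E] [IsGalois ℚ E] (w : FinitePlace E) (l : ℕ)
    (hl : l.Prime) (hw : w (l : E) < 1) (a : E) (ha : ∀ τ ∈ Ine w, τ a = a) (h1 : w a < 1) :
    w a ≤ w (l : E) := by
  classical
  obtain ⟨Q, hQ⟩ : ∃ Q : Ideal (𝓞 E), Q = w.maximalIdeal.asIdeal := ⟨_, rfl⟩
  have hQp : Q.IsPrime := by rw [hQ]; exact w.maximalIdeal.isPrime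
  have hQ0 : Q ≠ ⊥ := by rw [hQ]; exact w.maximalIdeal.ne_bot
  let I : Subgroup (E ≃ₐ[ℚ] E) := Ideal.inertia (E ≃ₐ[ℚ] E) Q
  let M : IntermediateField ℚ E := FixedPoints.intermediateField I
  have haM : a ∈ M := by
    intro τ
    exact ha τ.1 (uz_mem w τ.1 (by rw [← hQ]; exact τ.2))
  -- the two ramification indices
  have hMnf : NumberField M := inferInstance
  obtain ⟨q, hq⟩ : ∃ q : Ideal (𝓞 M), q = Q.under (𝓞 M) := ⟨_, rfl⟩
  have hqp : q.IsPrime := by rw [hq]; infer_instance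
  have hlies : Q.LiesOver q := ⟨hq⟩
  have hq0 : q ≠ ⊥ := by
    rw [hq]
    exact Ideal.IsIntegral.comap_ne_bot _ hQ0
  have hQm : Q.IsMaximal := hQp.isMaximal hQ0
  obtain ⟨p, hp⟩ : ∃ p : Ideal ℤ, p = Q.under ℤ := ⟨_, rfl⟩
  have hpp : p.IsPrime := by rw [hp]; infer_instance
  have hliesp : Q.LiesOver p := ⟨hp⟩
  have hp0 : p ≠ ⊥ := by
    rw [hp]
    exact Ideal.IsIntegral.comap_ne_bot _ hQ0
  have hGal : IsGaloisGroup (E ≃ₐ[ℚ] E) ℤ (𝓞 E) := inferInstance
  have e1 : Nat.card I = Q.ramificationIdx ℤ := by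
    rw [← Ideal.ramificationIdxIn_eq_ramificationIdx p Q (E ≃ₐ[ℚ] E),
      ← Ideal.card_inertia_eq_ramificationIdxIn (G := E ≃ₐ[ℚ] E) p Q]
  have hGalI0 : IsGaloisGroup I M E := inferInstance
  have hGalI : IsGaloisGroup I (𝓞 M) (𝓞 E) := IsGaloisGroup.of_isFractionRing I (𝓞 M) (𝓞 E) M E
  have e2 : Nat.card I = Q.ramificationIdx (𝓞 M) := by
    rw [← Ideal.ramificationIdxIn_eq_ramificationIdx q Q I,
      ← Ideal.card_inertia_eq_ramificationIdxIn (G := I) q Q]
    have h1 : Ideal.inertia I Q = ⊤ := by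
      rw [eq_top_iff]
      intro τ _
      exact τ.2
    rw [h1, Subgroup.card_top]
  let vp : HeightOneSpectrum ℤ := ⟨p, hpp, hp0⟩
  let vq : HeightOneSpectrum (𝓞 M) := ⟨q, hqp, hq0⟩
  have hQw : w.maximalIdeal.asIdeal.LiesOver vp.asIdeal := by rw [← hQ]; exact hliesp
  have hQq : w.maximalIdeal.asIdeal.LiesOver vq.asIdeal := by rw [← hQ]; exact hlies
  have hlQ : (l : 𝓞 E) ∈ Q := by
    rw [hQ, ← fb_int_lt]
    have e : (((l : 𝓞 E)) : E) = (l : E) := by
      rw [RingOfIntegers.coe_eq_algebraMap, map_natCast]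
    rw [e]
    exact hw
  have hpl : p = Ideal.span {(l : ℤ)} := by
    have h1 : (Ideal.span {(l : ℤ)}).IsMaximal :=
      PrincipalIdealRing.isMaximal_of_irreducible (Nat.prime_iff_prime_int.1 hl).irreducible
    refine (h1.eq_of_le hpp.ne_top ?_).symm
    rw [Ideal.span_singleton_le_iff_mem, hp, Ideal.under_def, Ideal.mem_comap, map_natCast]
    exact hlQ
  have hl1 : (WithZero.exp (-1 : ℤ)) ^ (Q.ramificationIdx ℤ) =
      w.maximalIdeal.valuation E (l : E) := by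
    have h2 := HeightOneSpectrum.intValuation_liesOver vp w.maximalIdeal (l : ℤ)
    have h3 : vp.intValuation (l : ℤ) = WithZero.exp (-1 : ℤ) :=
      HeightOneSpectrum.intValuation_singleton vp (by exact_mod_cast hl.ne_zero) hpl
    have h4 : vp.asIdeal.ramificationIdx' w.maximalIdeal.asIdeal = Q.ramificationIdx ℤ := by
      rw [← hQ]
      exact Ideal.ramificationIdx'_eq_ramificationIdx p Q hp0
    have h5 : algebraMap (𝓞 E) E (algebraMap ℤ (𝓞 E) (l : ℤ)) = (l : E) := by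
      rw [map_natCast (algebraMap ℤ (𝓞 E)), map_natCast (algebraMap (𝓞 E) E)]
    rw [h3, h4] at h2
    rw [h2, ← HeightOneSpectrum.valuation_of_algebraMap (K := E), ← h5]
  have ha1 : w.maximalIdeal.valuation E a ≤ (WithZero.exp (-1 : ℤ)) ^ (Q.ramificationIdx (𝓞 M)) := by
    have h2 := HeightOneSpectrum.valuation_liesOver E vq w.maximalIdeal (⟨a, haM⟩ : M)
    have h4 : vq.asIdeal.ramificationIdx' w.maximalIdeal.asIdeal = Q.ramificationIdx (𝓞 M) := by
      rw [← hQ]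
      exact Ideal.ramificationIdx'_eq_ramificationIdx q Q hq0
    have h5 : algebraMap M E (⟨a, haM⟩ : M) = a := rfl
    rw [h4, h5] at h2
    have h6 : w.maximalIdeal.valuation E a < 1 := (uz_lt_iff w a).1 h1
    rw [← h2] at h6 ⊢
    refine pow_le_pow_left' (uz_le _ ?_) _
    by_contra h7
    exact absurd h6 (not_lt.2 (one_le_pow_of_one_le' (not_lt.1 h7) _))
  refine uz_mono w a _ ?_
  rw [← hl1, ← e1, e2]
  exact ha1

end Pool.Agent.H72.AD
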